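import Pool.Agent.Helper92.OS.Core

/-!
# Arithmetic of the core gadget (module `Arith` of the open shop project)
-/

namespace Pool.Agent.Helper92.OS

namespace Par

theorem s_lt (p : Par) (u : Fin p.G) : p.s u < p.T :=
  Nat.mod_lt _ (p.c u).pos

theorem kap_le (p : Par) (u : Fin p.G) (τ : Fin p.T) : p.kap u τ ≤ 4 * p.T * p.T := by
  unfold kap
  split_ifs with h
  · refine (Nat.sub_le _ _).trans (Nat.mul_le_mul_left _ ?_)
    exact (p.c' u).isLt
  · exact Nat.mul_le_mul_left _ τ.isLt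

/-- `c u + s u = c' u` modulo `T` -/
theorem rot_s (p : Par) (u : Fin p.G) : rot (p.c u) (p.s u) = p.c' u := by
  apply Fin.ext
  have hc := (p.c u).isLt
  have hc' := (p.c' u).isLt
  simp only [rot, s, Nat.add_mod_mod]
  have : (p.c u : ℕ) + ((p.c' u : ℕ) + p.T - p.c u) = (p.c' u : ℕ) + p.T := by omega
  rw [this, Nat.add_mod_right, Nat.mod_eq_of_lt hc']

theorem arith_del_le (p : Par) (hp : p.Good) (u : Fin p.G) (τ : Fin p.T) :
    p.del u τ + 1 ≤ p.h ∧ p.del u τ < p.m := by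
  have h1 := hp.hd u
  have h2 := hp.hdh u
  unfold del
  split_ifs
  · exact ⟨h2, h1⟩
  · omega

theorem arith_e_le (p : Par) (hp : p.Good) (u : Fin p.G) (n : ℕ) (hn : (u : ℕ) + 1 ≤ n)
    (τ : Fin p.T) :
    p.e u τ + p.L * (p.T - 1) + p.L + p.M1 ≤ n * (p.L * p.mu + p.h) + 3 := by
  have h1 := p.kap_le u τ
  have h2 := (p.arith_del_le hp u τ).1
  have hT : 1 ≤ p.T := τ.pos
  obtain ⟨t, ht⟩ : ∃ t, p.T = t + 1 := ⟨p.T - 1, by omega⟩
  have h3 : ((u : ℕ) + 1) * (p.L * p.mu + p.h) ≤ n * (p.L * p.mu + p.h) :=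
    Nat.mul_le_mul_right _ hn
  refine le_trans ?_ (Nat.add_le_add_right h3 3)
  have h4 : p.L * p.kap u τ ≤ p.L * (4 * p.T * p.T) := Nat.mul_le_mul_left _ h1
  have h5 : p.L * p.mu = p.L * (4 * p.T * p.T) + p.L * (p.T - 1) + p.L + p.L * p.nu := by
    unfold mu
    rw [ht]
    simp only [Nat.add_sub_cancel]
    ring
  unfold e M1
  rw [Nat.add_mul, Nat.one_mul, h5]
  generalize p.L * (p.T - 1) = A at *
  generalize p.L * p.kap u τ = B at *
  generalize p.L * (4 * p.T * p.T) = B' at *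
  generalize p.L * p.nu = N at *
  generalize (u : ℕ) * (B' + A + p.L + N + p.h) = U at *
  omega

theorem e_mono (p : Par) (hp : p.Good) (u u' : Fin p.G) (h : u < u') (τ : Fin p.T) :
    p.e u τ + p.L * (p.T - 1) + p.M1 ≤ p.e u' τ := by
  have h1 := p.arith_e_le hp u u' h τ
  have h2 : (u' : ℕ) * (p.L * p.mu + p.h) + 3 ≤ p.e u' τ := by
    unfold e
    omega
  omega

theorem e_step (p : Par) (hp : p.Good) (u u' : Fin p.G) (h : (u : ℕ) + 1 = u') (τ : Fin p.T) :
    p.e u τ + p.L * (p.T - 1) + p.M1 ≤ p.e u' τ :=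
  p.e_mono hp u u' (by rw [Fin.lt_def]; omega) τ

theorem e_last (p : Par) (hp : p.Good) (u : Fin p.G) (h : (u : ℕ) + 1 = p.G) (τ : Fin p.T) :
    p.e u τ + p.L * (p.T - 1) + p.L + p.M1 ≤ p.D :=
  p.arith_e_le hp u p.G h.le τ

theorem e_le_D (p : Par) (hp : p.Good) (u : Fin p.G) (τ : Fin p.T) :
    p.e u τ + p.L * (p.T - 1) + p.L + p.M1 ≤ p.D :=
  p.arith_e_le hp u p.G u.isLt τ

theorem C_le (p : Par) (hp : p.Good) : p.C ≤ (p.G + 1) * p.M1 := by
  have hG := hp.hG
  have hh := hp.hh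
  have hL : p.L = 2 * p.m + 1 := rfl
  have h1 : p.L * p.nu = p.G * (p.L * (4 * p.T ^ 2 + p.T)) + p.G * p.L + 2 * p.L := by
    unfold nu
    ring
  have h2 : p.G * (p.L * p.mu + p.h) =
      p.G * (p.L * (4 * p.T ^ 2 + p.T)) + p.G * (p.L * p.nu) + p.G * p.h := by
    unfold mu
    ring
  have h3 : p.G * p.h ≤ p.G * p.L := Nat.mul_le_mul_left _ (by omega)
  have h4 : (p.G + 1) * p.M1 = p.G * (p.L * p.nu) + p.L * p.nu + p.G + 1 := by
    unfold M1
    ring
  have h5 : p.C = p.G * (p.L * p.mu + p.h) + 3 + p.m := rfl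
  rw [h4, h5, h2]
  generalize p.G * (p.L * (4 * p.T ^ 2 + p.T)) = A at *
  generalize p.G * (p.L * p.nu) = B at *
  omega

theorem m_lt_M1 (p : Par) (hp : p.Good) : p.m + p.L < p.M1 := by
  have _ := hp.hG
  have h1 : p.L * 2 ≤ p.L * p.nu := Nat.mul_le_mul_left _ (by unfold nu; omega)
  have hL : p.L = 2 * p.m + 1 := rfl
  unfold M1
  omega

theorem arith_div (L a a' b b' : ℕ) (ha : a < L) (ha' : a' < L)
    (h : a + L * b = a' + L * b') : a = a' ∧ b = b' := by
  have h1 : (a + L * b) / L = b := by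
    rw [Nat.add_mul_div_left _ _ (by omega), Nat.div_eq_of_lt ha, Nat.zero_add]
  have h2 : (a' + L * b') / L = b' := by
    rw [Nat.add_mul_div_left _ _ (by omega), Nat.div_eq_of_lt ha', Nat.zero_add]
  have h3 : b = b' := by rw [← h1, ← h2, h]
  subst h3
  exact ⟨by omega, rfl⟩

theorem arith_half (T c c' s k k' : ℕ) (hs : s < T) (hk : k < T) (hk' : k' < T)
    (h : 4 * T * (c' + 1) - s + k = 4 * T * (c + 1) + k') : c' = c := by
  rcases lt_trichotomy c' c with h1 | h1 | h1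
  · exfalso
    obtain ⟨n, rfl⟩ : ∃ n, c = c' + 1 + n := ⟨c - (c' + 1), by omega⟩
    have h2 : 4 * T * (c' + 1 + n + 1) = 4 * T * (c' + 1) + 4 * T * n + 4 * T := by ring
    rw [h2] at h
    generalize 4 * T * (c' + 1) = A at *
    generalize 4 * T * n = B at *
    omega
  · exact h1
  · exfalso
    obtain ⟨n, rfl⟩ : ∃ n, c' = c + 1 + n := ⟨c' - (c + 1), by omega⟩
    have h2 : 4 * T * (c + 1 + n + 1) = 4 * T * (c + 1) + 4 * T * n + 4 * T := by ring
    rw [h2] at h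
    generalize 4 * T * (c + 1) = A at *
    generalize 4 * T * n = B at *
    omega

/-- the only collisions are the intended ones -/
theorem conflict (p : Par) (hp : p.Good) (u : Fin p.G) (x x' : ℕ) (hx : x < p.m) (hx' : x' < p.m)
    (τ τ' : Fin p.T) (k k' : ℕ) (hk : k < p.T) (hk' : k' < p.T) (hr : rot τ k = rot τ' k')
    (he : x + p.e u τ + p.L * k = x' + p.e u τ' + p.L * k') :
    (τ = τ' ∧ x = x') ∨ (p.c u ≠ p.c' u ∧ τ = p.c u ∧ τ' = p.c' u ∧ x' = x + p.d u) ∨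
      (p.c u ≠ p.c' u ∧ τ' = p.c u ∧ τ = p.c' u ∧ x = x' + p.d u) := by
  have hd := (p.arith_del_le hp u τ).2
  have hd' := (p.arith_del_le hp u τ').2
  have hL : p.L = 2 * p.m + 1 := rfl
  have h0 : (x + p.del u τ) + p.L * (p.kap u τ + k) =
      (x' + p.del u τ') + p.L * (p.kap u τ' + k') := by
    unfold e at he
    rw [Nat.mul_add, Nat.mul_add]
    omega
  obtain ⟨h1, h2⟩ := arith_div p.L _ _ _ _ (by omega) (by omega) h0
  have hs := p.s_lt u
  by_cases hττ : τ = τ'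
  · subst hττ
    exact Or.inl ⟨rfl, by omega⟩
  by_cases hc : τ = p.c u
  · have hc' : τ' ≠ p.c u := fun h => hττ (hc.trans h.symm)
    have e1 : p.kap u τ = 4 * p.T * (p.c' u + 1) - p.s u := by rw [kap, if_pos hc]
    have e2 : p.kap u τ' = 4 * p.T * (τ' + 1) := by rw [kap, if_neg hc']
    have e3 : p.del u τ = p.d u := by rw [del, if_pos hc]
    have e4 : p.del u τ' = 0 := by rw [del, if_neg hc']
    rw [e1, e2] at h2
    rw [e3, e4] at h1
    have h3 : p.c' u = τ' := Fin.ext (arith_half _ _ _ _ _ _ hs hk hk' h2)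
    refine Or.inr (Or.inl ⟨?_, hc, h3.symm, by omega⟩)
    rw [h3]
    exact hc'.symm
  · by_cases hc' : τ' = p.c u
    · have e1 : p.kap u τ' = 4 * p.T * (p.c' u + 1) - p.s u := by rw [kap, if_pos hc']
      have e2 : p.kap u τ = 4 * p.T * (τ + 1) := by rw [kap, if_neg hc]
      have e3 : p.del u τ' = p.d u := by rw [del, if_pos hc']
      have e4 : p.del u τ = 0 := by rw [del, if_neg hc]
      rw [e1, e2] at h2
      rw [e3, e4] at h1
      have h3 : p.c' u = τ := Fin.ext (arith_half _ _ _ _ _ _ hs hk' hk h2.symm)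
      refine Or.inr (Or.inr ⟨?_, hc', h3.symm, by omega⟩)
      rw [h3]
      exact fun h => hc h.symm
    · exfalso
      have e1 : p.kap u τ = 4 * p.T * (τ + 1) := by rw [kap, if_neg hc]
      have e2 : p.kap u τ' = 4 * p.T * (τ' + 1) := by rw [kap, if_neg hc']
      rw [e1, e2] at h2
      have h3 : (τ : ℕ) = τ' := arith_half p.T τ' τ 0 k k' (by omega) hk hk' (by simpa using h2)
      exact hττ (Fin.ext h3)

/-- the intended collisions -/
theorem collide (p : Par) (hp : p.Good) (u : Fin p.G) (hu : p.c u ≠ p.c' u) (x : ℕ) :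
    x + p.e u (p.c u) + p.L * p.s u = (x + p.d u) + p.e u (p.c' u) + p.L * 0 := by
  have _ := hp.hG
  have hs := p.s_lt u
  have e1 : p.kap u (p.c u) = 4 * p.T * (p.c' u + 1) - p.s u := by rw [kap, if_pos rfl]
  have e2 : p.kap u (p.c' u) = 4 * p.T * (p.c' u + 1) := by rw [kap, if_neg hu.symm]
  have e3 : p.del u (p.c u) = p.d u := by rw [del, if_pos rfl]
  have e4 : p.del u (p.c' u) = 0 := by rw [del, if_neg hu.symm]
  have h1 : p.s u ≤ 4 * p.T * (p.c' u + 1) := by nlinarith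
  have h2 : p.L * (4 * p.T * (p.c' u + 1) - p.s u) + p.L * p.s u =
      p.L * (4 * p.T * (p.c' u + 1)) := by
    rw [← Nat.mul_add, Nat.sub_add_cancel h1]
  unfold e
  rw [e1, e2, e3, e4]
  omega

end Par

end Pool.Agent.Helper92.OS
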