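import Pool.Agent.Helper92.OS.Prog

/-!
# Digit lists
-/

namespace Pool.Agent.Helper92.OS

/-- addition of digit lists -/
def addB : Bool → List Bool → List Bool → List Bool
  | false, [], [] => []
  | true, [], [] => [true]
  | c, a :: as, [] => (a ^^ c) :: addB (a && c) as []
  | c, [], b :: bs => (b ^^ c) :: addB (b && c) [] bs
  | c, a :: as, b :: bs => (a ^^ (b ^^ c)) :: addB ((a && b) || (a && c) || (b && c)) as bs
termination_by _ as bs => as.length + bs.length

theorem bits_bit (b : Bool) (n : ℕ) (h : Nat.bit b n ≠ 0) :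
    Nat.bits (Nat.bit b n) = b :: Nat.bits n := by
  refine Nat.bits_append_bit n b fun hn => ?_
  subst hn
  cases b
  · simp at h
  · rfl

theorem bits_cases (n : ℕ) : Nat.bits n = [] ∧ n = 0 ∨
    ∃ (b : Bool) (m : ℕ), n = Nat.bit b m ∧ Nat.bit b m ≠ 0 ∧ Nat.bits n = b :: Nat.bits m := by
  rcases Nat.eq_zero_or_pos n with rfl | hn
  · exact Or.inl ⟨Nat.zero_bits, rfl⟩
  · right
    have e : Nat.bit n.bodd n.div2 = n := Nat.bit_bodd_div2 n
    have h : Nat.bit n.bodd n.div2 ≠ 0 := by omega
    refine ⟨n.bodd, n.div2, e.symm, h, ?_⟩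
    rw [← bits_bit _ _ h, e]

theorem bits_bit_val (b : Bool) (n : ℕ) : Nat.bit b n = 2 * n + b.toNat := by
  cases b <;> simp [Nat.bit]

theorem addB_bits (c : Bool) (a b : ℕ) :
    addB c (Nat.bits a) (Nat.bits b) = Nat.bits (a + b + c.toNat) := by
  induction hn : a + b using Nat.strong_induction_on generalizing a b c with
  | _ n ih =>
    subst hn
    rcases bits_cases a with ⟨ha, rfl⟩ | ⟨x, a', rfl, ha, ha'⟩ <;>
      rcases bits_cases b with ⟨hb, rfl⟩ | ⟨y, b', rfl, hb, hb'⟩
    · cases c
      · simp [addB]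
      · simp [addB]
    · rw [ha, hb', addB]
      have h1 := ih (0 + b') (by rw [bits_bit_val] at hb ⊢; cases y <;> simp at hb ⊢ <;> omega)
        (y && c) 0 b' rfl
      rw [Nat.zero_bits] at h1
      rw [h1]
      have h2 : 0 + Nat.bit y b' + c.toNat = Nat.bit (y ^^ c) (0 + b' + (y && c).toNat) := by
        simp only [bits_bit_val]
        cases y <;> cases c <;> simp <;> omega
      rw [h2, bits_bit _ _ (by rw [← h2]; omega)]
    · rw [hb, ha', addB]
      have h1 := ih (a' + 0) (by rw [bits_bit_val] at ha ⊢; cases x <;> simp at ha ⊢ <;> omega)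
        (x && c) a' 0 rfl
      rw [Nat.zero_bits] at h1
      rw [h1]
      have h2 : Nat.bit x a' + 0 + c.toNat = Nat.bit (x ^^ c) (a' + 0 + (x && c).toNat) := by
        simp only [bits_bit_val]
        cases x <;> cases c <;> simp <;> omega
      rw [h2, bits_bit _ _ (by rw [← h2]; omega)]
    · rw [ha', hb', addB]
      have h1 := ih (a' + b') (by
        rw [bits_bit_val] at ha hb
        rw [bits_bit_val, bits_bit_val]
        cases x <;> cases y <;> simp at ha hb ⊢ <;> omega)
        ((x && y) || (x && c) || (y && c)) a' b' rfl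
      rw [h1]
      have h2 : Nat.bit x a' + Nat.bit y b' + c.toNat =
          Nat.bit (x ^^ (y ^^ c)) (a' + b' + ((x && y) || (x && c) || (y && c)).toNat) := by
        simp only [bits_bit_val]
        cases x <;> cases y <;> cases c <;> simp <;> omega
      rw [h2, bits_bit _ _ (by rw [← h2]; omega)]

/-- comparison of digit lists -/
def cmpB : Bool → List Bool → List Bool → Bool
  | g, [], [] => g
  | _, _ :: _, [] => true
  | _, [], _ :: _ => false
  | g, a :: as, b :: bs => cmpB (if a = b then g else a) as bs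

theorem cmpB_bits (g : Bool) (a b : ℕ) :
    cmpB g (Nat.bits a) (Nat.bits b) = if a = b then g else decide (b < a) := by
  induction hn : a + b using Nat.strong_induction_on generalizing a b g with
  | _ n ih =>
    subst hn
    rcases bits_cases a with ⟨ha, rfl⟩ | ⟨x, a', rfl, ha, ha'⟩ <;>
      rcases bits_cases b with ⟨hb, rfl⟩ | ⟨y, b', rfl, hb, hb'⟩
    · simp [cmpB]
    · rw [ha, hb', cmpB, if_neg hb.symm]
      simp
    · rw [hb, ha', cmpB, if_neg ha]
      simp only [true_eq_decide_iff]
      omega
    · rw [ha', hb', cmpB, ih (a' + b') (by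
        rw [bits_bit_val] at ha hb
        rw [bits_bit_val, bits_bit_val]
        cases x <;> cases y <;> simp at ha hb ⊢ <;> omega) _ a' b' rfl]
      simp only [bits_bit_val]
      by_cases hab : a' = b'
      · subst hab
        cases x <;> cases y <;> simp
      · rw [if_neg hab, if_neg (by cases x <;> cases y <;> simp <;> omega)]
        rw [decide_eq_decide]
        cases x <;> cases y <;> simp <;> omega

theorem bits_padS_cons (k : ℕ) (b : Bool) (x : ℕ) :
    padS (k + 1) (Nat.bit b x) = bitSym b :: padS k x := by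
  by_cases h : Nat.bit b x = 0
  · have h1 : x = 0 ∧ b = false := by
      rw [bits_bit_val] at h
      cases b <;> simp at h ⊢
      exact h
    obtain ⟨rfl, rfl⟩ := h1
    simp [padS, bitsS, bitSym, List.replicate_succ]
  · unfold padS bitsS
    rw [bits_bit _ _ h, Nat.size_bit h]
    simp

/-- splitting the digits of a number -/
theorem bitsS_split (k x y : ℕ) (hx : x < 2 ^ k) (hy : 0 < y) :
    bitsS (x + 2 ^ k * y) = padS k x ++ bitsS y := by
  induction k generalizing x with
  | zero =>
    have : x = 0 := by simpa using hx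
    subst this
    simp [padS, bitsS]
  | succ k ih =>
    obtain ⟨b, x', rfl⟩ : ∃ (b : Bool) (x' : ℕ), x = Nat.bit b x' :=
      ⟨x.bodd, x.div2, (Nat.bit_bodd_div2 x).symm⟩
    have h1 : x' < 2 ^ k := by
      rw [bits_bit_val, pow_succ] at hx
      omega
    have h2 : Nat.bit b x' + 2 ^ (k + 1) * y = Nat.bit b (x' + 2 ^ k * y) := by
      rw [bits_bit_val, bits_bit_val, pow_succ]
      ring
    have h3 : 0 < 2 ^ k * y := by positivity
    rw [h2, bits_padS_cons, List.cons_append, ← ih x' h1]
    unfold bitsS
    rw [bits_bit _ _ (by rw [bits_bit_val]; omega)]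
    rfl

theorem length_bitsS (n : ℕ) : (bitsS n).length = n.size := by
  unfold bitsS
  rw [List.length_map, Nat.size_eq_bits_len]

theorem length_padS (k n : ℕ) (h : n < 2 ^ k) : (padS k n).length = k := by
  have := Nat.size_le.2 h
  unfold padS
  rw [List.length_append, length_bitsS, List.length_replicate]
  omega

/-- numbers with prescribed low digits -/
theorem exists_bits (l : List Bool) (w₀ : ℕ) : ∃ w ≥ w₀, ∃ l', Nat.bits w = l ++ l' := by
  induction l generalizing w₀ with
  | nil => exact ⟨w₀, le_rfl, Nat.bits w₀, rfl⟩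
  | cons b l ih =>
    obtain ⟨w, hw, l', h⟩ := ih (w₀ + 1)
    refine ⟨Nat.bit b w, by rw [bits_bit_val]; omega, l', ?_⟩
    rw [bits_bit _ _ (by rw [bits_bit_val]; omega), h]
    rfl

end Pool.Agent.Helper92.OS
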