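import Pool.Agent.Helper92.OS.Timeline

/-!
# From colorings to core schedules
-/

namespace Pool.Agent.Helper92.OS

theorem build_rot {T : ℕ} (τ j : Fin T) : rot τ (((j : ℕ) + T - τ) % T) = j := by
  unfold rot
  ext
  show ((τ : ℕ) + ((j : ℕ) + T - τ) % T) % T = j
  rw [Nat.add_mod_mod]
  have h : (τ : ℕ) + ((j : ℕ) + T - τ) = j + T := by have := τ.2; omega
  rw [h, Nat.add_mod_right, Nat.mod_eq_of_lt j.2]

namespace Par

theorem bwd (p : Par) (hp : p.Good) (τ : ℕ → Fin p.T) (hτ : p.Coloring τ) :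
    ∃ t, p.Core t := by
  have u0 : Fin p.G := ⟨0, hp.hG⟩
  have hD : p.D ≥ p.m + p.L + p.L := by
    have h1 := p.e_le_D hp u0 p.al
    have h2 := p.m_lt_M1 hp
    omega
  have hL : p.L = 2 * p.m + 1 := rfl
  have h0 : ∀ i : Fin p.m, (i : ℕ) = 0 → τ i = p.al := fun i hi => by rw [hi]; exact hτ.first
  have h1 : ∀ i : Fin p.m, (i : ℕ) = p.m - 1 → τ i = p.be := fun i hi => by
    rw [hi]; exact hτ.last
  refine ⟨fun i => p.tl i (τ i), ⟨fun i => p.tl_inj hp i (τ i) (h0 i), ?_,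
    fun i a b h => p.tl_setup hp i (τ i) (h0 i) a b h,
    fun i a => p.tl_bound hp i i.2 (τ i) (h0 i) (h1 i) a⟩⟩
  intro a i i' h
  have hi := i.2
  have hi' := i'.2
  ext
  cases a with
  | S => exact h
  | Z =>
    simp only [tl] at h
    omega
  | P =>
    simp only [tl] at h
    have a1 : τ i ≠ p.al → (i : ℕ) ≠ 0 := fun h2 h3 => h2 (h0 i h3)
    have a2 : τ i' ≠ p.al → (i' : ℕ) ≠ 0 := fun h2 h3 => h2 (h0 i' h3)
    by_cases c1 : τ i = p.al <;> by_cases c2 : τ i' = p.al <;>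
      simp only [c1, c2, if_true, if_false] at h
    · omega
    · omega
    · omega
    · have := a1 c1
      have := a2 c2
      omega
  | Q =>
    simp only [tl] at h
    by_cases c1 : τ i = p.be <;> by_cases c2 : τ i' = p.be <;>
      simp only [c1, c2, if_true, if_false] at h <;> omega
  | V u j =>
    simp only [tl] at h
    have hT : 0 < p.T := (τ i).pos
    rcases p.conflict hp u i i' hi hi' (τ i) (τ i') _ _ (Nat.mod_lt _ hT) (Nat.mod_lt _ hT)
      ((build_rot (τ i) j).trans (build_rot (τ i') j).symm) h with h2 | h2 | h2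
    · exact h2.2
    · obtain ⟨hc, e1, e2, e3⟩ := h2
      exact absurd ⟨e1, by rw [← e3]; exact e2⟩ (hτ.pair u hc i (by omega))
    · obtain ⟨hc, e1, e2, e3⟩ := h2
      exact absurd ⟨e1, by rw [← e3]; exact e2⟩ (hτ.pair u hc i' (by omega))

end Par

end Pool.Agent.Helper92.OS
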