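import Pool.Agent.Helper92.OS.Defs

set_option autoImplicit false

/-!
# The minimum makespan exists, is a natural number, and has few digits
-/

namespace Pool.Agent.Helper92.OS

/-- schedules with natural start times -/
def IsNatSchedule (I : Instance) (t : Fin I.m → Fin I.n → ℕ) : Prop :=
  IsSchedule I (fun i j => (t i j : ℝ))

theorem opt_floor_add {a b : ℝ} (ha : 0 ≤ a) (k : ℕ) (h : a + k ≤ b) : ⌊a⌋₊ + k ≤ ⌊b⌋₊ := by
  rw [← Nat.floor_add_natCast ha]
  exact Nat.floor_mono h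

theorem opt_floor_one {a b : ℝ} (ha : 0 ≤ a) (h : a + 1 ≤ b) : ⌊a⌋₊ + 1 ≤ ⌊b⌋₊ := by
  rw [← Nat.floor_add_one ha]
  exact Nat.floor_mono h

/-- rounding down the start times gives a schedule -/
theorem opt_floor (I : Instance) {t : Fin I.m → Fin I.n → ℝ} (h : IsSchedule I t) :
    IsNatSchedule I (fun i j => ⌊t i j⌋₊) where
  nonneg i j := Nat.cast_nonneg _
  machine i j j' hj := by
    rcases h.machine i j j' hj with h1 | h1
    · left
      exact_mod_cast opt_floor_one (h.nonneg i j) h1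
    · right
      exact_mod_cast opt_floor_one (h.nonneg i j') h1
  job j i i' hi := by
    rcases h.job j i i' hi with h1 | h1
    · left
      exact_mod_cast opt_floor_one (h.nonneg i j) h1
    · right
      exact_mod_cast opt_floor_one (h.nonneg i' j) h1
  setup i j j' hb hlt hno := by
    have key : ∀ k l, t i k < t i l → ((⌊t i k⌋₊ : ℕ) : ℝ) < ((⌊t i l⌋₊ : ℕ) : ℝ) := by
      intro k l hkl
      have hne : k ≠ l := by
        rintro rfl
        exact lt_irrefl _ hkl
      rcases h.machine i k l hne with h1 | h1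
      · have := opt_floor_one (h.nonneg i k) h1
        exact_mod_cast (by omega : ⌊t i k⌋₊ < ⌊t i l⌋₊)
      · linarith
    have hlt' : t i j < t i j' := by
      have h1 : ⌊t i j⌋₊ < ⌊t i j'⌋₊ := by exact_mod_cast hlt
      exact lt_of_not_ge fun hge => absurd (Nat.floor_mono hge) (not_le.2 h1)
    have h2 := h.setup i j j' hb hlt' (fun k hk => hno k ⟨key _ _ hk.1, key _ _ hk.2⟩)
    have h3 := opt_floor_add (h.nonneg i j) (1 + I.setup (I.batch j) (I.batch j'))
      (by push_cast; linarith)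
    have h4 : ⌊t i j⌋₊ + 1 + I.setup (I.batch j) (I.batch j') ≤ ⌊t i j'⌋₊ := by omega
    exact_mod_cast h4

/-- the sum of all setup times -/
def opt_S (I : Instance) : ℕ := ∑ p, ∑ q, I.setup p q

theorem opt_le_S (I : Instance) (p q : Fin I.g) : I.setup p q ≤ opt_S I :=
  (Finset.single_le_sum (f := fun q => I.setup p q) (fun _ _ => Nat.zero_le _)
    (Finset.mem_univ q)).trans
  (Finset.single_le_sum (f := fun p => ∑ q, I.setup p q) (fun _ _ => Nat.zero_le _)
    (Finset.mem_univ p))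

/-- there is a schedule -/
theorem opt_exists (I : Instance) :
    IsNatSchedule I (fun i j => ((i : ℕ) + (j : ℕ)) * (1 + opt_S I)) where
  nonneg i j := Nat.cast_nonneg _
  machine i j j' hj := by
    have hj' : (j : ℕ) ≠ j' := fun h => hj (Fin.ext h)
    rcases lt_or_gt_of_ne hj' with h1 | h1
    · left
      have : ((i : ℕ) + (j : ℕ)) * (1 + opt_S I) + 1 ≤ ((i : ℕ) + (j' : ℕ)) * (1 + opt_S I) := by
        have := Nat.mul_le_mul_right (1 + opt_S I) (by omega : (i : ℕ) + j + 1 ≤ (i : ℕ) + j')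
        linarith [Nat.zero_le (opt_S I)]
      exact_mod_cast this
    · right
      have : ((i : ℕ) + (j' : ℕ)) * (1 + opt_S I) + 1 ≤ ((i : ℕ) + (j : ℕ)) * (1 + opt_S I) := by
        have := Nat.mul_le_mul_right (1 + opt_S I) (by omega : (i : ℕ) + j' + 1 ≤ (i : ℕ) + j)
        linarith [Nat.zero_le (opt_S I)]
      exact_mod_cast this
  job j i i' hi := by
    have hi' : (i : ℕ) ≠ i' := fun h => hi (Fin.ext h)
    rcases lt_or_gt_of_ne hi' with h1 | h1
    · left
      have : ((i : ℕ) + (j : ℕ)) * (1 + opt_S I) + 1 ≤ ((i' : ℕ) + (j : ℕ)) * (1 + opt_S I) := by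
        have := Nat.mul_le_mul_right (1 + opt_S I) (by omega : (i : ℕ) + j + 1 ≤ (i' : ℕ) + j)
        linarith [Nat.zero_le (opt_S I)]
      exact_mod_cast this
    · right
      have : ((i' : ℕ) + (j : ℕ)) * (1 + opt_S I) + 1 ≤ ((i : ℕ) + (j : ℕ)) * (1 + opt_S I) := by
        have := Nat.mul_le_mul_right (1 + opt_S I) (by omega : (i' : ℕ) + j + 1 ≤ (i : ℕ) + j)
        linarith [Nat.zero_le (opt_S I)]
      exact_mod_cast this
  setup i j j' hb hlt hno := by
    have h1 : ((i : ℕ) + (j : ℕ)) * (1 + opt_S I) < ((i : ℕ) + (j' : ℕ)) * (1 + opt_S I) := by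
      exact_mod_cast hlt
    have h2 : (i : ℕ) + j < (i : ℕ) + j' := lt_of_mul_lt_mul_right h1 (Nat.zero_le _)
    have h3 := Nat.mul_le_mul_right (1 + opt_S I) (by omega : (i : ℕ) + j + 1 ≤ (i : ℕ) + j')
    have h4 := opt_le_S I (I.batch j) (I.batch j')
    have : ((i : ℕ) + (j : ℕ)) * (1 + opt_S I) + 1 + I.setup (I.batch j) (I.batch j')
        ≤ ((i : ℕ) + (j' : ℕ)) * (1 + opt_S I) := by
      linarith
    exact_mod_cast this

theorem opt_exists_bound (I : Instance) :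
    ∃ t : Fin I.m → Fin I.n → ℕ, IsNatSchedule I t ∧
      ∀ i j, t i j + 1 ≤ (I.m + I.n) * (1 + opt_S I) := by
  refine ⟨_, opt_exists I, fun i j => ?_⟩
  have hi := i.isLt
  have hj := j.isLt
  have h3 := Nat.mul_le_mul_right (1 + opt_S I) (by omega : (i : ℕ) + j + 1 ≤ I.m + I.n)
  linarith [Nat.zero_le (opt_S I)]

/-- every natural schedule has a natural makespan -/
theorem opt_makespan (I : Instance) (hI : I.Valid) (t : Fin I.m → Fin I.n → ℕ) :
    ∃ i j, ∀ i' j', t i' j' ≤ t i j := by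
  have : Nonempty (Fin I.m × Fin I.n) := ⟨(⟨0, hI.m_pos⟩, ⟨0, hI.n_pos⟩)⟩
  obtain ⟨x, -, hx⟩ := Finset.exists_max_image Finset.univ
    (fun x : Fin I.m × Fin I.n => t x.1 x.2) Finset.univ_nonempty
  exact ⟨x.1, x.2, fun i' j' => hx (i', j') (Finset.mem_univ _)⟩

/-- the least natural bound is the minimum makespan -/
theorem opt_min_of (I : Instance) (hI : I.Valid) {C : ℕ}
    (h1 : ∃ t : Fin I.m → Fin I.n → ℕ, IsNatSchedule I t ∧ ∀ i j, t i j + 1 ≤ C)
    (h2 : ∀ R, (∃ t : Fin I.m → Fin I.n → ℕ, IsNatSchedule I t ∧ ∀ i j, t i j + 1 ≤ R) → C ≤ R) :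
    IsMinMakespan I C := by
  constructor
  · obtain ⟨t, ht, hb⟩ := h1
    obtain ⟨i, j, hij⟩ := opt_makespan I hI t
    have hC : C = t i j + 1 :=
      le_antisymm (h2 _ ⟨t, ht, fun i' j' => Nat.succ_le_succ (hij i' j')⟩) (hb i j)
    refine ⟨_, ht, ⟨i, j, by rw [hC]; push_cast; rfl⟩, ?_⟩
    rintro x ⟨i', j', rfl⟩
    have h3 : ((t i' j' : ℕ) : ℝ) + 1 ≤ (C : ℝ) := by exact_mod_cast hb i' j'
    exact h3
  · rintro x ⟨t, ht, ⟨i, j, hx⟩, hmax⟩
    have hx0 : 0 ≤ x := by
      rw [hx]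
      linarith [ht.nonneg i j]
    have h3 : C ≤ ⌊x⌋₊ := by
      refine h2 _ ⟨_, opt_floor I ht, fun i' j' => ?_⟩
      exact opt_floor_one (ht.nonneg i' j') (hmax ⟨i', j', rfl⟩)
    calc (C : ℝ) ≤ (⌊x⌋₊ : ℝ) := by exact_mod_cast h3
      _ ≤ x := Nat.floor_le hx0

theorem exists_min (I : Instance) (hI : I.Valid) : ∃ C : ℕ, IsMinMakespan I C := by
  classical
  have hex : ∃ R : ℕ, ∃ t : Fin I.m → Fin I.n → ℕ, IsNatSchedule I t ∧ ∀ i j, t i j + 1 ≤ R :=
    ⟨_, opt_exists_bound I⟩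
  exact ⟨Nat.find hex, opt_min_of I hI (Nat.find_spec hex) fun R hR => Nat.find_min' hex hR⟩

theorem min_le_iff (I : Instance) (hI : I.Valid) (C : ℕ) (h : IsMinMakespan I C) (R : ℕ) :
    C ≤ R ↔ ∃ t : Fin I.m → Fin I.n → ℕ, IsNatSchedule I t ∧ ∀ i j, t i j + 1 ≤ R := by
  constructor
  · intro hCR
    obtain ⟨⟨t, ht, ⟨i, j, hx⟩, hmax⟩, -⟩ := h
    refine ⟨_, opt_floor I ht, fun i' j' => ?_⟩
    have h1 := opt_floor_one (ht.nonneg i' j') (hmax ⟨i', j', rfl⟩)
    rw [Nat.floor_natCast] at h1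
    exact h1.trans hCR
  · rintro ⟨t, ht, hb⟩
    obtain ⟨i, j, hij⟩ := opt_makespan I hI t
    have h1 : (C : ℝ) ≤ ((t i j : ℕ) : ℝ) + 1 := by
      refine h.2 ⟨_, ht, ⟨i, j, rfl⟩, ?_⟩
      rintro x ⟨i', j', rfl⟩
      have h3 : ((t i' j' : ℕ) : ℝ) ≤ ((t i j : ℕ) : ℝ) := by exact_mod_cast hij i' j'
      show ((t i' j' : ℕ) : ℝ) + 1 ≤ ((t i j : ℕ) : ℝ) + 1
      linarith
    have h2 : C ≤ t i j + 1 := by exact_mod_cast h1
    exact h2.trans (hb i j)

theorem opt_length_encNat (n : ℕ) : (encNat n).length = n.size + 1 := by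
  simp [encNat, Nat.size_eq_bits_len]

theorem opt_length_enc (I : Instance) :
    I.m.size + I.n.size + ∑ p, ∑ q, (I.setup p q).size + 1 ≤ (enc I).length := by
  have h : ∑ p, ∑ q, (I.setup p q).size ≤ ((List.finRange I.g).flatMap
        (fun p => (List.finRange I.g).flatMap (fun q => encNat (I.setup p q)))).length := by
    rw [List.length_flatMap, Fin.sum_univ_def]
    refine List.sum_le_sum fun p _ => ?_
    rw [List.length_flatMap, Fin.sum_univ_def]
    refine List.sum_le_sum fun q _ => ?_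
    rw [opt_length_encNat]
    exact Nat.le_succ _
  simp only [enc, List.length_append, opt_length_encNat]
  omega

theorem opt_one_add_sum {ι : Type} (s : Finset ι) (f : ι → ℕ) :
    1 + ∑ i ∈ s, f i ≤ 2 ^ ∑ i ∈ s, (f i).size := by
  classical
  induction s using Finset.induction_on with
  | empty => simp
  | insert a s ha ih =>
    rw [Finset.sum_insert ha, Finset.sum_insert ha, pow_add]
    have h1 : f a + 1 ≤ 2 ^ (f a).size := Nat.lt_size_self _
    calc 1 + (f a + ∑ i ∈ s, f i) ≤ (f a + 1) * (1 + ∑ i ∈ s, f i) := by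
          nlinarith [Nat.zero_le (f a * ∑ i ∈ s, f i)]
      _ ≤ _ := Nat.mul_le_mul h1 ih

theorem min_size (I : Instance) (hI : I.Valid) (C : ℕ) (h : IsMinMakespan I C) :
    C.size ≤ 2 * (enc I).length + 1 := by
  have h1 : C ≤ (I.m + I.n) * (1 + opt_S I) :=
    (min_le_iff I hI C h _).2 (opt_exists_bound I)
  have h2 : 1 + opt_S I ≤ 2 ^ ∑ p, ∑ q, (I.setup p q).size := by
    have := opt_one_add_sum (Finset.univ : Finset (Fin I.g × Fin I.g))
      (fun x => I.setup x.1 x.2)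
    rw [Fintype.sum_prod_type, Fintype.sum_prod_type] at this
    exact this
  have h3 : I.m + I.n < 2 ^ (I.m.size + I.n.size) := by
    have hm : I.m + 1 ≤ 2 ^ I.m.size := Nat.lt_size_self _
    have hn : I.n + 1 ≤ 2 ^ I.n.size := Nat.lt_size_self _
    rw [pow_add]
    calc I.m + I.n < (I.m + 1) * (I.n + 1) := by
          nlinarith [Nat.zero_le (I.m * I.n)]
      _ ≤ _ := Nat.mul_le_mul hm hn
  have h4 : C < 2 ^ (I.m.size + I.n.size + ∑ p, ∑ q, (I.setup p q).size) := by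
    rw [pow_add]
    calc C ≤ (I.m + I.n) * (1 + opt_S I) := h1
      _ < 2 ^ (I.m.size + I.n.size) * (1 + opt_S I) := by
          apply Nat.mul_lt_mul_of_pos_right h3
          omega
      _ ≤ _ := Nat.mul_le_mul_left _ h2
  have h5 := Nat.size_le.2 h4
  have h6 := opt_length_enc I
  omega

end Pool.Agent.Helper92.OS
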