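import Pool.Agent.Helper92.OS.Prog
import Pool.Agent.Helper92.OS.Opt

/-!
# Sanity checks: the notions `Algorithm`, `Verifier` and `TallyP` are inhabited

`check_algorithm`: an algorithm (in the sense of `Algorithm`) for the instances with one machine
and one job. `check_verifier`: a verifier of the set of all positive integers.
-/

namespace Pool.Agent.Helper92.OS.Check

open Pool.Agent.Helper62

/-- read the whole input, then write the digit one -/
def prog (α : Type) : Cmd α Bool Unit Unit Bool Unit :=
  .seq (.loop [.popInp (fun _ x => x.isSome)] (fun r => r) (.act [])) (.act [.pushOut fun _ => true])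

theorem loop_runs {α : Type} (E : Unit → Cmd α Bool Unit Unit Bool Unit) (l : List α) (r : Bool) :
    Runs E (.loop [.popInp (fun _ x => x.isSome)] (fun r => r) (.act [])) ⟨r, l, [], fun _ => []⟩
      ⟨false, [], [], fun _ => []⟩ (2 * l.length + 1) := by
  induction l generalizing r with
  | nil => exact Runs.loop_done rfl rfl
  | cons a l ih =>
    refine (Runs.loop_step (s₁ := ⟨true, l, [], fun _ => []⟩) rfl rfl (Runs.act' rfl) (ih true)).mono ?_
    simp only [List.length_cons]
    omega

theorem prog_runs {α : Type} (E : Unit → Cmd α Bool Unit Unit Bool Unit) (l : List α) (r : Bool) :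
    Runs E (prog α) ⟨r, l, [], fun _ => []⟩ ⟨false, [], [true], fun _ => []⟩
      (2 * l.length + 2) :=
  (Runs.seq (loop_runs E l r) (Runs.act' rfl)).mono (by omega)

theorem out {α : Type} [Fintype α] (l : List α) :
    Nonempty (Turing.TM2OutputsInTime (toTM (fun _ : Unit => prog α) () false) l (some [true])
      (2 * l.length + 3)) :=
  toTM_outputs (fun _ : Unit => prog α) () false l [true] (2 * l.length + 2)
    ⟨false, prog_runs _ l false⟩

theorem fin {α : Type} [Fintype α] :
    ∀ k, Finite ((toTM (fun _ : Unit => prog α) () false).Γ k) := by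
  have : Fintype (Lab (prog α)) := Lab.fintype _
  intro k
  match k with
  | .rs => exact inferInstanceAs (Finite (Option (Σ _ : Unit, Lab (prog α))))
  | .inp => exact inferInstanceAs (Finite α)
  | .out => exact inferInstanceAs (Finite Bool)
  | .w _ => exact inferInstanceAs (Finite Unit)

/-- an algorithm for the instances with one machine and one job -/
theorem check_algorithm :
    Nonempty (Algorithm (fun I => I.m = 1 ∧ I.n = 1) (fun I => 2 * (enc I).length + 3)) := by
  refine ⟨{ M := toTM (fun _ : Unit => prog Sym) () false, fin := fin, inp := id,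
            inp_inj := fun _ _ h => h, out := id, out_inj := fun _ _ h => h, correct := ?_ }⟩
  rintro I hI ⟨hm, hn⟩ C hC
  have h1 : C = 1 := by
    have h2 : C ≤ 1 := by
      refine (min_le_iff I hI C hC 1).2 ⟨fun _ _ => 0, ?_, fun _ _ => by simp⟩
      have hs : ∀ j j' : Fin I.n, j = j' := fun j j' => by
        apply Fin.ext; have := j.2; have := j'.2; omega
      have ht : ∀ j j' : Fin I.m, j = j' := fun j j' => by
        apply Fin.ext; have := j.2; have := j'.2; omega
      exact ⟨fun _ _ => by simp, fun _ j j' h => (h (hs j j')).elim,
        fun _ j j' h => (h (ht j j')).elim, fun _ j j' h => (h (by rw [hs j j'])).elim⟩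
    have h3 : ¬ C ≤ 0 := by
      intro h
      obtain ⟨t, -, ht⟩ := (min_le_iff I hI C hC 0).1 h
      have := ht ⟨0, by omega⟩ ⟨0, by omega⟩
      omega
    omega
  subst h1
  have := out ((enc I).map id)
  rw [List.length_map] at this
  exact this

/-- a verifier of the set of all positive integers -/
theorem check_verifier : ∃ V : Verifier, V.lang = {n | 1 ≤ n} := by
  refine ⟨{ M := toTM (fun _ : Unit => prog Bool) () false, fin := fin, one := true, hash := false,
            out := id, out_inj := fun _ _ h => h, c := 1, d := 10, ans := fun _ _ => true,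
            run := ?_ }, ?_⟩
  · intro n y hn hy
    have h := out (List.replicate n true ++ false :: y)
    obtain ⟨h⟩ := h
    have key : ∀ z : List Bool, z.length ≤ n ^ 1 + 1 →
        2 * (List.replicate n true ++ false :: z).length + 3 ≤ n ^ 10 + 10 := by
      intro z hz
      have hn' : 1 ≤ n := hn
      have h4 : 4 * n ≤ n ^ 10 + 3 := by
        rcases Nat.lt_or_ge n 2 with h | h
        · have : n = 1 := by omega
          subst this
          norm_num
        · have : n * 2 ^ 9 ≤ n * n ^ 9 := Nat.mul_le_mul_left _ (Nat.pow_le_pow_left h 9)
          have e : n ^ 10 = n * n ^ 9 := by ring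
          rw [e]
          omega
      simp only [List.length_append, List.length_replicate, List.length_cons, pow_one] at hz ⊢
      omega
    exact ⟨⟨h.toEvalsTo, h.steps_le_m.trans (key y hy)⟩⟩
  · ext n
    simp only [Verifier.lang, Set.mem_ofPred_eq]
    exact ⟨fun h => h.1, fun h => ⟨h, [], by simp, trivial⟩⟩

end Pool.Agent.Helper92.OS.Check
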