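import Pool.Agent.Helper92.OS.Defs

/-!
# The core gadget: jobs, offsets, core schedules, linear forms

All batches of the constructed instances have exactly one job. `Par` collects the numerical
parameters, `Par.off a b` is the start-to-start offset (setup time plus one) of `b` directly after
`a`; `SPar` collects the symbolic parameters, from which `Par` is obtained by choosing
`K, w, v : ℕ` (then there are `K ^ 2` machines).
-/

namespace Pool.Agent.Helper92.OS

/-- The jobs of the constructed instances: `G` clusters of `T` jobs and four special jobs. -/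
inductive Job (G T : ℕ)
  | S | Z | P | Q
  | V (u : Fin G) (j : Fin T)
  deriving DecidableEq, Fintype

/-- `τ + k` modulo `T`. -/
def rot {T : ℕ} (τ : Fin T) (k : ℕ) : Fin T := ⟨(τ + k) % T, Nat.mod_lt _ τ.pos⟩

/-- `b` directly follows `a` in the order of the times `x`. -/
def IsNext {J : Type} (x : J → ℕ) (a b : J) : Prop := x a < x b ∧ ∀ c, ¬ (x a < x c ∧ x c < x b)

/-- Numerical parameters. -/
structure Par where
  T : ℕ
  G : ℕ
  m : ℕ
  h : ℕ
  c : Fin G → Fin T
  c' : Fin G → Fin T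
  d : Fin G → ℕ
  al : Fin T
  be : Fin T

namespace Par

variable (p : Par)

structure Good : Prop where
  hT : 2 ≤ p.T
  hG : 1 ≤ p.G
  hd : ∀ u, p.d u < p.m
  hdh : ∀ u, p.d u + 1 ≤ p.h
  hh : p.h ≤ 2 * p.m + 1
  hab : p.al ≠ p.be

def L : ℕ := 2 * p.m + 1

/-- lower bound for `mu - 4 T ^ 2 - T` -/
def nu : ℕ := p.G * (4 * p.T ^ 2 + p.T + 1) + 2

def mu : ℕ := 4 * p.T ^ 2 + p.T + p.nu

/-- `c' u - c u` modulo `T` -/
def s (u : Fin p.G) : ℕ := ((p.c' u : ℕ) + p.T - p.c u) % p.T

def kap (u : Fin p.G) (τ : Fin p.T) : ℕ :=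
  if τ = p.c u then 4 * p.T * (p.c' u + 1) - p.s u else 4 * p.T * (τ + 1)

def del (u : Fin p.G) (τ : Fin p.T) : ℕ := if τ = p.c u then p.d u else 0

/-- the time from job `S` to job `V u τ` on a machine of color `τ` -/
def e (u : Fin p.G) (τ : Fin p.T) : ℕ :=
  u * (p.L * p.mu + p.h) + p.L * p.kap u τ + p.del u τ + 3

/-- the time from job `S` to job `Z` -/
def D : ℕ := p.G * (p.L * p.mu + p.h) + 3

/-- the threshold for the makespan -/
def C : ℕ := p.D + p.m

/-- lower bound for the offsets of arcs leaving a cluster -/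
def M1 : ℕ := p.L * p.nu + 1

/-- start-to-start offsets -/
def off : Job p.G p.T → Job p.G p.T → ℕ
  | .P, .S => 1
  | .Z, .Q => 1
  | .P, .Z => p.L
  | .Q, .Z => p.L
  | .S, .V u j => if (u : ℕ) = 0 then p.e u j else p.C + 1
  | .V u i, .V u' j =>
      if j = rot i 1 then
        if u = u' then p.L
        else if (u : ℕ) + 1 = u' then p.e u' j - (p.e u j + p.L * (p.T - 1))
        else p.C + 1
      else p.C + 1
  | .V u i, .Z => if (u : ℕ) + 1 = p.G ∧ rot i 1 ≠ p.al ∧ rot i 1 ≠ p.be then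
      p.D - (p.e u (rot i 1) + p.L * (p.T - 1)) else p.C + 1
  | .V u i, .P => if (u : ℕ) + 1 = p.G ∧ rot i 1 = p.al then
      p.D - (p.e u (rot i 1) + p.L * (p.T - 1) + p.L) else p.C + 1
  | .V u i, .Q => if (u : ℕ) + 1 = p.G ∧ rot i 1 = p.be then
      p.D - (p.e u (rot i 1) + p.L * (p.T - 1) + p.L) else p.C + 1
  | _, _ => p.C + 1

/-- A schedule of makespan at most `C`; `t i a` is the start time of job `a` on machine `i`. -/
structure Core (t : Fin p.m → Job p.G p.T → ℕ) : Prop where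
  machine : ∀ i, Function.Injective (t i)
  job : ∀ a, Function.Injective (fun i => t i a)
  setup : ∀ i a b, IsNext (t i) a b → t i a + p.off a b ≤ t i b
  bound : ∀ i a, t i a + 1 ≤ p.C

/-- the time line of a machine of color `τ` starting job `S` at time `x` -/
def tl (x : ℕ) (τ : Fin p.T) : Job p.G p.T → ℕ
  | .S => x
  | .Z => x + p.D
  | .P => if τ = p.al then x + p.D - p.L else x - 1
  | .Q => if τ = p.be then x + p.D - p.L else x + p.D + 1
  | .V u j => x + p.e u τ + p.L * (((j : ℕ) + p.T - τ) % p.T)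

/-- A valid coloring of the times `0, …, m - 1`. -/
structure Coloring (τ : ℕ → Fin p.T) : Prop where
  first : τ 0 = p.al
  last : τ (p.m - 1) = p.be
  pair : ∀ u, p.c u ≠ p.c' u → ∀ x, x + p.d u < p.m → ¬ (τ x = p.c u ∧ τ (x + p.d u) = p.c' u)

end Par

/-! ### Linear forms in `K ^ 2, K, w, v, 1` -/

/-- The form `a K² + b K + c w + c' v + e`. -/
structure Form where
  a : ℕ
  b : ℕ
  c : ℕ
  c' : ℕ
  e : ℕ
  deriving DecidableEq

namespace Form

def eval (F : Form) (K w v : ℕ) : ℕ := F.a * K ^ 2 + F.b * K + F.c * w + F.c' * v + F.e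

/-- a constant form -/
def cst (e : ℕ) : Form := ⟨0, 0, 0, 0, e⟩

/-- if `K ^ 2` does not occur, the form is constant -/
def Good (F : Form) : Prop := F.a = 0 → F.b = 0 ∧ F.c = 0 ∧ F.c' = 0

end Form

/-- the seven distances -/
def dval (K w v : ℕ) : Fin 7 → ℕ := ![1, 2, w, v, K - 1, K, K + 1]
def dB : Fin 7 → ℕ := ![0, 0, 0, 0, 1, 1, 1]
def dW : Fin 7 → ℕ := ![0, 0, 1, 0, 0, 0, 0]
def dV : Fin 7 → ℕ := ![0, 0, 0, 1, 0, 0, 0]
def dE : Fin 7 → ℕ := ![1, 2, 0, 0, 0, 0, 1]
def dN : Fin 7 → ℕ := ![0, 0, 0, 0, 1, 0, 0]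

/-- Symbolic parameters: the number of colors `T`, of clusters `G`, the forbidden pair of every
cluster, at which of the seven distances it is forbidden, and the first and last color. -/
structure SPar where
  T : ℕ
  G : ℕ
  c : Fin G → Fin T
  c' : Fin G → Fin T
  o : Fin G → Fin 7
  al : Fin T
  be : Fin T

namespace SPar

variable (q : SPar)

/-- The numerical parameters for `K, w, v`. -/
def par (K w v : ℕ) : Par where
  T := q.T
  G := q.G
  m := K ^ 2
  h := 2 * K + 2 * w + 2 * v + 5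
  c := q.c
  c' := q.c'
  d := fun u => dval K w v (q.o u)
  al := q.al
  be := q.be

structure Good : Prop where
  hT : 2 ≤ q.T
  hG : 1 ≤ q.G
  hab : q.al ≠ q.be

def nu : ℕ := q.G * (4 * q.T ^ 2 + q.T + 1) + 2
def mu : ℕ := 4 * q.T ^ 2 + q.T + q.nu
def s (u : Fin q.G) : ℕ := ((q.c' u : ℕ) + q.T - q.c u) % q.T
def kap (u : Fin q.G) (τ : Fin q.T) : ℕ :=
  if τ = q.c u then 4 * q.T * (q.c' u + 1) - q.s u else 4 * q.T * (τ + 1)

/-- the coefficients of `del u τ` at `K, w, v, 1, -1` -/
def cB (u : Fin q.G) (τ : Fin q.T) : ℕ := if τ = q.c u then dB (q.o u) else 0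
def cW (u : Fin q.G) (τ : Fin q.T) : ℕ := if τ = q.c u then dW (q.o u) else 0
def cV (u : Fin q.G) (τ : Fin q.T) : ℕ := if τ = q.c u then dV (q.o u) else 0
def cE (u : Fin q.G) (τ : Fin q.T) : ℕ := if τ = q.c u then dE (q.o u) else 0
def cN (u : Fin q.G) (τ : Fin q.T) : ℕ := if τ = q.c u then dN (q.o u) else 0

/-- the form of the threshold `C` -/
def formC : Form where
  a := 2 * q.G * q.mu + 1
  b := 2 * q.G
  c := 2 * q.G
  c' := 2 * q.G
  e := q.G * q.mu + 5 * q.G + 3

/-- the form of `e 0 j - 1` -/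
def formStart (u : Fin q.G) (j : Fin q.T) : Form where
  a := 2 * q.kap u j
  b := q.cB u j
  c := q.cW u j
  c' := q.cV u j
  e := q.kap u j + 2 + q.cE u j - q.cN u j

/-- the form of `e u' j - e u j - L (T - 1) - 1`, where `u' = u + 1` -/
def formStep (u u' : Fin q.G) (j : Fin q.T) : Form where
  a := 2 * (q.mu + q.kap u' j - (q.kap u j + (q.T - 1)))
  b := 2 + q.cB u' j - q.cB u j
  c := 2 + q.cW u' j - q.cW u j
  c' := 2 + q.cV u' j - q.cV u j
  e := (q.mu + q.kap u' j - (q.kap u j + (q.T - 1))) + 4 + q.cE u' j + q.cN u j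
    - (q.cE u j + q.cN u' j)

/-- the form of `D - e u j - L (T - 1) - r L - 1`, where `u + 1 = G` -/
def formExit (r : ℕ) (u : Fin q.G) (j : Fin q.T) : Form where
  a := 2 * (q.mu - (q.kap u j + (q.T - 1) + r))
  b := 2 - q.cB u j
  c := 2 - q.cW u j
  c' := 2 - q.cV u j
  e := (q.mu - (q.kap u j + (q.T - 1) + r)) + 4 + q.cN u j - q.cE u j

/-- the forms of the setup times -/
def form : Job q.G q.T → Job q.G q.T → Form
  | .P, .S => .cst 0
  | .Z, .Q => .cst 0
  | .P, .Z => ⟨2, 0, 0, 0, 0⟩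
  | .Q, .Z => ⟨2, 0, 0, 0, 0⟩
  | .S, .V u j => if (u : ℕ) = 0 then q.formStart u j else q.formC
  | .V u i, .V u' j =>
      if j = rot i 1 then
        if u = u' then ⟨2, 0, 0, 0, 0⟩
        else if (u : ℕ) + 1 = u' then q.formStep u u' j
        else q.formC
      else q.formC
  | .V u i, .Z => if (u : ℕ) + 1 = q.G ∧ rot i 1 ≠ q.al ∧ rot i 1 ≠ q.be then
      q.formExit 0 u (rot i 1) else q.formC
  | .V u i, .P => if (u : ℕ) + 1 = q.G ∧ rot i 1 = q.al then
      q.formExit 1 u (rot i 1) else q.formC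
  | .V u i, .Q => if (u : ℕ) + 1 = q.G ∧ rot i 1 = q.be then
      q.formExit 1 u (rot i 1) else q.formC
  | _, _ => q.formC

/-- the number of jobs (and batches) -/
noncomputable def num : ℕ := Fintype.card (Job q.G q.T)

/-- numbering of the jobs -/
noncomputable def job : Fin q.num ≃ Job q.G q.T := (Fintype.equivFin _).symm

/-- the constructed instance -/
noncomputable def inst (K w v : ℕ) : Instance where
  m := K ^ 2
  n := q.num
  g := q.num
  batch := id
  setup := fun a b => if a = b then 0 else (q.form (q.job a) (q.job b)).eval K w v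

/-- the numbers in the encoding of the constructed instance -/
noncomputable def forms : List Form :=
  ⟨1, 0, 0, 0, 0⟩ :: .cst q.num :: .cst q.num ::
    ((List.finRange q.num).map (fun j => .cst (j : ℕ)) ++
      (List.finRange q.num).flatMap (fun a => (List.finRange q.num).map (fun b =>
        if a = b then .cst 0 else q.form (q.job a) (q.job b))))

end SPar

end Pool.Agent.Helper92.OS
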