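import Mathlib

/-!
# `O | p_ij = 1, ST_sd,b | C_max`: definitions

Unit-time open shop with sequence-dependent batch setup times (problem `MP_124ac8_lc`): instances,
schedules, minimum makespan, the binary encoding of instances, algorithms (multi-stack Turing
machines of Mathlib), polynomial-time verifiers and deciders for unary (tally) languages.
-/

namespace Pool.Agent.Helper92.OS

/-- An instance: `m` machines, `n` jobs listed individually, `g` batches, the batch of every job,
and the setup times (only `setup p q` with `p ≠ q` is used). -/
structure Instance where
  /-- number of machines -/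
  m : ℕ
  /-- number of jobs -/
  n : ℕ
  /-- number of batches -/
  g : ℕ
  /-- the batch of a job -/
  batch : Fin n → Fin g
  /-- setup times -/
  setup : Fin g → Fin g → ℕ

/-- The instances of the problem: at least one machine and one job, no empty batch; the unused
diagonal of the matrix of setup times is zero. -/
structure Instance.Valid (I : Instance) : Prop where
  m_pos : 0 < I.m
  n_pos : 0 < I.n
  batch_surj : Function.Surjective I.batch
  setup_self : ∀ p, I.setup p p = 0

/-- `t i j` is the (real) start time of the operation of job `j` on machine `i`. -/
structure IsSchedule (I : Instance) (t : Fin I.m → Fin I.n → ℝ) : Prop where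
  /-- nothing starts before time `0` -/
  nonneg : ∀ i j, 0 ≤ t i j
  /-- operations on the same machine do not overlap -/
  machine : ∀ i j j', j ≠ j' → t i j + 1 ≤ t i j' ∨ t i j' + 1 ≤ t i j
  /-- operations of the same job do not overlap -/
  job : ∀ j i i', i ≠ i' → t i j + 1 ≤ t i' j ∨ t i' j + 1 ≤ t i j
  /-- if job `j'` directly follows job `j` on machine `i` and their batches differ, the setup time
  passes between them -/
  setup : ∀ i j j', I.batch j ≠ I.batch j' → t i j < t i j' →
    (∀ k, ¬ (t i j < t i k ∧ t i k < t i j')) →
    t i j + 1 + I.setup (I.batch j) (I.batch j') ≤ t i j'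

/-- `C` is the makespan of `t`, the largest completion time. -/
def IsMakespan (I : Instance) (t : Fin I.m → Fin I.n → ℝ) (C : ℝ) : Prop :=
  IsGreatest {x | ∃ i j, x = t i j + 1} C

/-- `C` is the minimum makespan over all schedules. -/
def IsMinMakespan (I : Instance) (C : ℝ) : Prop :=
  IsLeast {x | ∃ t, IsSchedule I t ∧ IsMakespan I t x} C

/-- The alphabet in which instances are written. -/
inductive Sym
  | zero | one | sep
  deriving DecidableEq, Fintype

/-- A binary digit as a symbol. -/
def bitSym : Bool → Sym
  | false => .zero
  | true => .one

/-- A natural number in binary (least significant digit first), followed by a separator. -/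
def encNat (n : ℕ) : List Sym := (Nat.bits n).map bitSym ++ [.sep]

/-- The encoding of an instance: all numbers in binary, jobs listed individually. -/
def enc (I : Instance) : List Sym :=
  encNat I.m ++ (encNat I.n ++ (encNat I.g ++
    ((List.finRange I.n).flatMap (fun j => encNat (I.batch j)) ++
      (List.finRange I.g).flatMap
        (fun p => (List.finRange I.g).flatMap (fun q => encNat (I.setup p q))))))

/-- An algorithm (a multi-stack Turing machine with finite alphabets) computing the minimum makespan
of every valid instance `I` with the property `Q`, written in binary, in time `T I`. -/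
structure Algorithm (Q : Instance → Prop) (T : Instance → ℕ) where
  /-- the machine -/
  M : Turing.FinTM2
  /-- all its alphabets are finite -/
  fin : ∀ k, Finite (M.Γ k)
  /-- how the machine reads the input symbols -/
  inp : Sym → M.Γ M.k₀
  inp_inj : Function.Injective inp
  /-- how the machine writes binary digits -/
  out : Bool → M.Γ M.k₁
  out_inj : Function.Injective out
  /-- the machine computes the minimum makespan within the time bound -/
  correct : ∀ I : Instance, I.Valid → Q I → ∀ C : ℕ, IsMinMakespan I C →
    Nonempty (Turing.TM2OutputsInTime M ((enc I).map inp) (some ((Nat.bits C).map out)) (T I))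

/-- The size of an instance when the number of machines and the setup times are measured in unary:
the length of its encoding plus the number of machines plus the sum of all setup times. -/
def unarySize (I : Instance) : ℕ := (enc I).length + I.m + ∑ p, ∑ q, I.setup p q

/-- A polynomial-time verifier for a set of positive integers written in unary (a tally language):
on input `1ⁿ # y` with `|y| ≤ n ^ c + c` it answers within `n ^ d + d` steps. -/
structure Verifier where
  /-- the machine -/
  M : Turing.FinTM2
  /-- all its alphabets are finite -/
  fin : ∀ k, Finite (M.Γ k)
  /-- the unary digit -/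
  one : M.Γ M.k₀
  /-- the separator between input and certificate -/
  hash : M.Γ M.k₀
  /-- how the machine answers -/
  out : Bool → M.Γ M.k₁
  out_inj : Function.Injective out
  /-- the exponent of the bound for the length of certificates -/
  c : ℕ
  /-- the exponent of the bound for the running time -/
  d : ℕ
  /-- the answer -/
  ans : ℕ → List (M.Γ M.k₀) → Bool
  run : ∀ (n : ℕ) (y : List (M.Γ M.k₀)), 1 ≤ n → y.length ≤ n ^ c + c →
    Nonempty (Turing.TM2OutputsInTime M (List.replicate n one ++ hash :: y)
      (some [out (ans n y)]) (n ^ d + d))

/-- The set of positive integers with a verifier: `n` belongs to it if some certificate of length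
at most `n ^ c + c` is accepted. -/
def Verifier.lang (V : Verifier) : Set ℕ :=
  {n | 1 ≤ n ∧ ∃ y : List (V.M.Γ V.M.k₀), y.length ≤ n ^ V.c + V.c ∧ V.ans n y = true}

/-- The set `L` of positive integers, written in unary, is decided by a Turing machine in
polynomial time. -/
def TallyP (L : Set ℕ) : Prop :=
  ∃ (M : Turing.FinTM2) (_ : ∀ k, Finite (M.Γ k)) (one : M.Γ M.k₀) (out : Bool → M.Γ M.k₁)
    (_ : Function.Injective out) (d : ℕ), ∀ n : ℕ, 1 ≤ n → ∃ b : Bool, (b = true ↔ n ∈ L) ∧
      Nonempty (Turing.TM2OutputsInTime M (List.replicate n one) (some [out b]) (n ^ d + d))

end Pool.Agent.Helper92.OS
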