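import Mathlib

/-!
# Growth estimates
-/

namespace Pool.Agent.Helper92.OS

theorem growth_exp (a b : ℕ) : ∃ n₀ : ℕ, ∀ n ≥ n₀, a * (n + 1) ^ b < 2 ^ n := by
  have h := isLittleO_pow_const_const_pow_of_one_lt (R := ℝ) b (r := 2) (by norm_num)
  have hc : (0 : ℝ) < 1 / (4 * ((a : ℝ) + 1)) := by positivity
  have h2 := h.bound hc
  rw [Filter.eventually_atTop] at h2
  obtain ⟨n₀, h3⟩ := h2
  refine ⟨n₀, fun n hn => ?_⟩
  have h4 := h3 (n + 1) (by omega)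
  rw [Real.norm_of_nonneg (by positivity), Real.norm_of_nonneg (by positivity)] at h4
  have h5 : (a : ℝ) * ((n : ℝ) + 1) ^ b < 2 ^ n := by
    push_cast at h4
    have h6 : (a : ℝ) * ((n : ℝ) + 1) ^ b ≤ a * (1 / (4 * ((a : ℝ) + 1)) * 2 ^ (n + 1)) :=
      mul_le_mul_of_nonneg_left h4 (by positivity)
    have h7 : (a : ℝ) * (1 / (4 * ((a : ℝ) + 1)) * 2 ^ (n + 1)) =
        (a / (a + 1)) * (2 ^ n / 2) := by
      field_simp
      ring
    have h8 : (a : ℝ) / (a + 1) ≤ 1 := by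
      rw [div_le_one (by positivity)]; linarith
    have h9 : (a : ℝ) / (a + 1) * (2 ^ n / 2) ≤ 1 * (2 ^ n / 2) :=
      mul_le_mul_of_nonneg_right h8 (by positivity)
    have h10 : (0 : ℝ) < 2 ^ n := by positivity
    linarith
  exact_mod_cast h5

theorem growth_lt_size {n w : ℕ} (h : 2 ^ n ≤ w) : n < w.size := Nat.lt_size.2 h

/-- growth needed for the diagonal argument -/
theorem growth1 (A d : ℕ) : ∃ w₀, ∀ w ≥ w₀,
    w + 1 + A * ((w + 2) * (w.size + 2)) + A * (w.size + 2) ^ d < 2 ^ (4 * (w.size + 1) + 1) := by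
  obtain ⟨n₁, h1⟩ := growth_exp (2 ^ d * 1) d
  obtain ⟨n₂, h2⟩ := growth_exp A 0
  obtain ⟨n₃, h3⟩ := growth_exp 2 1
  refine ⟨2 ^ (n₁ + n₂ + n₃), fun w hw => ?_⟩
  have hs : n₁ + n₂ + n₃ < w.size := growth_lt_size hw
  have hlt : w < 2 ^ w.size := Nat.lt_size_self w
  generalize w.size = n at *
  have a1 := h1 n (by omega)
  have a2 := h2 n (by omega)
  have a3 := h3 n (by omega)
  have b1 : (n + 2) ^ d ≤ 2 ^ n := by
    have : (n + 2) ^ d ≤ (2 * (n + 1)) ^ d := Nat.pow_le_pow_left (by omega) _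
    rw [mul_pow] at this
    rw [mul_one] at a1
    omega
  have b2 : A ≤ 2 ^ n := by
    rw [pow_zero, mul_one] at a2
    omega
  have b3 : n + 2 ≤ 2 ^ n := by
    rw [pow_one] at a3
    omega
  have b4 : w + 2 ≤ 2 * 2 ^ n := by omega
  have c1 : A * ((w + 2) * (n + 2)) ≤ 2 ^ n * (2 * 2 ^ n * 2 ^ n) :=
    Nat.mul_le_mul b2 (Nat.mul_le_mul b4 b3)
  have c2 : A * (n + 2) ^ d ≤ 2 ^ n * 2 ^ n := Nat.mul_le_mul b2 b1
  have e1 : 2 ^ (4 * (n + 1) + 1) = 32 * (2 ^ n * 2 ^ n * 2 ^ n * 2 ^ n) := by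
    rw [show 4 * (n + 1) + 1 = n + n + n + n + 5 by ring]
    simp only [pow_add]
    norm_num
    ring
  have hp : 1 ≤ 2 ^ n := Nat.one_le_two_pow
  rw [e1]
  generalize 2 ^ n = X at *
  have f1 : X * (2 * X * X) ≤ 2 * (X * X * X * X) := by
    have : X * X * X * 1 ≤ X * X * X * X := Nat.mul_le_mul_left _ hp
    nlinarith
  have f2 : X * X ≤ X * X * X * X := by
    have h1 : X * X * 1 ≤ X * X * (X * X) := Nat.mul_le_mul_left _ (Nat.mul_pos hp hp)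
    nlinarith
  have f3 : X ≤ X * X * X * X := by
    have h1 : X * 1 ≤ X * (X * X * X) :=
      Nat.mul_le_mul_left _ (Nat.mul_pos (Nat.mul_pos hp hp) hp)
    nlinarith
  have f4 : 1 ≤ X * X * X * X := le_trans hp f3
  omega

/-- functions bounded by a polynomial -/
def PolyB (f : ℕ → ℕ) : Prop := ∃ a b : ℕ, ∀ n, f n ≤ a * (n + 1) ^ b

theorem PolyB.mono {f g : ℕ → ℕ} (hg : PolyB g) (h : ∀ n, f n ≤ g n) : PolyB f := by
  obtain ⟨a, b, hab⟩ := hg
  exact ⟨a, b, fun n => (h n).trans (hab n)⟩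

theorem PolyB.const (a : ℕ) : PolyB (fun _ => a) := ⟨a, 0, fun _ => by simp⟩

theorem PolyB.id : PolyB (fun n => n) := ⟨1, 1, fun _ => by simp⟩

theorem PolyB.size : PolyB (fun n => n.size) :=
  PolyB.id.mono fun n => Nat.size_le.2 Nat.lt_two_pow_self

theorem PolyB.add {f g : ℕ → ℕ} (hf : PolyB f) (hg : PolyB g) : PolyB (fun n => f n + g n) := by
  obtain ⟨a, b, h1⟩ := hf
  obtain ⟨a', b', h2⟩ := hg
  refine ⟨a + a', b + b', fun n => ?_⟩
  have e1 : a * (n + 1) ^ b ≤ a * (n + 1) ^ (b + b') :=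
    Nat.mul_le_mul_left _ (Nat.pow_le_pow_right (Nat.succ_pos n) (by omega))
  have e2 : a' * (n + 1) ^ b' ≤ a' * (n + 1) ^ (b + b') :=
    Nat.mul_le_mul_left _ (Nat.pow_le_pow_right (Nat.succ_pos n) (by omega))
  have := h1 n
  have := h2 n
  rw [add_mul]
  show f n + g n ≤ _
  omega

theorem PolyB.mul {f g : ℕ → ℕ} (hf : PolyB f) (hg : PolyB g) : PolyB (fun n => f n * g n) := by
  obtain ⟨a, b, h1⟩ := hf
  obtain ⟨a', b', h2⟩ := hg
  refine ⟨a * a', b + b', fun n => ?_⟩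
  calc f n * g n ≤ (a * (n + 1) ^ b) * (a' * (n + 1) ^ b') := Nat.mul_le_mul (h1 n) (h2 n)
    _ = a * a' * (n + 1) ^ (b + b') := by rw [pow_add]; ring

theorem PolyB.pow {f : ℕ → ℕ} (hf : PolyB f) (k : ℕ) : PolyB (fun n => f n ^ k) := by
  obtain ⟨a, b, h1⟩ := hf
  refine ⟨a ^ k, b * k, fun n => ?_⟩
  calc f n ^ k ≤ (a * (n + 1) ^ b) ^ k := Nat.pow_le_pow_left (h1 n) k
    _ = a ^ k * (n + 1) ^ (b * k) := by rw [mul_pow, pow_mul]

theorem growth_two_pow_size (n : ℕ) : 2 ^ n.size ≤ 2 * (n + 1) := by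
  rcases Nat.eq_zero_or_pos n with rfl | hn
  · simp
  · have hs : 0 < n.size := Nat.size_pos.2 hn
    have h : 2 ^ (n.size - 1) ≤ n := Nat.lt_size.1 (by omega)
    have e : 2 ^ n.size = 2 * 2 ^ (n.size - 1) := by
      rw [← pow_succ']
      congr 1
      omega
    omega

theorem PolyB.two_pow (a b : ℕ) : PolyB (fun n => 2 ^ (a * (n.size + 1) + b)) := by
  refine ⟨2 ^ (a + b) * 2 ^ a, a, fun n => ?_⟩
  calc 2 ^ (a * (n.size + 1) + b) = 2 ^ (a + b) * (2 ^ n.size) ^ a := by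
        rw [← pow_mul, ← pow_add]; congr 1; ring
    _ ≤ 2 ^ (a + b) * (2 * (n + 1)) ^ a :=
        Nat.mul_le_mul_left _ (Nat.pow_le_pow_left (growth_two_pow_size n) _)
    _ = 2 ^ (a + b) * 2 ^ a * (n + 1) ^ a := by rw [mul_pow]; ring

theorem PolyB.sum {ι : Type} (s : Finset ι) {f : ι → ℕ → ℕ} (hf : ∀ i ∈ s, PolyB (f i)) :
    PolyB (fun n => ∑ i ∈ s, f i n) := by
  classical
  induction s using Finset.induction_on with
  | empty => exact (PolyB.const 0).mono fun _ => by simp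
  | insert i s hi ih =>
    refine ((hf i (Finset.mem_insert_self i s)).add
      (ih fun j hj => hf j (Finset.mem_insert_of_mem hj))).mono fun n => ?_
    rw [Finset.sum_insert hi]

theorem PolyB.std {f : ℕ → ℕ} (hf : PolyB f) : ∃ d, ∀ n, f n ≤ n ^ d + d := by
  obtain ⟨a, b, h⟩ := hf
  refine ⟨a + 2 * b + a * 2 ^ b, fun n => (h n).trans ?_⟩
  rcases Nat.lt_or_ge n 2 with hn | hn
  · have h1 : (n + 1) ^ b ≤ 2 ^ b := Nat.pow_le_pow_left (by omega) _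
    have h2 : a * (n + 1) ^ b ≤ a * 2 ^ b := Nat.mul_le_mul_left _ h1
    omega
  · have h1 : n + 1 ≤ n ^ 2 := by nlinarith
    have h2 : a ≤ n ^ a := (Nat.lt_two_pow_self.le).trans (Nat.pow_le_pow_left hn a)
    have h3 : a * (n + 1) ^ b ≤ n ^ a * (n ^ 2) ^ b :=
      Nat.mul_le_mul h2 (Nat.pow_le_pow_left h1 b)
    rw [← pow_mul, ← pow_add] at h3
    have h4 : n ^ (a + 2 * b) ≤ n ^ (a + 2 * b + a * 2 ^ b) :=
      Nat.pow_le_pow_right (by omega) (by omega)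
    omega

/-- growth needed for the reduction from tally languages -/
theorem PolyB.lt_two_pow {f : ℕ → ℕ} (hf : PolyB f) :
    ∃ e₀, ∀ e ≥ e₀, ∀ n, f n < 2 ^ (4 * e * (n.size + 1) + 1) := by
  obtain ⟨a, b, h⟩ := hf
  refine ⟨a + b, fun e he n => ?_⟩
  have h1 : n + 1 ≤ 2 ^ n.size := Nat.lt_size_self n
  have h2 : a * (n + 1) ^ b ≤ 2 ^ a * (2 ^ n.size) ^ b :=
    Nat.mul_le_mul Nat.lt_two_pow_self.le (Nat.pow_le_pow_left h1 b)
  rw [← pow_mul, ← pow_add] at h2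
  have h3 : a + n.size * b < 4 * e * (n.size + 1) + 1 := by nlinarith
  calc f n ≤ a * (n + 1) ^ b := h n
    _ ≤ 2 ^ (a + n.size * b) := h2
    _ < 2 ^ (4 * e * (n.size + 1) + 1) := Nat.pow_lt_pow_right (by norm_num) h3

end Pool.Agent.Helper92.OS
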