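import Pool.Agent.Helper92.OS.Core
import Pool.Agent.Helper92.OS.Arith

/-! Evaluation of the linear forms of the constructed instances (`MP_124ac8_lc`). -/

namespace Pool.Agent.Helper92.OS

namespace SPar

theorem par_good (q : SPar) (hq : q.Good) (K w v : ℕ) (hK : 7 ≤ K) (hw : 1 ≤ w) (hwv : w < v)
    (hv : v < K) : (q.par K w v).Good := by
  have hKK : 7 * K ≤ K ^ 2 := by nlinarith
  have hd : ∀ o : Fin 7, dval K w v o ≤ K + 1 ∧ dval K w v o ≤ K + 1 := by
    intro o
    fin_cases o <;> simp [dval] <;> omega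
  refine ⟨hq.hT, hq.hG, ?_, ?_, ?_, hq.hab⟩
  · intro u
    show dval K w v (q.o u) < K ^ 2
    have := (hd (q.o u)).1
    omega
  · intro u
    show dval K w v (q.o u) + 1 ≤ 2 * K + 2 * w + 2 * v + 5
    have := (hd (q.o u)).1
    omega
  · show 2 * K + 2 * w + 2 * v + 5 ≤ 2 * K ^ 2 + 1
    omega

theorem formC_eval (q : SPar) (K w v : ℕ) : q.formC.eval K w v = (q.par K w v).C := by
  show (2 * q.G * q.mu + 1) * K ^ 2 + 2 * q.G * K + 2 * q.G * w + 2 * q.G * v
      + (q.G * q.mu + 5 * q.G + 3) =
    q.G * ((2 * K ^ 2 + 1) * q.mu + (2 * K + 2 * w + 2 * v + 5)) + 3 + K ^ 2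
  ring

theorem formEval_del (q : SPar) (K w v : ℕ) (hK : 1 ≤ K) (u : Fin q.G) (τ : Fin q.T) :
    (q.par K w v).del u τ + q.cN u τ =
      q.cB u τ * K + q.cW u τ * w + q.cV u τ * v + q.cE u τ := by
  show (if τ = q.c u then dval K w v (q.o u) else 0) + q.cN u τ = _
  unfold cN cB cW cV cE
  by_cases h : τ = q.c u
  · simp only [if_pos h]
    generalize q.o u = o
    fin_cases o <;> simp [dval, dN, dB, dW, dV, dE]
    omega
  · simp only [if_neg h]
    simp

theorem formEval_bd (q : SPar) (u : Fin q.G) (τ : Fin q.T) :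
    q.cB u τ ≤ 1 ∧ q.cW u τ ≤ 1 ∧ q.cV u τ ≤ 1 ∧ q.cE u τ ≤ 2 ∧ q.cN u τ ≤ 1 := by
  unfold cN cB cW cV cE
  by_cases h : τ = q.c u
  · simp only [if_pos h]
    generalize q.o u = o
    fin_cases o <;> simp [dN, dB, dW, dV, dE]
  · simp [if_neg h]

theorem formEval_kap_le (q : SPar) (u : Fin q.G) (τ : Fin q.T) :
    q.kap u τ ≤ 4 * q.T * q.T := (q.par 0 0 0).kap_le u τ

theorem formEval_mu (q : SPar) (u : Fin q.G) (τ : Fin q.T) :
    q.kap u τ + (q.T - 1) + 1 + 1 ≤ q.mu := by
  have h := q.formEval_kap_le u τ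
  have h2 : 4 * q.T * q.T = 4 * q.T ^ 2 := by ring
  unfold mu nu
  rw [h2] at h
  omega

theorem formEval_start (K w v kap cB cW cV cE cN e0 del : ℕ)
    (he : e0 + cN = kap + 2 + cE) (hd : del + cN = cB * K + cW * w + cV * v + cE) :
    2 * kap * K ^ 2 + cB * K + cW * w + cV * v + e0 + 1 = (2 * K ^ 2 + 1) * kap + del + 3 := by
  zify at *
  linear_combination he - hd

theorem formEval_step (K w v L h mu kap kap' t1 A cB cB' B cW cW' W cV cV' V cE cE' cN cN' E del
    del' u : ℕ) (hL : L = 2 * K ^ 2 + 1) (hh : h = 2 * K + 2 * w + 2 * v + 5)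
    (hA : A + (kap + t1) = mu + kap') (hB : B + cB = 2 + cB') (hW : W + cW = 2 + cW')
    (hV : V + cV = 2 + cV') (hE : E + (cE + cN') = A + 4 + cE' + cN)
    (hd : del + cN = cB * K + cW * w + cV * v + cE)
    (hd' : del' + cN' = cB' * K + cW' * w + cV' * v + cE') :
    2 * A * K ^ 2 + B * K + W * w + V * v + E + 1 + (u * (L * mu + h) + L * kap + del + 3 + L * t1)
      = (u + 1) * (L * mu + h) + L * kap' + del' + 3 := by
  subst hL hh
  zify at *
  linear_combination (2 * (K : ℤ) ^ 2 + 1) * hA + (K : ℤ) * hB + (w : ℤ) * hW + (v : ℤ) * hV + hE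
    + hd - hd'

theorem formEval_exit (K w v L h mu kap t1 r A cB B cW W cV V cE cN E del u : ℕ)
    (hL : L = 2 * K ^ 2 + 1) (hh : h = 2 * K + 2 * w + 2 * v + 5)
    (hA : A + (kap + t1 + r) = mu) (hB : B + cB = 2) (hW : W + cW = 2)
    (hV : V + cV = 2) (hE : E + cE = A + 4 + cN)
    (hd : del + cN = cB * K + cW * w + cV * v + cE) :
    2 * A * K ^ 2 + B * K + W * w + V * v + E + 1
      + (u * (L * mu + h) + L * kap + del + 3 + L * t1 + r * L)
      = (u + 1) * (L * mu + h) + 3 := by
  subst hL hh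
  zify at *
  linear_combination (2 * (K : ℤ) ^ 2 + 1) * hA + (K : ℤ) * hB + (w : ℤ) * hW + (v : ℤ) * hV + hE
    + hd

theorem formEval_exit' (q : SPar) (K w v : ℕ) (hK : 1 ≤ K) (r : ℕ) (hr : r ≤ 1) (u : Fin q.G)
    (hu : (u : ℕ) + 1 = q.G) (j : Fin q.T) :
    (q.formExit r u j).eval K w v + 1 + ((q.par K w v).e u j + (q.par K w v).L * (q.T - 1)
      + r * (q.par K w v).L) = (q.par K w v).D := by
  have hmu := q.formEval_mu u j
  obtain ⟨b1, b2, b3, b4, b5⟩ := q.formEval_bd u j
  have h := formEval_exit K w v (2 * K ^ 2 + 1) (2 * K + 2 * w + 2 * v + 5) q.mu (q.kap u j)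
    (q.T - 1) r (q.mu - (q.kap u j + (q.T - 1) + r)) (q.cB u j) (2 - q.cB u j) (q.cW u j)
    (2 - q.cW u j) (q.cV u j) (2 - q.cV u j) (q.cE u j) (q.cN u j)
    ((q.mu - (q.kap u j + (q.T - 1) + r)) + 4 + q.cN u j - q.cE u j) ((q.par K w v).del u j) u
    rfl rfl (by omega) (by omega) (by omega) (by omega) (by omega) (q.formEval_del K w v hK u j)
  rw [hu] at h
  exact h

theorem form_eval (q : SPar) (hq : q.Good) (K w v : ℕ) (hK : 7 ≤ K) (hw : 1 ≤ w) (hwv : w < v)
    (hv : v < K) (a b : Job q.G q.T) :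
    (q.form a b).eval K w v + 1 = (q.par K w v).off a b := by
  have hC := q.formC_eval K w v
  have h0 : (Form.cst 0).eval K w v = 0 := by simp [Form.cst, Form.eval]
  have hL : (Form.mk 2 0 0 0 0).eval K w v + 1 = (q.par K w v).L := by
    show 2 * K ^ 2 + 0 * K + 0 * w + 0 * v + 0 + 1 = 2 * K ^ 2 + 1
    ring
  have hstart : ∀ (u : Fin q.G) (j : Fin q.T), (u : ℕ) = 0 →
      (q.formStart u j).eval K w v + 1 = (q.par K w v).e u j := by
    intro u j hu
    obtain ⟨b1, b2, b3, b4, b5⟩ := q.formEval_bd u j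
    have h := formEval_start K w v (q.kap u j) (q.cB u j) (q.cW u j) (q.cV u j) (q.cE u j)
      (q.cN u j) (q.kap u j + 2 + q.cE u j - q.cN u j) ((q.par K w v).del u j) (by omega)
      (q.formEval_del K w v (by omega) u j)
    have h2 : (q.par K w v).e u j =
        (u : ℕ) * ((2 * K ^ 2 + 1) * q.mu + (2 * K + 2 * w + 2 * v + 5)) +
        (2 * K ^ 2 + 1) * q.kap u j + (q.par K w v).del u j + 3 := rfl
    rw [h2, hu, zero_mul, zero_add]
    exact h
  have hstep : ∀ (u u' : Fin q.G) (j : Fin q.T), (u : ℕ) + 1 = u' →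
      (q.formStep u u' j).eval K w v + 1 =
        (q.par K w v).e u' j - ((q.par K w v).e u j + (q.par K w v).L * (q.T - 1)) := by
    intro u u' j hu
    have hmu := q.formEval_mu u j
    obtain ⟨b1, b2, b3, b4, b5⟩ := q.formEval_bd u j
    obtain ⟨c1, c2, c3, c4, c5⟩ := q.formEval_bd u' j
    have h := formEval_step K w v (2 * K ^ 2 + 1) (2 * K + 2 * w + 2 * v + 5) q.mu (q.kap u j)
      (q.kap u' j) (q.T - 1) (q.mu + q.kap u' j - (q.kap u j + (q.T - 1)))
      (q.cB u j) (q.cB u' j) (2 + q.cB u' j - q.cB u j)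
      (q.cW u j) (q.cW u' j) (2 + q.cW u' j - q.cW u j)
      (q.cV u j) (q.cV u' j) (2 + q.cV u' j - q.cV u j)
      (q.cE u j) (q.cE u' j) (q.cN u j) (q.cN u' j)
      ((q.mu + q.kap u' j - (q.kap u j + (q.T - 1))) + 4 + q.cE u' j + q.cN u j
        - (q.cE u j + q.cN u' j)) ((q.par K w v).del u j) ((q.par K w v).del u' j) u
      rfl rfl (by omega) (by omega) (by omega) (by omega) (by omega)
      (q.formEval_del K w v (by omega) u j) (q.formEval_del K w v (by omega) u' j)
    rw [hu] at h
    exact Nat.eq_sub_of_add_eq h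
  have hexit0 : ∀ (u : Fin q.G) (j : Fin q.T), (u : ℕ) + 1 = q.G →
      (q.formExit 0 u j).eval K w v + 1 =
        (q.par K w v).D - ((q.par K w v).e u j + (q.par K w v).L * (q.T - 1)) := by
    intro u j hu
    have h := q.formEval_exit' K w v (by omega) 0 (by omega) u hu j
    rw [zero_mul, add_zero] at h
    exact Nat.eq_sub_of_add_eq h
  have hexit1 : ∀ (u : Fin q.G) (j : Fin q.T), (u : ℕ) + 1 = q.G →
      (q.formExit 1 u j).eval K w v + 1 =
        (q.par K w v).D - ((q.par K w v).e u j + (q.par K w v).L * (q.T - 1)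
          + (q.par K w v).L) := by
    intro u j hu
    have h := q.formEval_exit' K w v (by omega) 1 (by omega) u hu j
    rw [one_mul] at h
    exact Nat.eq_sub_of_add_eq h
  cases a with
  | S =>
    cases b with
    | V u j =>
      show (if (u : ℕ) = 0 then q.formStart u j else q.formC).eval K w v + 1 =
        if (u : ℕ) = 0 then (q.par K w v).e u j else (q.par K w v).C + 1
      split_ifs with hu
      · exact hstart u j hu
      · rw [hC]
    | _ => exact congrArg (· + 1) hC
  | Z =>
    cases b with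
    | Q => exact congrArg (· + 1) h0
    | _ => exact congrArg (· + 1) hC
  | P =>
    cases b with
    | S => exact congrArg (· + 1) h0
    | Z => exact hL
    | _ => exact congrArg (· + 1) hC
  | Q =>
    cases b with
    | Z => exact hL
    | _ => exact congrArg (· + 1) hC
  | V u i =>
    cases b with
    | S => exact congrArg (· + 1) hC
    | V u' j =>
      show (if j = rot i 1 then if u = u' then (⟨2, 0, 0, 0, 0⟩ : Form)
        else if (u : ℕ) + 1 = u' then q.formStep u u' j else q.formC else q.formC).eval K w v + 1 =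
        if j = rot i 1 then if u = u' then (q.par K w v).L
        else if (u : ℕ) + 1 = u' then
          (q.par K w v).e u' j - ((q.par K w v).e u j + (q.par K w v).L * (q.T - 1))
        else (q.par K w v).C + 1 else (q.par K w v).C + 1
      split_ifs with h1 h2 h3
      · exact hL
      · exact hstep u u' j h3
      · rw [hC]
      · rw [hC]
    | Z =>
      show (if (u : ℕ) + 1 = q.G ∧ rot i 1 ≠ q.al ∧ rot i 1 ≠ q.be then
        q.formExit 0 u (rot i 1) else q.formC).eval K w v + 1 =
        if (u : ℕ) + 1 = q.G ∧ rot i 1 ≠ q.al ∧ rot i 1 ≠ q.be then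
        (q.par K w v).D - ((q.par K w v).e u (rot i 1) + (q.par K w v).L * (q.T - 1))
        else (q.par K w v).C + 1
      split_ifs with h1
      · exact hexit0 u _ h1.1
      · rw [hC]
    | P =>
      show (if (u : ℕ) + 1 = q.G ∧ rot i 1 = q.al then
        q.formExit 1 u (rot i 1) else q.formC).eval K w v + 1 =
        if (u : ℕ) + 1 = q.G ∧ rot i 1 = q.al then
        (q.par K w v).D - ((q.par K w v).e u (rot i 1) + (q.par K w v).L * (q.T - 1)
          + (q.par K w v).L)
        else (q.par K w v).C + 1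
      split_ifs with h1
      · exact hexit1 u _ h1.1
      · rw [hC]
    | Q =>
      show (if (u : ℕ) + 1 = q.G ∧ rot i 1 = q.be then
        q.formExit 1 u (rot i 1) else q.formC).eval K w v + 1 =
        if (u : ℕ) + 1 = q.G ∧ rot i 1 = q.be then
        (q.par K w v).D - ((q.par K w v).e u (rot i 1) + (q.par K w v).L * (q.T - 1)
          + (q.par K w v).L)
        else (q.par K w v).C + 1
      split_ifs with h1
      · exact hexit1 u _ h1.1
      · rw [hC]

theorem formC_good (q : SPar) : q.formC.Good := by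
  intro h
  exact absurd (show 2 * q.G * q.mu + 1 = 0 from h) (Nat.succ_ne_zero _)

theorem formEval_kap_pos (q : SPar) (u : Fin q.G) (τ : Fin q.T) : 0 < q.kap u τ := by
  have hs : q.s u < q.T := (q.par 0 0 0).s_lt u
  have hT : 0 < q.T := τ.pos
  unfold kap
  split_ifs
  · have : 4 * q.T * 1 ≤ 4 * q.T * ((q.c' u : ℕ) + 1) := Nat.mul_le_mul_left _ (by omega)
    omega
  · positivity

theorem formEval_form_good (q : SPar) (a b : Job q.G q.T) : (q.form a b).Good := by
  have hC := q.formC_good
  have h0 : (Form.cst 0).Good := fun _ => ⟨rfl, rfl, rfl⟩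
  have h2 : (⟨2, 0, 0, 0, 0⟩ : Form).Good := fun h => absurd (show (2 : ℕ) = 0 from h) (by omega)
  have hstart : ∀ u j, (q.formStart u j).Good := by
    intro u j h
    have h1 : 2 * q.kap u j = 0 := h
    have := q.formEval_kap_pos u j
    omega
  have hstep : ∀ u u' j, (q.formStep u u' j).Good := by
    intro u u' j h
    have h1 : 2 * (q.mu + q.kap u' j - (q.kap u j + (q.T - 1))) = 0 := h
    have := q.formEval_mu u j
    omega
  have hexit : ∀ r u j, r ≤ 1 → (q.formExit r u j).Good := by
    intro r u j hr h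
    have h1 : 2 * (q.mu - (q.kap u j + (q.T - 1) + r)) = 0 := h
    have := q.formEval_mu u j
    omega
  cases a with
  | S =>
    cases b with
    | V u j =>
      show (if (u : ℕ) = 0 then q.formStart u j else q.formC).Good
      split_ifs
      · exact hstart u j
      · exact hC
    | _ => exact hC
  | Z =>
    cases b with
    | Q => exact h0
    | _ => exact hC
  | P =>
    cases b with
    | S => exact h0
    | Z => exact h2
    | _ => exact hC
  | Q =>
    cases b with
    | Z => exact h2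
    | _ => exact hC
  | V u i =>
    cases b with
    | S => exact hC
    | V u' j =>
      show (if j = rot i 1 then if u = u' then (⟨2, 0, 0, 0, 0⟩ : Form)
        else if (u : ℕ) + 1 = u' then q.formStep u u' j else q.formC else q.formC).Good
      split_ifs
      · exact h2
      · exact hstep u u' j
      · exact hC
      · exact hC
    | Z =>
      show (if (u : ℕ) + 1 = q.G ∧ rot i 1 ≠ q.al ∧ rot i 1 ≠ q.be then
        q.formExit 0 u (rot i 1) else q.formC).Good
      split_ifs
      · exact hexit 0 u _ (by omega)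
      · exact hC
    | P =>
      show (if (u : ℕ) + 1 = q.G ∧ rot i 1 = q.al then
        q.formExit 1 u (rot i 1) else q.formC).Good
      split_ifs
      · exact hexit 1 u _ (by omega)
      · exact hC
    | Q =>
      show (if (u : ℕ) + 1 = q.G ∧ rot i 1 = q.be then
        q.formExit 1 u (rot i 1) else q.formC).Good
      split_ifs
      · exact hexit 1 u _ (by omega)
      · exact hC

theorem forms_good (q : SPar) (hq : q.Good) : ∀ F ∈ q.forms, F.Good := by
  have hcst : ∀ e, (Form.cst e).Good := fun e _ => ⟨rfl, rfl, rfl⟩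
  intro F hF
  unfold forms at hF
  rw [List.mem_cons, List.mem_cons, List.mem_cons, List.mem_append, List.mem_map,
    List.mem_flatMap] at hF
  rcases hF with rfl | rfl | rfl | ⟨j, -, rfl⟩ | ⟨a, -, hF⟩
  · exact fun h => absurd (show (1 : ℕ) = 0 from h) (by omega)
  · exact hcst _
  · exact hcst _
  · exact hcst _
  · rw [List.mem_map] at hF
    obtain ⟨b, -, rfl⟩ := hF
    split_ifs
    · exact hcst _
    · exact q.formEval_form_good _ _

end SPar

end Pool.Agent.Helper92.OS
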