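import Mathlib
import Pool.Agent.Helper92.OS.Core
import Pool.Agent.Helper92.OS.Opt
import Pool.Agent.Helper92.OS.FormEval

namespace Pool.Agent.Helper92.OS

namespace SPar

theorem inst_valid (q : SPar) (K w v : ℕ) (hK : 1 ≤ K) : (q.inst K w v).Valid where
  m_pos := by
    show 0 < K ^ 2
    positivity
  n_pos := by
    show 0 < Fintype.card (Job q.G q.T)
    exact Fintype.card_pos_iff.2 ⟨Job.S⟩
  batch_surj := Function.surjective_id
  setup_self := fun p => if_pos rfl

theorem enc_inst (q : SPar) (K w v : ℕ) :
    enc (q.inst K w v) = q.forms.flatMap (fun F => encNat (F.eval K w v)) := by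
  have h0 : ∀ e : ℕ, (Form.cst e).eval K w v = e := by
    intro e
    simp [Form.cst, Form.eval]
  have h1 : (⟨1, 0, 0, 0, 0⟩ : Form).eval K w v = K ^ 2 := by
    simp [Form.eval]
  unfold enc forms
  rw [List.flatMap_cons, List.flatMap_cons, List.flatMap_cons, List.flatMap_append, h0, h1,
    List.flatMap_map, List.flatMap_assoc]
  congr 3
  congr 1
  · refine List.flatMap_congr fun j _ => ?_
    rw [h0]
    rfl
  · refine List.flatMap_congr fun a _ => ?_
    rw [List.flatMap_map]
    refine List.flatMap_congr fun b _ => ?_
    congr 1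
    show (if a = b then 0 else (q.form (q.job a) (q.job b)).eval K w v) =
      (if a = b then Form.cst 0 else q.form (q.job a) (q.job b)).eval K w v
    by_cases hab : a = b
    · rw [if_pos hab, if_pos hab, h0]
    · rw [if_neg hab, if_neg hab]

theorem core_iff (q : SPar) (hq : q.Good) (K w v : ℕ) (hK : 7 ≤ K) (hw : 1 ≤ w) (hwv : w < v)
    (hv : v < K) (C : ℕ) (hC : IsMinMakespan (q.inst K w v) C) :
    C ≤ q.formC.eval K w v ↔ ∃ t, (q.par K w v).Core t := by
  rw [min_le_iff _ (q.inst_valid K w v (by omega)) C hC, q.formC_eval]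
  have hoff : ∀ j j' : Fin q.num, j ≠ j' → (q.inst K w v).setup j j' + 1 =
      (q.par K w v).off (q.job j) (q.job j') := by
    intro j j' hj
    rw [← q.form_eval hq K w v hK hw hwv hv]
    show (if j = j' then 0 else (q.form (q.job j) (q.job j')).eval K w v) + 1 = _
    rw [if_neg hj]
  have hoff' : ∀ a b : Job q.G q.T, q.job.symm a ≠ q.job.symm b →
      (q.inst K w v).setup (q.job.symm a) (q.job.symm b) + 1 = (q.par K w v).off a b := by
    intro a b hab
    have h1 := hoff _ _ hab
    have e1 : q.job (q.job.symm a) = a := q.job.apply_symm_apply a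
    have e2 : q.job (q.job.symm b) = b := q.job.apply_symm_apply b
    rwa [e1, e2] at h1
  constructor
  · rintro ⟨t, ht, hb⟩
    refine ⟨fun i a => t i (q.job.symm a), ?_, ?_, ?_, ?_⟩
    · intro i a b hab
      by_contra hne
      have hne' : q.job.symm a ≠ q.job.symm b := fun h => hne (q.job.symm.injective h)
      have hab' : t i (q.job.symm a) = t i (q.job.symm b) := hab
      have h1 := ht.machine i _ _ hne'
      simp only [hab'] at h1
      rcases h1 with h1 | h1 <;> linarith
    · intro a i i' hii
      by_contra hne
      have hii' : t i (q.job.symm a) = t i' (q.job.symm a) := hii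
      have h1 := ht.job (q.job.symm a) i i' hne
      simp only [hii'] at h1
      rcases h1 with h1 | h1 <;> linarith
    · intro i a b hab
      obtain ⟨h1, h2⟩ := hab
      have h1' : t i (q.job.symm a) < t i (q.job.symm b) := h1
      have hne : q.job.symm a ≠ q.job.symm b := by
        intro h
        rw [h] at h1'
        exact lt_irrefl _ h1'
      have h3 := ht.setup i (q.job.symm a) (q.job.symm b) hne (by exact_mod_cast h1') (by
        intro k hk
        obtain ⟨c, rfl⟩ : ∃ c : Job q.G q.T, q.job.symm c = k :=
          ⟨q.job k, q.job.symm_apply_apply k⟩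
        apply h2 c
        show t i (q.job.symm a) < t i (q.job.symm c) ∧ t i (q.job.symm c) < t i (q.job.symm b)
        exact_mod_cast hk)
      have h4 : t i (q.job.symm a) + 1 + (q.inst K w v).setup (q.job.symm a) (q.job.symm b) ≤
          t i (q.job.symm b) := by exact_mod_cast h3
      have h5 := hoff' a b hne
      show t i (q.job.symm a) + (q.par K w v).off a b ≤ t i (q.job.symm b)
      omega
    · intro i a
      exact hb i _
  · rintro ⟨t, ht⟩
    refine ⟨fun i j => t i (q.job j), ⟨?_, ?_, ?_, ?_⟩, ?_⟩
    · intro i j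
      exact Nat.cast_nonneg _
    · intro i j j' hj
      have h1 : t i (q.job j) ≠ t i (q.job j') := fun h =>
        hj (q.job.injective (ht.machine i h))
      rcases Nat.lt_or_gt_of_ne h1 with h2 | h2
      · left
        exact_mod_cast h2
      · right
        exact_mod_cast h2
    · intro j i i' hi
      have h1 : t i (q.job j) ≠ t i' (q.job j) := fun h => hi (ht.job (q.job j) h)
      rcases Nat.lt_or_gt_of_ne h1 with h2 | h2
      · left
        exact_mod_cast h2
      · right
        exact_mod_cast h2
    · intro i j j' hj h1 h2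
      have hj' : j ≠ j' := hj
      have h3 : t i (q.job j) + (q.par K w v).off (q.job j) (q.job j') ≤ t i (q.job j') := by
        refine ht.setup i _ _ ⟨by exact_mod_cast h1, fun c hc => ?_⟩
        obtain ⟨k, rfl⟩ : ∃ k : Fin q.num, q.job k = c :=
          ⟨q.job.symm c, q.job.apply_symm_apply c⟩
        apply h2 k
        show ((t i (q.job j) : ℕ) : ℝ) < ((t i (q.job k) : ℕ) : ℝ) ∧
          ((t i (q.job k) : ℕ) : ℝ) < ((t i (q.job j') : ℕ) : ℝ)
        exact_mod_cast hc
      have h4 := hoff j j' hj'
      have h5 : t i (q.job j) + 1 + (q.inst K w v).setup j j' ≤ t i (q.job j') := by omega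
      exact_mod_cast h5
    · intro i j
      exact ht.bound i _

end SPar

end Pool.Agent.Helper92.OS
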