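import Pool.Agent.Helper92.OS.Prog
import Pool.Agent.Helper92.OS.Bits

/-!
# OSB, module Elem: elementary programs

Specifications (result and running time) of the elementary programs `mv`, `clr`, `dup`, `addc`,
`inc`, `toBin`, `pushN`, `stick`.
-/

set_option autoImplicit false

namespace Pool.Agent.Helper92.OS

open Pool.Agent.Helper62

section
open Function

theorem Elem.isOne_bitSym (b : Bool) : isOne (some (bitSym b)) = b := by
  cases b <;> rfl

theorem mv_spec (a b : OW) (hab : a ≠ b) (r : Reg) (i o : List Bool) (s : OW → List Sym) :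
    ORuns (mv a b) ⟨r, i, o, s⟩
      ⟨{ r with x := none }, i, o, update (update s a []) b ((s a).reverse ++ s b)⟩
      (2 * (s a).length + 1) := by
  obtain ⟨l, hl⟩ : ∃ l, l = s a := ⟨_, rfl⟩
  rw [← hl]
  induction l generalizing r s with
  | nil =>
    have hs : update (update s a []) b (([] : List Sym).reverse ++ s b) = update s a [] := by
      funext k
      by_cases h1 : k = b
      · subst h1; simp [Ne.symm hab]
      · simp [h1]
    rw [hs]
    refine Runs.loop_done ?_ rfl
    simp [runOps, Op.run, ← hl]
  | cons x l ih =>
    have h := ih { r with x := some x } (update (update s a l) b (x :: s b)) (by simp [hab])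
    have hs : update (update (update (update s a l) b (x :: s b)) a []) b
        (l.reverse ++ update (update s a l) b (x :: s b) b) =
        update (update s a []) b ((x :: l).reverse ++ s b) := by
      funext k
      by_cases h1 : k = b
      · subst h1; simp
      · by_cases h2 : k = a
        · subst h2; simp [h1]
        · simp [h1, h2]
    rw [hs] at h
    refine Runs.mono (Runs.loop_step (s₁ := ⟨{ r with x := some x }, i, o, update s a l⟩)
      ?_ rfl (Runs.act' ?_) h) ?_
    · simp [runOps, Op.run, ← hl]
    · simp [runOps, Op.run, Ne.symm hab]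
    · simp only [List.length_cons]; omega

theorem clr_spec (a : OW) (r : Reg) (i o : List Bool) (s : OW → List Sym) :
    ORuns (clr a) ⟨r, i, o, s⟩ ⟨{ r with x := none }, i, o, update s a []⟩
      (2 * (s a).length + 1) := by
  obtain ⟨l, hl⟩ : ∃ l, l = s a := ⟨_, rfl⟩
  rw [← hl]
  induction l generalizing r s with
  | nil =>
    refine Runs.loop_done ?_ rfl
    simp [runOps, Op.run, ← hl]
  | cons x l ih =>
    have h := ih { r with x := some x } (update s a l) (by simp)
    rw [update_idem] at h
    refine Runs.mono (Runs.loop_step (s₁ := ⟨{ r with x := some x }, i, o, update s a l⟩)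
      ?_ rfl (Runs.act' ?_) h) ?_
    · simp [runOps, Op.run, ← hl]
    · simp [runOps]
    · simp only [List.length_cons]; omega

theorem Elem.dup_loop (a t b : OW) (hat : a ≠ t) (hab : a ≠ b) (htb : t ≠ b) (r : Reg)
    (i o : List Bool) (s : OW → List Sym) :
    ORuns (.loop [popX t] (fun r => r.x.isSome)
      (.act [.pushO a (fun r => r.x), .pushO b (fun r => r.x)])) ⟨r, i, o, s⟩
      ⟨{ r with x := none }, i, o, update (update (update s t []) a ((s t).reverse ++ s a)) b
        ((s t).reverse ++ s b)⟩
      (2 * (s t).length + 1) := by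
  obtain ⟨l, hl⟩ : ∃ l, l = s t := ⟨_, rfl⟩
  rw [← hl]
  induction l generalizing r s with
  | nil =>
    have hs : update (update (update s t []) a (([] : List Sym).reverse ++ s a)) b
        (([] : List Sym).reverse ++ s b) = update s t [] := by
      funext k
      by_cases h1 : k = b
      · subst h1; simp [Ne.symm htb]
      · by_cases h2 : k = a
        · subst h2; simp [h1, hat]
        · simp [h1, h2]
    rw [hs]
    refine Runs.loop_done ?_ rfl
    simp [runOps, Op.run, ← hl]
  | cons x l ih =>
    have h := ih { r with x := some x }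
      (update (update (update s t l) a (x :: s a)) b (x :: s b)) (by simp [htb, Ne.symm hat])
    have hs : update (update (update (update (update (update s t l) a (x :: s a)) b (x :: s b)) t [])
        a (l.reverse ++ (update (update (update s t l) a (x :: s a)) b (x :: s b)) a)) b
        (l.reverse ++ (update (update (update s t l) a (x :: s a)) b (x :: s b)) b) =
        update (update (update s t []) a ((x :: l).reverse ++ s a)) b
          ((x :: l).reverse ++ s b) := by
      funext k
      by_cases h1 : k = b
      · subst h1; simp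
      · by_cases h2 : k = a
        · subst h2; simp [h1]
        · by_cases h3 : k = t
          · subst h3; simp [h1, h2]
          · simp [h1, h2, h3]
    rw [hs] at h
    refine Runs.mono (Runs.loop_step (s₁ := ⟨{ r with x := some x }, i, o, update s t l⟩)
      ?_ rfl (Runs.act' ?_) h) ?_
    · simp [runOps, Op.run, ← hl]
    · simp [runOps, Op.run, hat, Ne.symm hab, Ne.symm htb]
    · simp only [List.length_cons]; omega

theorem dup_spec (a t b : OW) (hat : a ≠ t) (hab : a ≠ b) (htb : t ≠ b) (r : Reg)
    (i o : List Bool) (s : OW → List Sym) (ht : s t = []) :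
    ORuns (dup a t b) ⟨r, i, o, s⟩ ⟨{ r with x := none }, i, o, update s b (s a ++ s b)⟩
      (4 * (s a).length + 2) := by
  have h1 := mv_spec a t hat r i o s
  have h2 := Elem.dup_loop a t b hat hab htb { r with x := none } i o
    (update (update s a []) t ((s a).reverse ++ s t))
  have hs : update (update (update (update (update s a []) t ((s a).reverse ++ s t)) t []) a
      (((update (update s a []) t ((s a).reverse ++ s t)) t).reverse ++
        (update (update s a []) t ((s a).reverse ++ s t)) a)) b
      (((update (update s a []) t ((s a).reverse ++ s t)) t).reverse ++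
        (update (update s a []) t ((s a).reverse ++ s t)) b) = update s b (s a ++ s b) := by
    funext k
    by_cases e1 : k = b
    · subst e1; simp [ht, Ne.symm htb, Ne.symm hab]
    · by_cases e2 : k = a
      · subst e2; simp [e1, hat, ht]
      · by_cases e3 : k = t
        · subst e3; simp [e1, e2, ht]
        · simp [e1, e2, e3]
  rw [hs] at h2
  refine Runs.mono (Runs.seq h1 h2) ?_
  simp [ht]
  omega

/-- The length of the result of an addition. -/
theorem Elem.length_addB (c : Bool) (as bs : List Bool) :
    (addB c as bs).length ≤ as.length + bs.length + 1 := by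
  induction as generalizing c bs with
  | nil =>
    induction bs generalizing c with
    | nil => cases c <;> simp [addB]
    | cons b bs ih =>
      rw [addB]
      have := ih (b && c)
      simp only [List.length_cons, List.length_nil] at this ⊢
      omega
  | cons a as ih =>
    cases bs with
    | nil =>
      rw [addB]
      have := ih (a && c) []
      simp only [List.length_cons, List.length_nil] at this ⊢
      omega
    | cons b bs =>
      rw [addB]
      have := ih (a && b || a && c || b && c) bs
      simp only [List.length_cons] at this ⊢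
      omega

theorem Elem.isOne_none : isOne none = false := rfl

/-- One step of an addition. -/
theorem Elem.addB_step (c : Bool) (A B : List Bool) (h : A.head?.isSome || B.head?.isSome || c) :
    addB c A B = (isOne (A.head?.map bitSym) ^^ (isOne (B.head?.map bitSym) ^^ c)) ::
      addB ((isOne (A.head?.map bitSym) && isOne (B.head?.map bitSym)) ||
        (isOne (A.head?.map bitSym) && c) || (isOne (B.head?.map bitSym) && c)) A.tail B.tail := by
  rcases A with _ | ⟨p, A⟩ <;> rcases B with _ | ⟨q, B⟩
  · cases c
    · simp at h
    · simp [addB, Elem.isOne_none]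
  · rw [addB]; simp [Elem.isOne_bitSym, Elem.isOne_none]
  · rw [addB]; simp [Elem.isOne_bitSym, Elem.isOne_none]
  · rw [addB]; simp [Elem.isOne_bitSym]

/-- The loop of `addc`. -/
theorem Elem.addc_loop (a : OW) (h1 : a ≠ .Acc) (h2 : a ≠ .T1) (h3 : a ≠ .T2)
    (A B : List Bool) (r : Reg) (i o : List Bool) (s : OW → List Sym)
    (hA : s a = A.map bitSym) (hB : s .Acc = B.map bitSym) :
    ∃ r', r'.gt = r.gt ∧
      ORuns (.loop [popX a, popY .Acc] (fun r => r.x.isSome || r.y.isSome || r.cy)
        (.act [.pushO .T1 (fun r => r.x), .push .T2 sumD,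
          .load (fun r => { r with cy := carryD r })])) ⟨r, i, o, s⟩
      ⟨r', i, o, update (update (update (update s a []) .Acc []) .T1
        ((A.map bitSym).reverse ++ s .T1)) .T2 (((addB r.cy A B).map bitSym).reverse ++ s .T2)⟩
      (2 * (addB r.cy A B).length + 1) := by
  obtain ⟨n, hn⟩ : ∃ n, n = (addB r.cy A B).length := ⟨_, rfl⟩
  rw [← hn]
  induction n generalizing A B r s with
  | zero =>
    have hh : ¬ (A.head?.isSome || B.head?.isSome || r.cy) := by
      intro h
      rw [Elem.addB_step _ _ _ h] at hn
      simp at hn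
    have hA0 : A = [] := by
      rcases A with _ | ⟨p, A⟩
      · rfl
      · simp at hh
    have hB0 : B = [] := by
      rcases B with _ | ⟨p, B⟩
      · rfl
      · simp at hh
    have hc : r.cy = false := by
      by_contra h
      simp at h
      simp [h] at hh
    subst hA0 hB0
    rw [hc]
    refine ⟨{ r with x := none, y := none }, rfl, ?_⟩
    have hs : update (update (update (update s a []) .Acc []) .T1
        ((([] : List Bool).map bitSym).reverse ++ s .T1)) .T2
        (((addB false [] []).map bitSym).reverse ++ s .T2) =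
        update (update s a []) .Acc [] := by
      funext k
      by_cases e1 : k = .T2
      · subst e1; simp [addB, Ne.symm h3]
      · by_cases e2 : k = .T1
        · subst e2; simp [addB, Ne.symm h2]
        · simp [addB, e1, e2]
    rw [hs]
    refine Runs.mono (Runs.loop_done ?_ ?_) (Nat.le_refl _)
    · simp [runOps, Op.run, hA, hB, Ne.symm h1]
    · simp [hc]
  | succ n ih =>
    have hh : A.head?.isSome || B.head?.isSome || r.cy := by
      by_contra h
      have hA0 : A = [] := by
        rcases A with _ | ⟨p, A⟩
        · rfl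
        · simp at h
      have hB0 : B = [] := by
        rcases B with _ | ⟨p, B⟩
        · rfl
        · simp at h
      subst hA0 hB0
      have hc : r.cy = false := by
        by_contra h'
        simp at h'
        simp [h'] at h
      rw [hc] at hn
      simp [addB] at hn
    have hstep := Elem.addB_step _ _ _ hh
    rw [hstep] at hn
    set r₁ : Reg := { r with x := A.head?.map bitSym, y := B.head?.map bitSym } with hr₁
    set r₂ : Reg := { r₁ with cy := carryD r₁ } with hr₂
    obtain ⟨r', hg, h⟩ := ih A.tail B.tail r₂
      (update (update (update (update s a (A.tail.map bitSym)) .Acc (B.tail.map bitSym)) .T1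
        ((A.head?.map bitSym).toList ++ s .T1)) .T2 (sumD r₁ :: s .T2))
      (by simp [h1, h2, h3]) (by simp) (by
        simpa [hr₂, hr₁, carryD] using hn)
    refine ⟨r', hg, ?_⟩
    have hs : update (update (update (update (update (update (update (update s a
        (A.tail.map bitSym)) .Acc (B.tail.map bitSym)) .T1
        ((A.head?.map bitSym).toList ++ s .T1)) .T2 (sumD r₁ :: s .T2)) a []) .Acc []) .T1
        ((A.tail.map bitSym).reverse ++ (update (update (update (update s a
        (A.tail.map bitSym)) .Acc (B.tail.map bitSym)) .T1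
        ((A.head?.map bitSym).toList ++ s .T1)) .T2 (sumD r₁ :: s .T2)) .T1)) .T2
        (((addB r₂.cy A.tail B.tail).map bitSym).reverse ++ (update (update (update (update s a
        (A.tail.map bitSym)) .Acc (B.tail.map bitSym)) .T1
        ((A.head?.map bitSym).toList ++ s .T1)) .T2 (sumD r₁ :: s .T2)) .T2) =
        update (update (update (update s a []) .Acc []) .T1
        ((A.map bitSym).reverse ++ s .T1)) .T2 (((addB r.cy A B).map bitSym).reverse ++ s .T2) := by
      rw [hstep]
      funext k
      by_cases e1 : k = .T2
      · subst e1; simp [sumD, hr₁, hr₂, carryD]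
      · by_cases e2 : k = .T1
        · subst e2
          rcases A with _ | ⟨p, A⟩ <;> simp [e1]
        · by_cases e3 : k = .Acc
          · subst e3; simp
          · by_cases e4 : k = a
            · subst e4; simp [e1, e2, e3]
            · simp [e1, e2, e3, e4]
    rw [hs] at h
    refine Runs.mono (Runs.loop_step (s₁ := ⟨r₁, i, o, update (update s a (A.tail.map bitSym))
      .Acc (B.tail.map bitSym)⟩) ?_ ?_ (Runs.act' ?_) h) ?_
    · simp [runOps, Op.run, hA, hB, Ne.symm h1, hr₁]
    · simpa [hr₁] using hh
    · rcases A with _ | ⟨p, A⟩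
      · simp [runOps, Op.run, hr₂, hr₁, Ne.symm h3, sumD]
        funext k
        by_cases e1 : k = .T2
        · subst e1; simp
        · by_cases e2 : k = .T1
          · subst e2; simp [Ne.symm h2]
          · simp [e1, e2]
      · simp [runOps, Op.run, hr₂, hr₁, Ne.symm h2, Ne.symm h3, sumD]
    · omega

theorem addc_spec (a : OW) (h1 : a ≠ .Acc) (h2 : a ≠ .T1) (h3 : a ≠ .T2) (x y : ℕ) (r : Reg)
    (i o : List Bool) (s : OW → List Sym) (hx : s a = bitsS x) (hy : s .Acc = bitsS y)
    (ht1 : s .T1 = []) (ht2 : s .T2 = []) :
    ∃ r', r'.gt = r.gt ∧ ORuns (addc a) ⟨r, i, o, s⟩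
      ⟨r', i, o, update s .Acc (bitsS (x + y + r.cy.toNat))⟩ (10 * (x.size + y.size + 1)) := by
  obtain ⟨r₁, hg, hr⟩ := Elem.addc_loop a h1 h2 h3 (Nat.bits x) (Nat.bits y) r i o s hx hy
  rw [addB_bits] at hr
  have hl : ((Nat.bits (x + y + r.cy.toNat)).length) ≤ x.size + y.size + 1 := by
    rw [← addB_bits]
    refine (Elem.length_addB _ _ _).trans ?_
    rw [← Nat.size_eq_bits_len, ← Nat.size_eq_bits_len]
  set S₁ : OW → List Sym := update (update (update (update s a []) .Acc [])
    .T1 (((Nat.bits x).map bitSym).reverse ++ s .T1)) .T2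
    (((Nat.bits (x + y + r.cy.toNat)).map bitSym).reverse ++ s .T2) with hS₁
  have m1 := mv_spec .T1 a (Ne.symm h2) r₁ i o S₁
  set S₂ : OW → List Sym := update (update S₁ .T1 []) a ((S₁ .T1).reverse ++ S₁ a) with hS₂
  have m2 := mv_spec .T2 .Acc (by decide) { r₁ with x := none } i o S₂
  have e1 : S₁ .T1 = (bitsS x).reverse := by simp [hS₁, ht1, bitsS]
  have e2 : S₂ .T2 = (bitsS (x + y + r.cy.toNat)).reverse := by
    simp [hS₂, hS₁, ht2, bitsS, Ne.symm h3]
  have hs : update (update S₂ .T2 []) .Acc ((S₂ .T2).reverse ++ S₂ .Acc) =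
      update s .Acc (bitsS (x + y + r.cy.toNat)) := by
    rw [e2]
    funext k
    by_cases k1 : k = .Acc
    · subst k1; simp [hS₂, hS₁, Ne.symm h1]
    · by_cases k2 : k = .T2
      · subst k2; simp [ht2]
      · by_cases k3 : k = a
        · subst k3; simp [k1, k2, hS₂, e1, hx]; simp [hS₁, k1, k2, h2]
        · by_cases k4 : k = .T1
          · subst k4; simp [hS₂, k3, ht1]
          · simp [hS₂, hS₁, k1, k2, k3, k4]
  rw [hs] at m2
  refine ⟨_, ?_, Runs.mono (Runs.seq hr (Runs.seq m1 m2)) ?_⟩
  · simpa using hg
  · rw [e1, e2]
    simp only [List.length_reverse, length_bitsS]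
    have hb := Nat.size_eq_bits_len (x + y + r.cy.toNat)
    omega

theorem inc_spec (y : ℕ) (r : Reg) (i o : List Bool) (s : OW → List Sym) (he : s .E0 = [])
    (hy : s .Acc = bitsS y) (ht1 : s .T1 = []) (ht2 : s .T2 = []) :
    ∃ r', r'.gt = r.gt ∧ ORuns inc ⟨r, i, o, s⟩ ⟨r', i, o, update s .Acc (bitsS (y + 1))⟩
      (10 * (y.size + 2)) := by
  obtain ⟨r', hg, h⟩ := addc_spec .E0 (by decide) (by decide) (by decide) 0 y
    { r with cy := true } i o s (by simp [he, bitsS]) hy ht1 ht2
  refine ⟨r', hg, ?_⟩
  refine Runs.mono (Runs.seq (Runs.act' rfl) (s'' := ⟨r', i, o, update s .Acc (bitsS (y + 1))⟩)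
    (B₂ := 10 * (0 + y.size + 1)) ?_) ?_
  · simpa [runOps, Op.run] using h
  · omega

/-- The loop of `toBin`. -/
theorem Elem.toBin_loop (a : OW) (ha : a ≠ .Acc) (ha1 : a ≠ .T1) (ha2 : a ≠ .T2)
    (ha3 : a ≠ .E0) (l : List Sym) (j N : ℕ) (r : Reg)
    (i o : List Bool) (s : OW → List Sym) (hl : s a = l) (hN : j + l.length ≤ N)
    (he : s .E0 = []) (hy : s .Acc = bitsS j)
    (ht1 : s .T1 = []) (ht2 : s .T2 = []) :
    ∃ r', ORuns (.loop [popX a] (fun r => r.x.isSome) inc) ⟨r, i, o, s⟩
      ⟨r', i, o, update (update s a []) .Acc (bitsS (j + l.length))⟩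
      (l.length * (10 * (N.size + 2) + 1) + 1) := by
  induction l generalizing j r s with
  | nil =>
    refine ⟨{ r with x := none }, Runs.mono (Runs.loop_done ?_ rfl) (Nat.le_add_left _ _)⟩
    simp only [runOps, Op.run, hl, List.head?_nil, List.tail_nil, List.length_nil, Nat.add_zero]
    congr 1
    funext k
    by_cases k1 : k = .Acc
    · subst k1; simp [Ne.symm ha, hy]
    · simp [k1]
  | cons x l ih =>
    obtain ⟨r₁, -, h1⟩ := inc_spec j { r with x := some x } i o (update s a l)
      (by simp [Ne.symm ha3, he]) (by simp [Ne.symm ha, hy]) (by simp [Ne.symm ha1, ht1])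
      (by simp [Ne.symm ha2, ht2])
    obtain ⟨r₂, h2⟩ := ih (j + 1) r₁ (update (update s a l) .Acc (bitsS (j + 1)))
      (by simp [ha]) (by simp only [List.length_cons] at hN; omega)
      (by simp [Ne.symm ha3, he]) (by simp) (by simp [Ne.symm ha1, ht1])
      (by simp [Ne.symm ha2, ht2])
    have hs : update (update (update (update s a l) .Acc (bitsS (j + 1))) a []) .Acc
        (bitsS (j + 1 + l.length)) = update (update s a []) .Acc (bitsS (j + (x :: l).length)) := by
      have : j + (x :: l).length = j + 1 + l.length := by simp only [List.length_cons]; omega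
      rw [this]
      funext k
      by_cases k1 : k = .Acc
      · subst k1; simp
      · by_cases k2 : k = a
        · subst k2; simp [k1]
        · simp [k1, k2]
    rw [hs] at h2
    refine ⟨r₂, Runs.mono (Runs.loop_step (s₁ := ⟨{ r with x := some x }, i, o, update s a l⟩)
      ?_ rfl h1 h2) ?_⟩
    · simp [runOps, Op.run, hl]
    · have : j.size ≤ N.size := Nat.size_le_size (by omega)
      have h3 : (x :: l).length * (10 * (N.size + 2) + 1) =
        l.length * (10 * (N.size + 2) + 1) + (10 * (N.size + 2) + 1) := by
        simp only [List.length_cons]; ring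
      rw [h3]
      omega

theorem toBin_spec (a b : OW) (hab : a ≠ b) (ha : a ≠ .Acc) (ha1 : a ≠ .T1) (ha2 : a ≠ .T2)
    (ha3 : a ≠ .E0) (hb : b ≠ .Acc) (hb1 : b ≠ .T1) (hb2 : b ≠ .T2) (hb3 : b ≠ .E0) (r : Reg)
    (i o : List Bool) (s : OW → List Sym) (hsb : s b = []) (he : s .E0 = []) (hy : s .Acc = [])
    (ht1 : s .T1 = []) (ht2 : s .T2 = []) :
    ∃ r', ORuns (toBin a b) ⟨r, i, o, s⟩
      ⟨r', i, o, update (update s a []) b (bitsS (s a).length)⟩
      (20 * ((s a).length + 1) * ((s a).length.size + 2)) := by
  obtain ⟨r₁, h1⟩ := Elem.toBin_loop a ha ha1 ha2 ha3 (s a) 0 (s a).length r i o s rfl (by omega)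
    he (by simp [hy, bitsS]) ht1 ht2
  rw [Nat.zero_add] at h1
  set n := (s a).length with hn
  set S₁ : OW → List Sym := update (update s a []) .Acc (bitsS n) with hS₁
  have m1 := mv_spec .Acc .T1 (by decide) r₁ i o S₁
  set S₂ : OW → List Sym := update (update S₁ .Acc []) .T1 ((S₁ .Acc).reverse ++ S₁ .T1) with hS₂
  have m2 := mv_spec .T1 b (Ne.symm hb1) { r₁ with x := none } i o S₂
  have e1 : S₁ .Acc = bitsS n := by simp [hS₁]
  have e2 : S₂ .T1 = (bitsS n).reverse := by
    simp [hS₂, hS₁, ht1, Ne.symm ha1]
  have hs : update (update S₂ .T1 []) b ((S₂ .T1).reverse ++ S₂ b) =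
      update (update s a []) b (bitsS n) := by
    rw [e2]
    funext k
    by_cases k1 : k = b
    · subst k1; simp [hS₂, hS₁, hb, hb1, hsb, Ne.symm hab]
    · by_cases k2 : k = .T1
      · subst k2; simp [k1, Ne.symm ha1, ht1]
      · by_cases k3 : k = .Acc
        · subst k3; simp [k1, k2, hS₂, Ne.symm ha, hy]
        · simp [k1, k2, k3, hS₂, hS₁]
  rw [hs] at m2
  refine ⟨_, Runs.mono (Runs.seq h1 (Runs.seq m1 m2)) ?_⟩
  rw [e1, e2]
  simp only [List.length_reverse, length_bitsS]
  nlinarith [Nat.zero_le (n * n.size)]

theorem pushN_spec (n : ℕ) (a : OW) (r : Reg) (i o : List Bool) (s : OW → List Sym) :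
    ORuns (pushN n a) ⟨r, i, o, s⟩ ⟨r, i, o, update s a (ticks n ++ s a)⟩ 1 := by
  refine Runs.act' ?_
  induction n generalizing s with
  | zero => simp [runOps, ticks]
  | succ n ih =>
    rw [List.replicate_succ]
    simp only [runOps, Op.run]
    rw [ih]
    congr 1
    rw [update_idem, update_self]
    congr 1
    rw [ticks, ticks, List.replicate_succ']
    simp

/-- Pushing the ticks in `stick`. -/
theorem Elem.push_ticks (n : ℕ) (a : OW) (r : Reg) (i o : List Bool) (s : OW → List Sym) :
    runOps (List.replicate n (.push a (fun _ => .one))) (⟨r, i, o, s⟩ : OSt) =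
      ⟨r, i, o, update s a (ticks n ++ s a)⟩ := by
  induction n generalizing s with
  | zero => simp [runOps, ticks]
  | succ n ih =>
    rw [List.replicate_succ]
    simp only [runOps, Op.run]
    rw [ih]
    congr 1
    rw [update_idem, update_self]
    congr 1
    rw [ticks, ticks, List.replicate_succ']
    simp

/-- The loop of `stick`. -/
theorem Elem.stick_loop (e : ℕ) (r : Reg) (i o : List Bool) (s : OW → List Sym) (l : List Sym)
    (hl : s .X = l) :
    ORuns (.loop [popX .X] (fun r => r.x.isSome)
      (.act (.pushO .T1 (fun r => r.x) :: List.replicate (4 * e) (.push .St (fun _ => .one)))))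
      ⟨r, i, o, s⟩
      ⟨{ r with x := none }, i, o, update (update (update s .X []) .T1 (l.reverse ++ s .T1)) .St
        (ticks (4 * e * l.length) ++ s .St)⟩ (2 * l.length + 1) := by
  induction l generalizing r s with
  | nil =>
    refine Runs.mono (Runs.loop_done ?_ rfl) (Nat.le_add_left _ _)
    simp only [runOps, Op.run, hl, List.head?_nil, List.tail_nil, List.length_nil, Nat.mul_zero]
    congr 1
    funext k
    by_cases k1 : k = .St
    · subst k1; simp [ticks]
    · by_cases k2 : k = .T1
      · subst k2; simp
      · simp [k1, k2]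
  | cons x l ih =>
    have h := ih { r with x := some x }
      (update (update (update s .X l) .T1 (x :: s .T1)) .St (ticks (4 * e) ++ s .St)) (by simp)
    have hs : update (update (update (update (update (update s .X l) .T1 (x :: s .T1)) .St
        (ticks (4 * e) ++ s .St)) .X []) .T1 (l.reverse ++ (update (update (update s .X l) .T1
        (x :: s .T1)) .St (ticks (4 * e) ++ s .St)) .T1)) .St
        (ticks (4 * e * l.length) ++ (update (update (update s .X l) .T1
        (x :: s .T1)) .St (ticks (4 * e) ++ s .St)) .St) =
        update (update (update s .X []) .T1 ((x :: l).reverse ++ s .T1)) .St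
        (ticks (4 * e * (x :: l).length) ++ s .St) := by
      funext k
      by_cases k1 : k = .St
      · subst k1
        simp only [update_self]
        rw [← List.append_assoc]
        congr 1
        rw [ticks, ticks, ticks, List.replicate_append_replicate]
        simp only [List.length_cons]
        congr 1
      · by_cases k2 : k = .T1
        · subst k2; simp
        · by_cases k3 : k = .X
          · subst k3; simp
          · simp [k1, k2, k3]
    rw [hs] at h
    refine Runs.mono (Runs.loop_step (s₁ := ⟨{ r with x := some x }, i, o, update s .X l⟩)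
      ?_ rfl (Runs.act' ?_) h) ?_
    · simp [runOps, Op.run, hl]
    · rw [runOps, show (Op.pushO OW.T1 (fun r : Reg => r.x) : Op Bool Bool OW Sym Reg).run
        ⟨{ r with x := some x }, i, o, update s .X l⟩ =
        ⟨{ r with x := some x }, i, o, update (update s .X l) .T1 (x :: s .T1)⟩ by
          simp [Op.run]]
      rw [Elem.push_ticks]
      congr 1
    · simp only [List.length_cons]; omega

theorem stick_spec (e : ℕ) (r : Reg) (i o : List Bool) (s : OW → List Sym) (ht1 : s .T1 = []) :
    ORuns (stick e) ⟨r, i, o, s⟩
      ⟨{ r with x := none }, i, o,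
        update s .St (ticks (4 * e * ((s .X).length + 1) + 1) ++ s .St)⟩
      (4 * (s .X).length + 3) := by
  have h1 := Elem.stick_loop e r i o s (s .X) rfl
  set S₁ : OW → List Sym := update (update (update s .X []) .T1 ((s .X).reverse ++ s .T1)) .St
        (ticks (4 * e * (s .X).length) ++ s .St) with hS₁
  have m1 := mv_spec .T1 .X (by decide) { r with x := none } i o S₁
  set S₂ : OW → List Sym := update (update S₁ .T1 []) .X ((S₁ .T1).reverse ++ S₁ .X) with hS₂
  have m2 := pushN_spec (4 * e + 1) .St { r with x := none } i o S₂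
  have e1 : S₁ .T1 = (s .X).reverse := by simp [hS₁, ht1]
  have hs : update S₂ .St (ticks (4 * e + 1) ++ S₂ .St) =
      update s .St (ticks (4 * e * ((s .X).length + 1) + 1) ++ s .St) := by
    funext k
    by_cases k1 : k = .St
    · subst k1
      simp only [update_self]
      have e3 : S₂ .St = ticks (4 * e * (s .X).length) ++ s .St := by simp [hS₂, hS₁]
      rw [e3, ← List.append_assoc]
      congr 1
      rw [ticks, ticks, ticks, List.replicate_append_replicate]
      congr 1
      ring
    · by_cases k2 : k = .X
      · subst k2; simp [hS₂, e1]; simp [hS₁]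
      · by_cases k3 : k = .T1
        · subst k3; simp [hS₂, ht1]
        · simp [hS₂, hS₁, k1, k2, k3]
  rw [hs] at m2
  refine Runs.mono (Runs.seq h1 (Runs.seq m1 m2)) ?_
  rw [e1, List.length_reverse]
  omega

end

end Pool.Agent.Helper92.OS
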