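import Pool.Agent.Helper92.OS.Prog
import Pool.Agent.Helper92.OS.Bits
import Pool.Agent.Helper92.OS.Elem

/-!
# OSB, module Interp: the template interpreter

The program `interp` executes the template language.
-/

set_option autoImplicit false

namespace Pool.Agent.Helper92.OS

open Pool.Agent.Helper62 Function

/-- contents during the template interpreter -/
def Interp.stkJ (x y st p acc out th : List Sym) : OW → List Sym
  | .X => x
  | .Y => y
  | .St => st
  | .P => p
  | .Acc => acc
  | .Out => out
  | .Th => th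
  | _ => []

open Interp

theorem Interp.upd_X (x y st p acc out th x' : List Sym) :
    update (stkJ x y st p acc out th) .X x' = stkJ x' y st p acc out th := by
  funext k; cases k <;> simp [stkJ]
theorem Interp.upd_Y (x y st p acc out th x' : List Sym) :
    update (stkJ x y st p acc out th) .Y x' = stkJ x x' st p acc out th := by
  funext k; cases k <;> simp [stkJ]
theorem Interp.upd_St (x y st p acc out th x' : List Sym) :
    update (stkJ x y st p acc out th) .St x' = stkJ x y x' p acc out th := by
  funext k; cases k <;> simp [stkJ]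
theorem Interp.upd_P (x y st p acc out th x' : List Sym) :
    update (stkJ x y st p acc out th) .P x' = stkJ x y st x' acc out th := by
  funext k; cases k <;> simp [stkJ]
theorem Interp.upd_Acc (x y st p acc out th x' : List Sym) :
    update (stkJ x y st p acc out th) .Acc x' = stkJ x y st p x' out th := by
  funext k; cases k <;> simp [stkJ]
theorem Interp.upd_Out (x y st p acc out th x' : List Sym) :
    update (stkJ x y st p acc out th) .Out x' = stkJ x y st p acc x' th := by
  funext k; cases k <;> simp [stkJ]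
theorem Interp.upd_Th (x y st p acc out th x' : List Sym) :
    update (stkJ x y st p acc out th) .Th x' = stkJ x y st p acc out x' := by
  funext k; cases k <;> simp [stkJ]

/-- digits of a list, filled up with zeros to length `k` -/
def Interp.padL (k : ℕ) (l : List Sym) : List Sym := l ++ List.replicate (k - l.length) .zero

/-- The loop of `emitP`. -/
theorem Interp.emit_loop (n : ℕ) (l : List Bool) (hl : l.length ≤ n) (r : Reg)
    (i o : List Bool) (s : OW → List Sym) (hs : s .St = ticks n) (ha : s .Acc = l.map bitSym) :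
    ∃ r', ORuns (.loop [popX .St] (fun r => r.x.isSome)
      (.act [.push .T1 (fun _ => .one), popY .Acc, .push .Out (fun r => bitSym (isOne r.y))]))
      ⟨r, i, o, s⟩ ⟨r', i, o, update (update (update (update s .St []) .T1 (ticks n ++ s .T1))
        .Acc []) .Out ((padL n (l.map bitSym)).reverse ++ s .Out)⟩ (2 * n + 1) := by
  induction n generalizing l r s with
  | zero =>
    have hl0 : l = [] := List.length_eq_zero_iff.1 (Nat.le_zero.1 hl)
    subst hl0
    refine ⟨{ r with x := none }, Runs.mono (Runs.loop_done ?_ rfl) (Nat.le_add_left _ _)⟩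
    simp only [runOps, Op.run, hs, ticks, List.replicate_zero, List.head?_nil, List.tail_nil]
    congr 1
    funext k
    cases k <;> simp [padL, ha]
  | succ n ih =>
    obtain ⟨r₂, h2⟩ := ih l.tail (by simp; omega) { r with x := some .one, y := l.head?.map bitSym }
      (update (update (update (update s .St (ticks n)) .T1 (.one :: s .T1)) .Acc
        (l.tail.map bitSym)) .Out (bitSym (isOne (l.head?.map bitSym)) :: s .Out))
      (by simp) (by simp)
    refine ⟨r₂, Runs.mono (Runs.loop_step (s₁ := ⟨{ r with x := some .one }, i, o,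
      update s .St (ticks n)⟩) (s' := ⟨{ r with x := some .one, y := l.head?.map bitSym }, i, o,
      (update (update (update (update s .St (ticks n)) .T1 (.one :: s .T1)) .Acc
        (l.tail.map bitSym)) .Out (bitSym (isOne (l.head?.map bitSym)) :: s .Out))⟩)
      (B₁ := 1) (B₂ := 2 * n + 1) ?_ rfl (Runs.act' ?_) ?_) ?_⟩
    · simp [runOps, Op.run, hs, ticks, List.replicate_succ]
    · simp [runOps, Op.run, ha]
    · convert h2 using 2
      funext k
      cases k <;> simp
      · rw [ticks, ticks, List.replicate_succ']; simp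
      · rcases l with _ | ⟨b, l⟩
        · simp only [padL, Elem.isOne_none, bitSym, List.map_nil, List.tail_nil, List.head?_nil,
            Option.map_none, List.length_nil, List.nil_append, List.reverse_replicate, Nat.sub_zero]
          rw [show Sym.zero :: s OW.Out = [Sym.zero] ++ s OW.Out from rfl, ← List.append_assoc,
            ← List.replicate_succ']
        · simp [padL, Elem.isOne_bitSym]
    · omega

theorem Interp.padL_bits (k n : ℕ) : padL k ((Nat.bits n).map bitSym) = padS k n := by
  rw [padL, padS, bitsS, List.length_map, Nat.size_eq_bits_len]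

/-- Specification of a single instruction. -/
theorem Interp.ins_spec (k w v : ℕ) (ins : Ins) (s : ISt) (hw : w.size ≤ k) (hv : v.size ≤ k)
    (ha : s.acc < 2 ^ k) (p : List Sym) (r : Reg) :
    ∃ r', ORuns (insC ins)
      ⟨r, [], [], stkJ (bitsS w) (bitsS v) (ticks k) p (bitsS s.acc) s.out s.th⟩
      ⟨r', [], [], stkJ (bitsS w) (bitsS v) (ticks k) p (bitsS (ins.sem k w v s).acc)
        (ins.sem k w v s).out (ins.sem k w v s).th⟩ (20 * (k + 2) + 2 * s.out.length) := by
  have hsz : s.acc.size ≤ k := Nat.size_le.2 ha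
  cases ins with
  | W =>
    obtain ⟨r', -, h⟩ := addc_spec .X (by decide) (by decide) (by decide) w s.acc
      { r with cy := false } [] []
      (stkJ (bitsS w) (bitsS v) (ticks k) p (bitsS s.acc) s.out s.th) rfl rfl rfl rfl
    rw [upd_Acc] at h
    have e : (Ins.W.sem k w v s).acc = w + s.acc + ({ r with cy := false } : Reg).cy.toNat := by
      simp [Ins.sem, Nat.add_comm]
    rw [e]
    exact ⟨r', Runs.mono (Runs.seq (Runs.act' rfl) h) (by omega)⟩
  | V =>
    obtain ⟨r', -, h⟩ := addc_spec .Y (by decide) (by decide) (by decide) v s.acc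
      { r with cy := false } [] []
      (stkJ (bitsS w) (bitsS v) (ticks k) p (bitsS s.acc) s.out s.th) rfl rfl rfl rfl
    rw [upd_Acc] at h
    have e : (Ins.V.sem k w v s).acc = v + s.acc + ({ r with cy := false } : Reg).cy.toNat := by
      simp [Ins.sem, Nat.add_comm]
    rw [e]
    exact ⟨r', Runs.mono (Runs.seq (Runs.act' rfl) h) (by omega)⟩
  | E =>
    obtain ⟨r', -, h⟩ := inc_spec s.acc r [] []
      (stkJ (bitsS w) (bitsS v) (ticks k) p (bitsS s.acc) s.out s.th) rfl rfl rfl rfl
    rw [upd_Acc] at h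
    exact ⟨r', Runs.mono h (by omega)⟩
  | P =>
    have hlen : (Nat.bits s.acc).length ≤ k := by rwa [Nat.size_eq_bits_len]
    obtain ⟨r₁, h1⟩ := Interp.emit_loop k (Nat.bits s.acc) hlen r [] []
      (stkJ (bitsS w) (bitsS v) (ticks k) p (bitsS s.acc) s.out s.th) rfl rfl
    rw [padL_bits] at h1
    set S₁ : OW → List Sym := update (update (update (update
      (stkJ (bitsS w) (bitsS v) (ticks k) p (bitsS s.acc) s.out s.th) .St []) .T1
      (ticks k ++ (stkJ (bitsS w) (bitsS v) (ticks k) p (bitsS s.acc) s.out s.th) .T1))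
        .Acc []) .Out ((padS k s.acc).reverse ++
          (stkJ (bitsS w) (bitsS v) (ticks k) p (bitsS s.acc) s.out s.th) .Out) with hS₁
    have m1 := mv_spec .T1 .St (by decide) r₁ [] [] S₁
    have hs : update (update S₁ .T1 []) .St ((S₁ .T1).reverse ++ S₁ .St) =
        stkJ (bitsS w) (bitsS v) (ticks k) p (bitsS (Ins.P.sem k w v s).acc)
        (Ins.P.sem k w v s).out (Ins.P.sem k w v s).th := by
      funext j
      cases j <;> simp [hS₁, stkJ, Ins.sem, bitsS, ticks]
    rw [hs] at m1
    refine ⟨_, Runs.mono (Runs.seq h1 m1) ?_⟩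
    have : (S₁ .T1).length = k := by simp [hS₁, stkJ, ticks]
    rw [this]
    omega
  | O =>
    have m1 := mv_spec .Acc .Out (by decide) r [] []
      (stkJ (bitsS w) (bitsS v) (ticks k) p (bitsS s.acc) s.out s.th)
    rw [upd_Acc, upd_Out] at m1
    refine ⟨{ r with x := none }, Runs.mono (Runs.seq m1 (Runs.act' ?_)) ?_⟩
    · simp only [runOps, Op.run]
      rw [upd_Out]
      congr 1
      funext j
      cases j <;> simp [stkJ, Ins.sem, bitsS, encNat]
    · simp only [stkJ, length_bitsS]
      omega
  | X =>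
    have m1 := mv_spec .Out .Th (by decide) r [] []
      (stkJ (bitsS w) (bitsS v) (ticks k) p (bitsS s.acc) s.out s.th)
    rw [upd_Out, upd_Th] at m1
    refine ⟨_, Runs.mono m1 ?_⟩
    simp only [stkJ]
    omega
  | H => exact ⟨r, Runs.mono (Runs.act' rfl) (by omega)⟩

/-- Specification of the dispatcher. -/
theorem Interp.disp_spec (ins : Ins) (hins : ins ≠ .H) (r : Reg) (hr : dec r = ins)
    (i o : List Bool) (s : OW → List Sym) (s' : OSt) (B : ℕ)
    (h : ORuns (insC ins) ⟨r, i, o, s⟩ s' B) : ORuns disp ⟨r, i, o, s⟩ s' (B + 5) := by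
  have ef : ∀ (j : Ins), j ≠ ins → ∀ (c₁ c₂ : OC) (s' : OSt) (B : ℕ),
      ORuns c₂ ⟨r, i, o, s⟩ s' B →
      ORuns (.ite [] (fun r => dec r = j) c₁ c₂) ⟨r, i, o, s⟩ s' (B + 1) := by
    intro j hj c₁ c₂ s' B h
    refine Runs.ite_false (s₁ := ⟨r, i, o, s⟩) rfl ?_ h
    simp [hr, Ne.symm hj]
  have et : ∀ (c₁ c₂ : OC) (s' : OSt) (B : ℕ), ORuns c₁ ⟨r, i, o, s⟩ s' B →
      ORuns (.ite [] (fun r => dec r = ins) c₁ c₂) ⟨r, i, o, s⟩ s' (B + 1) := by
    intro c₁ c₂ s' B h
    refine Runs.ite_true (s₁ := ⟨r, i, o, s⟩) rfl ?_ h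
    simp [hr]
  cases ins with
  | W => exact Runs.mono (et _ _ _ _ h) (by omega)
  | V => exact Runs.mono (ef _ (by decide) _ _ _ _ (et _ _ _ _ h)) (by omega)
  | E =>
    exact Runs.mono (ef _ (by decide) _ _ _ _ (ef _ (by decide) _ _ _ _ (et _ _ _ _ h)))
      (by omega)
  | P =>
    exact Runs.mono (ef _ (by decide) _ _ _ _ (ef _ (by decide) _ _ _ _
      (ef _ (by decide) _ _ _ _ (et _ _ _ _ h)))) (by omega)
  | O =>
    exact Runs.mono (ef _ (by decide) _ _ _ _ (ef _ (by decide) _ _ _ _
      (ef _ (by decide) _ _ _ _ (ef _ (by decide) _ _ _ _ (et _ _ _ _ h))))) (by omega)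
  | X =>
    exact Runs.mono (ef _ (by decide) _ _ _ _ (ef _ (by decide) _ _ _ _
      (ef _ (by decide) _ _ _ _ (ef _ (by decide) _ _ _ _ (ef _ (by decide) _ _ _ _ h)))))
      (by omega)
  | H => exact absurd rfl hins

/-- Reading an instruction. -/
theorem Interp.read_spec (ins : Ins) (r : Reg) (i o : List Bool)
    (x y st p acc out th : List Sym) : ∃ r₁, dec r₁ = ins ∧
    runOps [popX .P, popY .P, popZ .P]
      (⟨r, i, o, stkJ x y st (ins.code.map bitSym ++ p) acc out th⟩ : OSt) =
      ⟨r₁, i, o, stkJ x y st p acc out th⟩ := by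
  refine ⟨{ r with
    x := (ins.code.map bitSym)[0]?
    y := (ins.code.map bitSym)[1]?
    z := (ins.code.map bitSym)[2]? }, ?_, ?_⟩
  · cases ins <;> rfl
  · cases ins <;> simp [runOps, Op.run, Ins.code, bitSym, upd_P, stkJ]

/-- Growth of the output. -/
theorem Interp.out_le (k w v : ℕ) (ins : Ins) (s : ISt) (ha : s.acc < 2 ^ k) :
    (ins.sem k w v s).out.length ≤ s.out.length + (k + 1) := by
  have hsz : s.acc.size ≤ k := Nat.size_le.2 ha
  cases ins with
  | P =>
    simp only [Ins.sem, List.length_append, List.length_reverse, length_padS k s.acc ha]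
    omega
  | O =>
    have h1 : (encNat s.acc).length = s.acc.size + 1 := by
      rw [encNat, List.length_append, List.length_map, Nat.size_eq_bits_len]
      rfl
    simp only [Ins.sem, List.length_append, List.length_reverse, h1]
    omega
  | W => simp only [Ins.sem]; omega
  | V => simp only [Ins.sem]; omega
  | E => simp only [Ins.sem]; omega
  | X => simp [Ins.sem]
  | H => simp only [Ins.sem]; omega

/-- Specification of the interpreter loop. -/
theorem Interp.loop_spec (k w v : ℕ) (prog : List Ins) (rest : List Sym) (hw : w.size ≤ k)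
    (hv : v.size ≤ k) (s : ISt) (hok : AccOK k w v prog s) (r : Reg) :
    ∃ r', ORuns interp
      ⟨r, [], [], stkJ (bitsS w) (bitsS v) (ticks k) ((codeL (prog ++ [.H])).map bitSym ++ rest)
        (bitsS s.acc) s.out s.th⟩
      ⟨r', [], [], stkJ (bitsS w) (bitsS v) (ticks k) rest (bitsS (semL k w v prog s).acc)
        (semL k w v prog s).out (semL k w v prog s).th⟩
      (prog.length * (20 * (k + 2) + 6 + 2 * (s.out.length + prog.length * (k + 1))) + 1) := by
  induction prog generalizing s r with
  | nil =>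
    obtain ⟨r₁, hd, hr⟩ := Interp.read_spec .H r [] [] (bitsS w) (bitsS v) (ticks k) rest
      (bitsS s.acc) s.out s.th
    refine ⟨r₁, Runs.mono (Runs.loop_done ?_ ?_) (Nat.le_add_left _ _)⟩
    · simpa [codeL, semL] using hr
    · simp [hd]
  | cons ins prog ih =>
    obtain ⟨h1, h2, h3⟩ := hok
    obtain ⟨r₁, hd, hr⟩ := Interp.read_spec ins r [] [] (bitsS w) (bitsS v) (ticks k)
      ((codeL (prog ++ [.H])).map bitSym ++ rest) (bitsS s.acc) s.out s.th
    obtain ⟨r₂, hb⟩ := Interp.ins_spec k w v ins s hw hv h1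
      ((codeL (prog ++ [.H])).map bitSym ++ rest) r₁
    have hb' := Interp.disp_spec ins h2 r₁ hd _ _ _ _ _ hb
    obtain ⟨r₃, hc⟩ := ih (ins.sem k w v s) h3 r₂
    have hlen := Interp.out_le k w v ins s h1
    refine ⟨r₃, Runs.mono (Runs.loop_step (s₁ := ⟨r₁, [], [], stkJ (bitsS w) (bitsS v) (ticks k)
      ((codeL (prog ++ [.H])).map bitSym ++ rest) (bitsS s.acc) s.out s.th⟩) ?_ ?_ hb' hc) ?_⟩
    · rw [← hr]
      simp [codeL]
    · simp [hd, h2]
    · set A := 20 * (k + 2) + 6 + 2 * (s.out.length + (ins :: prog).length * (k + 1)) with hA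
      have h4 : (ins :: prog).length * (k + 1) = prog.length * (k + 1) + (k + 1) := by
        simp only [List.length_cons]; ring
      have h5 : 20 * (k + 2) + 6 + 2 * ((ins.sem k w v s).out.length + prog.length * (k + 1)) ≤ A
          := by
        rw [hA, h4]; omega
      have h6 := Nat.mul_le_mul_left prog.length h5
      have h7 : (ins :: prog).length * A = prog.length * A + A := by
        simp only [List.length_cons]; ring
      rw [h7]
      have h8 : 20 * (k + 2) + 2 * s.out.length + 6 ≤ A := by rw [hA, h4]; omega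
      omega

theorem common_spec (k w v : ℕ) (prog : List Ins) (rest : List Sym) (hw : w.size ≤ k)
    (hv : v.size ≤ k) (hok : AccOK k w v prog ⟨0, [], []⟩)
    (h0 : (semL k w v prog ⟨0, [], []⟩).acc = 0) (r : Reg) :
    ∃ r', ORuns common
      ⟨r, [], [], stkI (bitsS w) (bitsS v) (ticks k) ((codeL (prog ++ [.H])).map bitSym ++ rest)⟩
      ⟨r', [], [], stkO (semL k w v prog ⟨0, [], []⟩).out (semL k w v prog ⟨0, [], []⟩).th⟩
      (100 * (prog.length + 1) ^ 2 * (k + 2) + 10 * rest.length) := by
  obtain ⟨r₁, h1⟩ := Interp.loop_spec k w v prog rest hw hv ⟨0, [], []⟩ hok r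
  rw [h0] at h1
  have hI : stkI (bitsS w) (bitsS v) (ticks k) ((codeL (prog ++ [.H])).map bitSym ++ rest) =
      stkJ (bitsS w) (bitsS v) (ticks k) ((codeL (prog ++ [.H])).map bitSym ++ rest)
        (bitsS 0) [] [] := by
    funext j
    cases j <;> simp [stkI, stkJ, bitsS]
  set out := (semL k w v prog ⟨0, [], []⟩).out
  set th := (semL k w v prog ⟨0, [], []⟩).th
  have c1 := clr_spec .P r₁ [] [] (stkJ (bitsS w) (bitsS v) (ticks k) rest (bitsS 0) out th)
  rw [upd_P] at c1
  have c2 := clr_spec .X { r₁ with x := none } [] []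
    (stkJ (bitsS w) (bitsS v) (ticks k) [] (bitsS 0) out th)
  rw [upd_X] at c2
  have c3 := clr_spec .Y { r₁ with x := none } [] []
    (stkJ [] (bitsS v) (ticks k) [] (bitsS 0) out th)
  rw [upd_Y] at c3
  have c4 := clr_spec .St { r₁ with x := none } [] []
    (stkJ [] [] (ticks k) [] (bitsS 0) out th)
  rw [upd_St] at c4
  have hO : stkO out th = stkJ [] [] [] [] (bitsS 0) out th := by
    funext j
    cases j <;> simp [stkO, stkJ, bitsS]
  rw [hI, hO]
  refine ⟨_, Runs.mono (Runs.seq h1 (Runs.seq c1 (Runs.seq c2 (Runs.seq c3 c4)))) ?_⟩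
  simp only [stkJ, length_bitsS, ticks, List.length_replicate, List.length_nil]
  nlinarith [Nat.zero_le (prog.length * k), Nat.zero_le (prog.length * prog.length * k),
    Nat.zero_le (prog.length * prog.length), Nat.zero_le prog.length, Nat.zero_le k]

end Pool.Agent.Helper92.OS
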