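import Pool.Agent.Helper92.OS.Prog
import Pool.Agent.Helper92.OS.Bits

/-!
# The final comparison (project OSB, `MP_124ac8_lc`)
-/

namespace Pool.Agent.Helper92.OS

open Pool.Agent.Helper62

/-- stack contents during the comparison -/
def postS (t th : List Sym) : OW → List Sym
  | .T1 => t
  | .Th => th
  | _ => []

theorem postS_upd1 (t th t' : List Sym) : Function.update (postS t th) .T1 t' = postS t' th := by
  funext j
  cases j <;> simp [Function.update, postS]

theorem postS_upd2 (t th t' : List Sym) : Function.update (postS t th) .Th t' = postS t t' := by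
  funext j
  cases j <;> simp [Function.update, postS]

/-- the loop of the comparison -/
abbrev postL : OC := .loop [popX .T1, popY .Th] (fun r => r.x.isSome || r.y.isSome)
        (.act [.load (fun r => { r with gt := cmpD r })])

theorem post_pre (r : Reg) (t th : List Sym) :
    runOps [popX .T1, popY .Th] (⟨r, [], [], postS t th⟩ : OSt) =
      ⟨⟨t.head?, th.head?, r.z, r.cy, r.gt⟩, [], [], postS t.tail th.tail⟩ := by
  simp only [runOps, Op.run]
  have h1 : postS t th .T1 = t := rfl
  simp only [h1, postS_upd1]
  have h2 : postS t.tail th .Th = th := rfl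
  simp only [h2, postS_upd2]

theorem post_step (r : Reg) (t th : List Sym) (B : ℕ) (s' : OSt) (g : Bool)
    (h : (t.head?.isSome || th.head?.isSome) = true)
    (hg : cmpD ⟨t.head?, th.head?, r.z, r.cy, r.gt⟩ = g)
    (h2 : ORuns postL ⟨⟨t.head?, th.head?, r.z, r.cy, g⟩, [], [], postS t.tail th.tail⟩ s' B) :
    ORuns postL ⟨r, [], [], postS t th⟩ s' (B + 2) := by
  subst hg
  have := Runs.loop_step (post_pre r t th) (by simpa using h)
    (Runs.act (E := noE) [.load (fun r => { r with gt := cmpD r })] _) h2
  exact this.mono (by omega)

theorem post_done (r : Reg) : ORuns postL ⟨r, [], [], postS [] []⟩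
    ⟨⟨none, none, r.z, r.cy, r.gt⟩, [], [], postS [] []⟩ 1 :=
  Runs.loop_done (post_pre r [] []) rfl

theorem post_loop1 (as : List Bool) : ∀ (r : Reg), r.gt = true →
    ∃ r' : Reg, r'.gt = true ∧ ORuns postL ⟨r, [], [], postS (as.map bitSym) []⟩
      ⟨r', [], [], postS [] []⟩ (2 * as.length + 1) := by
  induction as with
  | nil => exact fun r hr => ⟨⟨none, none, r.z, r.cy, r.gt⟩, hr, post_done r⟩
  | cons a as ih =>
    intro r hr
    obtain ⟨r', h1, h2⟩ := ih ⟨some (bitSym a), none, r.z, r.cy, true⟩ rfl
    exact ⟨r', h1, (post_step r ((a :: as).map bitSym) [] _ _ true rfl rfl h2).mono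
      (by simp only [List.length_cons]; omega)⟩

theorem post_loop (as bs : List Bool) : ∀ (r : Reg),
    ∃ r' : Reg, r'.gt = cmpB r.gt as bs ∧
      ORuns postL ⟨r, [], [], postS (as.map bitSym) (bs.map bitSym ++ [.sep])⟩
      ⟨r', [], [], postS [] []⟩ (2 * (as.length + bs.length + 1) + 1) := by
  induction as generalizing bs with
  | nil =>
    induction bs with
    | nil =>
      intro r
      refine ⟨⟨none, none, r.z, r.cy, r.gt⟩, by simp [cmpB],
        (post_step r [] [.sep] _ _ r.gt rfl rfl (post_done _)).mono (by simp)⟩
    | cons b bs ih =>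
      intro r
      obtain ⟨r', h1, h2⟩ := ih ⟨none, some (bitSym b), r.z, r.cy, false⟩
      refine ⟨r', ?_, (post_step r [] (bitSym b :: (bs.map bitSym ++ [Sym.sep])) _ _ false rfl
        ?_ h2).mono ?_⟩
      · rw [h1]
        cases bs <;> simp [cmpB]
      · cases b <;> rfl
      · simp only [List.length_cons, List.length_nil]; omega
  | cons a as ih =>
    intro r
    cases bs with
    | nil =>
      obtain ⟨r', h1, h2⟩ := post_loop1 as ⟨some (bitSym a), some .sep, r.z, r.cy, true⟩ rfl
      refine ⟨r', ?_, (post_step r ((a :: as).map bitSym) [.sep] _ _ true rfl rfl h2).mono ?_⟩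
      · rw [h1]; simp [cmpB]
      · simp only [List.length_cons, List.length_nil]; omega
    | cons b bs =>
      obtain ⟨r', h1, h2⟩ := ih bs ⟨some (bitSym a), some (bitSym b), r.z, r.cy,
        if a = b then r.gt else a⟩
      refine ⟨r', ?_, (post_step r (bitSym a :: as.map bitSym)
        (bitSym b :: (bs.map bitSym ++ [Sym.sep])) _ _ _ rfl ?_ h2).mono ?_⟩
      · rw [h1, cmpB]
      · cases a <;> cases b <;> rfl
      · simp only [List.length_cons]; omega

/-- moving a stack -/
theorem post_mv (a b : OW) (hab : a ≠ b) (l : List Sym) : ∀ (r : Reg) (i o : List Bool)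
    (s : OW → List Sym), s a = l → ORuns (mv a b) ⟨r, i, o, s⟩
      ⟨{ r with x := none }, i, o,
        Function.update (Function.update s a []) b (l.reverse ++ s b)⟩ (2 * l.length + 1) := by
  induction l with
  | nil =>
    intro r i o s hs
    refine Runs.loop_done ?_ ?_
    · simp only [runOps, Op.run, hs, List.head?_nil, List.tail_nil, List.reverse_nil,
        List.nil_append]
      have e : Function.update s a [] = s := by
        rw [← hs]
        exact Function.update_eq_self a s
      rw [e, Function.update_eq_self]
    · rfl
  | cons c l ih =>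
    intro r i o s hs
    have h0 : runOps [popX a] (⟨r, i, o, s⟩ : OSt) =
        ⟨{ r with x := some c }, i, o, Function.update s a l⟩ := by
      simp only [runOps, Op.run, hs, List.head?_cons, List.tail_cons]
    have h1 : runOps [.pushO b (fun r => r.x)]
        (⟨{ r with x := some c }, i, o, Function.update s a l⟩ : OSt) =
        ⟨{ r with x := some c }, i, o,
          Function.update (Function.update s a l) b (c :: s b)⟩ := by
      simp only [runOps, Op.run, Function.update_of_ne hab.symm]
    have h2 := ih { r with x := some c } i o
      (Function.update (Function.update s a l) b (c :: s b)) (by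
        rw [Function.update_of_ne hab, Function.update_self])
    have h3 : Function.update (Function.update (Function.update (Function.update s a l) b
        (c :: s b)) a []) b (l.reverse ++ (Function.update (Function.update s a l) b
        (c :: s b)) b) = Function.update (Function.update s a []) b
          ((c :: l).reverse ++ s b) := by
      funext j
      by_cases hj : j = b
      · subst hj; simp
      · by_cases hj' : j = a
        · subst hj'; simp [hj]
        · simp [hj, hj']
    rw [h3] at h2
    exact (Runs.loop_step h0 rfl (Runs.act' h1) h2).mono (by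
      simp only [List.length_cons]; omega)

theorem post_spec (f : Bool → Bool) (a b : ℕ) (r : Reg) :
    ∃ r', ORuns (post f) ⟨r, [], [], stkR (bitsS a).reverse (encNat b)⟩
      ⟨r', [], [f (decide (b < a))], fun _ => []⟩ (10 * (a.size + b.size + 5)) := by
  have hmv := post_mv .Res .T1 (by decide) (bitsS a).reverse { r with gt := false } [] []
    (stkR (bitsS a).reverse (encNat b)) rfl
  have hs : Function.update (Function.update (stkR (bitsS a).reverse (encNat b)) .Res []) .T1
      ((bitsS a).reverse.reverse ++
        stkR (bitsS a).reverse (encNat b) .T1) = postS (bitsS a) (encNat b) := by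
    funext j
    cases j <;> simp [Function.update, postS, stkR]
  rw [hs] at hmv
  obtain ⟨r', h1, h2⟩ := post_loop (Nat.bits a) (Nat.bits b) { r with gt := false, x := none }
  have e : cmpB false (Nat.bits a) (Nat.bits b) = decide (b < a) := by
    rw [cmpB_bits]
    split
    · rename_i h; subst h; simp
    · rfl
  have hf : runOps [.pushOut (fun r => f r.gt)] (⟨r', [], [], postS [] []⟩ : OSt) =
      ⟨r', [], [f (decide (b < a))], fun _ => []⟩ := by
    simp only [runOps, Op.run, h1, e]
    congr 1
    funext j
    cases j <;> rfl
  have hb : ∀ n, (Nat.bits n).length = n.size := by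
    intro n
    rw [← length_bitsS n, bitsS, List.length_map]
  refine ⟨r', (Runs.seq (Runs.act' (by rfl)) (Runs.seq hmv (Runs.seq h2 (Runs.act' hf)))).mono ?_⟩
  rw [hb, hb, List.length_reverse, length_bitsS]
  omega

end Pool.Agent.Helper92.OS
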