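import Pool.Agent.Helper92.OS.Pre0

namespace Pool.Agent.Helper92.OS

open Pool.Agent.Helper62
open Function

theorem pre1_spec (w : ℕ) (r : Reg) :
    ∃ r', ORuns pre1 ⟨r, List.replicate w true ++ [false], [], fun _ => []⟩
      ⟨r', [], [], stkI (bitsS w) (bitsS (w + 1)) (ticks (4 * (w.size + 1) + 1)) (bitsS w)⟩
      (1000 * (w + 2) * (w.size + 2)) := by
  have h1 := readU_pre [false] rfl [] [] [] [] [] [] [] w 0 r
  rw [Nat.zero_add] at h1
  have e0 : ticks 0 = [] := rfl
  rw [e0] at h1
  set r1 : Reg := { r with x := [false].head?.map bitSym } with hr1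
  have h2 := dup_spec .U .T1 .S (by decide) (by decide) (by decide) r1 [] []
    (preS [] [] [] [] (ticks w) [] []) rfl
  set r2 : Reg := { r1 with x := none } with hr2
  have e2 : update (preS [] [] [] [] (ticks w) [] []) OW.S
      (preS [] [] [] [] (ticks w) [] [] .U ++ preS [] [] [] [] (ticks w) [] [] .S) =
      preS [] [] [] [] (ticks w) (ticks w) [] := by
    rw [preS_s]
    congr 1
    simp [preS]
  rw [e2] at h2
  have h3 := pushN_spec 1 .S r2 [] [] (preS [] [] [] [] (ticks w) (ticks w) [])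
  have e3 : update (preS [] [] [] [] (ticks w) (ticks w) []) OW.S
      (ticks 1 ++ preS [] [] [] [] (ticks w) (ticks w) [] .S) =
      preS [] [] [] [] (ticks w) (ticks (w + 1)) [] := by
    rw [preS_s]
    rfl
  rw [e3] at h3
  obtain ⟨r4, h4⟩ := toBin_spec .U .X (by decide) (by decide) (by decide) (by decide) (by decide)
    (by decide) (by decide) (by decide) (by decide) r2 [] []
    (preS [] [] [] [] (ticks w) (ticks (w + 1)) []) rfl rfl rfl rfl rfl
  have l4 : (preS [] [] [] [] (ticks w) (ticks (w + 1)) [] .U).length = w := length_ticks w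
  rw [l4, preS_u, preS_x] at h4
  obtain ⟨r5, h5⟩ := toBin_spec .S .Y (by decide) (by decide) (by decide) (by decide) (by decide)
    (by decide) (by decide) (by decide) (by decide) r4 [] []
    (preS (bitsS w) [] [] [] [] (ticks (w + 1)) []) rfl rfl rfl rfl rfl
  have l5 : (preS (bitsS w) [] [] [] [] (ticks (w + 1)) [] .S).length = w + 1 := length_ticks (w + 1)
  rw [l5, preS_s, preS_y] at h5
  have h6 := stick_spec 1 r5 [] [] (preS (bitsS w) (bitsS (w + 1)) [] [] [] [] []) rfl
  have l6 : (preS (bitsS w) (bitsS (w + 1)) [] [] [] [] [] .X).length = w.size := length_bitsS_pre w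
  rw [l6, preS_st] at h6
  have e6 : ticks (4 * 1 * (w.size + 1) + 1) ++ preS (bitsS w) (bitsS (w + 1)) [] [] [] [] [] .St =
      ticks (4 * (w.size + 1) + 1) := by
    rw [mul_one]
    exact List.append_nil _
  rw [e6] at h6
  set r6 : Reg := { r5 with x := none } with hr6
  have h7 := dup_spec .X .T1 .P (by decide) (by decide) (by decide) r6 [] []
    (preS (bitsS w) (bitsS (w + 1)) [] (ticks (4 * (w.size + 1) + 1)) [] [] []) rfl
  have l7 : (preS (bitsS w) (bitsS (w + 1)) [] (ticks (4 * (w.size + 1) + 1)) [] [] [] .X).length =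
      w.size := length_bitsS_pre w
  have e7 : preS (bitsS w) (bitsS (w + 1)) [] (ticks (4 * (w.size + 1) + 1)) [] [] [] .X ++
      preS (bitsS w) (bitsS (w + 1)) [] (ticks (4 * (w.size + 1) + 1)) [] [] [] .P = bitsS w :=
    List.append_nil _
  rw [l7, e7, preS_p] at h7
  have l2 : (preS [] [] [] [] (ticks w) [] [] .U).length = w := length_ticks w
  rw [l2] at h2
  rw [preS_nil, ← preS_stkI]
  refine ⟨{ r6 with x := none }, (h1.seq (h2.seq (h3.seq (h4.seq (h5.seq (h6.seq h7)))))).mono ?_⟩
  have hs : (w + 1).size ≤ w.size + 1 := by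
    rw [Nat.size_le]
    have := Nat.lt_size_self w
    rw [pow_succ]
    omega
  have a1 : w ≤ (w + 2) * (w.size + 2) := by nlinarith
  have a2 : w.size ≤ (w + 2) * (w.size + 2) := by nlinarith
  have a3 : 1 ≤ (w + 2) * (w.size + 2) := by nlinarith
  have a4 : (w + 1) * (w.size + 2) ≤ (w + 2) * (w.size + 2) := Nat.mul_le_mul_right _ (by omega)
  have a5 : (w + 1 + 1) * ((w + 1).size + 2) ≤ 2 * ((w + 2) * (w.size + 2)) := by
    calc (w + 1 + 1) * ((w + 1).size + 2) ≤ (w + 2) * (2 * (w.size + 2)) :=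
          Nat.mul_le_mul (le_refl _) (by omega)
      _ = 2 * ((w + 2) * (w.size + 2)) := by ring
  have b4 : 20 * (w + 1) * (w.size + 2) = 20 * ((w + 1) * (w.size + 2)) := by ring
  have b5 : 20 * (w + 1 + 1) * ((w + 1).size + 2) = 20 * ((w + 1 + 1) * ((w + 1).size + 2)) := by ring
  have b6 : 1000 * (w + 2) * (w.size + 2) = 1000 * ((w + 2) * (w.size + 2)) := by ring
  rw [b4, b5, b6]
  omega

end Pool.Agent.Helper92.OS
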