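import Pool.Agent.Helper92.OS.Bits

/-!
# Semantics of templates
-/

namespace Pool.Agent.Helper92.OS

/-- the values occurring in the template of a form fit into `k` digits -/
def Form.Fits (F : Form) (k w v : ℕ) : Prop :=
  F.Good ∧ F.a < 2 ^ k ∧ F.b < 2 ^ k ∧ F.c * w + F.c' * v + F.e < 2 ^ k

/-- `l` leads from `s` to `s'` -/
def TemplTr (k w v : ℕ) (l : List Ins) (s s' : ISt) : Prop :=
  ∀ rest, (AccOK k w v rest s' → AccOK k w v (l ++ rest) s) ∧
    semL k w v (l ++ rest) s = semL k w v rest s'

theorem TemplTr.nil (k w v : ℕ) (s : ISt) : TemplTr k w v [] s s :=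
  fun _ => ⟨fun h => h, rfl⟩

theorem TemplTr.append {k w v : ℕ} {l₁ l₂ : List Ins} {s s' s'' : ISt}
    (h₁ : TemplTr k w v l₁ s s') (h₂ : TemplTr k w v l₂ s' s'') :
    TemplTr k w v (l₁ ++ l₂) s s'' := fun rest => by
  rw [List.append_assoc]
  exact ⟨fun h => (h₁ _).1 ((h₂ rest).1 h), (h₁ _).2.trans (h₂ rest).2⟩

theorem TemplTr.cons {k w v : ℕ} {i : Ins} {l : List Ins} {s s' : ISt} (hs : s.acc < 2 ^ k)
    (hi : i ≠ .H) (h : TemplTr k w v l (i.sem k w v s) s') : TemplTr k w v (i :: l) s s' :=
  fun rest => ⟨fun h' => ⟨hs, hi, (h rest).1 h'⟩, (h rest).2⟩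

theorem TemplTr.rep {k w v : ℕ} (i : Ins) (d : ℕ) (hi : i ≠ .H)
    (hd : ∀ s, i.sem k w v s = { s with acc := s.acc + d }) (n : ℕ) (s : ISt)
    (h : s.acc + n * d < 2 ^ k) :
    TemplTr k w v (List.replicate n i) s { s with acc := s.acc + n * d } := by
  induction n generalizing s with
  | zero =>
    have : ({ s with acc := s.acc + 0 * d } : ISt) = s := by simp
    rw [this]
    exact TemplTr.nil k w v s
  | succ n ih =>
    rw [List.replicate_succ]
    refine TemplTr.cons (by omega) hi ?_
    rw [hd]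
    have h2 : (s.acc + d) + n * d = s.acc + (n + 1) * d := by ring
    have h3 := ih { s with acc := s.acc + d } (by simp only; omega)
    simp only [h2] at h3
    exact h3

theorem templ_emit (k w v : ℕ) (F : Form) (hF : F.Fits k w v) (out th : List Sym) :
    TemplTr k w v F.emit ⟨0, out, th⟩
      ⟨0, (encNat (F.eval (2 ^ k) w v)).reverse ++ out, th⟩ := by
  obtain ⟨hg, ha, hb, hc⟩ := hF
  have hW := fun n s h => TemplTr.rep (k := k) (w := w) (v := v) .W w (by simp) (fun _ => rfl) n s h
  have hV := fun n s h => TemplTr.rep (k := k) (w := w) (v := v) .V v (by simp) (fun _ => rfl) n s h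
  have hE := fun n s h => TemplTr.rep (k := k) (w := w) (v := v) .E 1 (by simp) (fun _ => rfl) n s h
  unfold Form.emit
  split_ifs with h0
  · obtain ⟨h1, h2, h3⟩ := hg h0
    have he : F.eval (2 ^ k) w v = F.e := by
      unfold Form.eval
      rw [h0, h1, h2, h3]
      ring
    have hc' : F.e < 2 ^ k := by
      rw [h2, h3] at hc
      omega
    have t1 := hE F.e ⟨0, out, th⟩ (by simp only; omega)
    refine t1.append (TemplTr.cons (by simp only; omega) (by simp) ?_)
    rw [he]
    simp only [Ins.sem, zero_add, mul_one]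
    exact TemplTr.nil _ _ _ _
  · have t1 := hW F.c ⟨0, out, th⟩ (by simp only; omega)
    refine t1.append ?_
    have t2 := hV F.c' ⟨0 + F.c * w, out, th⟩ (by simp only; omega)
    refine t2.append ?_
    have t3 := hE F.e ⟨0 + F.c * w + F.c' * v, out, th⟩ (by simp only; omega)
    refine t3.append (TemplTr.cons (by simp only; omega) (by simp) ?_)
    have t4 := hE F.b ⟨0, (padS k (0 + F.c * w + F.c' * v + F.e * 1)).reverse ++ out, th⟩
      (by simp only; omega)
    refine t4.append (TemplTr.cons (by simp only; omega) (by simp) ?_)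
    have t5 := hE F.a ⟨0, (padS k (0 + F.b * 1)).reverse ++
      ((padS k (0 + F.c * w + F.c' * v + F.e * 1)).reverse ++ out), th⟩ (by simp only; omega)
    refine t5.append (TemplTr.cons (by simp only; omega) (by simp) ?_)
    have e1 : F.eval (2 ^ k) w v =
        (F.c * w + F.c' * v + F.e) + 2 ^ k * (F.b + 2 ^ k * F.a) := by
      unfold Form.eval
      ring
    have e2 : 0 < 2 ^ k * F.a := by positivity
    have e3 : encNat (F.eval (2 ^ k) w v) =
        padS k (F.c * w + F.c' * v + F.e) ++ (padS k F.b ++ encNat F.a) := by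
      have e4 : encNat (F.eval (2 ^ k) w v) = bitsS (F.eval (2 ^ k) w v) ++ [.sep] := rfl
      have e5 : encNat F.a = bitsS F.a ++ [.sep] := rfl
      rw [e4, e5, e1, bitsS_split k _ _ hc (by omega), bitsS_split k _ _ hb (by omega)]
      simp
    rw [e3]
    simp only [Ins.sem, zero_add, mul_one, List.reverse_append, List.append_assoc]
    exact TemplTr.nil _ _ _ _

theorem templ_list (k w v : ℕ) (l : List Form) (hl : ∀ G ∈ l, G.Fits k w v)
    (out th : List Sym) :
    TemplTr k w v (l.flatMap Form.emit) ⟨0, out, th⟩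
      ⟨0, (l.flatMap (fun G => encNat (G.eval (2 ^ k) w v))).reverse ++ out, th⟩ := by
  induction l generalizing out with
  | nil => exact TemplTr.nil _ _ _ _
  | cons F l ih =>
    rw [List.flatMap_cons, List.flatMap_cons]
    refine (templ_emit k w v F (hl F List.mem_cons_self) out th).append ?_
    have h := ih (fun G hG => hl G (List.mem_cons_of_mem _ hG))
      ((encNat (F.eval (2 ^ k) w v)).reverse ++ out)
    rw [List.reverse_append, List.append_assoc]
    exact h

theorem template_sem (k w v : ℕ) (F : Form) (l : List Form) (hF : F.Fits k w v)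
    (hl : ∀ G ∈ l, G.Fits k w v) :
    AccOK k w v (template F l) ⟨0, [], []⟩ ∧
    semL k w v (template F l) ⟨0, [], []⟩ =
      ⟨0, (l.flatMap (fun G => encNat (G.eval (2 ^ k) w v))).reverse,
        encNat (F.eval (2 ^ k) w v)⟩ := by
  have h1 := (templ_emit k w v F hF [] []).append
    (TemplTr.cons (i := .X) (by positivity) (by simp) (templ_list k w v l hl
      [] (((encNat (F.eval (2 ^ k) w v)).reverse ++ []).reverse ++ [])))
  have h2 := h1 []
  simp only [List.append_nil, List.reverse_reverse] at h2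
  exact ⟨h2.1 (by show 0 < 2 ^ k; positivity), h2.2⟩

theorem size_eval (k w v : ℕ) (F : Form) (hF : F.Fits k w v) :
    (F.eval (2 ^ k) w v).size ≤ 3 * k := by
  obtain ⟨-, ha, hb, hc⟩ := hF
  refine Nat.size_le.2 ?_
  have e1 : 2 ^ (3 * k) = 2 ^ k * (2 ^ k * 2 ^ k) := by
    rw [← pow_add, ← pow_add]; congr 1; ring
  have e2 : F.eval (2 ^ k) w v =
      (F.c * w + F.c' * v + F.e) + 2 ^ k * (F.b + 2 ^ k * F.a) := by
    unfold Form.eval
    ring
  rw [e1, e2]
  generalize F.c * w + F.c' * v + F.e = n at *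
  generalize 2 ^ k = K at *
  have h1 : F.b + K * F.a < K * K := by
    have : K * (F.a + 1) ≤ K * K := Nat.mul_le_mul_left _ ha
    rw [mul_add] at this
    omega
  have h2 : K * (F.b + K * F.a + 1) ≤ K * (K * K) := Nat.mul_le_mul_left _ h1
  rw [mul_add K (F.b + K * F.a)] at h2
  omega

end Pool.Agent.Helper92.OS
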