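import Pool.Agent.Helper92.OS.Prog

/-!
# Running a `FinTM2` inside a program
-/

namespace Pool.Agent.Helper92.OS

open Pool.Agent.Helper62

section tm

variable {M : Turing.FinTM2}

@[simp] theorem embed_getr (k : M.K) (a : M.Γ k) : getr k (.inr ⟨k, a⟩ : GM M) = some a := by
  simp [getr]

theorem embed_push (s : OSt) (lab : Option M.Λ) (v : M.σ) (ak : ∀ k, List (M.Γ k)) (k : M.K)
    (f : M.σ → M.Γ k) :
    runOps [.push (.inr k) (fun r : RM M => (.inr ⟨k, f r.2.2⟩ : GM M))] (embS s lab v ak) =
      embS s lab v (Function.update ak k (f v :: ak k)) := by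
  simp only [runOps, Op.run]
  unfold embS
  simp only [St.mk.injEq, true_and]
  funext k'
  rcases k' with k' | k'
  · rw [Function.update_of_ne (by simp)]
  · by_cases h : k' = k
    · subst h
      simp
    · rw [Function.update_of_ne (by simpa using h)]
      dsimp only
      rw [Function.update_of_ne h]

theorem embed_peek (s : OSt) (lab : Option M.Λ) (v : M.σ) (ak : ∀ k, List (M.Γ k)) (k : M.K)
    (f : M.σ → Option (M.Γ k) → M.σ) :
    runOps [.peek (.inr k) (fun (r : RM M) (x : Option (GM M)) =>
      (r.1, r.2.1, f r.2.2 (x.bind (getr k))))] (embS s lab v ak) =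
      embS s lab (f v (ak k).head?) ak := by
  simp only [runOps, Op.run]
  unfold embS
  simp only [St.mk.injEq, and_true, Prod.mk.injEq, true_and]
  rcases ak k with _ | ⟨a, l⟩
  · rfl
  · simp

theorem embed_pop (s : OSt) (lab : Option M.Λ) (v : M.σ) (ak : ∀ k, List (M.Γ k)) (k : M.K)
    (f : M.σ → Option (M.Γ k) → M.σ) :
    runOps [.pop (.inr k) (fun (r : RM M) (x : Option (GM M)) =>
      (r.1, r.2.1, f r.2.2 (x.bind (getr k))))] (embS s lab v ak) =
      embS s lab (f v (ak k).head?) (Function.update ak k (ak k).tail) := by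
  simp only [runOps, Op.run]
  unfold embS
  simp only [St.mk.injEq, Prod.mk.injEq, true_and]
  constructor
  · rcases ak k with _ | ⟨a, l⟩
    · rfl
    · simp
  · funext k'
    rcases k' with k' | k'
    · rw [Function.update_of_ne (by simp)]
    · by_cases h : k' = k
      · subst h
        simp
      · rw [Function.update_of_ne (by simpa using h)]
        dsimp only
        rw [Function.update_of_ne h]

/-- executing a statement -/
theorem embed_stmt (q : Turing.TM2.Stmt M.Γ M.Λ M.σ) : ∃ c : ℕ, ∀ (E' : Unit → CM M) (s : OSt)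
    (lab : Option M.Λ) (v : M.σ) (ak : ∀ k, List (M.Γ k)),
    Runs E' (stmtC q) (embS s lab v ak)
      (embS s (Turing.TM2.stepAux q v ak).l (Turing.TM2.stepAux q v ak).var
        (Turing.TM2.stepAux q v ak).stk) c := by
  induction q with
  | push k f q ih =>
    obtain ⟨c, ih⟩ := ih
    refine ⟨1 + c, fun E' s lab v ak => ?_⟩
    exact Runs.seq (Runs.act' (embed_push s lab v ak k f)) (ih E' s lab v _)
  | peek k f q ih =>
    obtain ⟨c, ih⟩ := ih
    refine ⟨1 + c, fun E' s lab v ak => ?_⟩
    exact Runs.seq (Runs.act' (embed_peek s lab v ak k f)) (ih E' s lab _ _)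
  | pop k f q ih =>
    obtain ⟨c, ih⟩ := ih
    refine ⟨1 + c, fun E' s lab v ak => ?_⟩
    exact Runs.seq (Runs.act' (embed_pop s lab v ak k f)) (ih E' s lab _ _)
  | load f q ih =>
    obtain ⟨c, ih⟩ := ih
    refine ⟨1 + c, fun E' s lab v ak => ?_⟩
    exact Runs.seq (Runs.act' (s' := embS s lab (f v) ak) rfl) (ih E' s lab _ _)
  | branch p q₁ q₂ ih₁ ih₂ =>
    obtain ⟨c₁, ih₁⟩ := ih₁
    obtain ⟨c₂, ih₂⟩ := ih₂
    refine ⟨max c₁ c₂ + 1, fun E' s lab v ak => ?_⟩
    rcases h : p v with _ | _
    · have e : Turing.TM2.stepAux (.branch p q₁ q₂) v ak = Turing.TM2.stepAux q₂ v ak := by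
        simp [h]
      rw [e]
      exact Runs.ite_false (s₁ := embS s lab v ak) rfl h
        ((ih₂ E' s lab v ak).mono (le_max_right _ _))
    · have e : Turing.TM2.stepAux (.branch p q₁ q₂) v ak = Turing.TM2.stepAux q₁ v ak := by
        simp [h]
      rw [e]
      exact Runs.ite_true (s₁ := embS s lab v ak) rfl h
        ((ih₁ E' s lab v ak).mono (le_max_left _ _))
  | goto f => exact ⟨1, fun E' s lab v ak => Runs.act' rfl⟩
  | halt => exact ⟨1, fun E' s lab v ak => Runs.act' rfl⟩

/-- executing the statement of a label -/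
theorem embed_dispatch (ls : List M.Λ) : ∃ c : ℕ, ∀ (E' : Unit → CM M) (s : OSt) (l : M.Λ),
    l ∈ ls → ∀ (v : M.σ) (ak : ∀ k, List (M.Γ k)),
    Runs E' (dispatch ls) (embS s (some l) v ak)
      (embS s (Turing.TM2.stepAux (M.m l) v ak).l (Turing.TM2.stepAux (M.m l) v ak).var
        (Turing.TM2.stepAux (M.m l) v ak).stk) c := by
  induction ls with
  | nil => exact ⟨0, fun E' s l hl => absurd hl (by simp)⟩
  | cons a ls ih =>
    obtain ⟨c, ih⟩ := ih
    obtain ⟨c', h'⟩ := embed_stmt (M.m a)
    refine ⟨max c' c + 1, fun E' s l hl v ak => ?_⟩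
    by_cases h : l = a
    · subst h
      exact Runs.ite_true (s₁ := embS s (some l) v ak) rfl (by simp [embS])
        ((h' E' s (some l) v ak).mono (le_max_left _ _))
    · have hl' : l ∈ ls := by
        rcases List.mem_cons.1 hl with h1 | h1
        · exact absurd h1 h
        · exact h1
      exact Runs.ite_false (s₁ := embS s (some l) v ak) rfl (by simp [embS, h])
        ((ih E' s l hl' v ak).mono (le_max_right _ _))

theorem embed_none (n : ℕ) : (flip bind M.step)^[n] (none : Option M.Cfg) = none := by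
  induction n with
  | zero => rfl
  | succ n ih => rw [Function.iterate_succ_apply, show flip bind M.step none = none from rfl, ih]

theorem embed_loop {c : ℕ} {E' : Unit → CM M} (hc : ∀ (s : OSt) (l : M.Λ) (v : M.σ)
    (ak : ∀ k, List (M.Γ k)),
    Runs E' (dispatch (@Finset.univ M.Λ M.ΛFin).toList) (embS s (some l) v ak)
      (embS s (Turing.TM2.stepAux (M.m l) v ak).l (Turing.TM2.stepAux (M.m l) v ak).var
        (Turing.TM2.stepAux (M.m l) v ak).stk) c) (s : OSt) :
    ∀ (n : ℕ) (a b : M.Cfg), (flip bind M.step)^[n] (some a) = some b → b.l = none →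
      Runs E' runC (embS s a.l a.var a.stk) (embS s b.l b.var b.stk) ((c + 1) * n + 1) := by
  intro n
  induction n with
  | zero =>
    intro a b h hb
    have h1 : a = b := Option.some.inj h
    subst h1
    exact Runs.loop_done rfl (by simp [embS, hb])
  | succ n ih =>
    intro a b h hb
    rw [Function.iterate_succ_apply] at h
    obtain ⟨l, v, ak⟩ := a
    rcases l with _ | l
    · have h1 : flip bind M.step (some (⟨none, v, ak⟩ : M.Cfg)) = none := rfl
      rw [h1, embed_none] at h
      exact absurd h (by simp)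
    · have h1 : flip bind M.step (some (⟨some l, v, ak⟩ : M.Cfg)) =
        some (Turing.TM2.stepAux (M.m l) v ak) := rfl
      rw [h1] at h
      have h2 := ih _ b h hb
      have h3 := Runs.loop_step (E := E') (pre := []) (p := fun r : RM M => r.2.1.isSome)
        (s := embS s (some l) v ak) rfl rfl (hc s l v ak) h2
      refine Runs.mono h3 ?_
      rw [Nat.mul_succ]
      omega

end tm

theorem runC_spec (M : Turing.FinTM2) : ∃ c : ℕ, ∀ (E' : Unit → CM M) (l : List (M.Γ M.k₀))
    (o : List (M.Γ M.k₁)) (t : ℕ), Nonempty (Turing.TM2OutputsInTime M l (some o) t) →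
    ∀ s : OSt, Runs E' runC (embS s (some M.main) M.initialState (Turing.initList M l).stk)
      (embS s none M.initialState (Turing.haltList M o).stk) (c * (t + 1)) := by
  obtain ⟨c, hc⟩ := embed_dispatch (M := M) (@Finset.univ M.Λ M.ΛFin).toList
  refine ⟨c + 1, fun E' l o t ht s => ?_⟩
  obtain ⟨⟨⟨n, hn⟩, hnt⟩⟩ := ht
  have h := embed_loop (c := c) (E' := E')
    (fun s l v ak => hc E' s l (by simp) v ak) s n (Turing.initList M l)
    (Turing.haltList M o) hn rfl
  refine Runs.mono h ?_
  have : (c + 1) * n ≤ (c + 1) * t := Nat.mul_le_mul_left _ hnt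
  rw [Nat.mul_add]
  omega

end Pool.Agent.Helper92.OS
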