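import Pool.Agent.Helper92.OS.Prog

/-!
# Own programs inside the combined machine (project OSB, `MP_124ac8_lc`)
-/

namespace Pool.Agent.Helper92.OS

open Pool.Agent.Helper62

theorem lift_update {M : Turing.FinTM2} (s : OSt) (lab : Option M.Λ) (var : M.σ)
    (ak : ∀ k, List (M.Γ k)) (k : OW) (l : List Sym) :
    Function.update (embS s lab var ak).stk (.inl k) (l.map .inl) =
      (embS { s with stk := Function.update s.stk k l } lab var ak).stk := by
  funext j
  rcases j with j | j
  · by_cases h : j = k
    · subst h; simp [embS]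
    · have : (Sum.inl j : WM M) ≠ Sum.inl k := by simpa using h
      rw [Function.update_of_ne this]
      simp [embS, Function.update_of_ne h]
  · have : (Sum.inr j : WM M) ≠ Sum.inl k := by simp
    rw [Function.update_of_ne this]
    rfl

theorem lift_head (l : List Sym) {M : Turing.FinTM2} :
    (l.map (.inl : Sym → GM M)).head?.bind getl = l.head? := by
  cases l <;> rfl

theorem lift_op {M : Turing.FinTM2} (o : Op Bool Bool OW Sym Reg) (s : OSt)
    (lab : Option M.Λ) (var : M.σ) (ak : ∀ k, List (M.Γ k)) :
    (liftOp o).run (embS s lab var ak) = embS (o.run s) lab var ak := by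
  have hk : ∀ k, (embS s lab var ak).stk (.inl k) = (s.stk k).map .inl := fun _ => rfl
  have hr : (embS s lab var ak).reg = (s.reg, lab, var) := rfl
  cases o with
  | push k f =>
    simp only [liftOp, Op.run, hk, hr]
    rw [← List.map_cons, lift_update]
    rfl
  | pushO k f =>
    simp only [liftOp, Op.run, hk, hr]
    cases h : f s.reg with
    | none => rfl
    | some a =>
      simp only [Option.map_some]
      rw [← List.map_cons, lift_update]
      rfl
  | pop k f =>
    simp only [liftOp, Op.run, hk, hr]
    rw [lift_head, ← List.map_tail, lift_update]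
    rfl
  | peek k f =>
    simp only [liftOp, Op.run, hk, hr]
    rw [lift_head]
    rfl
  | popInp f => rfl
  | pushOut f => rfl
  | pushOutO f =>
    simp only [liftOp, Op.run, hr]
    cases h : f s.reg <;> rfl
  | load f => rfl

theorem lift_ops {M : Turing.FinTM2} (l : List (Op Bool Bool OW Sym Reg)) (s : OSt)
    (lab : Option M.Λ) (var : M.σ) (ak : ∀ k, List (M.Γ k)) :
    runOps (l.map liftOp) (embS s lab var ak) = embS (runOps l s) lab var ak := by
  induction l generalizing s with
  | nil => rfl
  | cons o l ih =>
    rw [List.map_cons, runOps, lift_op, ih]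
    rfl

theorem lift_exec {M : Turing.FinTM2} {c : OC} {s s' : OSt} {t : ℕ} (h : Exec noE c s t s')
    (E' : Unit → CM M) (lab : Option M.Λ) (var : M.σ) (ak : ∀ k, List (M.Γ k)) :
    Exec E' (liftC c) (embS s lab var ak) t (embS s' lab var ak) := by
  induction h with
  | act l s =>
    rw [← lift_ops]
    exact .act _ _
  | seq h₁ h₂ ih₁ ih₂ => exact .seq ih₁ ih₂
  | ite_true hp h ih =>
    refine .ite_true ?_ ?_
    · rw [lift_ops]; exact hp
    · rw [lift_ops]; exact ih
  | ite_false hp h ih =>
    refine .ite_false ?_ ?_
    · rw [lift_ops]; exact hp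
    · rw [lift_ops]; exact ih
  | loop_done hp =>
    rw [← lift_ops]
    refine .loop_done ?_
    rw [lift_ops]; exact hp
  | loop_step hp h₁ h₂ ih₁ ih₂ =>
    refine .loop_step ?_ ?_ ih₂
    · rw [lift_ops]; exact hp
    · rw [lift_ops]; exact ih₁
  | @call q _ _ _ h ih => exact nomatch q

end Pool.Agent.Helper92.OS
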