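import Pool.Agent.Helper92.OS.Prog
import Pool.Agent.Helper92.OS.Lift
import Pool.Agent.Helper92.OS.Embed

/-!
# The combined Turing machine (project OSB, `MP_124ac8_lc`)
-/

namespace Pool.Agent.Helper92.OS

open Pool.Agent.Helper62

section tm

variable {M : Turing.FinTM2}

theorem wrap_updr (s : OSt) (lab : Option M.Λ) (var : M.σ) (ak : ∀ k, List (M.Γ k)) (k : M.K)
    (l : List (M.Γ k)) :
    Function.update (embS s lab var ak).stk (.inr k)
      (l.map (fun a => (.inr ⟨k, a⟩ : GM M))) = (embS s lab var (Function.update ak k l)).stk := by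
  funext j
  rcases j with j | j
  · rw [Function.update_of_ne (by simp)]; rfl
  · by_cases h : j = k
    · subst h; simp [embS]
    · rw [Function.update_of_ne (by simpa using h)]
      simp [embS, Function.update_of_ne h]

theorem wrap_stkr (s : OSt) (lab : Option M.Λ) (var : M.σ) (ak : ∀ k, List (M.Γ k)) (k : M.K) :
    (embS s lab var ak).stk (.inr k) = (ak k).map (fun a => (.inr ⟨k, a⟩ : GM M)) := rfl

theorem wrap_O (out th out' : List Sym) :
    Function.update (stkO out th) .Out out' = stkO out' th := by
  funext j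
  cases j <;> simp [Function.update, stkO]

theorem wrap_R (res th res' : List Sym) :
    Function.update (stkR res th) .Res res' = stkR res' th := by
  funext j
  cases j <;> simp [Function.update, stkR]

theorem wrap_OR (th : List Sym) : stkO [] th = stkR [] th := by
  funext j
  cases j <;> rfl

theorem wrap_O_nil : stkO [] [] = fun _ => [] := by
  funext j
  cases j <;> rfl

/-- popping the output stack -/
theorem wrap_pop (r : Reg) (l th : List Sym) (lab : Option M.Λ) (var : M.σ)
    (ak : ∀ k, List (M.Γ k)) :
    runOps [.pop (.inl .Out) (fun r x => ({ r.1 with x := x.bind getl }, r.2))]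
      (embS ⟨r, [], [], stkO l th⟩ lab var ak) =
      (embS ⟨{ r with x := l.head? }, [], [], stkO l.tail th⟩ lab var ak : SM M) := by
  have := lift_ops (M := M) [popX .Out] ⟨r, [], [], stkO l th⟩ lab var ak
  refine this.trans ?_
  simp only [runOps, Op.run]
  have h1 : stkO l th .Out = l := rfl
  rw [h1, wrap_O]

/-- pushing a symbol onto a stack of the machine -/
theorem wrap_push (s : OSt) (a : Sym) (hs : s.reg.x = some a) (lab : Option M.Λ) (var : M.σ)
    (ak : ∀ k, List (M.Γ k)) (k : M.K) (inp : Sym → M.Γ k) :
    runOps [.pushO (.inr k) (fun r => r.1.x.map (fun s => .inr ⟨k, inp s⟩))]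
      (embS s lab var ak) =
      (embS s lab var (Function.update ak k (inp a :: ak k)) : SM M) := by
  simp only [runOps, Op.run]
  have h1 : (embS s lab var ak).reg.1.x = some a := hs
  simp only [h1, Option.map_some]
  rw [wrap_stkr]
  have h2 : ((.inr ⟨k, inp a⟩ : GM M) :: (ak k).map (fun a => (.inr ⟨k, a⟩ : GM M))) =
      (inp a :: ak k).map (fun a => (.inr ⟨k, a⟩ : GM M)) := rfl
  rw [h2, wrap_updr]
  rfl

theorem wrap_bridge1 (E' : Unit → CM M) (inp : Sym → M.Γ M.k₀) (th : List Sym)
    (lab : Option M.Λ) (var : M.σ) (l : List Sym) : ∀ (r : Reg) (ak : ∀ k, List (M.Γ k)),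
    Runs E' (bridge1 inp) (embS ⟨r, [], [], stkO l th⟩ lab var ak)
      (embS ⟨{ r with x := none }, [], [], stkO [] th⟩ lab var
        (Function.update ak M.k₀ ((l.map inp).reverse ++ ak M.k₀))) (2 * l.length + 1) := by
  induction l with
  | nil =>
    intro r ak
    refine Runs.loop_done ?_ ?_
    · rw [wrap_pop]
      simp
    · rfl
  | cons a l ih =>
    intro r ak
    refine (Runs.loop_step (wrap_pop r (a :: l) th lab var ak) rfl
      (Runs.act' (wrap_push _ a rfl lab var ak M.k₀ inp)) ?_).mono
      (B := 1 + (2 * l.length + 1) + 1) ?_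
    · have := ih { r with x := some a } (Function.update ak M.k₀ (inp a :: ak M.k₀))
      rw [Function.update_self, Function.update_idem] at this
      have e2 : ((l.map inp).reverse ++ inp a :: ak M.k₀) =
        (((a :: l).map inp).reverse ++ ak M.k₀) := by simp
      rw [e2] at this
      exact this
    · simp only [List.length_cons]; omega

/-- popping the output stack of the machine -/
theorem wrap_popr (r : Reg) (res th : List Sym) (lab : Option M.Λ) (var : M.σ)
    (ak : ∀ k, List (M.Γ k)) (g : M.Γ M.k₁ → Sym) :
    runOps [.pop (.inr M.k₁) (fun r x => ({ r.1 with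
      x := (x.bind (getr M.k₁)).map g }, r.2))]
      (embS ⟨r, [], [], stkR res th⟩ lab var ak) =
      (embS ⟨{ r with x := (ak M.k₁).head?.map g }, [], [], stkR res th⟩ lab var
        (Function.update ak M.k₁ (ak M.k₁).tail) : SM M) := by
  simp only [runOps, Op.run]
  rw [wrap_stkr]
  have h1 : ∀ l : List (M.Γ M.k₁),
      (l.map (fun a => (.inr ⟨M.k₁, a⟩ : GM M))).head?.bind (getr M.k₁) = l.head? := by
    intro l
    cases l <;> simp
  rw [h1, ← List.map_tail, wrap_updr]
  rfl

theorem wrap_pushl (r : Reg) (a : Sym) (hr : r.x = some a) (res th : List Sym)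
    (lab : Option M.Λ) (var : M.σ) (ak : ∀ k, List (M.Γ k)) :
    runOps [.pushO (.inl .Res) (fun r => r.1.x.map .inl)]
      (embS ⟨r, [], [], stkR res th⟩ lab var ak) =
      (embS ⟨r, [], [], stkR (a :: res) th⟩ lab var ak : SM M) := by
  have := lift_ops (M := M) [.pushO .Res (fun r => r.x)] ⟨r, [], [], stkR res th⟩ lab var ak
  refine this.trans ?_
  simp only [runOps, Op.run, hr]
  have h1 : stkR res th .Res = res := rfl
  rw [h1, wrap_R]

open Classical in
theorem wrap_bridge2 (E' : Unit → CM M) (out : Bool → M.Γ M.k₁) (th : List Sym)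
    (lab : Option M.Λ) (var : M.σ) (l : List (M.Γ M.k₁)) :
    ∀ (r : Reg) (res : List Sym) (ak : ∀ k, List (M.Γ k)), ak M.k₁ = l →
    Runs E' (bridge2 out) (embS ⟨r, [], [], stkR res th⟩ lab var ak)
      (embS ⟨{ r with x := none }, [], [],
        stkR ((l.map (fun a => bitSym (decide (a = out true)))).reverse ++ res) th⟩ lab var
        (Function.update ak M.k₁ [])) (2 * l.length + 1) := by
  induction l with
  | nil =>
    intro r res ak hak
    refine Runs.loop_done ?_ ?_
    · rw [wrap_popr, hak]
      simp
    · rfl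
  | cons a l ih =>
    intro r res ak hak
    have h1 := wrap_popr r res th lab var ak (fun a => bitSym (decide (a = out true)))
    rw [hak] at h1
    refine (Runs.loop_step h1 rfl
      (Runs.act' (wrap_pushl _ _ rfl res th lab var _)) ?_).mono
      (B := 1 + (2 * l.length + 1) + 1) ?_
    · have := ih { r with x := some (bitSym (decide (a = out true))) }
        (bitSym (decide (a = out true)) :: res) (Function.update ak M.k₁ l) (by simp)
      rw [Function.update_idem] at this
      have e2 : ((l.map (fun a => bitSym (decide (a = out true)))).reverse ++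
          bitSym (decide (a = out true)) :: res) =
        (((a :: l).map (fun a => bitSym (decide (a = out true)))).reverse ++ res) := by simp
      rw [e2] at this
      exact this
    · simp only [List.length_cons]; omega

end tm

instance wrap_inh (M : Turing.FinTM2) : Inhabited (GM M) := ⟨.inl .zero⟩

theorem wrap {Q : Instance → Prop} {T : Instance → ℕ} (A : Algorithm Q T) (o₁ o₂ : OC) :
    ∃ (B : Turing.FinTM2) (_ : ∀ k, Finite (B.Γ k)) (inp : Bool → B.Γ B.k₀)
      (out : Bool → B.Γ B.k₁) (_ : Function.Injective out) (c : ℕ),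
      ∀ (x : List Bool) (I : Instance) (C : ℕ) (th : List Sym) (b : Bool) (t₁ t₂ : ℕ), I.Valid →
        Q I → IsMinMakespan I C →
        (∃ r, ORuns o₁ ⟨Reg.init, x, [], fun _ => []⟩ ⟨r, [], [], stkO (enc I).reverse th⟩ t₁) →
        (∀ r, ∃ r', ORuns o₂ ⟨r, [], [], stkR (bitsS C).reverse th⟩ ⟨r', [], [b], fun _ => []⟩
          t₂) →
        Nonempty (Turing.TM2OutputsInTime B (x.map inp) (some [out b])
          (t₁ + t₂ + c * (T I + (enc I).length + C.size + 1))) := by
  classical
  have iK := A.M.kFin
  have iΛ := A.M.ΛFin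
  have iσ := A.M.σFin
  have iA := A.fin
  obtain ⟨c, hc⟩ := runC_spec A.M
  let E : Unit → CM A.M := fun _ => fullC A.inp A.out o₁ o₂
  let r0 : RM A.M := (Reg.init, none, A.M.initialState)
  refine ⟨toTM E () r0, ?_, id, id, Function.injective_id, c + 6, ?_⟩
  · intro k
    rcases k with _ | _ | _ | k
    · have h1 : ∀ q, Finite (Lab (E q)) := fun q => @Finite.of_fintype _ (Lab.fintype (E q))
      have h2 : Finite (Σ q : Unit, Lab (E q)) := @Finite.instSigma _ _ _ h1
      have h3 : Finite (Option (Σ q : Unit, Lab (E q))) := inferInstance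
      exact h3
    · exact inferInstanceAs (Finite Bool)
    · exact inferInstanceAs (Finite Bool)
    · exact inferInstanceAs (Finite (GM A.M))
  intro x I C th b t₁ t₂ hI hQ hC ⟨r₁, h₁⟩ h₂
  have hrun : Nonempty (Turing.TM2OutputsInTime A.M ((enc I).map A.inp)
      (some ((Nat.bits C).map A.out)) (T I)) := A.correct I hI hQ C hC
  -- first own program
  obtain ⟨n₁, hn₁, e₁⟩ := h₁
  have s1 : Runs E (liftC o₁) (embS ⟨Reg.init, x, [], fun _ => []⟩ none A.M.initialState
      (fun _ => [])) (embS ⟨r₁, [], [], stkO (enc I).reverse th⟩ none A.M.initialState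
      (fun _ => [])) t₁ := ⟨n₁, hn₁, lift_exec e₁ E _ _ _⟩
  have s2 : Runs E (.act [.load (fun r => (r.1, some A.M.main, A.M.initialState))])
      (embS ⟨r₁, [], [], stkO (enc I).reverse th⟩ none A.M.initialState (fun _ => []))
      (embS ⟨r₁, [], [], stkO (enc I).reverse th⟩ (some A.M.main) A.M.initialState
      (fun _ => [])) 1 := Runs.act' rfl
  have s3 := wrap_bridge1 E A.inp th (some A.M.main) A.M.initialState (enc I).reverse r₁
    (fun _ => [])
  have hi : Function.update (fun _ => [] : ∀ k, List (A.M.Γ k)) A.M.k₀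
      ((((enc I).reverse).map A.inp).reverse ++ []) =
      (Turing.initList A.M ((enc I).map A.inp)).stk := by
    funext k
    by_cases h : k = A.M.k₀
    · subst h
      simp [Turing.initList]
    · rw [Function.update_of_ne h]
      simp [Turing.initList, h]
  rw [hi] at s3
  have s4 := hc E _ _ _ hrun ⟨{ r₁ with x := none }, [], [], stkO [] th⟩
  have hk1 : (Turing.haltList A.M ((Nat.bits C).map A.out)).stk A.M.k₁ =
      (Nat.bits C).map A.out := by
    simp [Turing.haltList]
  have s5 := wrap_bridge2 E A.out th none A.M.initialState ((Nat.bits C).map A.out)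
    { r₁ with x := none } [] _ hk1
  have hh : Function.update (Turing.haltList A.M ((Nat.bits C).map A.out)).stk A.M.k₁ [] =
      fun _ => [] := by
    funext k
    by_cases h : k = A.M.k₁
    · subst h
      simp
    · rw [Function.update_of_ne h]
      simp [Turing.haltList, h]
  have hres : ((((Nat.bits C).map A.out).map
      (fun a => bitSym (decide (a = A.out true)))).reverse ++ []) = (bitsS C).reverse := by
    rw [List.append_nil, List.map_map, bitsS]
    congr 2
    funext b
    simp only [Function.comp]
    congr 1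
    rcases b with _ | _
    · have : A.out false ≠ A.out true := fun h => by simpa using A.out_inj h
      simp [this]
    · simp
  rw [hh, hres, ← wrap_OR] at s5
  obtain ⟨r', n₂, hn₂, e₂⟩ := h₂ { r₁ with x := none }
  have s6 : Runs E (liftC o₂) (embS ⟨{ r₁ with x := none }, [], [], stkR (bitsS C).reverse th⟩
      none A.M.initialState (fun _ => [])) (embS ⟨r', [], [b], fun _ => []⟩ none
      A.M.initialState (fun _ => [])) t₂ := ⟨n₂, hn₂, lift_exec e₂ E _ _ _⟩
  have hall := s1.seq (s2.seq (s3.seq (s4.seq (s5.seq s6))))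
  have hs : ∀ (r : Reg) (i o : List Bool), (embS ⟨r, i, o, fun _ => []⟩ none A.M.initialState
      (fun _ => []) : SM A.M) = ⟨(r, none, A.M.initialState), i, o, fun _ => []⟩ := by
    intro r i o
    unfold embS
    congr 1
    funext k
    rcases k with k | k <;> rfl
  rw [hs, hs] at hall
  have hlen : (Nat.bits C).length = C.size := Nat.size_eq_bits_len C
  obtain ⟨R⟩ := toTM_outputs E () r0 x [b] _ ⟨(r', none, A.M.initialState), hall⟩
  have hx : ∀ y : List Bool, y = x → Nonempty (Turing.TM2OutputsInTime (toTM E () r0) y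
      (some [b]) (t₁ + t₂ + (c + 6) * (T I + (enc I).length + C.size + 1))) := ?_
  · exact hx _ (List.map_id x)
  rintro y rfl
  refine ⟨⟨R.toEvalsTo, R.steps_le_m.trans ?_⟩⟩
  rw [List.length_reverse, List.length_map, hlen]
  have : (c + 6) * (T I + (enc I).length + C.size + 1) =
    c * (T I + 1) + c * ((enc I).length + C.size) + 6 * (T I + (enc I).length + C.size + 1) := by
    ring
  rw [this]
  omega

end Pool.Agent.Helper92.OS
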