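import Pool.Agent.Helper92.OS.Reduction
import Pool.Agent.Helper92.OS.Inst
import Pool.Agent.Helper92.OS.Templ
import Pool.Agent.Helper92.OS.Interp
import Pool.Agent.Helper92.OS.Pre1
import Pool.Agent.Helper92.OS.Post
import Pool.Agent.Helper92.OS.Wrap
import Pool.Agent.Helper92.OS.Growth

/-!
# No algorithm for binary numbers: the diagonal argument
-/

namespace Pool.Agent.Helper92.OS

open Pool.Agent.Helper62

theorem Diag.pow_mod (j : ℕ) : 2 ^ (4 * j + 1) % 5 = 2 := by
  rw [pow_succ, pow_mul, Nat.mul_mod, Nat.pow_mod]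
  norm_num

/-- a bound for all coefficients -/
def Diag.coef (l : List Form) : ℕ := (l.map (fun F => F.a + F.b + F.c + F.c' + F.e)).sum

theorem Diag.le_coef (l : List Form) (F : Form) (hF : F ∈ l) :
    F.a + F.b + F.c + F.c' + F.e ≤ Diag.coef l := by
  apply List.le_sum_of_mem
  exact List.mem_map.2 ⟨F, hF, rfl⟩

theorem Diag.fits (l : List Form) (hl : ∀ F ∈ l, F.Good) (k w v : ℕ) (hwv : w ≤ v)
    (h : 2 * Diag.coef l * (v + 1) < 2 ^ k) : ∀ F ∈ l, F.Fits k w v := by
  intro F hF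
  have h1 := Diag.le_coef l F hF
  have h2 : Diag.coef l ≤ Diag.coef l * (v + 1) := Nat.le_mul_of_pos_right _ (by omega)
  refine ⟨hl F hF, by nlinarith, by nlinarith, ?_⟩
  have h3 : F.c * w ≤ F.c * v := Nat.mul_le_mul_left _ hwv
  have h4 : F.c * v + F.c' * v + F.e ≤ (F.c + F.c' + F.e) * (v + 1) := by nlinarith
  have h5 : (F.c + F.c' + F.e) * (v + 1) ≤ Diag.coef l * (v + 1) :=
    Nat.mul_le_mul_right _ (by omega)
  nlinarith

theorem Diag.enc_len (q : SPar) (k w v : ℕ) (h : ∀ F ∈ q.forms, F.Fits k w v) :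
    (enc (q.inst (2 ^ k) w v)).length ≤ q.forms.length * (3 * k + 1) := by
  rw [q.enc_inst]
  generalize q.forms = l at h
  induction l with
  | nil => simp
  | cons F l ih =>
    rw [List.flatMap_cons, List.length_append]
    have h1 := ih (fun G hG => h G (List.mem_cons_of_mem _ hG))
    have h2 : (encNat (F.eval (2 ^ k) w v)).length ≤ 3 * k + 1 := by
      have := size_eval k w v F (h F List.mem_cons_self)
      have h3 := length_bitsS (F.eval (2 ^ k) w v)
      unfold bitsS at h3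
      unfold encNat
      rw [List.length_append, h3]
      simpa using this
    rw [List.length_cons]
    nlinarith

theorem Diag.o1 (w k v : ℕ) (F : Form) (l : List Form) (hk : k = 4 * (w.size + 1) + 1)
    (hv : v = w + 1) (hvk : v < 2 ^ k)
    (hF : F.Fits k w v) (hl : ∀ G ∈ l, G.Fits k w v) (l' : List Bool)
    (hw : Nat.bits w = codeL (template F l ++ [.H]) ++ l') :
    ∃ r, ORuns (.seq pre1 common) ⟨Reg.init, List.replicate w true ++ [false], [], fun _ => []⟩
      ⟨r, [], [], stkO (l.flatMap (fun G => encNat (G.eval (2 ^ k) w v))).reverse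
        (encNat (F.eval (2 ^ k) w v))⟩
      (1000 * (w + 2) * (w.size + 2) + (100 * ((template F l).length + 1) ^ 2 * (k + 2)
        + 10 * w.size)) := by
  obtain ⟨r1, h1⟩ := pre1_spec w Reg.init
  obtain ⟨hok, hsem⟩ := template_sem k w v F l hF hl
  have h0 : (semL k w v (template F l) ⟨0, [], []⟩).acc = 0 := by rw [hsem]
  have hwk : w.size ≤ k := by omega
  have hvs : v.size ≤ k := Nat.size_le.2 hvk
  obtain ⟨r2, h2⟩ := common_spec k w v (template F l) (l'.map bitSym) hwk hvs hok h0 r1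
  rw [hsem] at h2
  refine ⟨r2, ?_⟩
  have e : bitsS w = (codeL (template F l ++ [.H])).map bitSym ++ l'.map bitSym := by
    unfold bitsS
    rw [hw, List.map_append]
  rw [← e] at h2
  have hl' : (l'.map bitSym).length ≤ w.size := by
    have h3 := length_bitsS w
    rw [e, List.length_append] at h3
    omega
  rw [hk] at h2 ⊢
  rw [hv] at h2 ⊢
  exact (h1.seq h2).mono (by omega)

theorem no_xp (f h : ℕ → ℕ) :
    IsEmpty (Algorithm (fun I => I.n = I.g) (fun I => f I.g * (enc I).length ^ h I.g)) := by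
  constructor
  intro A
  obtain ⟨B, hfin, inp, out, hout, cB, hB⟩ := wrap A (.seq pre1 common) (post id)
  obtain ⟨q, cR, hq, hR⟩ := reduction B hfin (inp true) (inp false) (out true)
  set P := (template q.formC q.forms).length with hP
  set Lf := q.forms.length with hLf
  set H := h q.num with hH
  set F₀ := f q.num with hF₀
  set M := Diag.coef (q.formC :: q.forms) with hM
  obtain ⟨w₀, hw₀⟩ := growth1 (cR * (1000 + (400 * (P + 1) ^ 2 + 10 + 10 * (32 * Lf + 18) +
    cB * (F₀ * (16 * Lf) ^ H + 48 * Lf + 2) + 1)) + M) (H + 1)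
  obtain ⟨w, hw, l', hl'⟩ := exists_bits (codeL (template q.formC q.forms ++ [.H])) (w₀ + 1)
  have hg := hw₀ w (by omega)
  obtain ⟨k, hk⟩ : ∃ k, k = 4 * (w.size + 1) + 1 := ⟨_, rfl⟩
  obtain ⟨v, hv⟩ : ∃ v, v = w + 1 := ⟨_, rfl⟩
  obtain ⟨x, hx⟩ : ∃ x, x = w.size + 2 := ⟨_, rfl⟩
  rw [← hk, ← hx] at hg
  set A₀ := cR * (1000 + (400 * (P + 1) ^ 2 + 10 + 10 * (32 * Lf + 18) +
    cB * (F₀ * (16 * Lf) ^ H + 48 * Lf + 2) + 1)) with hA₀
  have hx2 : 2 ≤ x := by omega
  have hMk : 2 * M * (v + 1) < 2 ^ k := by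
    have h1 : (A₀ + M) * ((w + 2) * x) < 2 ^ k := by
      have : 0 ≤ (A₀ + M) * x ^ (H + 1) := Nat.zero_le _
      omega
    have h2 : 2 * M * (v + 1) ≤ (A₀ + M) * ((w + 2) * x) := by
      rw [hv]
      have h3 : 2 * M * (w + 1 + 1) = M * ((w + 2) * 2) := by ring
      rw [h3]
      exact Nat.mul_le_mul (by omega) (Nat.mul_le_mul_left _ hx2)
    omega
  have hgood : ∀ F ∈ q.formC :: q.forms, F.Good := by
    intro F hF
    rcases List.mem_cons.1 hF with rfl | hF
    · exact q.formC_good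
    · exact q.forms_good hq F hF
  have hfits := Diag.fits _ hgood k w v (by omega) hMk
  have hfC : q.formC.Fits k w v := hfits _ List.mem_cons_self
  have hfF : ∀ G ∈ q.forms, G.Fits k w v := fun G hG => hfits _ (List.mem_cons_of_mem _ hG)
  have hvk : v < 2 ^ k := by
    have : 0 ≤ (A₀ + M) * ((w + 2) * x) + (A₀ + M) * x ^ (H + 1) := Nat.zero_le _
    omega
  have hk5 : 5 ≤ k := by omega
  have hN7 : 7 ≤ 2 ^ k := le_trans (by norm_num : 7 ≤ 2 ^ 5) (Nat.pow_le_pow_right (by norm_num) hk5)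
  have hN5 : 2 ^ k % 5 = 2 := by rw [hk]; exact Diag.pow_mod _
  -- the instance
  have hval := q.inst_valid (2 ^ k) w v (by omega)
  obtain ⟨C, hC⟩ := exists_min _ hval
  obtain ⟨r, ho1⟩ := Diag.o1 w k v q.formC q.forms hk hv hvk hfC hfF l' hl'
  rw [← q.enc_inst] at ho1
  have hrun := hB (List.replicate w true ++ [false]) (q.inst (2 ^ k) w v) C
    (encNat (q.formC.eval (2 ^ k) w v)) (id (decide (q.formC.eval (2 ^ k) w v < C))) _ _ hval rfl hC
    ⟨r, ho1⟩ (fun r => post_spec id C (q.formC.eval (2 ^ k) w v) r)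
  -- the time
  have hE : (enc (q.inst (2 ^ k) w v)).length ≤ 16 * Lf * x := by
    refine (Diag.enc_len q k w v hfF).trans ?_
    have : 3 * k + 1 ≤ 16 * x := by omega
    calc q.forms.length * (3 * k + 1) ≤ Lf * (16 * x) := Nat.mul_le_mul_left _ this
      _ = 16 * Lf * x := by ring
  have hCs : C.size ≤ 32 * Lf * x + 1 := by
    have := min_size _ hval C hC
    have h32 : 32 * Lf * x = 2 * (16 * Lf * x) := by ring
    omega
  have hTs : (q.formC.eval (2 ^ k) w v).size ≤ 12 * x := by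
    have := size_eval k w v q.formC hfC
    omega
  generalize hEE : (enc (q.inst (2 ^ k) w v)).length = E at *
  have hnum : (q.inst (2 ^ k) w v).g = q.num := rfl
  simp only [hnum] at hrun
  rw [← hF₀, ← hH] at hrun
  have hpx : 1 ≤ x ^ H := Nat.one_le_pow _ _ (by omega)
  have hxH : x ≤ x ^ (H + 1) := by
    rw [pow_succ]
    exact Nat.le_mul_of_pos_left _ hpx
  have hxH' : x ^ H ≤ x ^ (H + 1) := Nat.pow_le_pow_right (by omega) (by omega)
  have hEH : E ^ H ≤ (16 * Lf) ^ H * x ^ (H + 1) := by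
    calc E ^ H ≤ (16 * Lf * x) ^ H := Nat.pow_le_pow_left hE _
      _ = (16 * Lf) ^ H * x ^ H := by rw [mul_pow]
      _ ≤ _ := Nat.mul_le_mul_left _ hxH'
  have key : 1000 * (w + 2) * (w.size + 2) + (100 * (P + 1) ^ 2 * (k + 2) + 10 * w.size) +
      10 * (C.size + (q.formC.eval (2 ^ k) w v).size + 5) +
      cB * (F₀ * E ^ H + E + C.size + 1) + 1 ≤
      (1000 + (400 * (P + 1) ^ 2 + 10 + 10 * (32 * Lf + 18) +
        cB * (F₀ * (16 * Lf) ^ H + 48 * Lf + 2) + 1)) * ((w + 2) * x + x ^ (H + 1)) := by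
    have a1 : 1000 * (w + 2) * (w.size + 2) = 1000 * ((w + 2) * x) := by rw [hx]; ring
    have a2 : 100 * (P + 1) ^ 2 * (k + 2) ≤ 400 * (P + 1) ^ 2 * x ^ (H + 1) := by
      have : k + 2 ≤ 4 * x := by omega
      calc 100 * (P + 1) ^ 2 * (k + 2) ≤ 100 * (P + 1) ^ 2 * (4 * x) := Nat.mul_le_mul_left _ this
        _ = 400 * (P + 1) ^ 2 * x := by ring
        _ ≤ _ := Nat.mul_le_mul_left _ hxH
    have a3 : 10 * w.size ≤ 10 * x ^ (H + 1) := by omega
    have a4 : 10 * (C.size + (q.formC.eval (2 ^ k) w v).size + 5) ≤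
        10 * (32 * Lf + 18) * x ^ (H + 1) := by
      have : C.size + (q.formC.eval (2 ^ k) w v).size + 5 ≤ (32 * Lf + 18) * x := by
        have h18 : (32 * Lf + 18) * x = 32 * Lf * x + 18 * x := by ring
        rw [h18]
        omega
      calc 10 * (C.size + (q.formC.eval (2 ^ k) w v).size + 5) ≤ 10 * ((32 * Lf + 18) * x) :=
            Nat.mul_le_mul_left _ this
        _ = 10 * (32 * Lf + 18) * x := by ring
        _ ≤ _ := Nat.mul_le_mul_left _ hxH
    have a5 : F₀ * E ^ H + E + C.size + 1 ≤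
        (F₀ * (16 * Lf) ^ H + 48 * Lf + 2) * x ^ (H + 1) := by
      have b1 : F₀ * E ^ H ≤ F₀ * (16 * Lf) ^ H * x ^ (H + 1) := by
        rw [mul_assoc]
        exact Nat.mul_le_mul_left _ hEH
      have b2 : E + C.size + 1 ≤ (48 * Lf + 2) * x ^ (H + 1) := by
        have : E + C.size + 1 ≤ (48 * Lf + 2) * x := by
          have h48 : (48 * Lf + 2) * x = 16 * Lf * x + 32 * Lf * x + 2 * x := by ring
          rw [h48]
          omega
        exact this.trans (Nat.mul_le_mul_left _ hxH)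
      calc F₀ * E ^ H + E + C.size + 1 = F₀ * E ^ H + (E + C.size + 1) := by ring
        _ ≤ F₀ * (16 * Lf) ^ H * x ^ (H + 1) + (48 * Lf + 2) * x ^ (H + 1) := by omega
        _ = _ := by ring
    have a6 : cB * (F₀ * E ^ H + E + C.size + 1) ≤
        cB * (F₀ * (16 * Lf) ^ H + 48 * Lf + 2) * x ^ (H + 1) := by
      rw [mul_assoc]
      exact Nat.mul_le_mul_left _ a5
    have a7 : 1 ≤ x ^ (H + 1) := Nat.one_le_pow _ _ (by omega)
    generalize x ^ (H + 1) = z at *
    generalize (w + 2) * x = y at *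
    generalize cB * (F₀ * (16 * Lf) ^ H + 48 * Lf + 2) = g1 at *
    generalize 400 * (P + 1) ^ 2 = g2 at *
    generalize 10 * (32 * Lf + 18) = g3 at *
    rw [a1]
    have e1 : (1000 + (g2 + 10 + g3 + g1 + 1)) * (y + z) = 1000 * y + g2 * z + 10 * z + g3 * z +
      g1 * z + z + (1000 * z + (g2 + 10 + g3 + g1 + 1) * y) := by ring
    rw [e1]
    have e2 : 0 ≤ 1000 * z + (g2 + 10 + g3 + g1 + 1) * y := Nat.zero_le _
    omega
  have htime : v + cR * ((1000 * (w + 2) * (w.size + 2) + (100 * (P + 1) ^ 2 * (k + 2) +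
      10 * w.size) + 10 * (C.size + (q.formC.eval (2 ^ k) w v).size + 5) +
      cB * (F₀ * E ^ H + E + C.size + 1)) + 1) < 2 ^ k := by
    have h1 := Nat.mul_le_mul_left cR key
    rw [← mul_assoc, ← hA₀] at h1
    have h2 : (A₀ + M) * ((w + 2) * x) + (A₀ + M) * x ^ (H + 1) =
        A₀ * ((w + 2) * x + x ^ (H + 1)) + M * ((w + 2) * x + x ^ (H + 1)) := by ring
    have h3 : 0 ≤ M * ((w + 2) * x + x ^ (H + 1)) := Nat.zero_le _
    omega
  have hans := hR (2 ^ k) w v hN5 hN7 (by omega) (by omega) hvk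
    (fun _ => out (decide (q.formC.eval (2 ^ k) w v < C))) _ htime (by
      intro y hy
      have : y = [] := by
        cases y with
        | nil => rfl
        | cons a y => simp at hy; omega
      subst this
      simpa using hrun)
  have hcore := q.core_iff hq (2 ^ k) w v hN7 (by omega) (by omega) hvk C hC
  by_cases hlt : q.formC.eval (2 ^ k) w v < C
  · have : ∃ t, (q.par (2 ^ k) w v).Core t := hans.2 ⟨[], by simp; omega, by simp [hlt]⟩
    have := hcore.2 this
    omega
  · obtain ⟨y, -, hy⟩ := hans.1 (hcore.1 (by omega))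
    have := hout hy
    simp [hlt] at this

end Pool.Agent.Helper92.OS
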