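import Pool.Agent.Helper92.OS.Mach
import Mathlib.Computability.TuringMachine.Computable

/-!
# Simulating a Mathlib `FinTM2` by a simple multi-stack machine
-/

namespace Pool.Agent.Helper92.OS

open Turing

/-- The finitely many statements occurring in the program of `V`. -/
def FinMachS (V : FinTM2) : Set (TM2.Stmt V.Γ V.Λ V.σ) := {s | ∃ l, s ∈ TM2.stmts₁ (V.m l)}

theorem FinMachS_finite (V : FinTM2) : (FinMachS V).Finite := by
  have : Finite V.Λ := @Finite.of_fintype _ V.ΛFin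
  have h : FinMachS V = ⋃ l, (↑(TM2.stmts₁ (V.m l)) : Set (TM2.Stmt V.Γ V.Λ V.σ)) := by
    ext s
    simp [FinMachS]
  rw [h]
  exact Set.finite_iUnion fun l => Finset.finite_toSet _

theorem FinMachS_m (V : FinTM2) (l : V.Λ) : V.m l ∈ FinMachS V := ⟨l, TM2.stmts₁_self⟩

theorem FinMachS_push {V : FinTM2} {k} {f : V.σ → V.Γ k} {q : TM2.Stmt V.Γ V.Λ V.σ}
    (h : TM2.Stmt.push k f q ∈ FinMachS V) : q ∈ FinMachS V := by
  obtain ⟨l, hl⟩ := h
  exact ⟨l, TM2.stmts₁_trans hl (by simp [TM2.stmts₁, TM2.stmts₁_self])⟩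

theorem FinMachS_peek {V : FinTM2} {k} {f : V.σ → Option (V.Γ k) → V.σ} {q : TM2.Stmt V.Γ V.Λ V.σ}
    (h : TM2.Stmt.peek k f q ∈ FinMachS V) : q ∈ FinMachS V := by
  obtain ⟨l, hl⟩ := h
  exact ⟨l, TM2.stmts₁_trans hl (by simp [TM2.stmts₁, TM2.stmts₁_self])⟩

theorem FinMachS_pop {V : FinTM2} {k} {f : V.σ → Option (V.Γ k) → V.σ} {q : TM2.Stmt V.Γ V.Λ V.σ}
    (h : TM2.Stmt.pop k f q ∈ FinMachS V) : q ∈ FinMachS V := by
  obtain ⟨l, hl⟩ := h
  exact ⟨l, TM2.stmts₁_trans hl (by simp [TM2.stmts₁, TM2.stmts₁_self])⟩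

theorem FinMachS_load {V : FinTM2} {f : V.σ → V.σ} {q : TM2.Stmt V.Γ V.Λ V.σ}
    (h : TM2.Stmt.load f q ∈ FinMachS V) : q ∈ FinMachS V := by
  obtain ⟨l, hl⟩ := h
  exact ⟨l, TM2.stmts₁_trans hl (by simp [TM2.stmts₁, TM2.stmts₁_self])⟩

theorem FinMachS_branch₁ {V : FinTM2} {f : V.σ → Bool} {q₁ q₂ : TM2.Stmt V.Γ V.Λ V.σ}
    (h : TM2.Stmt.branch f q₁ q₂ ∈ FinMachS V) : q₁ ∈ FinMachS V := by
  obtain ⟨l, hl⟩ := h
  exact ⟨l, TM2.stmts₁_trans hl (by simp [TM2.stmts₁, TM2.stmts₁_self])⟩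

theorem FinMachS_branch₂ {V : FinTM2} {f : V.σ → Bool} {q₁ q₂ : TM2.Stmt V.Γ V.Λ V.σ}
    (h : TM2.Stmt.branch f q₁ q₂ ∈ FinMachS V) : q₂ ∈ FinMachS V := by
  obtain ⟨l, hl⟩ := h
  exact ⟨l, TM2.stmts₁_trans hl (by simp [TM2.stmts₁, TM2.stmts₁_self])⟩

/-- States of the simulating machine. -/
inductive FinMachQ (V : FinTM2) : Type
  | run (s : {s : TM2.Stmt V.Γ V.Λ V.σ // s ∈ FinMachS V}) (v : V.σ)
  | halted
  | acc
  | rej

theorem FinMachQ_finite (V : FinTM2) : Finite (FinMachQ V) := by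
  have : Finite V.σ := @Finite.of_fintype _ V.σFin
  have : Finite {s : TM2.Stmt V.Γ V.Λ V.σ // s ∈ FinMachS V} := (FinMachS_finite V).to_subtype
  let f : FinMachQ V → ({s : TM2.Stmt V.Γ V.Λ V.σ // s ∈ FinMachS V} × V.σ) ⊕ Fin 3 := fun q =>
    match q with
    | .run s v => .inl (s, v)
    | .halted => .inr 0
    | .acc => .inr 1
    | .rej => .inr 2
  refine Finite.of_injective f ?_
  intro a b h
  cases a <;> cases b <;> simp_all [f]

open Classical in
/-- Transition function of the simulating machine. -/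
noncomputable def FinMachδ (V : FinTM2) (yes : V.Γ V.k₁) : FinMachQ V → Act (FinMachQ V) V.K V.Γ
  | .run ⟨.push k f q, h⟩ v => .push k (f v) (.run ⟨q, FinMachS_push h⟩ v)
  | .run ⟨.peek k f q, h⟩ v => .peek k (fun o => .run ⟨q, FinMachS_peek h⟩ (f v o))
  | .run ⟨.pop k f q, h⟩ v => .pop k (fun o => .run ⟨q, FinMachS_pop h⟩ (f v o))
  | .run ⟨.load f q, h⟩ v => .peek V.k₀ (fun _ => .run ⟨q, FinMachS_load h⟩ (f v))
  | .run ⟨.branch f q₁ q₂, h⟩ v => .peek V.k₀ (fun _ =>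
      if f v = true then .run ⟨q₁, FinMachS_branch₁ h⟩ v else .run ⟨q₂, FinMachS_branch₂ h⟩ v)
  | .run ⟨.goto f, _⟩ v => .peek V.k₀ (fun _ => .run ⟨V.m (f v), FinMachS_m V _⟩ v)
  | .run ⟨.halt, _⟩ _ => .peek V.k₀ (fun _ => .halted)
  | .halted => .pop V.k₁ (fun o => if o = some yes then .acc else .rej)
  | .acc => .peek V.k₀ (fun _ => .acc)
  | .rej => .peek V.k₀ (fun _ => .rej)

/-- The simulating machine. -/
noncomputable def FinMachM (V : FinTM2) (yes : V.Γ V.k₁) : Mach (FinMachQ V) V.K V.Γ where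
  δ := FinMachδ V yes
  start := .run ⟨V.m V.main, FinMachS_m V _⟩ V.initialState
  acc := .acc
  acc_abs := ⟨V.k₀, by rw [FinMachδ]⟩

/-- Translation of configurations. -/
def FinMachTr (V : FinTM2) (c : TM2.Cfg V.Γ V.Λ V.σ) : MCfg (FinMachQ V) V.K V.Γ :=
  match c.l with
  | some l => ⟨.run ⟨V.m l, FinMachS_m V _⟩ c.var, c.stk⟩
  | none => ⟨.halted, c.stk⟩

/-- Cost of a statement. -/
def FinMachCost {V : FinTM2} : TM2.Stmt V.Γ V.Λ V.σ → ℕ
  | .push _ _ q => FinMachCost q + 1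
  | .peek _ _ q => FinMachCost q + 1
  | .pop _ _ q => FinMachCost q + 1
  | .load _ q => FinMachCost q + 1
  | .branch _ q₁ q₂ => FinMachCost q₁ + FinMachCost q₂ + 1
  | .goto _ => 1
  | .halt => 1

theorem FinMach_aux (V : FinTM2) (yes : V.Γ V.k₁) (s : TM2.Stmt V.Γ V.Λ V.σ) :
    ∀ (hs : s ∈ FinMachS V) (v : V.σ) (S : ∀ k, List (V.Γ k)),
      ∃ n ≤ FinMachCost s, (FinMachM V yes).step^[n] ⟨.run ⟨s, hs⟩ v, S⟩ =
        FinMachTr V (TM2.stepAux s v S) := by
  induction s with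
  | push k f q ih =>
    intro hs v S
    obtain ⟨n, hn, h⟩ := ih (FinMachS_push hs) v (Function.update S k (f v :: S k))
    refine ⟨n + 1, by simp only [FinMachCost]; omega, ?_⟩
    rw [Function.iterate_succ_apply, TM2.stepAux, ← h]
    rfl
  | peek k f q ih =>
    intro hs v S
    obtain ⟨n, hn, h⟩ := ih (FinMachS_peek hs) (f v (S k).head?) S
    refine ⟨n + 1, by simp only [FinMachCost]; omega, ?_⟩
    rw [Function.iterate_succ_apply, TM2.stepAux, ← h]
    rfl
  | pop k f q ih =>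
    intro hs v S
    obtain ⟨n, hn, h⟩ := ih (FinMachS_pop hs) (f v (S k).head?) (Function.update S k (S k).tail)
    refine ⟨n + 1, by simp only [FinMachCost]; omega, ?_⟩
    rw [Function.iterate_succ_apply, TM2.stepAux, ← h]
    rfl
  | load f q ih =>
    intro hs v S
    obtain ⟨n, hn, h⟩ := ih (FinMachS_load hs) (f v) S
    refine ⟨n + 1, by simp only [FinMachCost]; omega, ?_⟩
    rw [Function.iterate_succ_apply, TM2.stepAux, ← h]
    rfl
  | branch f q₁ q₂ ih₁ ih₂ =>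
    intro hs v S
    by_cases hf : f v = true
    · obtain ⟨n, hn, h⟩ := ih₁ (FinMachS_branch₁ hs) v S
      refine ⟨n + 1, by simp only [FinMachCost]; omega, ?_⟩
      rw [Function.iterate_succ_apply, TM2.stepAux, hf, cond_true, ← h]
      congr 1
      simp [Mach.step, FinMachM, FinMachδ, hf]
    · obtain ⟨n, hn, h⟩ := ih₂ (FinMachS_branch₂ hs) v S
      refine ⟨n + 1, by simp only [FinMachCost]; omega, ?_⟩
      have hf' : f v = false := by simpa using hf
      rw [Function.iterate_succ_apply, TM2.stepAux, hf', cond_false, ← h]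
      congr 1
      simp [Mach.step, FinMachM, FinMachδ, hf']
  | goto f =>
    intro hs v S
    exact ⟨1, le_refl _, rfl⟩
  | halt =>
    intro hs v S
    exact ⟨1, le_refl _, rfl⟩

theorem FinMach_iter (V : FinTM2) (yes : V.Γ V.k₁) (D : ℕ)
    (hD : ∀ l, FinMachCost (V := V) (V.m l) ≤ D) (n : ℕ) :
    ∀ (c c' : TM2.Cfg V.Γ V.Λ V.σ), (flip bind (TM2.step V.m))^[n] (some c) = some c' →
      ∃ m ≤ D * n, (FinMachM V yes).step^[m] (FinMachTr V c) = FinMachTr V c' := by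
  induction n with
  | zero =>
    intro c c' h
    refine ⟨0, by omega, ?_⟩
    simp only [Function.iterate_zero, id_eq, Option.some.injEq] at h
    simp [h]
  | succ n ih =>
    intro c c' h
    rw [Function.iterate_succ_apply] at h
    rcases c with ⟨l, v, S⟩
    cases l with
    | none =>
      exfalso
      have h2 : ∀ m, (flip bind (TM2.step V.m))^[m] (none : Option (TM2.Cfg V.Γ V.Λ V.σ)) = none := by
        intro m
        induction m with
        | zero => rfl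
        | succ m ihm => rw [Function.iterate_succ_apply]; exact ihm
      have h3 : flip bind (TM2.step V.m) (some (⟨none, v, S⟩ : TM2.Cfg V.Γ V.Λ V.σ)) = none := rfl
      rw [h3, h2] at h
      cases h
    | some l =>
      have h3 : flip bind (TM2.step V.m) (some (⟨some l, v, S⟩ : TM2.Cfg V.Γ V.Λ V.σ)) =
        some (TM2.stepAux (V.m l) v S) := rfl
      rw [h3] at h
      obtain ⟨m, hm, hm'⟩ := ih _ _ h
      obtain ⟨m1, hm1, hm1'⟩ := FinMach_aux V yes (V.m l) (FinMachS_m V l) v S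
      refine ⟨m + m1, ?_, ?_⟩
      · have := hD l
        rw [Nat.mul_succ]
        omega
      · rw [Function.iterate_add_apply]
        have h4 : FinMachTr V ⟨some l, v, S⟩ = ⟨.run ⟨V.m l, FinMachS_m V _⟩ v, S⟩ := rfl
        rw [h4, hm1', hm']

theorem FinMach_abs_acc (V : FinTM2) (yes : V.Γ V.k₁) (S : ∀ k, List (V.Γ k)) (n : ℕ) :
    (FinMachM V yes).step^[n] ⟨.acc, S⟩ = ⟨.acc, S⟩ := by
  induction n with
  | zero => rfl
  | succ n ih => rw [Function.iterate_succ_apply]; exact ih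

theorem FinMach_abs_rej (V : FinTM2) (yes : V.Γ V.k₁) (S : ∀ k, List (V.Γ k)) (n : ℕ) :
    (FinMachM V yes).step^[n] ⟨.rej, S⟩ = ⟨.rej, S⟩ := by
  induction n with
  | zero => rfl
  | succ n ih => rw [Function.iterate_succ_apply]; exact ih

theorem exists_mach (V : Turing.FinTM2) (hfin : ∀ k, Finite (V.Γ k)) (yes : V.Γ V.k₁) :
    ∃ (Q : Type) (_ : Finite Q) (M : Mach Q V.K V.Γ) (c : ℕ),
      ∀ (l : List (V.Γ V.k₀)) (b : V.Γ V.k₁) (t : ℕ),
        Nonempty (Turing.TM2OutputsInTime V l (some [b]) t) →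
        (b = yes → ∃ t' ≤ c * (t + 1), (M.step^[t'] (M.init V.k₀ l)).q = M.acc) ∧
        (b ≠ yes → ∀ t', (M.step^[t'] (M.init V.k₀ l)).q ≠ M.acc) := by
  classical
  have : Finite V.Λ := @Finite.of_fintype _ V.ΛFin
  obtain ⟨D, hD⟩ : ∃ D, ∀ l, FinMachCost (V := V) (V.m l) ≤ D := by
    obtain ⟨D, hD⟩ := (Set.finite_range fun l => FinMachCost (V := V) (V.m l)).bddAbove
    exact ⟨D, fun l => hD ⟨l, rfl⟩⟩
  refine ⟨FinMachQ V, FinMachQ_finite V, FinMachM V yes, D + 1, ?_⟩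
  rintro l b t ⟨⟨⟨n, hn⟩, hle⟩⟩
  simp only at hle
  have hinit : FinMachTr V (initList V l) = (FinMachM V yes).init V.k₀ l := by
    simp only [FinMachTr, initList, Mach.init, FinMachM]
    congr 1
    funext k
    by_cases hk : k = V.k₀
    · subst hk
      simp
    · simp [hk]
  obtain ⟨m, hm, hm'⟩ := FinMach_iter V yes D hD n (initList V l) (haltList V [b]) hn
  rw [hinit] at hm'
  have hstep : (FinMachM V yes).step^[m + 1] ((FinMachM V yes).init V.k₀ l) =
      ⟨if b = yes then .acc else .rej,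
        Function.update (haltList V [b]).stk V.k₁ ((haltList V [b]).stk V.k₁).tail⟩ := by
    rw [Function.iterate_succ_apply', hm']
    simp [FinMachTr, haltList, Mach.step, FinMachM, FinMachδ]
  constructor
  · intro hb
    refine ⟨m + 1, ?_, ?_⟩
    · have : D * n ≤ D * t := Nat.mul_le_mul_left _ hle
      nlinarith
    · rw [hstep]
      simp [hb, FinMachM]
  · intro hb t' ht'
    rw [if_neg hb] at hstep
    set c := (FinMachM V yes).init V.k₀ l with hc
    have h1 := Function.iterate_add_apply (FinMachM V yes).step t' (m + 1) c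
    rw [hstep, FinMach_abs_rej] at h1
    have h2 : ∃ S, (FinMachM V yes).step^[t'] c = ⟨.acc, S⟩ := by
      rcases hx : (FinMachM V yes).step^[t'] c with ⟨q, S⟩
      refine ⟨S, ?_⟩
      rw [hx] at ht'
      simp only [FinMachM] at ht'
      rw [ht']
    obtain ⟨S, hS⟩ := h2
    have h3 : (FinMachM V yes).step^[(m + 1) + t'] c = ⟨.acc, S⟩ := by
      rw [Function.iterate_add_apply, hS, FinMach_abs_acc]
    rw [Nat.add_comm] at h3
    rw [h3] at h1
    simp at h1

end Pool.Agent.Helper92.OS
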