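import Pool.Agent.Helper92.OS.Core

/-!
# Simple multi-stack machines and their space-time diagrams as colorings

`Mach` is a multi-stack machine performing one stack operation per step. A `Tab` fixes a machine,
its input stack and two input symbols. The space-time diagram of a computation is a coloring of
`0, …, N ^ 2 - 1` (position `i * N + p` is column `p` of row `i`; row `i` is the configuration at
time `i`; column `p` shows the `p`-th symbol from the top of every stack) with colors in `Col`; all
constraints relate two positions at one of the seven distances `dval N w v`.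
-/

namespace Pool.Agent.Helper92.OS

/-- One step of a machine: push a symbol, pop a stack, or look at the top of a stack. -/
inductive Act (Q κ : Type) (Γ : κ → Type)
  | push (k : κ) (a : Γ k) (q : Q)
  | pop (k : κ) (f : Option (Γ k) → Q)
  | peek (k : κ) (f : Option (Γ k) → Q)

/-- Simple multi-stack machines with an absorbing accepting state. -/
structure Mach (Q κ : Type) (Γ : κ → Type) where
  δ : Q → Act Q κ Γ
  start : Q
  acc : Q
  acc_abs : ∃ k, δ acc = .peek k (fun _ => acc)

/-- Configurations. -/
structure MCfg (Q κ : Type) (Γ : κ → Type) where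
  q : Q
  stk : ∀ k, List (Γ k)

namespace Mach

variable {Q κ : Type} {Γ : κ → Type} [DecidableEq κ]

def step (M : Mach Q κ Γ) (c : MCfg Q κ Γ) : MCfg Q κ Γ :=
  match M.δ c.q with
  | .push k a q => ⟨q, Function.update c.stk k (a :: c.stk k)⟩
  | .pop k f => ⟨f (c.stk k).head?, Function.update c.stk k (c.stk k).tail⟩
  | .peek k f => ⟨f (c.stk k).head?, c.stk⟩

def init (M : Mach Q κ Γ) (k₀ : κ) (l : List (Γ k₀)) : MCfg Q κ Γ :=
  ⟨M.start, Function.update (fun _ => []) k₀ l⟩

end Mach

/-- Phases of cells: the three parts of row `0`, row `1`, rows `≥ 2`. -/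
inductive Phase
  | one | hash | rest | r1 | r2
  deriving DecidableEq, Fintype

/-- Colors of cells. -/
structure Col (Q κ : Type) (Γ : κ → Type) where
  cls : Fin 5
  seam : Bool
  ph : Phase
  ctrl : Q
  sym : ∀ k, Option (Γ k)

instance {Q κ : Type} {Γ : κ → Type} [Finite Q] [Finite κ] [∀ k, Finite (Γ k)] :
    Finite (Col Q κ Γ) := by
  have : Fintype Q := Fintype.ofFinite _
  have : Fintype κ := Fintype.ofFinite _
  have : ∀ k, Fintype (Γ k) := fun k => Fintype.ofFinite _
  classical
  let f : Col Q κ Γ → Fin 5 × Bool × Phase × Q × (∀ k, Option (Γ k)) :=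
    fun c => (c.cls, c.seam, c.ph, c.ctrl, c.sym)
  refine Finite.of_injective f ?_
  rintro ⟨a, b, c, d, e⟩ ⟨a', b', c', d', e'⟩ h
  simpa [f] using h

/-- A machine, its input stack and the two special input symbols. -/
structure Tab (Q κ : Type) (Γ : κ → Type) where
  M : Mach Q κ Γ
  k₀ : κ
  one : Γ k₀
  hash : Γ k₀

namespace Tab

variable {Q κ : Type} {Γ : κ → Type} [DecidableEq κ] (X : Tab Q κ Γ)

/-- the initial configuration on input `1ʷ # y` -/
def cfg0 (w : ℕ) (y : List (Γ X.k₀)) : MCfg Q κ Γ :=
  X.M.init X.k₀ (List.replicate w X.one ++ X.hash :: y)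

/-- color of position `0` -/
def alpha : Col Q κ Γ := ⟨0, true, .one, X.M.start, Function.update (fun _ => none) X.k₀ (some X.one)⟩

/-- color of position `N ^ 2 - 1` -/
def beta : Col Q κ Γ := ⟨3, false, .r2, X.M.acc, fun _ => none⟩

/-- conditions on a single cell -/
def Ok (a : Col Q κ Γ) : Prop :=
  (a.ph = .one → a.ctrl = X.M.start ∧ a.sym X.k₀ = some X.one ∧ ∀ k, k ≠ X.k₀ → a.sym k = none) ∧
  (a.ph = .hash → a.ctrl = X.M.start ∧ a.sym X.k₀ = some X.hash ∧ ∀ k, k ≠ X.k₀ → a.sym k = none) ∧
  (a.ph = .rest → a.ctrl = X.M.start ∧ ∀ k, k ≠ X.k₀ → a.sym k = none)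

/-- how the phase evolves to the right within a row -/
def PhRow : Phase → Phase → Prop
  | .one, b => b = .one ∨ b = .hash
  | .hash, b => b = .rest
  | .rest, b => b = .rest
  | .r1, b => b = .r1
  | .r2, b => b = .r2

/-- how the phase evolves from the last cell of a row to the first cell of the next row -/
def PhSeam : Phase → Phase → Prop
  | .rest, b => b = .r1
  | .r1, b => b = .r2
  | .r2, b => b = .r2
  | _, _ => False

/-- how the phase evolves from a row to the row below it -/
def PhDown : Phase → Phase → Prop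
  | .r1, b => b = .r2
  | .r2, b => b = .r2
  | _, b => b = .r1

/-- the relations imposed at the seven distances -/
def Rel : Fin 7 → Col Q κ Γ → Col Q κ Γ → Prop
  | 0, a, b => b.cls = a.cls + 1 ∧ X.Ok a ∧ X.Ok b ∧
      (b.seam = false → b.ctrl = a.ctrl ∧ PhRow a.ph b.ph ∧ ∀ k, a.sym k = none → b.sym k = none) ∧
      (b.seam = true → PhSeam a.ph b.ph ∧ ∀ k, a.sym k = none)
  | 1, a, b => b.cls = a.cls + 2
  | 2, a, b => a = X.alpha → b.ph = .hash
  | 3, a, b => a = X.alpha → b.sym X.k₀ = none
  | 4, a, b => match X.M.δ a.ctrl with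
      | .pop k _ => a.seam = false → b.sym k = a.sym k
      | _ => True
  | 5, a, b => b.seam = a.seam ∧ PhDown a.ph b.ph ∧ match X.M.δ a.ctrl with
      | .push k c q => (∀ k', k' ≠ k → b.sym k' = a.sym k') ∧
          (a.seam = true → b.ctrl = q ∧ b.sym k = some c)
      | .pop k f => (∀ k', k' ≠ k → b.sym k' = a.sym k') ∧ (a.seam = true → b.ctrl = f (a.sym k))
      | .peek k f => (∀ k', b.sym k' = a.sym k') ∧ (a.seam = true → b.ctrl = f (a.sym k))
  | 6, a, b => match X.M.δ a.ctrl with
      | .push k _ _ => b.seam = false → b.sym k = a.sym k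
      | _ => True

/-- Valid colorings of `0, …, N ^ 2 - 1`: positions at a constrained distance have equal colors or
colors in the relation. -/
structure Valid (N w v : ℕ) (τ : ℕ → Col Q κ Γ) : Prop where
  first : τ 0 = X.alpha
  last : τ (N ^ 2 - 1) = X.beta
  rel : ∀ o x, x + dval N w v o < N ^ 2 →
    τ x = τ (x + dval N w v o) ∨ X.Rel o (τ x) (τ (x + dval N w v o))

section spar

variable [Finite Q] [Finite κ] [∀ k, Finite (Γ k)]

/-- numbering of the colors -/
noncomputable def num (_X : Tab Q κ Γ) : Col Q κ Γ ≃ Fin (Nat.card (Col Q κ Γ)) :=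
  Finite.equivFin _

/-- numbering of the clusters -/
noncomputable def clu (_X : Tab Q κ Γ) :
    Fin (Nat.card (Fin 7 × Col Q κ Γ × Col Q κ Γ)) ≃ Fin 7 × Col Q κ Γ × Col Q κ Γ :=
  (Finite.equivFin _).symm

/-- the pair `a, b` is forbidden at distance number `o` -/
def Forb (z : Fin 7 × Col Q κ Γ × Col Q κ Γ) : Prop := z.2.1 ≠ z.2.2 ∧ ¬ X.Rel z.1 z.2.1 z.2.2

open Classical in
/-- The symbolic parameters describing the tableau: one cluster for every forbidden pair (allowed
pairs are replaced by a harmless pair `a, a` at distance `1`). -/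
noncomputable def spar : SPar where
  T := Nat.card (Col Q κ Γ)
  G := Nat.card (Fin 7 × Col Q κ Γ × Col Q κ Γ)
  c := fun u => X.num (X.clu u).2.1
  c' := fun u => if X.Forb (X.clu u) then X.num (X.clu u).2.2 else X.num (X.clu u).2.1
  o := fun u => if X.Forb (X.clu u) then (X.clu u).1 else 0
  al := X.num X.alpha
  be := X.num X.beta

end spar

end Tab

end Pool.Agent.Helper92.OS
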