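import Pool.Agent.Helper92.OS.Elem

/-! Auxiliary facts for the modules `Pre1` and `Pre2`. -/

namespace Pool.Agent.Helper92.OS

open Pool.Agent.Helper62
open Function

/-- stack contents used by the preparation programs -/
def preS (x y p st u ss t2 : List Sym) : OW → List Sym
  | .X => x
  | .Y => y
  | .P => p
  | .St => st
  | .U => u
  | .S => ss
  | .T2 => t2
  | _ => []

theorem preS_nil : (fun _ => [] : OW → List Sym) = preS [] [] [] [] [] [] [] := by
  funext k
  cases k <;> rfl

theorem preS_stkI (x y st p : List Sym) : preS x y p st [] [] [] = stkI x y st p := by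
  funext k
  cases k <;> rfl

theorem preS_x (x y p st u ss t2 v : List Sym) :
    update (preS x y p st u ss t2) .X v = preS v y p st u ss t2 := by
  funext k
  cases k <;> rfl

theorem preS_y (x y p st u ss t2 v : List Sym) :
    update (preS x y p st u ss t2) .Y v = preS x v p st u ss t2 := by
  funext k
  cases k <;> rfl

theorem preS_p (x y p st u ss t2 v : List Sym) :
    update (preS x y p st u ss t2) .P v = preS x y v st u ss t2 := by
  funext k
  cases k <;> rfl

theorem preS_st (x y p st u ss t2 v : List Sym) :
    update (preS x y p st u ss t2) .St v = preS x y p v u ss t2 := by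
  funext k
  cases k <;> rfl

theorem preS_u (x y p st u ss t2 v : List Sym) :
    update (preS x y p st u ss t2) .U v = preS x y p st v ss t2 := by
  funext k
  cases k <;> rfl

theorem preS_s (x y p st u ss t2 v : List Sym) :
    update (preS x y p st u ss t2) .S v = preS x y p st u v t2 := by
  funext k
  cases k <;> rfl

theorem preS_t2 (x y p st u ss t2 v : List Sym) :
    update (preS x y p st u ss t2) .T2 v = preS x y p st u ss v := by
  funext k
  cases k <;> rfl

theorem ticks_add (a b : ℕ) : ticks (a + b) = ticks a ++ ticks b := by
  unfold ticks
  exact List.replicate_add a b Sym.one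

theorem length_ticks (a : ℕ) : (ticks a).length = a := by
  unfold ticks
  exact List.length_replicate

theorem length_bitsS_pre (n : ℕ) : (bitsS n).length = n.size := by
  unfold bitsS
  rw [List.length_map, Nat.size_eq_bits_len]

theorem readU_pre (rest : List Bool) (hrest : isOne (rest.head?.map bitSym) = false)
    (o : List Bool) (y p st ss t2 x : List Sym) (w : ℕ) : ∀ (a : ℕ) (r : Reg),
    ORuns readU ⟨r, List.replicate w true ++ rest, o, preS x y p st (ticks a) ss t2⟩
      ⟨{ r with x := rest.head?.map bitSym }, rest.tail, o, preS x y p st (ticks (a + w)) ss t2⟩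
      (2 * w + 1) := by
  induction w with
  | zero =>
    intro a r
    refine Runs.mono (Runs.loop_done (s₁ := ⟨{ r with x := rest.head?.map bitSym }, rest.tail, o,
      preS x y p st (ticks a) ss t2⟩) rfl hrest) (by omega)
  | succ w ih =>
    intro a r
    have h1 : ORuns (.act [.push .U (fun _ => .one)])
        ⟨{ r with x := some .one }, List.replicate w true ++ rest, o, preS x y p st (ticks a) ss t2⟩
        ⟨{ r with x := some .one }, List.replicate w true ++ rest, o,
          preS x y p st (ticks (a + 1)) ss t2⟩ 1 := by
      refine Runs.act' ?_
      have e1 : Sym.one :: ticks a = ticks (a + 1) := rfl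
      have e3 := preS_u x y p st (ticks a) ss t2 (Sym.one :: ticks a)
      rw [e1] at e3
      rw [← e3]
      rfl
    have h := ih (a + 1) { r with x := some .one }
    have e2 : a + (w + 1) = a + 1 + w := by omega
    rw [e2]
    exact (Runs.loop_step (s₁ := ⟨{ r with x := some .one },
      List.replicate w true ++ rest, o, preS x y p st (ticks a) ss t2⟩) rfl rfl h1 h).mono
      (by omega)

end Pool.Agent.Helper92.OS
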