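import Pool.Agent.Helper92.OS.Pre0

namespace Pool.Agent.Helper92.OS

open Pool.Agent.Helper62
open Function

theorem pre2_rep_add (a b : ℕ) : List.replicate a Sym.one ++ List.replicate b Sym.one =
    List.replicate (a + b) Sym.one := (List.replicate_add a b Sym.one).symm

theorem pre2_loop (n : ℕ) (x y p st : List Sym) (i o : List Bool) (m : ℕ) : ∀ (a : ℕ) (r : Reg),
    ORuns (.loop [popX .S] (fun r => r.x.isSome) (dup .U .T1 .T2))
      ⟨r, i, o, preS x y p st (ticks n) (ticks m) (ticks a)⟩
      ⟨{ r with x := none }, i, o, preS x y p st (ticks n) [] (ticks (a + m * n))⟩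
      (m * (4 * n + 3) + 1) := by
  induction m with
  | zero =>
    intro a r
    have e : a + 0 * n = a := by ring
    rw [e]
    have h : ORuns (.loop [popX .S] (fun r => r.x.isSome) (dup .U .T1 .T2))
        ⟨r, i, o, preS x y p st (ticks n) (ticks 0) (ticks a)⟩
        ⟨{ r with x := none }, i, o,
          update (preS x y p st (ticks n) (ticks 0) (ticks a)) .S []⟩ 1 :=
      Runs.loop_done rfl rfl
    rw [preS_s] at h
    exact h.mono (by omega)
  | succ m ih =>
    intro a r
    have h1 := dup_spec .U .T1 .T2 (by decide) (by decide) (by decide) { r with x := some .one } i o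
      (preS x y p st (ticks n) (ticks m) (ticks a)) rfl
    have l1 : (preS x y p st (ticks n) (ticks m) (ticks a) .U).length = n := length_ticks n
    have e1 : preS x y p st (ticks n) (ticks m) (ticks a) .U ++
        preS x y p st (ticks n) (ticks m) (ticks a) .T2 = ticks (a + n) := by
      rw [add_comm, ticks_add]
      rfl
    rw [l1, e1, preS_t2] at h1
    have h2 := ih (a + n) { r with x := none }
    have e2 : a + (m + 1) * n = a + n + m * n := by ring
    rw [e2]
    have h0 : runOps [popX .S] (⟨r, i, o, preS x y p st (ticks n) (ticks (m + 1)) (ticks a)⟩ : OSt) =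
        ⟨{ r with x := some .one }, i, o, preS x y p st (ticks n) (ticks m) (ticks a)⟩ := by
      have e3 := preS_s x y p st (ticks n) (ticks (m + 1)) (ticks a) (ticks m)
      rw [← e3]
      rfl
    exact (Runs.loop_step h0 rfl h1 h2).mono (by
      have : (m + 1) * (4 * n + 3) = m * (4 * n + 3) + (4 * n + 3) := by ring
      omega)

theorem pre2_mulU (n m : ℕ) (x y p st : List Sym) (i o : List Bool) (r : Reg) :
    ORuns mulU ⟨r, i, o, preS x y p st (ticks n) (ticks m) []⟩
      ⟨{ r with x := none }, i, o, preS x y p st (ticks n) (ticks (m * n)) []⟩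
      (6 * (m * n) + 3 * m + 2) := by
  have h1 := pre2_loop n x y p st i o m 0 r
  rw [Nat.zero_add] at h1
  have h2 := mv_spec .T2 .S (by decide) { r with x := none } i o
    (preS x y p st (ticks n) [] (ticks (m * n)))
  have l2 : (preS x y p st (ticks n) [] (ticks (m * n)) .T2).length = m * n := length_ticks _
  have e2 : (preS x y p st (ticks n) [] (ticks (m * n)) .T2).reverse ++
      preS x y p st (ticks n) [] (ticks (m * n)) .S = ticks (m * n) := by
    have : (ticks (m * n)).reverse = ticks (m * n) := by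
      unfold ticks
      exact List.reverse_replicate
    exact (List.append_nil _).trans this
  rw [l2, e2, preS_t2, preS_s] at h2
  exact (h1.seq h2).mono (by
    have : m * (4 * n + 3) = 4 * (m * n) + 3 * m := by ring
    omega)

theorem pre2_rep (n M : ℕ) (x y p st : List Sym) (i o : List Bool) (k : ℕ) :
    ∀ (m : ℕ) (_ : ∀ j ≤ k, m * n ^ j ≤ M) (r : Reg),
    ∃ r', ORuns (rep k mulU) ⟨r, i, o, preS x y p st (ticks n) (ticks m) []⟩
      ⟨r', i, o, preS x y p st (ticks n) (ticks (m * n ^ k)) []⟩ (k * (9 * M + 2) + 1) := by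
  induction k with
  | zero =>
    intro m _ r
    refine ⟨r, ?_⟩
    rw [pow_zero, mul_one]
    exact (Runs.act' rfl).mono (by omega)
  | succ k ih =>
    intro m hm r
    have h1 := pre2_mulU n m x y p st i o r
    obtain ⟨r', h2⟩ := ih (m * n) (fun j hj => by
      have := hm (j + 1) (by omega)
      rw [pow_succ'] at this
      rw [mul_assoc]
      exact this) { r with x := none }
    have e : m * n * n ^ k = m * n ^ (k + 1) := by rw [pow_succ', mul_assoc]
    rw [e] at h2
    refine ⟨r', (h1.seq h2).mono ?_⟩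
    have b1 := hm 0 (by omega)
    have b2 := hm 1 (by omega)
    rw [pow_zero, mul_one] at b1
    rw [pow_one] at b2
    have : (k + 1) * (9 * M + 2) = k * (9 * M + 2) + (9 * M + 2) := by ring
    omega

theorem pre2_push (l : List Bool) : ∀ (s : OSt),
    runOps (l.map (fun b => Op.push OW.P (fun _ => bitSym b))) s =
      { s with stk := update s.stk .P ((l.map bitSym).reverse ++ s.stk .P) } := by
  induction l with
  | nil =>
    intro s
    simp [runOps]
  | cons b l ih =>
    intro s
    rw [List.map_cons, runOps, ih]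
    simp [Op.run]

theorem pre2_spec (c e : ℕ) (prog : List Ins) (n : ℕ) (r : Reg) :
    ∃ r', ORuns (pre2 c e prog) ⟨r, List.replicate n true, [], fun _ => []⟩
      ⟨r', [], [], stkI (bitsS n) (bitsS (n + 1 + n ^ c + c)) (ticks (4 * e * (n.size + 1) + 1))
        ((codeL prog).map bitSym)⟩
      (1000 * (c + 2) * (n + n ^ c + c + 2) ^ 2) := by
  have h1 := readU_pre [] rfl [] [] [] [] [] [] [] n 0 r
  rw [Nat.zero_add, List.append_nil] at h1
  have e0 : ticks 0 = [] := rfl
  rw [e0] at h1
  set r1 : Reg := { r with x := ([] : List Bool).head?.map bitSym } with hr1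
  have h2 := pushN_spec 1 .S r1 [] [] (preS [] [] [] [] (ticks n) [] [])
  have e2 : update (preS [] [] [] [] (ticks n) [] []) OW.S
      (ticks 1 ++ preS [] [] [] [] (ticks n) [] [] .S) =
      preS [] [] [] [] (ticks n) (ticks 1) [] := by
    rw [preS_s]
    rfl
  rw [e2] at h2
  obtain ⟨r3, h3⟩ := pre2_rep n (n ^ c + 1) [] [] [] [] [] [] c 1 (fun j hj => by
    rw [one_mul]
    rcases Nat.eq_zero_or_pos n with rfl | hn
    · rcases Nat.eq_zero_or_pos j with rfl | hj0
      · simp
      · rw [zero_pow (by omega)]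
        exact Nat.zero_le _
    · have := Nat.pow_le_pow_right hn hj
      omega) r1
  rw [one_mul] at h3
  have h4 := pushN_spec (c + 1) .S r3 [] [] (preS [] [] [] [] (ticks n) (ticks (n ^ c)) [])
  have e4 : update (preS [] [] [] [] (ticks n) (ticks (n ^ c)) []) OW.S
      (ticks (c + 1) ++ preS [] [] [] [] (ticks n) (ticks (n ^ c)) [] .S) =
      preS [] [] [] [] (ticks n) (ticks (c + 1 + n ^ c)) [] := by
    rw [preS_s]
    exact congrArg (fun t => preS [] [] [] [] (ticks n) t []) (ticks_add (c + 1) (n ^ c)).symm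
  rw [e4] at h4
  have h5 := dup_spec .U .T1 .S (by decide) (by decide) (by decide) r3 [] []
    (preS [] [] [] [] (ticks n) (ticks (c + 1 + n ^ c)) []) rfl
  have l5 : (preS [] [] [] [] (ticks n) (ticks (c + 1 + n ^ c)) [] .U).length = n := length_ticks n
  have e5 : preS [] [] [] [] (ticks n) (ticks (c + 1 + n ^ c)) [] .U ++
      preS [] [] [] [] (ticks n) (ticks (c + 1 + n ^ c)) [] .S = ticks (n + 1 + n ^ c + c) := by
    have : n + 1 + n ^ c + c = n + (c + 1 + n ^ c) := by omega
    rw [this]
    exact (ticks_add n (c + 1 + n ^ c)).symm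
  rw [l5, e5, preS_s] at h5
  set r5 : Reg := { r3 with x := none } with hr5
  obtain ⟨r6, h6⟩ := toBin_spec .U .X (by decide) (by decide) (by decide) (by decide) (by decide)
    (by decide) (by decide) (by decide) (by decide) r5 [] []
    (preS [] [] [] [] (ticks n) (ticks (n + 1 + n ^ c + c)) []) rfl rfl rfl rfl rfl
  have l6 : (preS [] [] [] [] (ticks n) (ticks (n + 1 + n ^ c + c)) [] .U).length = n :=
    length_ticks n
  rw [l6, preS_u, preS_x] at h6
  obtain ⟨r7, h7⟩ := toBin_spec .S .Y (by decide) (by decide) (by decide) (by decide) (by decide)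
    (by decide) (by decide) (by decide) (by decide) r6 [] []
    (preS (bitsS n) [] [] [] [] (ticks (n + 1 + n ^ c + c)) []) rfl rfl rfl rfl rfl
  have l7 : (preS (bitsS n) [] [] [] [] (ticks (n + 1 + n ^ c + c)) [] .S).length =
      n + 1 + n ^ c + c := length_ticks _
  rw [l7, preS_s, preS_y] at h7
  have h8 := stick_spec e r7 [] [] (preS (bitsS n) (bitsS (n + 1 + n ^ c + c)) [] [] [] [] []) rfl
  have l8 : (preS (bitsS n) (bitsS (n + 1 + n ^ c + c)) [] [] [] [] [] .X).length = n.size :=
    length_bitsS_pre n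
  have e8 : ticks (4 * e * (n.size + 1) + 1) ++
      preS (bitsS n) (bitsS (n + 1 + n ^ c + c)) [] [] [] [] [] .St =
      ticks (4 * e * (n.size + 1) + 1) := List.append_nil _
  rw [l8, e8, preS_st] at h8
  set r8 : Reg := { r7 with x := none } with hr8
  have h9 : ORuns (.act ((codeL prog).reverse.map (fun b => .push .P (fun _ => bitSym b))))
      ⟨r8, [], [], preS (bitsS n) (bitsS (n + 1 + n ^ c + c)) [] (ticks (4 * e * (n.size + 1) + 1))
        [] [] []⟩
      ⟨r8, [], [], preS (bitsS n) (bitsS (n + 1 + n ^ c + c)) ((codeL prog).map bitSym)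
        (ticks (4 * e * (n.size + 1) + 1)) [] [] []⟩ 1 := by
    refine Runs.act' ?_
    rw [pre2_push]
    have e9 : ((codeL prog).reverse.map bitSym).reverse ++
        preS (bitsS n) (bitsS (n + 1 + n ^ c + c)) [] (ticks (4 * e * (n.size + 1) + 1)) [] [] [] .P =
        (codeL prog).map bitSym := by
      rw [List.map_reverse, List.reverse_reverse]
      exact List.append_nil _
    simp only
    rw [e9, preS_p]
  rw [preS_nil, ← preS_stkI]
  refine ⟨r8, (h1.seq (h2.seq (h3.seq (h4.seq (h5.seq (h6.seq (h7.seq (h8.seq h9)))))))).mono ?_⟩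
  set N := n + n ^ c + c + 2 with hN
  have s1 : n.size ≤ n := by
    rw [Nat.size_le]
    exact Nat.lt_two_pow_self
  have s2 : (n + 1 + n ^ c + c).size ≤ n + 1 + n ^ c + c := by
    rw [Nat.size_le]
    exact Nat.lt_two_pow_self
  have a1 : 20 * (n + 1) * (n.size + 2) ≤ 20 * N ^ 2 := by
    calc 20 * (n + 1) * (n.size + 2) = 20 * ((n + 1) * (n.size + 2)) := by ring
      _ ≤ 20 * (N * N) := Nat.mul_le_mul_left _ (Nat.mul_le_mul (by omega) (by omega))
      _ = 20 * N ^ 2 := by ring
  have a2 : 20 * (n + 1 + n ^ c + c + 1) * ((n + 1 + n ^ c + c).size + 2) ≤ 40 * N ^ 2 := by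
    calc 20 * (n + 1 + n ^ c + c + 1) * ((n + 1 + n ^ c + c).size + 2) =
        20 * ((n + 1 + n ^ c + c + 1) * ((n + 1 + n ^ c + c).size + 2)) := by ring
      _ ≤ 20 * (N * (2 * N)) := Nat.mul_le_mul_left _ (Nat.mul_le_mul (by omega) (by omega))
      _ = 40 * N ^ 2 := by ring
  have a3 : N ≤ N ^ 2 := by
    rw [pow_two]
    exact Nat.le_mul_of_pos_left _ (by omega)
  have a4 : c * (9 * (n ^ c + 1) + 2) ≤ 11 * ((c + 2) * N ^ 2) := by
    calc c * (9 * (n ^ c + 1) + 2) ≤ (c + 2) * (11 * N ^ 2) := Nat.mul_le_mul (by omega) (by omega)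
      _ = 11 * ((c + 2) * N ^ 2) := by ring
  have a5 : N ^ 2 ≤ (c + 2) * N ^ 2 := Nat.le_mul_of_pos_left _ (by omega)
  have b6 : 1000 * (c + 2) * N ^ 2 = 1000 * ((c + 2) * N ^ 2) := by ring
  rw [b6]
  omega

end Pool.Agent.Helper92.OS
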