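import Pool.Agent.Helper92.OS.Core
import Pool.Agent.Helper62.Lang

/-!
# The programs

Programs in the structured language `Pool.Agent.Helper62.Cmd` over fixed own stacks `OW` with
alphabet `Sym` and registers `Reg`; their combination with an arbitrary `Turing.FinTM2`.
-/

namespace Pool.Agent.Helper92.OS

open Pool.Agent.Helper62

/-- own stacks -/
inductive OW
  | X | Y | P | Acc | T1 | T2 | St | Out | Th | Res | U | S | E0
  deriving DecidableEq, Fintype

/-- own registers -/
structure Reg where
  x : Option Sym
  y : Option Sym
  z : Option Sym
  cy : Bool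
  gt : Bool
  deriving DecidableEq, Fintype

/-- the initial registers -/
def Reg.init : Reg := ⟨none, none, none, false, false⟩

/-- own programs -/
abbrev OC : Type := Cmd Bool Bool OW Sym Reg Empty

/-- states of own programs -/
abbrev OSt : Type := Pool.Agent.Helper62.St Bool Bool OW Sym Reg

/-- there are no procedures -/
abbrev noE : Empty → OC := fun e => nomatch e

/-- termination of own programs -/
abbrev ORuns (c : OC) (s s' : OSt) (B : ℕ) : Prop := Runs noE c s s' B

/-- binary digits as symbols, least significant first -/
def bitsS (n : ℕ) : List Sym := (Nat.bits n).map bitSym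

/-- `n` ticks -/
def ticks (n : ℕ) : List Sym := List.replicate n .one

/-- instructions of the template language -/
inductive Ins
  | W | V | E | P | O | X | H
  deriving DecidableEq, Fintype

/-- the code of an instruction -/
def Ins.code : Ins → List Bool
  | .W => [true, false, false]
  | .V => [false, true, false]
  | .E => [true, true, false]
  | .P => [false, false, true]
  | .O => [true, false, true]
  | .X => [false, true, true]
  | .H => [true, true, true]

/-- the code of a list of instructions -/
def codeL (l : List Ins) : List Bool := l.flatMap Ins.code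

/-- the value of a symbol as a digit -/
def isOne : Option Sym → Bool
  | some .one => true
  | _ => false

/-- decoding of an instruction from three symbols -/
def dec (r : Reg) : Ins :=
  match r.x, r.y, r.z with
  | some .one, some .zero, some .zero => .W
  | some .zero, some .one, some .zero => .V
  | some .one, some .one, some .zero => .E
  | some .zero, some .zero, some .one => .P
  | some .one, some .zero, some .one => .O
  | some .zero, some .one, some .one => .X
  | _, _, _ => .H

/-- states of the template interpreter: accumulator, output (last symbol first), threshold -/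
structure ISt where
  acc : ℕ
  out : List Sym
  th : List Sym

/-- the binary digits of `n`, filled up with zeros to length `k` -/
def padS (k n : ℕ) : List Sym := bitsS n ++ List.replicate (k - n.size) .zero

/-- semantics of an instruction -/
def Ins.sem (k w v : ℕ) : Ins → ISt → ISt
  | .W, s => { s with acc := s.acc + w }
  | .V, s => { s with acc := s.acc + v }
  | .E, s => { s with acc := s.acc + 1 }
  | .P, s => { s with acc := 0, out := (padS k s.acc).reverse ++ s.out }
  | .O, s => { s with acc := 0, out := (encNat s.acc).reverse ++ s.out }
  | .X, s => { s with out := [], th := s.out.reverse ++ s.th }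
  | .H, s => s

/-- semantics of a list of instructions -/
def semL (k w v : ℕ) : List Ins → ISt → ISt
  | [], s => s
  | i :: l, s => semL k w v l (i.sem k w v s)

/-- the accumulator stays below `2 ^ k`, and there is no `H` -/
def AccOK (k w v : ℕ) : List Ins → ISt → Prop
  | [], s => s.acc < 2 ^ k
  | i :: l, s => s.acc < 2 ^ k ∧ i ≠ .H ∧ AccOK k w v l (i.sem k w v s)

/-- instructions writing the value of a form -/
def Form.emit (F : Form) : List Ins :=
  if F.a = 0 then List.replicate F.e .E ++ [.O] else
    List.replicate F.c .W ++ (List.replicate F.c' .V ++ (List.replicate F.e .E ++ .P ::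
      (List.replicate F.b .E ++ .P :: (List.replicate F.a .E ++ [.O]))))

/-- the template of a threshold form and a list of forms -/
def template (F : Form) (l : List Form) : List Ins := F.emit ++ .X :: l.flatMap Form.emit

/-! ### Elementary programs -/

/-- pop a stack into register `x` -/
abbrev popX (a : OW) : Op Bool Bool OW Sym Reg := .pop a (fun r s => { r with x := s })
/-- pop a stack into register `y` -/
abbrev popY (a : OW) : Op Bool Bool OW Sym Reg := .pop a (fun r s => { r with y := s })
/-- pop a stack into register `z` -/
abbrev popZ (a : OW) : Op Bool Bool OW Sym Reg := .pop a (fun r s => { r with z := s })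

/-- move stack `a` onto stack `b` (reversing the order) -/
def mv (a b : OW) : OC :=
  .loop [popX a] (fun r => r.x.isSome) (.act [.pushO b (fun r => r.x)])

/-- empty stack `a` -/
def clr (a : OW) : OC := .loop [popX a] (fun r => r.x.isSome) (.act [])

/-- copy stack `a` onto stack `b`, using the empty stack `t` -/
def dup (a t b : OW) : OC :=
  .seq (mv a t) (.loop [popX t] (fun r => r.x.isSome)
    (.act [.pushO a (fun r => r.x), .pushO b (fun r => r.x)]))

/-- sum digit -/
def sumD (r : Reg) : Sym := bitSym (isOne r.x ^^ (isOne r.y ^^ r.cy))

/-- new carry -/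
def carryD (r : Reg) : Bool :=
  (isOne r.x && isOne r.y) || (isOne r.x && r.cy) || (isOne r.y && r.cy)

/-- add stack `a` and the carry to the accumulator -/
def addc (a : OW) : OC :=
  .seq (.loop [popX a, popY .Acc] (fun r => r.x.isSome || r.y.isSome || r.cy)
      (.act [.pushO .T1 (fun r => r.x), .push .T2 sumD, .load (fun r => { r with cy := carryD r })]))
    (.seq (mv .T1 a) (mv .T2 .Acc))

/-- add one to the accumulator -/
def inc : OC := .seq (.act [.load (fun r => { r with cy := true })]) (addc .E0)

/-- turn the ticks on stack `a` into a binary number on stack `b` -/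
def toBin (a b : OW) : OC :=
  .seq (.loop [popX a] (fun r => r.x.isSome) inc) (.seq (mv .Acc .T1) (mv .T1 b))

/-- push `n` ticks -/
def pushN (n : ℕ) (a : OW) : OC := .act (List.replicate n (.push a (fun _ => .one)))

/-- `4 e (|X| + 1) + 1` ticks on stack `St` -/
def stick (e : ℕ) : OC :=
  .seq (.loop [popX .X] (fun r => r.x.isSome)
      (.act (.pushO .T1 (fun r => r.x) :: List.replicate (4 * e) (.push .St (fun _ => .one)))))
    (.seq (mv .T1 .X) (pushN (4 * e + 1) .St))

/-- instruction `P` -/
def emitP : OC :=
  .seq (.loop [popX .St] (fun r => r.x.isSome)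
      (.act [.push .T1 (fun _ => .one), popY .Acc, .push .Out (fun r => bitSym (isOne r.y))]))
    (mv .T1 .St)

/-- the program of an instruction -/
def insC : Ins → OC
  | .W => .seq (.act [.load (fun r => { r with cy := false })]) (addc .X)
  | .V => .seq (.act [.load (fun r => { r with cy := false })]) (addc .Y)
  | .E => inc
  | .P => emitP
  | .O => .seq (mv .Acc .Out) (.act [.push .Out (fun _ => .sep)])
  | .X => mv .Out .Th
  | .H => .act []

/-- select the instruction -/
def disp : OC :=
  .ite [] (fun r => dec r = .W) (insC .W) <| .ite [] (fun r => dec r = .V) (insC .V) <|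
  .ite [] (fun r => dec r = .E) (insC .E) <| .ite [] (fun r => dec r = .P) (insC .P) <|
  .ite [] (fun r => dec r = .O) (insC .O) (insC .X)

/-- the template interpreter -/
def interp : OC := .loop [popX .P, popY .P, popZ .P] (fun r => dec r ≠ .H) disp

/-- the template interpreter, then cleaning up -/
def common : OC := .seq interp (.seq (clr .P) (.seq (clr .X) (.seq (clr .Y) (clr .St))))

/-- read the input up to its end or the first `false` -/
def readU : OC :=
  .loop [.popInp (fun r b => { r with x := b.map bitSym })] (fun r => isOne r.x)
    (.act [.push .U (fun _ => .one)])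

/-- preparation for the diagonal argument: `w` in binary on `X` and `P`, `w + 1` on `Y`,
`4 (|w| + 1) + 1` ticks on `St` -/
def pre1 : OC :=
  .seq readU (.seq (dup .U .T1 .S) (.seq (pushN 1 .S) (.seq (toBin .U .X) (.seq (toBin .S .Y)
    (.seq (stick 1) (dup .X .T1 .P))))))

/-- multiply the number of ticks on `S` by the number of ticks on `U` -/
def mulU : OC :=
  .seq (.loop [popX .S] (fun r => r.x.isSome) (dup .U .T1 .T2)) (mv .T2 .S)

/-- repeat a program -/
def rep : ℕ → OC → OC
  | 0, _ => .act []
  | n + 1, c => .seq c (rep n c)

/-- preparation for the reduction from tally languages: `n` in binary on `X`,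
`n + 1 + n ^ c + c` on `Y`, `4 e (|n| + 1) + 1` ticks on `St`, the code of `prog` on `P` -/
def pre2 (c e : ℕ) (prog : List Ins) : OC :=
  .seq readU (.seq (pushN 1 .S) (.seq (rep c mulU) (.seq (pushN (c + 1) .S) (.seq (dup .U .T1 .S)
    (.seq (toBin .U .X) (.seq (toBin .S .Y) (.seq (stick e)
      (.act ((codeL prog).reverse.map (fun b => .push .P (fun _ => bitSym b)))))))))))

/-- comparison of two digits -/
def cmpD (r : Reg) : Bool :=
  match r.x, r.y with
  | some a, some .zero => if a = .zero then r.gt else true
  | some a, some .one => if a = .one then r.gt else false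
  | some _, _ => true
  | none, some .zero => false
  | none, some .one => false
  | none, _ => r.gt

/-- compare the number on `Res` (most significant digit on top) with the number on `Th` (least
significant digit on top) and output `f (Res > Th)` -/
def post (f : Bool → Bool) : OC :=
  .seq (.act [.load (fun r => { r with gt := false })]) (.seq (mv .Res .T1)
    (.seq (.loop [popX .T1, popY .Th] (fun r => r.x.isSome || r.y.isSome)
        (.act [.load (fun r => { r with gt := cmpD r })]))
      (.act [.pushOut (fun r => f r.gt)])))

/-! ### Stack contents -/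

/-- contents before the template interpreter -/
def stkI (x y st p : List Sym) : OW → List Sym
  | .X => x
  | .Y => y
  | .St => st
  | .P => p
  | _ => []

/-- contents after the template interpreter -/
def stkO (out th : List Sym) : OW → List Sym
  | .Out => out
  | .Th => th
  | _ => []

/-- contents before the comparison -/
def stkR (res th : List Sym) : OW → List Sym
  | .Res => res
  | .Th => th
  | _ => []

/-! ### Combination with a Turing machine -/

section tm

variable (M : Turing.FinTM2)

/-- all stacks -/
abbrev WM : Type := OW ⊕ M.K
/-- the common alphabet -/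
abbrev GM : Type := Sym ⊕ (Σ k, M.Γ k)
/-- all registers -/
abbrev RM : Type := Reg × Option M.Λ × M.σ
/-- combined programs -/
abbrev CM : Type := Cmd Bool Bool (WM M) (GM M) (RM M) Unit
/-- combined states -/
abbrev SM : Type := Pool.Agent.Helper62.St Bool Bool (WM M) (GM M) (RM M)

variable {M}

/-- an own symbol -/
def getl : GM M → Option Sym
  | .inl s => some s
  | .inr _ => none

/-- a symbol of stack `k` of the machine -/
def getr (k : M.K) : GM M → Option (M.Γ k)
  | .inl _ => none
  | .inr ⟨k', a⟩ => if h : k' = k then some (h ▸ a) else none

/-- translation of operations -/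
def liftOp : Op Bool Bool OW Sym Reg → Op Bool Bool (WM M) (GM M) (RM M)
  | .push k f => .push (.inl k) (fun r => .inl (f r.1))
  | .pushO k f => .pushO (.inl k) (fun r => (f r.1).map .inl)
  | .pop k f => .pop (.inl k) (fun r x => (f r.1 (x.bind getl), r.2))
  | .peek k f => .peek (.inl k) (fun r x => (f r.1 (x.bind getl), r.2))
  | .popInp f => .popInp (fun r x => (f r.1 x, r.2))
  | .pushOut f => .pushOut (fun r => f r.1)
  | .pushOutO f => .pushOutO (fun r => f r.1)
  | .load f => .load (fun r => (f r.1, r.2))

/-- translation of own programs -/
def liftC : OC → CM M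
  | .act l => .act (l.map liftOp)
  | .seq c₁ c₂ => .seq (liftC c₁) (liftC c₂)
  | .ite pre p c₁ c₂ => .ite (pre.map liftOp) (fun r => p r.1) (liftC c₁) (liftC c₂)
  | .loop pre p c => .loop (pre.map liftOp) (fun r => p r.1) (liftC c)
  | .call q => nomatch q

/-- the combined state -/
def embS (s : OSt) (lab : Option M.Λ) (var : M.σ) (ak : ∀ k, List (M.Γ k)) : SM M where
  reg := (s.reg, lab, var)
  inp := s.inp
  out := s.out
  stk := fun k => match k with
    | .inl k => (s.stk k).map .inl
    | .inr k => (ak k).map (fun a => .inr ⟨k, a⟩)

/-- translation of the statements of the machine -/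
def stmtC : Turing.TM2.Stmt M.Γ M.Λ M.σ → CM M
  | .push k f q => .seq (.act [.push (.inr k) (fun r => .inr ⟨k, f r.2.2⟩)]) (stmtC q)
  | .peek k f q => .seq (.act [.peek (.inr k)
      (fun r x => (r.1, r.2.1, f r.2.2 (x.bind (getr k))))]) (stmtC q)
  | .pop k f q => .seq (.act [.pop (.inr k)
      (fun r x => (r.1, r.2.1, f r.2.2 (x.bind (getr k))))]) (stmtC q)
  | .load f q => .seq (.act [.load (fun r => (r.1, r.2.1, f r.2.2))]) (stmtC q)
  | .branch p q₁ q₂ => .ite [] (fun r => p r.2.2) (stmtC q₁) (stmtC q₂)
  | .goto f => .act [.load (fun r => (r.1, some (f r.2.2), r.2.2))]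
  | .halt => .act [.load (fun r => (r.1, none, r.2.2))]

open Classical in
/-- execute the statement of the current label -/
noncomputable def dispatch : List M.Λ → CM M
  | [] => .act []
  | l :: ls => .ite [] (fun r => decide (r.2.1 = some l)) (stmtC (M.m l)) (dispatch ls)

/-- run the machine -/
noncomputable def runC : CM M :=
  .loop [] (fun r => r.2.1.isSome) (dispatch (@Finset.univ M.Λ M.ΛFin).toList)

/-- write the instance on the input stack of the machine -/
def bridge1 (inp : Sym → M.Γ M.k₀) : CM M :=
  .loop [.pop (.inl .Out) (fun r x => ({ r.1 with x := x.bind getl }, r.2))]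
    (fun r => r.1.x.isSome)
    (.act [.pushO (.inr M.k₀) (fun r => r.1.x.map (fun s => .inr ⟨M.k₀, inp s⟩))])

open Classical in
/-- read the output of the machine -/
noncomputable def bridge2 (out : Bool → M.Γ M.k₁) : CM M :=
  .loop [.pop (.inr M.k₁) (fun r x => ({ r.1 with
      x := (x.bind (getr M.k₁)).map (fun a => bitSym (decide (a = out true))) }, r.2))]
    (fun r => r.1.x.isSome)
    (.act [.pushO (.inl .Res) (fun r => r.1.x.map .inl)])

/-- the combined program: `o₁` writes an instance on `Out`, the machine is run on it, `o₂` works on
the result -/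
noncomputable def fullC (inp : Sym → M.Γ M.k₀) (out : Bool → M.Γ M.k₁) (o₁ o₂ : OC) : CM M :=
  .seq (liftC o₁) (.seq (.act [.load (fun r => (r.1, some M.main, M.initialState))])
    (.seq (bridge1 inp) (.seq runC (.seq (bridge2 out) (liftC o₂)))))

end tm

end Pool.Agent.Helper92.OS
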