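import Pool.Agent.Helper92.OS.Shape

/-!
# A valid coloring is an accepting computation
-/

namespace Pool.Agent.Helper92.OS

/-- a function with values in `Option` whose `none` persists is given by a list -/
theorem run_list {α : Type} : ∀ (L : ℕ) (f : ℕ → Option α),
    (∀ p, p + 1 < L → f p = none → f (p + 1) = none) → ∃ y : List α, ∀ p, p < L → f p = y[p]?
  | 0, _, _ => ⟨[], fun p hp => absurd hp (Nat.not_lt_zero p)⟩
  | L + 1, f, h => by
    rcases h0 : f 0 with _ | a
    · refine ⟨[], ?_⟩
      intro p
      induction p with
      | zero => intro _; rw [h0]; rfl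
      | succ p ih =>
        intro hp
        rw [h p hp (by rw [ih (by omega)]; rfl)]
        rfl
    · obtain ⟨y, hy⟩ := run_list L (fun p => f (p + 1)) (fun p hp hn => h (p + 1) (by omega) hn)
      refine ⟨a :: y, ?_⟩
      intro p hp
      cases p with
      | zero => rw [h0]; rfl
      | succ p => rw [hy p (by omega)]; rfl

namespace Tab

variable {Q κ : Type} {Γ : κ → Type} [DecidableEq κ] {X : Tab Q κ Γ} {N w v : ℕ}
  {τ : ℕ → Col Q κ Γ}

theorem run_pos {i p : ℕ} (hi : i < N) (hp : p < N) : i * N + p < N ^ 2 := by
  have h1 : (i + 1) * N ≤ N * N := Nat.mul_le_mul_right N (by omega)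
  rw [pow_two]
  nlinarith

theorem run_mod {i p : ℕ} (hp : p < N) : (i * N + p) % N = p := by
  rw [Nat.mul_comm, Nat.mul_add_mod, Nat.mod_eq_of_lt hp]

/-- no seam inside a row -/
theorem run_seam (S : X.Shape N w v τ) {i p : ℕ} (hi : i < N) (hp : p < N) (h0 : p ≠ 0) :
    (τ (i * N + p)).seam = false := by
  by_contra h
  rw [Bool.not_eq_false, S.seam _ (run_pos hi hp), run_mod hp] at h
  exact h0 h

/-- the first cell of a row is a seam -/
theorem run_seam0 (S : X.Shape N w v τ) {i : ℕ} (hi : i < N) : (τ (i * N)).seam = true := by
  have h : i * N < N ^ 2 := by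
    have := run_pos (N := N) (p := 0) hi (by omega)
    simpa using this
  rw [S.seam _ h]
  exact Nat.mul_mod_left i N

/-- the control state is constant in a row -/
theorem run_ctrl (S : X.Shape N w v τ) {i : ℕ} (hi : i < N) :
    ∀ p, p < N → (τ (i * N + p)).ctrl = (τ (i * N)).ctrl := by
  intro p
  induction p with
  | zero => intro _; rfl
  | succ p ih =>
    intro hp
    have h := S.rel0 (i * N + p) (by have := run_pos hi hp; omega)
    have hs := run_seam S hi hp (by omega)
    have h2 := (h.2.2.2.1 (by rw [← hs]; rfl)).1
    rw [← ih (by omega), ← h2]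
    rfl

/-- blanks persist in a row -/
theorem run_none (S : X.Shape N w v τ) {i p : ℕ} (hi : i < N) (hp : p + 1 < N) (k : κ)
    (hn : (τ (i * N + p)).sym k = none) : (τ (i * N + (p + 1))).sym k = none := by
  have h := S.rel0 (i * N + p) (by have := run_pos hi hp; omega)
  have hs := run_seam S hi hp (by omega)
  exact (h.2.2.2.1 (by rw [← hs]; rfl)).2.2 k hn

/-- the last column is blank -/
theorem run_last (S : X.Shape N w v τ) (hV : X.Valid N w v τ) {i : ℕ} (hi : i < N) (k : κ) :
    (τ (i * N + (N - 1))).sym k = none := by
  by_cases h : i + 1 < N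
  · have e : i * N + (N - 1) + 1 = (i + 1) * N := by
      rw [Nat.add_mul, one_mul]; omega
    have hlt : i * N + (N - 1) + 1 < N ^ 2 := by
      rw [e]
      have := run_pos (N := N) (p := 0) h (by omega)
      simpa using this
    have hr := S.rel0 (i * N + (N - 1)) hlt
    exact (hr.2.2.2.2 (by rw [e]; exact run_seam0 S h)).2 k
  · have e : i * N + (N - 1) = N ^ 2 - 1 := by
      have h1 : N = i + 1 := by omega
      rw [h1, Nat.add_sub_cancel]
      have : (i + 1) ^ 2 = i * (i + 1) + i + 1 := by ring
      omega
    rw [e, hV.last]
    rfl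

theorem valid_run {Q κ : Type} {Γ : κ → Type} [DecidableEq κ] (X : Tab Q κ Γ) (N w v : ℕ)
    (hN : N % 5 = 2) (h7 : 7 ≤ N) (hw : 1 ≤ w) (hwv : w < v) (hv : v < N) (τ : ℕ → Col Q κ Γ)
    (h : X.Valid N w v τ) :
    ∃ y : List (Γ X.k₀), y.length + w + 1 ≤ v ∧ (X.M.step^[N - 1] (X.cfg0 w y)).q = X.M.acc := by
  have S := X.valid_shape N w v hN h7 hw hwv hv τ h
  have hN0 : 0 < N := by omega
  -- the input
  obtain ⟨y, hy⟩ := run_list (N - (w + 1)) (fun p => (τ (w + 1 + p)).sym X.k₀) (by
    intro p hp hn
    have := run_none S (i := 0) (p := w + 1 + p) hN0 (by omega) X.k₀ (by simpa using hn)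
    simpa [Nat.add_assoc] using this)
  have hlen : y.length + w + 1 ≤ v := by
    have h1 := hy (v - (w + 1)) (by omega)
    have h2 : (τ (w + 1 + (v - (w + 1)))).sym X.k₀ = none := by
      rw [show w + 1 + (v - (w + 1)) = v by omega]
      exact S.blank
    rw [h2] at h1
    have := List.getElem?_eq_none_iff.1 h1.symm
    omega
  refine ⟨y, hlen, ?_⟩
  have key : ∀ i, i < N → ∀ p, p < N →
      (τ (i * N + p)).ctrl = (X.M.step^[i] (X.cfg0 w y)).q ∧
      ∀ k, (τ (i * N + p)).sym k = ((X.M.step^[i] (X.cfg0 w y)).stk k)[p]? := by
    intro i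
    induction i with
    | zero =>
      intro _ p hp
      rw [Nat.zero_mul, Nat.zero_add]
      have hok := S.ok p (by have := run_pos (N := N) hN0 hp; simpa using this)
      have hcfg : ∀ k, ((X.M.step^[0] (X.cfg0 w y)).stk k) =
          Function.update (fun _ => []) X.k₀ (List.replicate w X.one ++ X.hash :: y) k :=
        fun k => rfl
      have hq : (X.M.step^[0] (X.cfg0 w y)).q = X.M.start := rfl
      rw [hq]
      rcases lt_trichotomy p w with hpw | hpw | hpw
      · obtain ⟨a1, a2, a3⟩ := hok.1 (S.ph_one p hpw)
        refine ⟨a1, fun k => ?_⟩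
        rw [hcfg]
        by_cases hk : k = X.k₀
        · subst hk
          rw [Function.update_self, a2, List.getElem?_append_left (by simpa using hpw),
            List.getElem?_replicate_of_lt hpw]
        · rw [a3 k hk, Function.update_of_ne hk]; rfl
      · subst hpw
        obtain ⟨a1, a2, a3⟩ := hok.2.1 S.ph_hash
        refine ⟨a1, fun k => ?_⟩
        rw [hcfg]
        by_cases hk : k = X.k₀
        · subst hk
          rw [Function.update_self, a2, List.getElem?_append_right (by simp)]
          simp
        · rw [a3 k hk, Function.update_of_ne hk]; rfl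
      · obtain ⟨a1, a3⟩ := hok.2.2 (S.ph_rest p hpw hp)
        refine ⟨a1, fun k => ?_⟩
        rw [hcfg]
        by_cases hk : k = X.k₀
        · subst hk
          have h1 := hy (p - (w + 1)) (by omega)
          simp only [show w + 1 + (p - (w + 1)) = p by omega] at h1
          rw [Function.update_self, h1, List.getElem?_append_right (by simp; omega)]
          rw [List.length_replicate, show p - w = (p - (w + 1)) + 1 by omega,
            List.getElem?_cons_succ]
        · rw [a3 k hk, Function.update_of_ne hk]; rfl
    | succ i ih =>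
      intro hi p hp
      have hi' : i < N := by omega
      have ih := ih hi'
      rw [Function.iterate_succ_apply']
      generalize hc : X.M.step^[i] (X.cfg0 w y) = c at ih
      have hlast : ∀ k, (c.stk k)[N - 1]? = none := by
        intro k
        rw [← (ih (N - 1) (by omega)).2 k]
        exact run_last S h hi' k
      have hrow : ∀ p, (i + 1) * N + p = i * N + p + N := by
        intro p; rw [Nat.add_mul, one_mul]; omega
      have hlt : ∀ p, p < N → i * N + p + N < N ^ 2 := by
        intro p hp
        rw [← hrow]
        exact run_pos hi hp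
      have hr5 : ∀ p, p < N → X.Rel 5 (τ (i * N + p)) (τ ((i + 1) * N + p)) := by
        intro p hp
        rw [hrow]
        exact S.rel5 _ (hlt p hp)
      have hctrl := run_ctrl S hi p hp
      have h50 := (hr5 0 hN0).2.2
      have h5 := (hr5 p hp).2.2
      rw [Nat.add_zero, Nat.add_zero] at h50
      have c0 : (τ (i * N)).ctrl = c.q := (ih 0 hN0).1
      have cp : (τ (i * N + p)).ctrl = c.q := (ih p hp).1
      have s0 := run_seam0 S hi'
      have y0 : ∀ k, (τ (i * N)).sym k = (c.stk k)[0]? := (ih 0 hN0).2
      have yp : ∀ k, (τ (i * N + p)).sym k = (c.stk k)[p]? := (ih p hp).2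
      rw [c0] at h50
      rw [cp] at h5
      rw [hctrl]
      unfold Mach.step
      cases hδ : X.M.δ c.q with
      | push k a q =>
        rw [hδ] at h50 h5
        simp only at h50 h5 ⊢
        refine ⟨(h50.2 s0).1, fun k' => ?_⟩
        by_cases hk : k' = k
        · subst hk
          rw [Function.update_self]
          cases p with
          | zero =>
            rw [Nat.add_zero, (h50.2 s0).2]; rfl
          | succ p =>
            have e : (i + 1) * N + (p + 1) = i * N + p + (N + 1) := by
              rw [Nat.add_mul, one_mul]; omega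
            have h6 := S.rel6 (i * N + p) (by rw [← e]; exact run_pos hi hp)
            rw [← e] at h6
            have hcp : (τ (i * N + p)).ctrl = c.q := (ih p (by omega)).1
            change (match X.M.δ (τ (i * N + p)).ctrl with
              | .push k _ _ => (τ ((i + 1) * N + (p + 1))).seam = false →
                (τ ((i + 1) * N + (p + 1))).sym k = (τ (i * N + p)).sym k
              | _ => True) at h6
            rw [hcp, hδ] at h6
            rw [h6 (run_seam S hi hp (by omega)), (ih p (by omega)).2]
            rfl
        · rw [Function.update_of_ne hk, h5.1 k' hk, yp]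
      | pop k f =>
        rw [hδ] at h50 h5
        simp only at h50 h5 ⊢
        refine ⟨?_, fun k' => ?_⟩
        · rw [h50.2 s0, y0, List.head?_eq_getElem?]
        · by_cases hk : k' = k
          · subst hk
            rw [Function.update_self]
            by_cases hp1 : p + 1 < N
            · have e : i * N + (p + 1) + (N - 1) = (i + 1) * N + p := by
                rw [Nat.add_mul, one_mul]; omega
              have h4 := S.rel4 (i * N + (p + 1)) (by rw [e]; exact run_pos hi hp)
              rw [e] at h4
              have hcp : (τ (i * N + (p + 1))).ctrl = c.q := (ih (p + 1) hp1).1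
              change (match X.M.δ (τ (i * N + (p + 1))).ctrl with
                | .pop k _ => (τ (i * N + (p + 1))).seam = false →
                  (τ ((i + 1) * N + p)).sym k = (τ (i * N + (p + 1))).sym k
                | _ => True) at h4
              rw [hcp, hδ] at h4
              rw [h4 (run_seam S hi' hp1 (by omega)), (ih (p + 1) hp1).2]
              rw [List.getElem?_tail]
            · have e : p = N - 1 := by omega
              rw [e, run_last S h hi, List.getElem?_tail]
              have := List.getElem?_eq_none_iff.1 (hlast k')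
              exact (List.getElem?_eq_none_iff.2 (by omega)).symm
          · rw [Function.update_of_ne hk, h5.1 k' hk, yp]
      | peek k f =>
        rw [hδ] at h50 h5
        simp only at h50 h5 ⊢
        refine ⟨?_, fun k' => ?_⟩
        · rw [h50.2 s0, y0, List.head?_eq_getElem?]
        · rw [h5.1 k', yp]
  have hfin := (key (N - 1) (by omega) (N - 1) (by omega)).1
  have e : (N - 1) * N + (N - 1) = N ^ 2 - 1 := by
    obtain ⟨n, rfl⟩ : ∃ n, N = n + 1 := ⟨N - 1, by omega⟩
    rw [Nat.add_sub_cancel]
    have : (n + 1) ^ 2 = n * (n + 1) + n + 1 := by ring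
    omega
  rw [e, h.last] at hfin
  exact hfin.symm

end Tab

end Pool.Agent.Helper92.OS
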