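import Pool.Agent.Helper92.OS.Mach

/-!
# The symbolic parameters of a tableau
-/

namespace Pool.Agent.Helper92.OS

namespace Tab

theorem spar_ne {Q κ : Type} {Γ : κ → Type} [DecidableEq κ] (X : Tab Q κ Γ) :
    X.alpha ≠ X.beta := by
  intro h
  have := congrArg Col.cls h
  simp [alpha, beta] at this

theorem spar_good {Q κ : Type} {Γ : κ → Type} [DecidableEq κ] [Finite Q] [Finite κ]
    [∀ k, Finite (Γ k)] (X : Tab Q κ Γ) : X.spar.Good := by
  have hne := X.spar_ne
  refine ⟨?_, ?_, ?_⟩
  · have : Nontrivial (Col Q κ Γ) := ⟨X.alpha, X.beta, hne⟩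
    have h : 1 < Nat.card (Col Q κ Γ) := Finite.one_lt_card
    exact h
  · have : Nonempty (Fin 7 × Col Q κ Γ × Col Q κ Γ) := ⟨(0, X.alpha, X.alpha)⟩
    have h : 0 < Nat.card (Fin 7 × Col Q κ Γ × Col Q κ Γ) := Nat.card_pos
    exact h
  · intro h
    exact hne (X.num.injective h)

theorem coloring_iff {Q κ : Type} {Γ : κ → Type} [DecidableEq κ] [Finite Q] [Finite κ]
    [∀ k, Finite (Γ k)] (X : Tab Q κ Γ) (N w v : ℕ) :
    (∃ τ, (X.spar.par N w v).Coloring τ) ↔ ∃ τ, X.Valid N w v τ := by
  classical
  have hc : ∀ u, (X.spar.par N w v).c u = X.num (X.clu u).2.1 := fun u => rfl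
  have hc' : ∀ u, (X.spar.par N w v).c' u =
      if X.Forb (X.clu u) then X.num (X.clu u).2.2 else X.num (X.clu u).2.1 := by
    intro u
    show X.spar.c' u = _
    unfold spar
    simp only
  have hd : ∀ u, (X.spar.par N w v).d u =
      dval N w v (if X.Forb (X.clu u) then (X.clu u).1 else 0) := by
    intro u
    show dval N w v (X.spar.o u) = _
    unfold spar
    simp only
  constructor
  · rintro ⟨τ, h1, h2, h3⟩
    refine ⟨fun x => X.num.symm (τ x), ?_, ?_, ?_⟩
    · show X.num.symm (τ 0) = X.alpha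
      rw [h1]
      exact X.num.symm_apply_apply _
    · show X.num.symm (τ (N ^ 2 - 1)) = X.beta
      have h4 : τ (N ^ 2 - 1) = X.num X.beta := h2
      rw [h4]
      exact X.num.symm_apply_apply _
    · intro o x hx
      by_contra hcon
      push Not at hcon
      obtain ⟨k1, k2⟩ := hcon
      have hF : X.Forb (o, X.num.symm (τ x), X.num.symm (τ (x + dval N w v o))) := ⟨k1, k2⟩
      have hz : X.clu (X.clu.symm (o, X.num.symm (τ x), X.num.symm (τ (x + dval N w v o)))) =
          (o, X.num.symm (τ x), X.num.symm (τ (x + dval N w v o))) := X.clu.apply_symm_apply _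
      have e1 := hc (X.clu.symm (o, X.num.symm (τ x), X.num.symm (τ (x + dval N w v o))))
      have e2 := hc' (X.clu.symm (o, X.num.symm (τ x), X.num.symm (τ (x + dval N w v o))))
      have e3 := hd (X.clu.symm (o, X.num.symm (τ x), X.num.symm (τ (x + dval N w v o))))
      rw [hz] at e1 e2 e3
      rw [if_pos hF] at e2 e3
      refine h3 (X.clu.symm (o, X.num.symm (τ x), X.num.symm (τ (x + dval N w v o)))) ?_ x ?_ ?_
      · rw [e1, e2]
        intro h
        exact k1 (X.num.injective h)
      · rw [e3]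
        exact hx
      · rw [e1, e2, e3]
        exact ⟨(X.num.apply_symm_apply _).symm, (X.num.apply_symm_apply _).symm⟩
  · rintro ⟨τ, h1, h2, h3⟩
    refine ⟨fun x => X.num (τ x), ?_, ?_, ?_⟩
    · show X.num (τ 0) = X.num X.alpha
      rw [h1]
    · show X.num (τ (N ^ 2 - 1)) = X.num X.beta
      rw [h2]
    · intro u hne x hx
      have hF : X.Forb (X.clu u) := by
        by_contra h
        apply hne
        rw [hc, hc', if_neg h]
      have e2 := hc' u
      have e3 := hd u
      rw [if_pos hF] at e2 e3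
      rintro ⟨k1, k2⟩
      rw [hc] at k1
      rw [e3] at hx
      rw [e2, e3] at k2
      have k3 := X.num.injective k1
      have k4 := X.num.injective k2
      rcases h3 (X.clu u).1 x hx with h5 | h5
      · exact hF.1 (by rw [← k3, ← k4]; exact h5)
      · exact hF.2 (by rw [← k3, ← k4]; exact h5)

end Tab

end Pool.Agent.Helper92.OS
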