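import Pool.Agent.Helper92.OS.Mach

/-!
# An accepting run gives a valid coloring
-/

namespace Pool.Agent.Helper92.OS

namespace Tab

theorem table_succ {N : ℕ} (hN : 0 < N) (x : ℕ) :
    ((x + 1) % N ≠ 0 ∧ (x + 1) / N = x / N ∧ (x + 1) % N = x % N + 1) ∨
      ((x + 1) % N = 0 ∧ x % N + 1 = N ∧ (x + 1) / N = x / N + 1) := by
  have h1 := Nat.div_add_mod x N
  have h2 := Nat.mod_lt x hN
  by_cases h : x % N + 1 = N
  · right
    have e : x + 1 = N * (x / N + 1) := by
      rw [Nat.mul_add, Nat.mul_one]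
      omega
    refine ⟨?_, h, ?_⟩
    · rw [e, Nat.mul_mod_right]
    · rw [e, Nat.mul_div_cancel_left _ hN]
  · left
    have e : x + 1 = N * (x / N) + (x % N + 1) := by omega
    have h3 : x % N + 1 < N := by omega
    have e1 : (x + 1) / N = x / N := by
      rw [Nat.div_eq_iff hN] at *
      constructor
      · rw [Nat.mul_comm]; omega
      · have := Nat.mul_comm (x / N) N
        omega
    have e2 : (x + 1) % N = x % N + 1 := by
      have h4 := Nat.div_add_mod (x + 1) N
      rw [e1] at h4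
      omega
    exact ⟨by omega, e1, e2⟩

section

variable {Q κ : Type} {Γ : κ → Type} [DecidableEq κ] (X : Tab Q κ Γ)

theorem table_len (c : MCfg Q κ Γ) (k : κ) :
    ((X.M.step c).stk k).length ≤ (c.stk k).length + 1 := by
  unfold Mach.step
  split
  · rename_i k' a q _
    by_cases h : k = k'
    · subst h
      simp
    · simp [Function.update_of_ne h]
  · rename_i k' f _
    by_cases h : k = k'
    · subst h
      simp
      omega
    · simp [Function.update_of_ne h]
  · simp

theorem table_acc (c : MCfg Q κ Γ) (h : c.q = X.M.acc) : X.M.step c = c := by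
  obtain ⟨k, hk⟩ := X.M.acc_abs
  unfold Mach.step
  rw [h, hk]
  simp only
  rw [← h]

/-- the configurations -/
def tcfg (w : ℕ) (y : List (Γ X.k₀)) (i : ℕ) : MCfg Q κ Γ := X.M.step^[i] (X.cfg0 w y)

theorem tcfg_succ (w : ℕ) (y : List (Γ X.k₀)) (i : ℕ) :
    X.tcfg w y (i + 1) = X.M.step (X.tcfg w y i) :=
  Function.iterate_succ_apply' _ _ _

theorem tcfg_acc {w : ℕ} {y : List (Γ X.k₀)} {t : ℕ} (h : (X.tcfg w y t).q = X.M.acc) {i : ℕ}
    (hi : t ≤ i) : X.tcfg w y i = X.tcfg w y t := by
  induction i, hi using Nat.le_induction with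
  | base => rfl
  | succ i hi ih => rw [tcfg_succ, ih, X.table_acc _ h]

theorem tcfg_len0 (w : ℕ) (y : List (Γ X.k₀)) (k : κ) (i : ℕ) :
    ((X.tcfg w y i).stk k).length ≤ y.length + w + 1 + i := by
  induction i with
  | zero =>
    show ((X.cfg0 w y).stk k).length ≤ _
    unfold cfg0 Mach.init
    by_cases h : k = X.k₀
    · subst h
      simp
      omega
    · simp [Function.update_of_ne h]
  | succ i ih =>
    rw [tcfg_succ]
    have := X.table_len (X.tcfg w y i) k
    omega

theorem tcfg_len {w v : ℕ} {y : List (Γ X.k₀)} (hy : y.length + w + 1 ≤ v) {t : ℕ}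
    (h : (X.tcfg w y t).q = X.M.acc) (k : κ) (i : ℕ) :
    ((X.tcfg w y i).stk k).length ≤ v + t := by
  rcases le_total i t with h1 | h1
  · have := X.tcfg_len0 w y k i
    omega
  · rw [X.tcfg_acc h h1]
    have := X.tcfg_len0 w y k t
    omega

/-- the phases -/
def tph (w i p : ℕ) : Phase :=
  if i = 0 then (if p < w then .one else if p = w then .hash else .rest)
  else if i = 1 then .r1 else .r2

/-- the coloring -/
def tcol (N w : ℕ) (y : List (Γ X.k₀)) (x : ℕ) : Col Q κ Γ where
  cls := ⟨x % 5, Nat.mod_lt _ (by norm_num)⟩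
  seam := decide (x % N = 0)
  ph := tph w (x / N) (x % N)
  ctrl := (X.tcfg w y (x / N)).q
  sym := fun k => ((X.tcfg w y (x / N)).stk k)[x % N]?

theorem tcol_ok (N w : ℕ) (y : List (Γ X.k₀)) (x : ℕ) : X.Ok (X.tcol N w y x) := by
  have key : x / N = 0 → (X.tcol N w y x).ctrl = X.M.start ∧
      ∀ k, (X.tcol N w y x).sym k = ((X.cfg0 w y).stk k)[x % N]? := by
    intro h
    unfold tcol
    simp only [h]
    exact ⟨rfl, fun k => rfl⟩
  have hk : ∀ k, k ≠ X.k₀ → ((X.cfg0 w y).stk k)[x % N]? = none := by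
    intro k hk
    unfold cfg0 Mach.init
    simp [Function.update_of_ne hk]
  have hk0 : ((X.cfg0 w y).stk X.k₀)[x % N]? =
      (List.replicate w X.one ++ X.hash :: y)[x % N]? := by
    unfold cfg0 Mach.init
    simp
  have hph : (X.tcol N w y x).ph = tph w (x / N) (x % N) := rfl
  refine ⟨fun h => ?_, fun h => ?_, fun h => ?_⟩
  · rw [hph] at h
    unfold tph at h
    split_ifs at h with h1 h2 h3
    obtain ⟨k1, k2⟩ := key h1
    refine ⟨k1, ?_, fun k hk' => by rw [k2, hk k hk']⟩
    rw [k2, hk0, List.getElem?_append_left (by simpa using h2)]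
    simp [h2]
  · rw [hph] at h
    unfold tph at h
    split_ifs at h with h1 h2 h3
    obtain ⟨k1, k2⟩ := key h1
    refine ⟨k1, ?_, fun k hk' => by rw [k2, hk k hk']⟩
    rw [k2, hk0, h3, List.getElem?_append_right (by simp)]
    simp
  · rw [hph] at h
    unfold tph at h
    split_ifs at h with h1 h2 h3
    obtain ⟨k1, k2⟩ := key h1
    exact ⟨k1, fun k hk' => by rw [k2, hk k hk']⟩

theorem tcol_rel0 {N : ℕ} (h7 : 7 ≤ N) {w : ℕ} (hwN : w + 1 < N) (y : List (Γ X.k₀))
    (hlen : ∀ i k, ((X.tcfg w y i).stk k).length < N) (x : ℕ) :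
    X.Rel 0 (X.tcol N w y x) (X.tcol N w y (x + 1)) := by
  have hN0 : 0 < N := by omega
  have hcls : ∀ x, (X.tcol N w y x).cls = ⟨x % 5, Nat.mod_lt _ (by norm_num)⟩ := fun _ => rfl
  have hseam : ∀ x, (X.tcol N w y x).seam = decide (x % N = 0) := fun _ => rfl
  have hph : ∀ x, (X.tcol N w y x).ph = tph w (x / N) (x % N) := fun _ => rfl
  have hctrl : ∀ x, (X.tcol N w y x).ctrl = (X.tcfg w y (x / N)).q := fun _ => rfl
  have hsym : ∀ x k, (X.tcol N w y x).sym k = ((X.tcfg w y (x / N)).stk k)[x % N]? :=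
    fun _ _ => rfl
  refine ⟨?_, X.tcol_ok N w y x, X.tcol_ok N w y (x + 1), ?_, ?_⟩
  · rw [hcls, hcls]
    ext
    simp [Fin.val_add]
  · intro h
    rw [hseam, decide_eq_false_iff_not] at h
    rcases table_succ hN0 x with ⟨_, h2, h3⟩ | ⟨h1, _⟩
    · rw [hctrl, hctrl, hph, hph, h2, h3]
      refine ⟨rfl, ?_, ?_⟩
      · unfold tph
        split_ifs <;> simp [PhRow] <;> omega
      · intro k hk'
        rw [hsym] at hk' ⊢
        rw [h2, h3]
        rw [List.getElem?_eq_none_iff] at hk' ⊢
        omega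
    · exact absurd h1 h
  · intro h
    rw [hseam, decide_eq_true_eq] at h
    rcases table_succ hN0 x with ⟨h1, _⟩ | ⟨_, h2, h3⟩
    · exact absurd h h1
    · rw [hph, hph, h, h3]
      refine ⟨?_, ?_⟩
      · have h4 : x % N = N - 1 := by omega
        rw [h4]
        unfold tph
        split_ifs <;> simp_all [PhSeam] <;> omega
      · intro k
        rw [hsym, List.getElem?_eq_none_iff]
        have := hlen (x / N) k
        omega

theorem tcol_rel1 (N w : ℕ) (y : List (Γ X.k₀)) (x : ℕ) :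
    (X.tcol N w y (x + 2)).cls = (X.tcol N w y x).cls + 2 := by
  have hcls : ∀ x, (X.tcol N w y x).cls = ⟨x % 5, Nat.mod_lt _ (by norm_num)⟩ := fun _ => rfl
  rw [hcls, hcls]
  ext
  simp [Fin.val_add]

theorem tcol_rel4 {N : ℕ} (hN0 : 0 < N) (w : ℕ) (y : List (Γ X.k₀)) (x : ℕ) :
    X.Rel 4 (X.tcol N w y x) (X.tcol N w y (x + (N - 1))) := by
  have hseam : ∀ x, (X.tcol N w y x).seam = decide (x % N = 0) := fun _ => rfl
  have hph : ∀ x, (X.tcol N w y x).ph = tph w (x / N) (x % N) := fun _ => rfl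
  have hctrl : ∀ x, (X.tcol N w y x).ctrl = (X.tcfg w y (x / N)).q := fun _ => rfl
  have hsym : ∀ x k, (X.tcol N w y x).sym k = ((X.tcfg w y (x / N)).stk k)[x % N]? :=
    fun _ _ => rfl
  have hdown : ∀ x, (x + N) / N = x / N + 1 ∧ (x + N) % N = x % N := fun x =>
    ⟨Nat.add_div_right x hN0, Nat.add_mod_right x N⟩
  show (match X.M.δ (X.tcol N w y x).ctrl with
      | .pop k _ => (X.tcol N w y x).seam = false →
          (X.tcol N w y (x + (N - 1))).sym k = (X.tcol N w y x).sym k
      | _ => True)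
  rw [hctrl]
  split
  · rename_i k f hδ
    intro h
    rw [hseam, decide_eq_false_iff_not] at h
    obtain ⟨x', rfl⟩ : ∃ x', x = x' + 1 := ⟨x - 1, by
      have : x ≠ 0 := by rintro rfl; simp at h
      omega⟩
    have e : x' + 1 + (N - 1) = x' + N := by omega
    rcases table_succ hN0 x' with ⟨_, h2, h3⟩ | ⟨h1, _⟩
    · rw [e, hsym, hsym, (hdown x').1, (hdown x').2, h2, h3, tcfg_succ]
      rw [h2] at hδ
      unfold Mach.step
      rw [hδ]
      simp
    · exact absurd h1 h
  · trivial

theorem tcol_rel5 {N : ℕ} (hN0 : 0 < N) (w : ℕ) (y : List (Γ X.k₀)) (x : ℕ) :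
    X.Rel 5 (X.tcol N w y x) (X.tcol N w y (x + N)) := by
  have hseam : ∀ x, (X.tcol N w y x).seam = decide (x % N = 0) := fun _ => rfl
  have hph : ∀ x, (X.tcol N w y x).ph = tph w (x / N) (x % N) := fun _ => rfl
  have hctrl : ∀ x, (X.tcol N w y x).ctrl = (X.tcfg w y (x / N)).q := fun _ => rfl
  have hsym : ∀ x k, (X.tcol N w y x).sym k = ((X.tcfg w y (x / N)).stk k)[x % N]? :=
    fun _ _ => rfl
  have hdown : ∀ x, (x + N) / N = x / N + 1 ∧ (x + N) % N = x % N := fun x =>
    ⟨Nat.add_div_right x hN0, Nat.add_mod_right x N⟩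
  refine ⟨?_, ?_, ?_⟩
  · rw [hseam, hseam, (hdown x).2]
  · rw [hph, hph, (hdown x).1, (hdown x).2]
    unfold tph
    split_ifs <;> first | (simp_all [PhDown]; done) | (simp_all [PhDown]; omega)
  · rw [hctrl]
    have h2 : ∀ k, (X.tcol N w y (x + N)).sym k =
        ((X.M.step (X.tcfg w y (x / N))).stk k)[x % N]? := by
      intro k
      rw [hsym, (hdown x).1, (hdown x).2, tcfg_succ]
    have h3 : (X.tcol N w y (x + N)).ctrl = (X.M.step (X.tcfg w y (x / N))).q := by
      rw [hctrl, (hdown x).1, tcfg_succ]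
    split
    · rename_i k c q hδ
      have hst : X.M.step (X.tcfg w y (x / N)) =
          ⟨q, Function.update (X.tcfg w y (x / N)).stk k (c :: (X.tcfg w y (x / N)).stk k)⟩ := by
        unfold Mach.step
        rw [hδ]
      refine ⟨fun k' hk' => ?_, fun h => ?_⟩
      · rw [h2, hst, hsym]
        simp [Function.update_of_ne hk']
      · rw [hseam, decide_eq_true_eq] at h
        rw [h2, h3, hst, h]
        simp
    · rename_i k f hδ
      have hst : X.M.step (X.tcfg w y (x / N)) =
          ⟨f ((X.tcfg w y (x / N)).stk k).head?,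
            Function.update (X.tcfg w y (x / N)).stk k ((X.tcfg w y (x / N)).stk k).tail⟩ := by
        unfold Mach.step
        rw [hδ]
      refine ⟨fun k' hk' => ?_, fun h => ?_⟩
      · rw [h2, hst, hsym]
        simp [Function.update_of_ne hk']
      · rw [hseam, decide_eq_true_eq] at h
        rw [h3, hst, hsym, h]
        simp [List.head?_eq_getElem?]
    · rename_i k f hδ
      have hst : X.M.step (X.tcfg w y (x / N)) =
          ⟨f ((X.tcfg w y (x / N)).stk k).head?, (X.tcfg w y (x / N)).stk⟩ := by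
        unfold Mach.step
        rw [hδ]
      refine ⟨fun k' => ?_, fun h => ?_⟩
      · rw [h2, hst, hsym]
      · rw [hseam, decide_eq_true_eq] at h
        rw [h3, hst, hsym, h]
        simp [List.head?_eq_getElem?]

theorem tcol_rel6 {N : ℕ} (hN0 : 0 < N) (w : ℕ) (y : List (Γ X.k₀)) (x : ℕ) :
    X.Rel 6 (X.tcol N w y x) (X.tcol N w y (x + (N + 1))) := by
  have hseam : ∀ x, (X.tcol N w y x).seam = decide (x % N = 0) := fun _ => rfl
  have hph : ∀ x, (X.tcol N w y x).ph = tph w (x / N) (x % N) := fun _ => rfl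
  have hctrl : ∀ x, (X.tcol N w y x).ctrl = (X.tcfg w y (x / N)).q := fun _ => rfl
  have hsym : ∀ x k, (X.tcol N w y x).sym k = ((X.tcfg w y (x / N)).stk k)[x % N]? :=
    fun _ _ => rfl
  have hdown : ∀ x, (x + N) / N = x / N + 1 ∧ (x + N) % N = x % N := fun x =>
    ⟨Nat.add_div_right x hN0, Nat.add_mod_right x N⟩
  have e : x + (N + 1) = (x + 1) + N := by omega
  rw [e]
  show (match X.M.δ (X.tcol N w y x).ctrl with
      | .push k _ _ => (X.tcol N w y (x + 1 + N)).seam = false →
          (X.tcol N w y (x + 1 + N)).sym k = (X.tcol N w y x).sym k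
      | _ => True)
  rw [hctrl]
  split
  · rename_i k c q hδ
    intro h
    rw [hseam, decide_eq_false_iff_not, (hdown (x + 1)).2] at h
    rcases table_succ hN0 x with ⟨_, h2, h3⟩ | ⟨h1, _⟩
    · rw [hsym, hsym, (hdown (x + 1)).1, (hdown (x + 1)).2, h2, h3, tcfg_succ]
      unfold Mach.step
      rw [hδ]
      simp
    · exact absurd h1 h
  · trivial


end

theorem run_valid {Q κ : Type} {Γ : κ → Type} [DecidableEq κ] (X : Tab Q κ Γ) (N w v : ℕ)
    (hN : N % 5 = 2) (h7 : 7 ≤ N) (hw : 1 ≤ w) (hwv : w < v) (hv : v < N)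
    (y : List (Γ X.k₀)) (hy : y.length + w + 1 ≤ v) (t : ℕ) (ht : v + t < N)
    (hacc : (X.M.step^[t] (X.cfg0 w y)).q = X.M.acc) :
    ∃ τ : ℕ → Col Q κ Γ, X.Valid N w v τ := by
  have hN0 : 0 < N := by omega
  have hlen : ∀ i k, ((X.tcfg w y i).stk k).length < N := fun i k =>
    (X.tcfg_len hy hacc k i).trans_lt ht
  have hk : ∀ k, k ≠ X.k₀ → (X.cfg0 w y).stk k = [] := by
    intro k hk
    unfold cfg0 Mach.init
    simp [Function.update_of_ne hk]
  have hk0 : (X.cfg0 w y).stk X.k₀ = List.replicate w X.one ++ X.hash :: y := by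
    unfold cfg0 Mach.init
    simp
  have halpha : ∀ x, X.tcol N w y x = X.alpha → x = 0 := by
    intro x h
    have h1 : decide (x % N = 0) = true := congrArg Col.seam h
    have h2 : tph w (x / N) (x % N) = .one := congrArg Col.ph h
    simp only [decide_eq_true_eq] at h1
    unfold tph at h2
    split_ifs at h2 with h3
    have := Nat.div_add_mod x N
    rw [h1, h3] at this
    omega
  refine ⟨X.tcol N w y, ?_, ?_, ?_⟩
  · -- first
    unfold tcol alpha
    simp only [Nat.zero_mod, Nat.zero_div, decide_true, Col.mk.injEq, true_and]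
    refine ⟨rfl, ?_, rfl, ?_⟩
    · unfold tph
      rw [if_pos rfl, if_pos (by omega)]
    · funext k
      show ((X.cfg0 w y).stk k)[0]? = _
      by_cases h : k = X.k₀
      · subst h
        rw [hk0, Function.update_self, List.getElem?_append_left (by simp; omega),
          List.getElem?_replicate, if_pos (by omega)]
      · rw [hk k h, Function.update_of_ne h]
        simp
  · -- last
    have e : N ^ 2 - 1 = N * (N - 1) + (N - 1) := by
      obtain ⟨n, rfl⟩ : ∃ n, N = n + 1 := ⟨N - 1, by omega⟩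
      have : (n + 1) ^ 2 = (n + 1) * n + n + 1 := by ring
      rw [this]
      simp
    have e1 : (N ^ 2 - 1) / N = N - 1 := by
      rw [e, Nat.mul_add_div hN0, Nat.div_eq_of_lt (by omega), Nat.add_zero]
    have e2 : (N ^ 2 - 1) % N = N - 1 := by
      rw [e, Nat.mul_add_mod, Nat.mod_eq_of_lt (by omega)]
    have e3 : (N ^ 2 - 1) % 5 = 3 := by
      have h1 : N ^ 2 % 5 = 4 := by
        rw [Nat.pow_mod, hN]
      have h2 : 1 ≤ N ^ 2 := Nat.one_le_pow _ _ hN0
      omega
    unfold tcol beta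
    simp only [e1, e2, e3, Col.mk.injEq]
    refine ⟨rfl, by simp; omega, ?_, ?_, ?_⟩
    · unfold tph
      rw [if_neg (by omega), if_neg (by omega)]
    · have hacc' : (X.tcfg w y t).q = X.M.acc := hacc
      rw [X.tcfg_acc hacc' (show t ≤ N - 1 by omega)]
      exact hacc
    · funext k
      rw [List.getElem?_eq_none_iff]
      have := hlen (N - 1) k
      omega
  · intro o x hx
    right
    have hcls : ∀ x, (X.tcol N w y x).cls = ⟨x % 5, Nat.mod_lt _ (by norm_num)⟩ := fun _ => rfl
    have hseam : ∀ x, (X.tcol N w y x).seam = decide (x % N = 0) := fun _ => rfl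
    have hph : ∀ x, (X.tcol N w y x).ph = tph w (x / N) (x % N) := fun _ => rfl
    have hctrl : ∀ x, (X.tcol N w y x).ctrl = (X.tcfg w y (x / N)).q := fun _ => rfl
    have hsym : ∀ x k, (X.tcol N w y x).sym k = ((X.tcfg w y (x / N)).stk k)[x % N]? :=
      fun _ _ => rfl
    have hdown : ∀ x, (x + N) / N = x / N + 1 ∧ (x + N) % N = x % N := fun x =>
      ⟨Nat.add_div_right x hN0, Nat.add_mod_right x N⟩
    fin_cases o
    · exact X.tcol_rel0 h7 (by omega) y hlen x
    · exact X.tcol_rel1 N w y x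
    · -- distance w
      show X.tcol N w y x = X.alpha → (X.tcol N w y (x + w)).ph = .hash
      intro h
      rw [halpha x h, hph, Nat.zero_add, Nat.div_eq_of_lt (by omega), Nat.mod_eq_of_lt (by omega)]
      unfold tph
      simp
    · -- distance v
      show X.tcol N w y x = X.alpha → (X.tcol N w y (x + v)).sym X.k₀ = none
      intro h
      rw [halpha x h, hsym, Nat.zero_add, Nat.div_eq_of_lt (by omega), Nat.mod_eq_of_lt (by omega)]
      show ((X.cfg0 w y).stk X.k₀)[v]? = none
      rw [hk0, List.getElem?_eq_none_iff]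
      simp
      omega
    · exact X.tcol_rel4 hN0 w y x
    · exact X.tcol_rel5 hN0 w y x
    · exact X.tcol_rel6 hN0 w y x

end Tab

end Pool.Agent.Helper92.OS
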