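import Pool.Agent.Helper92.OS.Rigid
import Pool.Agent.Helper92.OS.Build
import Pool.Agent.Helper92.OS.FormEval
import Pool.Agent.Helper92.OS.Spar
import Pool.Agent.Helper92.OS.Run
import Pool.Agent.Helper92.OS.Table
import Pool.Agent.Helper92.OS.FinMach

/-!
# The reduction: computations of Turing machines as schedules
-/

namespace Pool.Agent.Helper92.OS

theorem SPar.core_iff_coloring (q : SPar) (hq : q.Good) (N w v : ℕ) (h7 : 7 ≤ N) (hw : 1 ≤ w)
    (hwv : w < v) (hv : v < N) :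
    (∃ t, (q.par N w v).Core t) ↔ ∃ τ, (q.par N w v).Coloring τ :=
  ⟨fun ⟨t, ht⟩ => (q.par N w v).fwd (q.par_good hq N w v h7 hw hwv hv) t ht,
    fun ⟨τ, hτ⟩ => (q.par N w v).bwd (q.par_good hq N w v h7 hw hwv hv) τ hτ⟩

theorem reduction (V : Turing.FinTM2) (hfin : ∀ k, Finite (V.Γ k)) (one hash : V.Γ V.k₀)
    (yes : V.Γ V.k₁) : ∃ (q : SPar) (c : ℕ), q.Good ∧ ∀ N w v : ℕ, N % 5 = 2 → 7 ≤ N → 1 ≤ w →
      w < v → v < N → ∀ (ans : List (V.Γ V.k₀) → V.Γ V.k₁) (t : ℕ), v + c * (t + 1) < N →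
      (∀ y : List (V.Γ V.k₀), y.length + w + 1 ≤ v →
        Nonempty (Turing.TM2OutputsInTime V (List.replicate w one ++ hash :: y)
          (some [ans y]) t)) →
      ((∃ t, (q.par N w v).Core t) ↔ ∃ y, y.length + w + 1 ≤ v ∧ ans y = yes) := by
  obtain ⟨Q, hQ, M, c, hM⟩ := exists_mach V hfin yes
  have : Finite V.K := @Finite.of_fintype _ V.kFin
  have := hfin
  let X : Tab Q V.K V.Γ := ⟨M, V.k₀, one, hash⟩
  refine ⟨X.spar, c, X.spar_good, ?_⟩
  intro N w v h5 h7 hw hwv hv ans t ht hans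
  rw [X.spar.core_iff_coloring X.spar_good N w v h7 hw hwv hv, X.coloring_iff N w v]
  constructor
  · rintro ⟨τ, hτ⟩
    obtain ⟨y, hy, hacc⟩ := X.valid_run N w v h5 h7 hw hwv hv τ hτ
    refine ⟨y, hy, ?_⟩
    by_contra hne
    exact (hM _ _ _ (hans y hy)).2 hne _ hacc
  · rintro ⟨y, hy, hyes⟩
    obtain ⟨t', ht', hacc⟩ := (hM _ _ _ (hans y hy)).1 hyes
    exact X.run_valid N w v h5 h7 hw hwv hv y hy t' (by omega) hacc

end Pool.Agent.Helper92.OS
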