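import Pool.Agent.Helper92.OS.Arith

/-!
# The route of a machine (module `Route` of the open shop project)
-/

namespace Pool.Agent.Helper92.OS

/-! ### Rotations -/

theorem route_rot_zero {T : ℕ} (τ : Fin T) : rot τ 0 = τ :=
  Fin.ext (by simp [rot, Nat.mod_eq_of_lt τ.isLt])

theorem route_rot_T {T : ℕ} (τ : Fin T) : rot τ T = τ :=
  Fin.ext (by simp [rot, Nat.mod_eq_of_lt τ.isLt])

theorem route_rot_rot {T : ℕ} (τ : Fin T) (k l : ℕ) : rot (rot τ k) l = rot τ (k + l) :=
  Fin.ext (by simp [rot, Nat.add_assoc])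

theorem route_rot_inj {T : ℕ} (i j : Fin T) (k : ℕ) (h : rot i k = rot j k) : i = j := by
  have h1 : ((i : ℕ) + k) % T = ((j : ℕ) + k) % T := congrArg Fin.val h
  have h2 : (i : ℕ) ≡ (j : ℕ) [MOD T] := Nat.ModEq.add_right_cancel' k h1
  exact Fin.ext (Nat.ModEq.eq_of_lt_of_lt h2 i.isLt j.isLt)

theorem route_rot_ne {T : ℕ} (τ : Fin T) (k : ℕ) (h0 : 0 < k) (hk : k < T) : rot τ k ≠ τ := by
  intro h
  have h1 : ((τ : ℕ) + k) % T = τ := congrArg Fin.val h
  have h3 : (τ : ℕ) + k ≡ (τ : ℕ) + 0 [MOD T] := by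
    unfold Nat.ModEq
    rw [h1, Nat.add_zero, Nat.mod_eq_of_lt τ.isLt]
  have h4 : k ≡ 0 [MOD T] := Nat.ModEq.add_left_cancel' _ h3
  have h5 := Nat.ModEq.eq_of_lt_of_lt h4 hk (by omega)
  omega

/-! ### Successors in a finite linear order -/

theorem route_exists_next {J : Type} [Fintype J] (x : J → ℕ) (a : J) (h : ∃ b, x a < x b) :
    ∃ b, IsNext x a b := by
  classical
  obtain ⟨b, hb⟩ := h
  obtain ⟨c, hc, hmin⟩ := (Finset.univ.filter (fun b => x a < x b)).exists_min_image x
    ⟨b, by simp [hb]⟩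
  simp only [Finset.mem_filter, Finset.mem_univ, true_and] at hc hmin
  exact ⟨c, hc, fun d hd => absurd (hmin d hd.1) (by omega)⟩

theorem route_exists_prev {J : Type} [Fintype J] (x : J → ℕ) (a : J) (h : ∃ b, x b < x a) :
    ∃ b, IsNext x b a := by
  classical
  obtain ⟨b, hb⟩ := h
  obtain ⟨c, hc, hmax⟩ := (Finset.univ.filter (fun b => x b < x a)).exists_max_image x
    ⟨b, by simp [hb]⟩
  simp only [Finset.mem_filter, Finset.mem_univ, true_and] at hc hmax
  exact ⟨c, hc, fun d hd => absurd (hmax d hd.2) (by omega)⟩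

theorem route_next_unique {J : Type} (x : J → ℕ) (hinj : Function.Injective x) {a b c : J}
    (h1 : IsNext x a b) (h2 : IsNext x a c) : b = c := by
  apply hinj
  have h3 := h1.2 c
  have h4 := h2.2 b
  have := h1.1
  have := h2.1
  omega

theorem route_prev_unique {J : Type} (x : J → ℕ) (hinj : Function.Injective x) {a b c : J}
    (h1 : IsNext x a c) (h2 : IsNext x b c) : a = b := by
  apply hinj
  have h3 := h1.2 b
  have h4 := h2.2 a
  have := h1.1
  have := h2.1
  omega

/-- Disjoint long gaps. -/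
theorem route_gaps {J : Type} [DecidableEq J] (x : J → ℕ) (hinj : Function.Injective x) (C M : ℕ)
    (hb : ∀ a, x a + 1 ≤ C) (A : Finset J) (y : J → J) (hA : ∀ a ∈ A, IsNext x a (y a))
    (hM : ∀ a ∈ A, x a + M ≤ x (y a)) : A.card * M ≤ C - 1 := by
  have hdis : (A : Set J).PairwiseDisjoint (fun a => Finset.Ico (x a) (x (y a))) := by
    intro a ha b hb' hab
    rw [Function.onFun, Finset.disjoint_left]
    intro z hz hz'
    rw [Finset.mem_Ico] at hz hz'
    have h1 := (hA a ha).2 b
    have h2 := (hA b hb').2 a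
    have h3 : x a ≠ x b := fun h => hab (hinj h)
    omega
  have h1 : ((A.biUnion fun a => Finset.Ico (x a) (x (y a))).card) =
      ∑ a ∈ A, (Finset.Ico (x a) (x (y a))).card := Finset.card_biUnion hdis
  have h2 : (A.biUnion fun a => Finset.Ico (x a) (x (y a))) ⊆ Finset.range (C - 1) := by
    intro z hz
    rw [Finset.mem_biUnion] at hz
    obtain ⟨a, ha, hz⟩ := hz
    rw [Finset.mem_Ico] at hz
    have := hb (y a)
    rw [Finset.mem_range]
    omega
  have h3 := Finset.card_le_card h2
  rw [h1, Finset.card_range] at h3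
  refine le_trans ?_ h3
  rw [← smul_eq_mul]
  refine Finset.card_nsmul_le_sum _ _ _ fun a ha => ?_
  rw [Nat.card_Ico]
  have := hM a ha
  omega

namespace Par

variable (p : Par)

theorem route_arc_V (hp : p.Good) (u : Fin p.G) (i : Fin p.T) (b : Job p.G p.T)
    (h : p.off (.V u i) b ≤ p.C) :
    (b = .V u (rot i 1) ∧ p.off (.V u i) b = p.L) ∨
    (∃ u' : Fin p.G, (u : ℕ) + 1 = u' ∧ b = .V u' (rot i 1) ∧
      p.off (.V u i) b = p.e u' (rot i 1) - (p.e u (rot i 1) + p.L * (p.T - 1))) ∨
    ((u : ℕ) + 1 = p.G ∧ ((rot i 1 ≠ p.al ∧ rot i 1 ≠ p.be ∧ b = .Z ∧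
        p.off (.V u i) b = p.D - (p.e u (rot i 1) + p.L * (p.T - 1))) ∨
      (rot i 1 = p.al ∧ b = .P ∧
        p.off (.V u i) b = p.D - (p.e u (rot i 1) + p.L * (p.T - 1) + p.L)) ∨
      (rot i 1 = p.be ∧ b = .Q ∧
        p.off (.V u i) b = p.D - (p.e u (rot i 1) + p.L * (p.T - 1) + p.L)))) := by
  cases b with
  | S => simp [off] at h
  | Z =>
    right; right
    by_cases hc : (u : ℕ) + 1 = p.G ∧ rot i 1 ≠ p.al ∧ rot i 1 ≠ p.be
    · exact ⟨hc.1, Or.inl ⟨hc.2.1, hc.2.2, rfl, by simp only [off, if_pos hc]⟩⟩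
    · simp only [off, if_neg hc] at h; omega
  | P =>
    right; right
    by_cases hc : (u : ℕ) + 1 = p.G ∧ rot i 1 = p.al
    · exact ⟨hc.1, Or.inr (Or.inl ⟨hc.2, rfl, by simp only [off, if_pos hc]⟩)⟩
    · simp only [off, if_neg hc] at h; omega
  | Q =>
    right; right
    by_cases hc : (u : ℕ) + 1 = p.G ∧ rot i 1 = p.be
    · exact ⟨hc.1, Or.inr (Or.inr ⟨hc.2, rfl, by simp only [off, if_pos hc]⟩)⟩
    · simp only [off, if_neg hc] at h; omega
  | V u' j =>
    by_cases hj : j = rot i 1
    · subst hj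
      by_cases hu : u = u'
      · subst hu
        left
        exact ⟨rfl, by simp [off]⟩
      · by_cases hu' : (u : ℕ) + 1 = u'
        · right; left
          exact ⟨u', hu', rfl, by simp [off, hu, hu']⟩
        · simp [off, hu, hu'] at h
    · simp [off, hj] at h

theorem route_arc_S (b : Job p.G p.T) (h : p.off .S b ≤ p.C) :
    ∃ (u : Fin p.G) (j : Fin p.T), (u : ℕ) = 0 ∧ b = .V u j ∧ p.off .S b = p.e u j := by
  cases b with
  | S => simp [off] at h
  | Z => simp [off] at h
  | P => simp [off] at h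
  | Q => simp [off] at h
  | V u j =>
    by_cases hu : (u : ℕ) = 0
    · exact ⟨u, j, hu, rfl, by simp [off, hu]⟩
    · simp [off, hu] at h

theorem route_arc_P (b : Job p.G p.T) (h : p.off .P b ≤ p.C) :
    b = .S ∨ (b = .Z ∧ p.off .P b = p.L) := by
  cases b with
  | S => exact Or.inl rfl
  | Z => exact Or.inr ⟨rfl, by simp [off]⟩
  | P => simp [off] at h
  | Q => simp [off] at h
  | V u j => simp [off] at h

theorem route_arc_Z (b : Job p.G p.T) (h : p.off .Z b ≤ p.C) :
    b = .Q ∧ p.off .Z b = 1 := by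
  cases b with
  | S => simp [off] at h
  | Z => simp [off] at h
  | P => simp [off] at h
  | Q => exact ⟨rfl, by simp [off]⟩
  | V u j => simp [off] at h

theorem route_arc_Q (b : Job p.G p.T) (h : p.off .Q b ≤ p.C) :
    b = .Z ∧ p.off .Q b = p.L := by
  cases b with
  | S => simp [off] at h
  | Z => exact ⟨rfl, by simp [off]⟩
  | P => simp [off] at h
  | Q => simp [off] at h
  | V u j => simp [off] at h

theorem route (p : Par) (hp : p.Good) (x : Job p.G p.T → ℕ) (hinj : Function.Injective x)
    (hset : ∀ a b, IsNext x a b → x a + p.off a b ≤ x b) (hb : ∀ a, x a + 1 ≤ p.C) :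
    ∃ τ : Fin p.T, x .S + p.D ≤ x .Z ∧
      (∀ (u : Fin p.G) (k : ℕ), k < p.T → x .S + p.e u τ + p.L * k ≤ x (.V u (rot τ k)) ∧
        x (.V u (rot τ k)) + (p.D - (p.e u τ + p.L * k)) ≤ x .Z) ∧
      (τ ≠ p.al → 1 ≤ x .S) ∧ (τ ≠ p.be → x .Z + 1 ≤ x .Q) := by
  have hT := hp.hT
  have hG := hp.hG
  have harc : ∀ a b, IsNext x a b → p.off a b ≤ p.C := fun a b h => by
    have h1 := hset a b h
    have h2 := hb b
    omega
  -- the last job is Z or Q
  have hsucc : ∀ a : Job p.G p.T, a ≠ .Z → a ≠ .Q → ∃ b, IsNext x a b := by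
    intro a haZ haQ
    by_contra hno
    have hlast : ∀ b, x b ≤ x a := fun b => by
      by_contra hlt
      exact hno (route_exists_next x a ⟨b, by omega⟩)
    have hZ : x .Z < x a := lt_of_le_of_ne (hlast _) fun h => haZ (hinj h).symm
    have hQ : x .Q < x a := lt_of_le_of_ne (hlast _) fun h => haQ (hinj h).symm
    obtain ⟨b, hb1⟩ := route_exists_next x .Z ⟨a, hZ⟩
    obtain ⟨c, hc1⟩ := route_exists_next x .Q ⟨a, hQ⟩
    obtain ⟨rfl, -⟩ := p.route_arc_Z b (harc _ _ hb1)
    obtain ⟨rfl, -⟩ := p.route_arc_Q c (harc _ _ hc1)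
    have := hb1.1
    have := hc1.1
    omega
  have hV : ∀ (u : Fin p.G) (i : Fin p.T), ∃ b, IsNext x (.V u i) b := fun u i =>
    hsucc _ (by simp) (by simp)
  choose nv hnv using hV
  -- exits are long
  have hexit : ∀ (u : Fin p.G) (i : Fin p.T), nv u i ≠ .V u (rot i 1) →
      x (.V u i) + p.M1 ≤ x (nv u i) := by
    intro u i hne
    have h1 := hset _ _ (hnv u i)
    rcases p.route_arc_V hp u i _ (harc _ _ (hnv u i)) with h | ⟨u', hu', h2, h3⟩ | ⟨hu, h⟩
    · exact absurd h.1 hne
    · have h4 := p.e_step hp u u' hu' (rot i 1)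
      omega
    · have h4 := p.e_last hp u hu (rot i 1)
      rcases h with ⟨-, -, -, h3⟩ | ⟨-, -, h3⟩ | ⟨-, -, h3⟩ <;> omega
  -- the last vertex of every cluster
  have hmax : ∀ u : Fin p.G, ∃ i : Fin p.T, ∀ j, x (.V u j) ≤ x (.V u i) := fun u => by
    haveI : Nonempty (Fin p.T) := ⟨p.al⟩
    obtain ⟨i, hi⟩ := Finite.exists_max (fun j : Fin p.T => x (.V u j))
    exact ⟨i, hi⟩
  choose im him using hmax
  have himexit : ∀ u, nv u (im u) ≠ .V u (rot (im u) 1) := fun u h => by
    have h1 := (hnv u (im u)).1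
    rw [h] at h1
    have h2 := him u (rot (im u) 1)
    omega
  -- there are no other exits
  have hother : ∀ (u : Fin p.G) (i : Fin p.T), i ≠ im u → nv u i = .V u (rot i 1) := by
    intro u i hi
    by_contra hne
    let A : Finset (Job p.G p.T) :=
      insert (.V u i) (Finset.univ.image fun v : Fin p.G => Job.V v (im v))
    let y : Job p.G p.T → Job p.G p.T := fun a => match a with
      | .V v j => nv v j
      | _ => .S
    have hcard : A.card = p.G + 1 := by
      rw [Finset.card_insert_of_notMem, Finset.card_image_of_injective, Finset.card_univ,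
        Fintype.card_fin]
      · intro v v' h
        simpa using (Job.V.inj h).1
      · intro hmem
        rw [Finset.mem_image] at hmem
        obtain ⟨v, -, hv⟩ := hmem
        obtain ⟨h1, h2⟩ := Job.V.inj hv
        subst h1
        exact hi h2.symm
    have hmem : ∀ a ∈ A, ∃ v j, a = .V v j ∧ nv v j ≠ .V v (rot j 1) := by
      intro a ha
      rw [Finset.mem_insert] at ha
      rcases ha with rfl | ha
      · exact ⟨u, i, rfl, hne⟩
      · rw [Finset.mem_image] at ha
        obtain ⟨v, -, rfl⟩ := ha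
        exact ⟨v, im v, rfl, himexit v⟩
    have h1 := route_gaps x hinj p.C p.M1 hb A y
      (fun a ha => by
        obtain ⟨v, j, rfl, -⟩ := hmem a ha
        exact hnv v j)
      (fun a ha => by
        obtain ⟨v, j, rfl, h⟩ := hmem a ha
        exact hexit v j h)
    rw [hcard] at h1
    have h2 := p.C_le hp
    have h3 := hb .S
    omega
  -- entering a cluster
  have henter : ∀ (u : Fin p.G) (i : Fin p.T) (a : Job p.G p.T), IsNext x a (.V u i) →
      (∀ j, a ≠ .V u j) → i = rot (im u) 1 := by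
    intro u i a ha hne
    by_contra hi
    have h1 : rot (rot i (p.T - 1)) 1 = i := by
      rw [route_rot_rot, Nat.sub_add_cancel (by omega), route_rot_T]
    have h2 : rot i (p.T - 1) ≠ im u := fun h => hi (by rw [← h, h1])
    have h3 := hother u _ h2
    rw [h1] at h3
    have h4 := hnv u (rot i (p.T - 1))
    rw [h3] at h4
    exact hne _ (route_prev_unique x hinj ha h4)
  -- the colour
  set u0 : Fin p.G := ⟨0, hG⟩ with hu0
  obtain ⟨τ, hτ⟩ : ∃ τ : Fin p.T, rot (im u0) 1 = τ := ⟨_, rfl⟩
  have hstep : ∀ u u' : Fin p.G, (u : ℕ) + 1 = u' → nv u (im u) = .V u' (rot (im u) 1) := by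
    intro u u' hu
    rcases p.route_arc_V hp u (im u) _ (harc _ _ (hnv u (im u))) with
      h | ⟨u'', hu'', h2, -⟩ | ⟨h, -⟩
    · exact absurd h.1 (himexit u)
    · have : u'' = u' := Fin.ext (by omega)
      rw [h2, this]
    · have := u'.isLt
      omega
  have hcol : ∀ (n : ℕ) (u : Fin p.G), (u : ℕ) = n → rot (im u) 1 = τ := by
    intro n
    induction n with
    | zero =>
      intro u hu
      have : u = u0 := Fin.ext (by rw [hu])
      rw [this]
      exact hτ
    | succ n ih =>
      intro u hu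
      have hlt : n < p.G := by have := u.isLt; omega
      have h1 := ih ⟨n, hlt⟩ rfl
      have h2 := hstep ⟨n, hlt⟩ u (by simp [hu])
      have h3 := hnv ⟨n, hlt⟩ (im ⟨n, hlt⟩)
      rw [h2, h1] at h3
      exact (henter u τ _ h3 fun j h => by
        have := congrArg (fun a : Job p.G p.T => match a with
          | .V v _ => (v : ℕ)
          | _ => 0) h
        simp at this
        omega).symm
  have him1 : ∀ u, rot (im u) 1 = τ := fun u => hcol u u rfl
  have him2 : ∀ u, im u = rot τ (p.T - 1) := fun u => by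
    apply route_rot_inj _ _ 1
    rw [him1, route_rot_rot, Nat.sub_add_cancel (by omega), route_rot_T]
  -- S is followed by the first cluster
  have hS : x .S + p.e u0 τ ≤ x (.V u0 τ) := by
    obtain ⟨b, hb1⟩ := hsucc .S (by simp) (by simp)
    obtain ⟨u, j, hu, rfl, h3⟩ := p.route_arc_S b (harc _ _ hb1)
    have h4 : u = u0 := Fin.ext (by rw [hu])
    subst h4
    have h5 := henter _ j .S hb1 (fun j => by simp)
    rw [him1] at h5
    subst h5
    have h6 := hset _ _ hb1
    rw [h3] at h6
    exact h6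
  -- inside a cluster
  have hin : ∀ (u : Fin p.G) (k : ℕ), k + 1 < p.T →
      x (.V u (rot τ k)) + p.L ≤ x (.V u (rot τ (k + 1))) := by
    intro u k hk
    have h1 : rot τ k ≠ im u := by
      intro h
      have h2 : rot (rot τ k) 1 = τ := by rw [h, him1]
      rw [route_rot_rot] at h2
      exact route_rot_ne τ (k + 1) (by omega) hk h2
    have h2 := hother u _ h1
    rw [route_rot_rot] at h2
    have h3 := hset _ _ (hnv u (rot τ k))
    rw [h2] at h3
    have h4 : p.off (.V u (rot τ k)) (.V u (rot τ (k + 1))) = p.L := by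
      simp [off, route_rot_rot]
    omega
  have hlow : ∀ (u : Fin p.G) (k : ℕ), k < p.T →
      x (.V u τ) + p.L * k ≤ x (.V u (rot τ k)) := by
    intro u k
    induction k with
    | zero => intro _; simp [route_rot_zero]
    | succ k ih =>
      intro hk
      have h1 := ih (by omega)
      have h2 := hin u k hk
      rw [Nat.mul_succ]
      omega
  have hup : ∀ (u : Fin p.G) (n k : ℕ), k + n + 1 = p.T →
      x (.V u (rot τ k)) + p.L * n ≤ x (.V u (rot τ (p.T - 1))) := by
    intro u n
    induction n with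
    | zero =>
      intro k hk
      have : k = p.T - 1 := by omega
      subst this
      simp
    | succ n ih =>
      intro k hk
      have h1 := ih (k + 1) (by omega)
      have h2 := hin u k (by omega)
      rw [Nat.mul_succ]
      omega
  -- between clusters
  have hbet : ∀ u u' : Fin p.G, (u : ℕ) + 1 = u' →
      x (.V u (rot τ (p.T - 1))) + (p.e u' τ - (p.e u τ + p.L * (p.T - 1))) ≤ x (.V u' τ) := by
    intro u u' hu
    have h1 := hnv u (im u)
    have h2 := hstep u u' hu
    rw [h2, him1, him2] at h1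
    have h3 := hset _ _ h1
    have hne : u ≠ u' := fun h => by
      have := congrArg Fin.val h
      omega
    have h4 : p.off (.V u (rot τ (p.T - 1))) (.V u' τ) =
        p.e u' τ - (p.e u τ + p.L * (p.T - 1)) := by
      have h5 : rot (rot τ (p.T - 1)) 1 = τ := by
        rw [route_rot_rot, Nat.sub_add_cancel (by omega), route_rot_T]
      simp [off, h5, hne, hu]
    omega
  have hlow0 : ∀ (n : ℕ) (u : Fin p.G), (u : ℕ) = n → x .S + p.e u τ ≤ x (.V u τ) := by
    intro n
    induction n with
    | zero =>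
      intro u hu
      have : u = u0 := Fin.ext (by rw [hu])
      rw [this]
      exact hS
    | succ n ih =>
      intro u hu
      have hlt : n < p.G := by have := u.isLt; omega
      have h1 := ih ⟨n, hlt⟩ rfl
      have h2 := hbet ⟨n, hlt⟩ u (by simp [hu])
      have h3 := hlow ⟨n, hlt⟩ (p.T - 1) (by omega)
      have h4 := p.e_step hp ⟨n, hlt⟩ u (by simp [hu]) τ
      omega
  -- the last cluster
  set ul : Fin p.G := ⟨p.G - 1, by omega⟩ with hul
  have hulG : (ul : ℕ) + 1 = p.G := by simp [hul]; omega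
  have hDl := p.e_last hp ul hulG τ
  have hrotl : rot (rot τ (p.T - 1)) 1 = τ := by
    rw [route_rot_rot, Nat.sub_add_cancel (by omega), route_rot_T]
  have hchain : x .S < x (.V ul (rot τ (p.T - 1))) := by
    have h1 := hlow0 _ ul rfl
    have h2 := hlow ul (p.T - 1) (by omega)
    have h3 : 0 < p.e ul τ := by unfold e; omega
    omega
  have hlastnext := hnv ul (rot τ (p.T - 1))
  have hlastset := hset _ _ hlastnext
  have hlastarc := p.route_arc_V hp ul (rot τ (p.T - 1)) _ (harc _ _ hlastnext)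
  rw [hrotl] at hlastarc
  have hlastcases : (τ ≠ p.al ∧ τ ≠ p.be ∧ nv ul (rot τ (p.T - 1)) = .Z ∧
        p.off (.V ul (rot τ (p.T - 1))) (nv ul (rot τ (p.T - 1))) =
          p.D - (p.e ul τ + p.L * (p.T - 1))) ∨
      (τ = p.al ∧ nv ul (rot τ (p.T - 1)) = .P ∧
        p.off (.V ul (rot τ (p.T - 1))) (nv ul (rot τ (p.T - 1))) =
          p.D - (p.e ul τ + p.L * (p.T - 1) + p.L)) ∨
      (τ = p.be ∧ nv ul (rot τ (p.T - 1)) = .Q ∧
        p.off (.V ul (rot τ (p.T - 1))) (nv ul (rot τ (p.T - 1))) =
          p.D - (p.e ul τ + p.L * (p.T - 1) + p.L)) := by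
    rcases hlastarc with h | ⟨u', hu', -⟩ | h
    · have h1 := himexit ul
      rw [him2, hrotl] at h1
      exact absurd h.1 h1
    · have := u'.isLt
      omega
    · exact h.2
  -- the predecessor of Z when the colour is not `be`, and the bound for Z
  have hZ : x (.V ul (rot τ (p.T - 1))) + (p.D - (p.e ul τ + p.L * (p.T - 1))) ≤ x .Z ∧
      (τ ≠ p.be → ¬ IsNext x .Q .Z) := by
    rcases hlastcases with ⟨-, -, h1, h2⟩ | ⟨-, h1, h2⟩ | ⟨hbe, h1, h2⟩
    · rw [h1] at hlastset h2 hlastnext
      refine ⟨by omega, fun _ h => ?_⟩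
      have := route_prev_unique x hinj h hlastnext
      simp at this
    · rw [h1] at hlastset h2 hlastnext
      obtain ⟨b, hb1⟩ := hsucc .P (by simp) (by simp)
      rcases p.route_arc_P b (harc _ _ hb1) with rfl | ⟨rfl, h3⟩
      · have h4 := hb1.1
        have h5 := hlastnext.1
        omega
      · have h4 := hset _ _ hb1
        refine ⟨by omega, fun _ h => ?_⟩
        have := route_prev_unique x hinj h hb1
        simp at this
    · rw [h1] at hlastset h2 hlastnext
      refine ⟨?_, fun h => absurd hbe h⟩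
      have hQn : ∃ b, IsNext x .Q b := by
        by_contra hno
        have hlast : x .Z < x .Q := by
          by_contra hlt
          refine hno (route_exists_next x .Q ⟨.Z, ?_⟩)
          refine lt_of_le_of_ne (by omega) fun h => ?_
          have := hinj h
          simp at this
        obtain ⟨b, hb1⟩ := route_exists_next x .Z ⟨.Q, hlast⟩
        obtain ⟨rfl, -⟩ := p.route_arc_Z b (harc _ _ hb1)
        have := route_prev_unique x hinj hb1 hlastnext
        simp at this
      obtain ⟨b, hb1⟩ := hQn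
      obtain ⟨rfl, h3⟩ := p.route_arc_Q b (harc _ _ hb1)
      have h4 := hset _ _ hb1
      omega
  have hZall : ∀ (n : ℕ) (u : Fin p.G), (u : ℕ) + n + 1 = p.G →
      x (.V u (rot τ (p.T - 1))) + (p.D - (p.e u τ + p.L * (p.T - 1))) ≤ x .Z := by
    intro n
    induction n with
    | zero =>
      intro u hu
      have : u = ul := Fin.ext (by simp [hul]; omega)
      rw [this]
      exact hZ.1
    | succ n ih =>
      intro u hu
      have hlt : (u : ℕ) + 1 < p.G := by omega
      have h1 := ih ⟨(u : ℕ) + 1, hlt⟩ (by simp; omega)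
      have h2 := hbet u ⟨(u : ℕ) + 1, hlt⟩ rfl
      have h3 := hlow ⟨(u : ℕ) + 1, hlt⟩ (p.T - 1) (by omega)
      have h4 := p.e_step hp u ⟨(u : ℕ) + 1, hlt⟩ rfl τ
      have h5 := p.e_le_D hp ⟨(u : ℕ) + 1, hlt⟩ τ
      have h6 := p.e_le_D hp u τ
      omega
  -- exits to P and Q
  have hexP : ∀ (u : Fin p.G) (i : Fin p.T), IsNext x (.V u i) .P → τ = p.al := by
    intro u i h
    have h1 := route_next_unique x hinj h (hnv u i)
    have h2 : i = im u := by
      by_contra hi
      rw [hother u i hi] at h1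
      simp at h1
    rcases p.route_arc_V hp u i _ (harc _ _ h) with h3 | ⟨u', -, h3, -⟩ | ⟨-, h3⟩
    · simp at h3
    · simp at h3
    · rcases h3 with ⟨-, -, h3, -⟩ | ⟨h3, -⟩ | ⟨-, h3, -⟩
      · simp at h3
      · rw [h2, him1] at h3
        exact h3
      · simp at h3
  have hexQ : ∀ (u : Fin p.G) (i : Fin p.T), IsNext x (.V u i) .Q → τ = p.be := by
    intro u i h
    have h1 := route_next_unique x hinj h (hnv u i)
    have h2 : i = im u := by
      by_contra hi
      rw [hother u i hi] at h1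
      simp at h1
    rcases p.route_arc_V hp u i _ (harc _ _ h) with h3 | ⟨u', -, h3, -⟩ | ⟨-, h3⟩
    · simp at h3
    · simp at h3
    · rcases h3 with ⟨-, -, h3, -⟩ | ⟨-, h3, -⟩ | ⟨h3, -⟩
      · simp at h3
      · simp at h3
      · rw [h2, him1] at h3
        exact h3
  refine ⟨τ, ?_, ?_, ?_, ?_⟩
  · have h1 := hlow0 _ ul rfl
    have h2 := hlow ul (p.T - 1) (by omega)
    have h3 := hZ.1
    omega
  · intro u k hk
    have h1 := hlow0 _ u rfl
    have h2 := hlow u k hk
    have h3 := hup u (p.T - 1 - k) k (by omega)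
    have h4 := hZall (p.G - 1 - u) u (by have := u.isLt; omega)
    have h5 : p.L * (p.T - 1) = p.L * k + p.L * (p.T - 1 - k) := by
      rw [← Nat.mul_add]
      congr 1
      omega
    have h6 := p.e_le_D hp u τ
    refine ⟨by omega, by omega⟩
  · intro hal
    by_contra hlt
    have hS0 : x .S = 0 := by omega
    have hP : x .S < x .P := by
      refine lt_of_le_of_ne (by omega) fun h => ?_
      have := hinj h
      simp at this
    obtain ⟨a, ha⟩ := route_exists_prev x .P ⟨.S, hP⟩
    have harca := harc _ _ ha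
    cases a with
    | S => simp [off] at harca
    | Z => simp [off] at harca
    | P => simp [off] at harca
    | Q => simp [off] at harca
    | V u i => exact hal (hexP u i ha)
  · intro hbe
    have hQlast : x .Z < x .Q := by
      by_contra hlt
      have h1 : x .Q < x .Z := by
        refine lt_of_le_of_ne (by omega) fun h => ?_
        have := hinj h
        simp at this
      obtain ⟨b, hb1⟩ := route_exists_next x .Q ⟨.Z, h1⟩
      obtain ⟨rfl, -⟩ := p.route_arc_Q b (harc _ _ hb1)
      exact hZ.2 hbe hb1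
    omega

end Par

end Pool.Agent.Helper92.OS
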