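import Pool.Agent.Helper92.OS.Core
import Pool.Agent.Helper92.OS.Arith
import Pool.Agent.Helper92.OS.Route

/-! # Module Rigid: from a core schedule to a coloring -/

namespace Pool.Agent.Helper92.OS

namespace Par

theorem rigid_rot0 {T : ℕ} (τ : Fin T) : rot τ 0 = τ := by
  apply Fin.ext
  show ((τ : ℕ) + 0) % T = τ
  rw [add_zero, Nat.mod_eq_of_lt τ.2]

/-- two injections `a ≤ z` of `Fin m` into itself are equal. -/
theorem rigid_eq {m : ℕ} (a z : Fin m → Fin m) (ha : Function.Injective a)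
    (hz : Function.Injective z) (h : ∀ i, (a i : ℕ) ≤ z i) (i : Fin m) : (a i : ℕ) = z i := by
  have ha' := Finite.injective_iff_bijective.1 ha
  have hz' := Finite.injective_iff_bijective.1 hz
  have h1 : ∑ i, ((a i : Fin m) : ℕ) = ∑ i : Fin m, (i : ℕ) :=
    Function.Bijective.sum_comp ha' (fun i : Fin m => (i : ℕ))
  have h2 : ∑ i, ((z i : Fin m) : ℕ) = ∑ i : Fin m, (i : ℕ) :=
    Function.Bijective.sum_comp hz' (fun i : Fin m => (i : ℕ))
  exact (Finset.sum_eq_sum_iff_of_le (fun i _ => h i)).1 (h1.trans h2.symm) i (Finset.mem_univ _)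

theorem fwd (p : Par) (hp : p.Good) (t : Fin p.m → Job p.G p.T → ℕ) (ht : p.Core t) :
    ∃ τ : ℕ → Fin p.T, p.Coloring τ := by
  have hr : ∀ i, ∃ τ : Fin p.T, t i .S + p.D ≤ t i .Z ∧
      (∀ (u : Fin p.G) (k : ℕ), k < p.T → t i .S + p.e u τ + p.L * k ≤ t i (.V u (rot τ k)) ∧
        t i (.V u (rot τ k)) + (p.D - (p.e u τ + p.L * k)) ≤ t i .Z) ∧
      (τ ≠ p.al → 1 ≤ t i .S) ∧ (τ ≠ p.be → t i .Z + 1 ≤ t i .Q) :=
    fun i => route p hp (t i) (ht.machine i) (ht.setup i) (ht.bound i)
  choose σ h1 h2 h3 h4 using hr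
  have hC : p.C = p.D + p.m := rfl
  have hz : ∀ i, t i .Z < p.D + p.m := by
    intro i
    have := ht.bound i .Z
    omega
  have ha : ∀ i, t i .S < p.m := by
    intro i
    have := hz i
    have := h1 i
    omega
  let a : Fin p.m → Fin p.m := fun i => ⟨t i .S, ha i⟩
  let z : Fin p.m → Fin p.m := fun i => ⟨t i .Z - p.D, by
    have := hz i
    have := h1 i
    omega⟩
  have hainj : Function.Injective a := by
    intro i j hij
    exact ht.job .S (congrArg Fin.val hij)
  have hzinj : Function.Injective z := by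
    intro i j hij
    apply ht.job .Z
    have h5 : t i .Z - p.D = t j .Z - p.D := congrArg Fin.val hij
    have h6 := h1 i
    have h7 := h1 j
    show t i .Z = t j .Z
    omega
  have heq : ∀ i, t i .Z = t i .S + p.D := by
    intro i
    have h5 := rigid_eq a z hainj hzinj (fun i => by
      show t i .S ≤ t i .Z - p.D
      have := h1 i
      omega) i
    have h6 : t i .S = t i .Z - p.D := h5
    have h7 := h1 i
    omega
  have habij := Finite.injective_iff_bijective.1 hainj
  have hex : ∀ x : ℕ, x < p.m → ∃ i, t i .S = x := by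
    intro x hx
    obtain ⟨i, hi⟩ := habij.2 ⟨x, hx⟩
    exact ⟨i, congrArg Fin.val hi⟩
  have hval : ∀ i (u : Fin p.G) (k : ℕ), k < p.T →
      t i (.V u (rot (σ i) k)) = t i .S + p.e u (σ i) + p.L * k := by
    intro i u k hk
    obtain ⟨h5, h6⟩ := h2 i u k hk
    have h7 := e_le_D p hp u (σ i)
    have h8 : p.L * k ≤ p.L * (p.T - 1) := Nat.mul_le_mul_left _ (by omega)
    have h9 := heq i
    omega
  have hm : 0 < p.m := by
    have := hp.hd ⟨0, hp.hG⟩
    omega
  classical
  let τ : ℕ → Fin p.T := fun x => if h : ∃ i, t i .S = x then σ h.choose else p.al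
  have hτ : ∀ i, τ (t i .S) = σ i := by
    intro i
    have h : ∃ j, t j .S = t i .S := ⟨i, rfl⟩
    have h5 : τ (t i .S) = σ h.choose := dif_pos h
    rw [h5]
    congr 1
    exact ht.job .S h.choose_spec
  refine ⟨τ, ?_, ?_, ?_⟩
  · obtain ⟨i, hi⟩ := hex 0 hm
    rw [← hi, hτ]
    by_contra hne
    have := h3 i hne
    omega
  · obtain ⟨i, hi⟩ := hex (p.m - 1) (by omega)
    rw [← hi, hτ]
    by_contra hne
    have h5 := h4 i hne
    have h6 := ht.bound i .Q
    have h7 := heq i
    omega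
  · rintro u hu x hx ⟨hx1, hx2⟩
    obtain ⟨i, hi⟩ := hex x (by omega)
    obtain ⟨j, hj⟩ := hex (x + p.d u) hx
    rw [← hi, hτ] at hx1
    rw [← hj, hτ] at hx2
    have h5 := hval i u (p.s u) (s_lt p u)
    have h6 := hval j u 0 (lt_of_lt_of_le (by norm_num) hp.hT)
    rw [hx1, rot_s] at h5
    rw [hx2, rigid_rot0] at h6
    have h7 := collide p hp u hu x
    have h8 : t i (.V u (p.c' u)) = t j (.V u (p.c' u)) := by
      rw [h5, h6, hi, hj]
      exact h7
    have h9 := ht.job (.V u (p.c' u)) h8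
    rw [h9, hx2] at hx1
    exact hu hx1.symm

end Par

end Pool.Agent.Helper92.OS
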