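import Pool.Agent.Helper92.OS.Mach

/-! The shape of a valid coloring. -/

namespace Pool.Agent.Helper92.OS

namespace Tab

/-- what a valid coloring looks like -/
structure Shape {Q κ : Type} {Γ : κ → Type} [DecidableEq κ] (X : Tab Q κ Γ) (N w v : ℕ)
    (τ : ℕ → Col Q κ Γ) : Prop where
  rel0 : ∀ x, x + 1 < N ^ 2 → X.Rel 0 (τ x) (τ (x + 1))
  rel4 : ∀ x, x + (N - 1) < N ^ 2 → X.Rel 4 (τ x) (τ (x + (N - 1)))
  rel5 : ∀ x, x + N < N ^ 2 → X.Rel 5 (τ x) (τ (x + N))
  rel6 : ∀ x, x + (N + 1) < N ^ 2 → X.Rel 6 (τ x) (τ (x + (N + 1)))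
  ok : ∀ x, x < N ^ 2 → X.Ok (τ x)
  seam : ∀ x, x < N ^ 2 → ((τ x).seam = true ↔ x % N = 0)
  ph_one : ∀ x, x < w → (τ x).ph = .one
  ph_hash : (τ w).ph = .hash
  ph_rest : ∀ x, w < x → x < N → (τ x).ph = .rest
  blank : (τ v).sym X.k₀ = none

section ShapeProof

variable {Q κ : Type} {Γ : κ → Type} [DecidableEq κ] (X : Tab Q κ Γ)

private theorem shape_fin5 (a : Fin 5) : a + 1 ≠ a + 2 ∧ a ≠ a + 1 ∧ a ≠ a + 2 ∧ a ≠ a + 3 := by
  revert a; decide

/-- neighbouring cells have different colors -/
private theorem shape_ne {N w v : ℕ} (h7 : 7 ≤ N) {τ : ℕ → Col Q κ Γ} (h : X.Valid N w v τ)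
    (x : ℕ) (hx : x + 1 < N ^ 2) : τ x ≠ τ (x + 1) := by
  have hr0 : ∀ x, x + 1 < N ^ 2 → τ x = τ (x + 1) ∨ (τ (x + 1)).cls = (τ x).cls + 1 := by
    intro x hx
    rcases h.rel 0 x hx with h1 | h1
    · exact Or.inl h1
    · exact Or.inr h1.1
  have hr1 : ∀ x, x + 2 < N ^ 2 → τ x = τ (x + 2) ∨ (τ (x + 2)).cls = (τ x).cls + 2 := by
    intro x hx
    rcases h.rel 1 x hx with h1 | h1
    · exact Or.inl h1
    · exact Or.inr h1
  have hstep : ∀ x, x + 2 < N ^ 2 → (τ x = τ (x + 1) ↔ τ (x + 1) = τ (x + 2)) := by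
    intro x hx
    constructor
    · intro h1
      rcases hr0 (x + 1) hx with h2 | h2
      · exact h2
      · rcases hr1 x hx with h3 | h3
        · rw [← h1, h3]
        · exfalso
          rw [show x + 1 + 1 = x + 2 from rfl, h3, ← h1] at h2
          exact (shape_fin5 _).1 h2.symm
    · intro h1
      rcases hr0 x (by omega) with h2 | h2
      · exact h2
      · rcases hr1 x hx with h3 | h3
        · rw [h3, ← h1]
        · exfalso
          rw [← h1, h2] at h3
          exact (shape_fin5 _).1 h3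
  have hall : ∀ x, x + 1 < N ^ 2 → (τ x = τ (x + 1) ↔ τ 0 = τ 1) := by
    intro x
    induction x with
    | zero => intro _; exact Iff.rfl
    | succ x ih =>
      intro hx
      rw [← ih (by omega)]
      exact (hstep x hx).symm
  intro heq
  have h01 := (hall x hx).1 heq
  have hconst : ∀ y, y < N ^ 2 → τ y = τ 0 := by
    intro y
    induction y with
    | zero => intro _; rfl
    | succ y ih =>
      intro hy
      rw [← (hall y hy).2 h01]
      exact ih (by omega)
  have hN2 : 0 < N ^ 2 := by positivity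
  have h1 := hconst (N ^ 2 - 1) (by omega)
  rw [h.last, h.first] at h1
  have h2 := congrArg Col.seam h1
  simp [beta, alpha] at h2

end ShapeProof

theorem valid_shape {Q κ : Type} {Γ : κ → Type} [DecidableEq κ] (X : Tab Q κ Γ) (N w v : ℕ)
    (hN : N % 5 = 2) (h7 : 7 ≤ N) (hw : 1 ≤ w) (hwv : w < v) (hv : v < N) (τ : ℕ → Col Q κ Γ)
    (h : X.Valid N w v τ) : X.Shape N w v τ := by
  have hNN : N * 7 ≤ N ^ 2 := by nlinarith
  -- Rel 0 everywhere
  have rel0 : ∀ x, x + 1 < N ^ 2 → X.Rel 0 (τ x) (τ (x + 1)) := by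
    intro x hx
    rcases h.rel 0 x hx with h1 | h1
    · exact absurd h1 (shape_ne X h7 h x hx)
    · exact h1
  have hcls : ∀ x, x < N ^ 2 → ((τ x).cls : ℕ) = x % 5 := by
    intro x
    induction x with
    | zero => intro _; rw [h.first]; rfl
    | succ x ih =>
      intro hx
      have h1 : ((1 : Fin 5) : ℕ) = 1 := rfl
      rw [(rel0 x hx).1, Fin.val_add, ih (by omega), h1]
      omega
  have hne : ∀ x d, x + d < N ^ 2 → d % 5 ≠ 0 → τ x ≠ τ (x + d) := by
    intro x d hx hd h1
    have h2 := congrArg (fun c => (Col.cls c : ℕ)) h1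
    simp only [hcls x (by omega), hcls _ hx] at h2
    omega
  have rel4 : ∀ x, x + (N - 1) < N ^ 2 → X.Rel 4 (τ x) (τ (x + (N - 1))) := by
    intro x hx
    rcases h.rel 4 x hx with h1 | h1
    · exact absurd h1 (hne x (N - 1) hx (by omega))
    · exact h1
  have rel5 : ∀ x, x + N < N ^ 2 → X.Rel 5 (τ x) (τ (x + N)) := by
    intro x hx
    rcases h.rel 5 x hx with h1 | h1
    · exact absurd h1 (hne x N hx (by omega))
    · exact h1
  have rel6 : ∀ x, x + (N + 1) < N ^ 2 → X.Rel 6 (τ x) (τ (x + (N + 1))) := by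
    intro x hx
    rcases h.rel 6 x hx with h1 | h1
    · exact absurd h1 (hne x (N + 1) hx (by omega))
    · exact h1
  have ok : ∀ x, x < N ^ 2 → X.Ok (τ x) := by
    intro x hx
    rcases Nat.lt_or_ge (x + 1) (N ^ 2) with h1 | h1
    · exact (rel0 x h1).2.1
    · obtain ⟨y, rfl⟩ : ∃ y, x = y + 1 := ⟨x - 1, by omega⟩
      exact (rel0 y hx).2.2.1
  -- seams
  have hrow : ∀ x, x + 1 < N ^ 2 → (τ (x + 1)).seam = false → PhRow (τ x).ph (τ (x + 1)).ph :=
    fun x hx hs => ((rel0 x hx).2.2.2.1 hs).2.1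
  have hseam : ∀ x, x + 1 < N ^ 2 → (τ (x + 1)).seam = true → PhSeam (τ x).ph (τ (x + 1)).ph :=
    fun x hx hs => ((rel0 x hx).2.2.2.2 hs).1
  have hph0 : (τ 0).ph = .one := by rw [h.first]; rfl
  have hs0 : (τ 0).seam = true := by rw [h.first]; rfl
  have h5 := rel5 0 (by omega)
  rw [zero_add] at h5
  have hsN : (τ N).seam = true := by rw [h5.1, hs0]
  have hphN : (τ N).ph = .r1 := by
    have := h5.2.1
    rw [hph0] at this
    exact this
  have hrr : ∀ x₁, 0 < x₁ → (τ x₁).seam = true → ∀ x, x₁ ≤ x → x < N →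
      (τ x).ph = .r1 ∨ (τ x).ph = .r2 := by
    intro x₁ h0 hs x hx
    induction x, hx using Nat.le_induction with
    | base =>
      intro hN1
      obtain ⟨y, rfl⟩ : ∃ y, x₁ = y + 1 := ⟨x₁ - 1, by omega⟩
      have h1 := hseam y (by omega) hs
      revert h1
      cases (τ y).ph <;> intro h1
      · exact absurd h1 (by simp [PhSeam])
      · exact absurd h1 (by simp [PhSeam])
      · exact Or.inl h1
      · exact Or.inr h1
      · exact Or.inr h1
    | succ x hx ih =>
      intro hN1
      have h1 := ih (by omega)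
      cases hs1 : (τ (x + 1)).seam
      · have h2 := hrow x (by omega) hs1
        rcases h1 with h1 | h1
        · rw [h1] at h2; exact Or.inl h2
        · rw [h1] at h2; exact Or.inr h2
      · have h2 := hseam x (by omega) hs1
        rcases h1 with h1 | h1
        · rw [h1] at h2; exact Or.inr h2
        · rw [h1] at h2; exact Or.inr h2
  have hnos : ∀ x₁, 0 < x₁ → x₁ < N → (τ x₁).seam = false := by
    intro x₁ h0 h1
    by_contra hcon
    rw [Bool.not_eq_false] at hcon
    have h2 := hrr x₁ h0 hcon (N - 1) (by omega) (by omega)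
    have h3 := hseam (N - 1) (by omega) (by rw [Nat.sub_add_cancel (by omega)]; exact hsN)
    rw [Nat.sub_add_cancel (by omega), hphN] at h3
    rcases h2 with h2 | h2 <;> rw [h2] at h3 <;> exact absurd h3 (by simp [PhSeam])
  have seam : ∀ x, x < N ^ 2 → ((τ x).seam = true ↔ x % N = 0) := by
    intro x
    induction x using Nat.strong_induction_on with
    | _ x ih =>
      intro hx
      rcases Nat.lt_or_ge x N with h1 | h1
      · rw [Nat.mod_eq_of_lt h1]
        rcases Nat.eq_zero_or_pos x with h2 | h2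
        · subst h2
          simp [hs0]
        · rw [hnos x h2 h1]
          simp
          omega
      · obtain ⟨y, rfl⟩ : ∃ y, x = y + N := ⟨x - N, by omega⟩
        rw [(rel5 y hx).1, Nat.add_mod_right]
        exact ih y (by omega) (by omega)
  -- the first row
  have hstep : ∀ x, x + 1 < N → PhRow (τ x).ph (τ (x + 1)).ph := fun x hx =>
    hrow x (by omega) (hnos (x + 1) (by omega) hx)
  have hαw : ∀ y, 0 < y → y < N → τ 0 ≠ τ y := by
    intro y h0 h1 h2
    have h3 := congrArg Col.seam h2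
    rw [hs0, hnos y h0 h1] at h3
    exact absurd h3 (by simp)
  have ph_hash : (τ w).ph = .hash := by
    rcases h.rel 2 0 (by change 0 + w < N ^ 2; omega) with h1 | h1
    · exact absurd h1 (by change τ 0 ≠ τ (0 + w); rw [zero_add]; exact hαw w (by omega) (by omega))
    · have h2 := h1 h.first
      change (τ (0 + w)).ph = .hash at h2
      rwa [zero_add] at h2
  have blank : (τ v).sym X.k₀ = none := by
    rcases h.rel 3 0 (by change 0 + v < N ^ 2; omega) with h1 | h1
    · exact absurd h1 (by change τ 0 ≠ τ (0 + v); rw [zero_add]; exact hαw v (by omega) (by omega))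
    · have h2 := h1 h.first
      change (τ (0 + v)).sym X.k₀ = none at h2
      rwa [zero_add] at h2
  have hrest : ∀ x, ((τ x).ph = .hash ∨ (τ x).ph = .rest) → ∀ y, x + 1 ≤ y → y < N →
      (τ y).ph = .rest := by
    intro x hx y hy
    induction y, hy using Nat.le_induction with
    | base =>
      intro h1
      have h2 := hstep x h1
      rcases hx with h3 | h3 <;> rw [h3] at h2 <;> exact h2
    | succ y hy ih =>
      intro h1
      have h2 := hstep y h1
      rw [ih (by omega)] at h2
      exact h2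
  have hph : ∀ x, x < N → (τ x).ph = .one ∨ (τ x).ph = .hash ∨ (τ x).ph = .rest := by
    intro x
    induction x with
    | zero => intro _; exact Or.inl hph0
    | succ x ih =>
      intro hx
      have h2 := hstep x hx
      rcases ih (by omega) with h1 | h1 | h1
      · rw [h1] at h2
        rcases h2 with h2 | h2
        · exact Or.inl h2
        · exact Or.inr (Or.inl h2)
      · rw [h1] at h2; exact Or.inr (Or.inr h2)
      · rw [h1] at h2; exact Or.inr (Or.inr h2)
  refine ⟨rel0, rel4, rel5, rel6, ok, seam, ?_, ph_hash, ?_, blank⟩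
  · intro x hx
    rcases hph x (by omega) with h1 | h1
    · exact h1
    · have h2 := hrest x h1 w (by omega) (by omega)
      rw [ph_hash] at h2
      exact absurd h2 (by simp)
  · intro x hx hxN
    exact hrest w (Or.inl ph_hash) x hx hxN

end Tab

end Pool.Agent.Helper92.OS
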