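import Pool.Agent.Helper92.OS.Diag
import Pool.Agent.Helper92.OS.Pre2

/-!
# Numbers in unary: the reduction from tally languages
-/

namespace Pool.Agent.Helper92.OS

open Pool.Agent.Helper62

theorem Tally.mono {M : Turing.FinTM2} {l : List (M.Γ M.k₀)} {o : List (M.Γ M.k₁)} {t t' : ℕ}
    (h : Nonempty (Turing.TM2OutputsInTime M l (some o) t)) (ht : t ≤ t') :
    Nonempty (Turing.TM2OutputsInTime M l (some o) t') := by
  obtain ⟨h⟩ := h
  exact ⟨⟨h.toEvalsTo, h.steps_le_m.trans ht⟩⟩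

theorem Tally.o1 (n c e k v : ℕ) (F : Form) (l : List Form) (hk : k = 4 * e * (n.size + 1) + 1)
    (hv : v = n + 1 + n ^ c + c) (hvk : v < 2 ^ k)
    (hF : F.Fits k n v) (hl : ∀ G ∈ l, G.Fits k n v) :
    ∃ r, ORuns (.seq (pre2 c e (template F l ++ [.H])) common)
      ⟨Reg.init, List.replicate n true, [], fun _ => []⟩
      ⟨r, [], [], stkO (l.flatMap (fun G => encNat (G.eval (2 ^ k) n v))).reverse
        (encNat (F.eval (2 ^ k) n v))⟩
      (1000 * (c + 2) * (n + n ^ c + c + 2) ^ 2 + 100 * ((template F l).length + 1) ^ 2 * (k + 2)) := by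
  obtain ⟨r1, h1⟩ := pre2_spec c e (template F l ++ [.H]) n Reg.init
  obtain ⟨hok, hsem⟩ := template_sem k n v F l hF hl
  have h0 : (semL k n v (template F l) ⟨0, [], []⟩).acc = 0 := by rw [hsem]
  have hwk : n.size ≤ k := Nat.size_le.2 (by omega)
  have hvs : v.size ≤ k := Nat.size_le.2 hvk
  obtain ⟨r2, h2⟩ := common_spec k n v (template F l) [] hwk hvs hok h0 r1
  rw [hsem] at h2
  refine ⟨r2, ?_⟩
  rw [List.append_nil] at h2
  rw [hk] at h2 ⊢
  rw [hv] at h2 ⊢
  exact (h1.seq h2).mono (by simp)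

theorem Tally.setup_le (q : SPar) (k w v : ℕ) (h : ∀ F ∈ q.forms, F.Fits k w v)
    (a b : Fin q.num) : (q.inst (2 ^ k) w v).setup a b ≤ (2 ^ k) ^ 3 := by
  have h0 : ∀ F ∈ q.forms, F.eval (2 ^ k) w v ≤ (2 ^ k) ^ 3 := by
    intro F hF
    have := Nat.size_le.1 (size_eval k w v F (h F hF))
    rw [← pow_mul, mul_comm k 3]
    exact this.le
  show (if a = b then 0 else (q.form (q.job a) (q.job b)).eval (2 ^ k) w v) ≤ _
  split_ifs with hab
  · exact Nat.zero_le _
  · apply h0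
    unfold SPar.forms
    refine List.mem_cons_of_mem _ (List.mem_cons_of_mem _ (List.mem_cons_of_mem _ ?_))
    refine List.mem_append_right _ ?_
    refine List.mem_flatMap.2 ⟨a, List.mem_finRange a, List.mem_map.2 ⟨b, List.mem_finRange b, ?_⟩⟩
    rw [if_neg hab]

theorem Tally.unarySize_le (q : SPar) (k w v : ℕ) (h : ∀ F ∈ q.forms, F.Fits k w v) :
    unarySize (q.inst (2 ^ k) w v) ≤
      q.forms.length * (3 * k + 1) + (2 ^ k) ^ 2 + q.num * (q.num * (2 ^ k) ^ 3) := by
  unfold unarySize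
  have h1 := Diag.enc_len q k w v h
  have h2 : (q.inst (2 ^ k) w v).m = (2 ^ k) ^ 2 := rfl
  have h3 : ∑ a : Fin (q.inst (2 ^ k) w v).g, ∑ b : Fin (q.inst (2 ^ k) w v).g,
      (q.inst (2 ^ k) w v).setup a b ≤ q.num * (q.num * (2 ^ k) ^ 3) := by
    have : ∀ a : Fin q.num, ∑ b : Fin q.num, (q.inst (2 ^ k) w v).setup a b ≤
        q.num * (2 ^ k) ^ 3 := by
      intro a
      calc ∑ b : Fin q.num, (q.inst (2 ^ k) w v).setup a b ≤ ∑ _b : Fin q.num, (2 ^ k) ^ 3 :=
            Finset.sum_le_sum (fun b _ => Tally.setup_le q k w v h a b)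
        _ = _ := by simp
    calc ∑ a : Fin q.num, ∑ b : Fin q.num, (q.inst (2 ^ k) w v).setup a b
        ≤ ∑ _a : Fin q.num, q.num * (2 ^ k) ^ 3 := Finset.sum_le_sum (fun a _ => this a)
      _ = _ := by simp
  rw [h2]
  exact Nat.add_le_add (Nat.add_le_add_right h1 _) h3

theorem tally (f h : ℕ → ℕ)
    (A : Algorithm (fun I => I.n = I.g) (fun I => f I.g * unarySize I ^ h I.g)) (V : Verifier) :
    TallyP V.lang := by
  obtain ⟨q, cR, hq, hR⟩ := reduction V.M V.fin V.one V.hash (V.out true)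
  obtain ⟨c, hc⟩ : ∃ c, c = V.c := ⟨_, rfl⟩
  obtain ⟨d₀, hd₀⟩ : ∃ d₀, d₀ = V.d := ⟨_, rfl⟩
  set P := (template q.formC q.forms).length with hP
  set Lf := q.forms.length with hLf
  set H := h q.num with hH
  set F₀ := f q.num with hF₀
  set M := Diag.coef (q.formC :: q.forms) with hM
  have p1 : PolyB (fun n => n + 1 + n ^ c + c) :=
    ((PolyB.id.add (PolyB.const 1)).add (PolyB.id.pow c)).add (PolyB.const c)
  have p2 : PolyB (fun n => 2 * M * ((n + 1 + n ^ c + c) + 1) +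
      ((n + 1 + n ^ c + c) + cR * ((n ^ d₀ + d₀) + 1)) + 7) :=
    (((PolyB.const (2 * M)).mul (p1.add (PolyB.const 1))).add (p1.add ((PolyB.const cR).mul
      (((PolyB.id.pow d₀).add (PolyB.const d₀)).add (PolyB.const 1))))).add (PolyB.const 7)
  obtain ⟨e, he⟩ := p2.lt_two_pow
  have he := he e le_rfl
  obtain ⟨B, hfin, inp, out, hout, cB, hB⟩ := wrap A
    (.seq (pre2 c e (template q.formC q.forms ++ [.H])) common) (post (fun b => !b))
  have pk : PolyB (fun n => 4 * e * (n.size + 1) + 1) :=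
    ((PolyB.const (4 * e)).mul (PolyB.size.add (PolyB.const 1))).add (PolyB.const 1)
  have pN : PolyB (fun n => 2 ^ (4 * e * (n.size + 1) + 1)) := PolyB.two_pow (4 * e) 1
  have pE : PolyB (fun n => Lf * (3 * (4 * e * (n.size + 1) + 1) + 1)) :=
    (PolyB.const Lf).mul (((PolyB.const 3).mul pk).add (PolyB.const 1))
  have pU : PolyB (fun n => Lf * (3 * (4 * e * (n.size + 1) + 1) + 1) +
      (2 ^ (4 * e * (n.size + 1) + 1)) ^ 2 +
      q.num * (q.num * (2 ^ (4 * e * (n.size + 1) + 1)) ^ 3)) :=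
    (pE.add (pN.pow 2)).add ((PolyB.const q.num).mul ((PolyB.const q.num).mul (pN.pow 3)))
  have pT : PolyB (fun n => (1000 * (c + 2) * (n + n ^ c + c + 2) ^ 2 +
      100 * (P + 1) ^ 2 * ((4 * e * (n.size + 1) + 1) + 2)) +
      10 * ((2 * (Lf * (3 * (4 * e * (n.size + 1) + 1) + 1)) + 1) +
        3 * (4 * e * (n.size + 1) + 1) + 5) +
      cB * (F₀ * (Lf * (3 * (4 * e * (n.size + 1) + 1) + 1) +
        (2 ^ (4 * e * (n.size + 1) + 1)) ^ 2 +
        q.num * (q.num * (2 ^ (4 * e * (n.size + 1) + 1)) ^ 3)) ^ H +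
        Lf * (3 * (4 * e * (n.size + 1) + 1) + 1) +
        (2 * (Lf * (3 * (4 * e * (n.size + 1) + 1) + 1)) + 1) + 1)) := by
    refine PolyB.add (PolyB.add (PolyB.add ?_ ?_) ?_) ?_
    · exact (PolyB.const _).mul ((((PolyB.id.add (PolyB.id.pow c)).add (PolyB.const c)).add
        (PolyB.const 2)).pow 2)
    · exact (PolyB.const _).mul (pk.add (PolyB.const 2))
    · exact (PolyB.const _).mul (((((PolyB.const 2).mul pE).add (PolyB.const 1)).add
        ((PolyB.const 3).mul pk)).add (PolyB.const 5))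
    · exact (PolyB.const _).mul (((((PolyB.const F₀).mul (pU.pow H)).add pE).add
        (((PolyB.const 2).mul pE).add (PolyB.const 1))).add (PolyB.const 1))
  obtain ⟨d, hd⟩ := pT.std
  refine ⟨B, hfin, inp true, out, hout, d, ?_⟩
  intro n hn
  have hen := he n
  have hdn := hd n
  obtain ⟨k, hk⟩ : ∃ k, k = 4 * e * (n.size + 1) + 1 := ⟨_, rfl⟩
  obtain ⟨v, hv⟩ : ∃ v, v = n + 1 + n ^ c + c := ⟨_, rfl⟩
  simp only [← hk, ← hv] at hen hdn
  have hgood : ∀ F ∈ q.formC :: q.forms, F.Good := by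
    intro F hF
    rcases List.mem_cons.1 hF with rfl | hF
    · exact q.formC_good
    · exact q.forms_good hq F hF
  have hnv : n ≤ v := by rw [hv]; omega
  have hMk : 2 * M * (v + 1) < 2 ^ k := by omega
  have hfits := Diag.fits _ hgood k n v hnv hMk
  have hfC : q.formC.Fits k n v := hfits _ List.mem_cons_self
  have hfF : ∀ G ∈ q.forms, G.Fits k n v := fun G hG => hfits _ (List.mem_cons_of_mem _ hG)
  have hvk : v < 2 ^ k := by omega
  have hN7 : 7 ≤ 2 ^ k := by omega
  have hN5 : 2 ^ k % 5 = 2 := by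
    rw [hk, mul_assoc]
    exact Diag.pow_mod _
  have hnv' : n < v := by rw [hv]; omega
  have hval := q.inst_valid (2 ^ k) n v (by omega)
  obtain ⟨C, hC⟩ := exists_min _ hval
  obtain ⟨r, ho1⟩ := Tally.o1 n c e k v q.formC q.forms hk hv hvk hfC hfF
  rw [← q.enc_inst] at ho1
  have hrun := hB (List.replicate n true) (q.inst (2 ^ k) n v) C
    (encNat (q.formC.eval (2 ^ k) n v)) (!(decide (q.formC.eval (2 ^ k) n v < C))) _ _ hval rfl hC
    ⟨r, ho1⟩ (fun r => post_spec (fun b => !b) C (q.formC.eval (2 ^ k) n v) r)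
  refine ⟨!(decide (q.formC.eval (2 ^ k) n v < C)), ?_, ?_⟩
  · have hcore := q.core_iff hq (2 ^ k) n v hN7 hn hnv' hvk C hC
    have hans := hR (2 ^ k) n v hN5 hN7 hn hnv' hvk (fun y => V.out (V.ans n y)) (n ^ d₀ + d₀)
      (by omega) (fun y hy => by rw [hd₀]; exact V.run n y hn (by rw [← hc]; omega))
    have e1 : ((!(decide (q.formC.eval (2 ^ k) n v < C))) = true) ↔
        C ≤ q.formC.eval (2 ^ k) n v := by simp
    rw [e1, hcore, hans]
    constructor
    · rintro ⟨y, hy, hy'⟩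
      refine ⟨hn, y, ?_, V.out_inj hy'⟩
      rw [← hc]
      omega
    · rintro ⟨-, y, hy, hy'⟩
      rw [← hc] at hy
      exact ⟨y, by omega, by simp only [hy']⟩
  · have hm : (List.replicate n true).map inp = List.replicate n (inp true) := by simp
    rw [hm] at hrun
    refine Tally.mono hrun (le_trans ?_ hdn)
    have hE := Diag.enc_len q k n v hfF
    have hU := Tally.unarySize_le q k n v hfF
    have hCs := min_size _ hval C hC
    have hTs := size_eval k n v q.formC hfC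
    have hnum : (q.inst (2 ^ k) n v).g = q.num := rfl
    simp only [hnum]
    rw [← hF₀, ← hH]
    have hUH : unarySize (q.inst (2 ^ k) n v) ^ H ≤
        (Lf * (3 * k + 1) + (2 ^ k) ^ 2 + q.num * (q.num * (2 ^ k) ^ 3)) ^ H :=
      Nat.pow_le_pow_left hU H
    generalize (enc (q.inst (2 ^ k) n v)).length = E at *
    have hUF := Nat.mul_le_mul_left F₀ hUH
    rw [← hLf] at hE
    refine Nat.add_le_add (Nat.add_le_add ?_ ?_) (Nat.mul_le_mul_left cB ?_)
    · exact le_of_eq (by rw [hP])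
    · omega
    · omega

end Pool.Agent.Helper92.OS
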