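import Pool.Agent.Helper92.OS.Arith

namespace Pool.Agent.Helper92.OS

namespace Par

/-- the position of `j` in the cyclic order starting at `τ` -/
def tkk {T : ℕ} (τ j : Fin T) : ℕ := ((j : ℕ) + T - τ) % T

theorem tkk_eq {T : ℕ} (τ j : Fin T) :
    tkk τ j = if (τ : ℕ) ≤ j then (j : ℕ) - τ else (j : ℕ) + T - τ := by
  have h1 := τ.2
  have h2 := j.2
  unfold tkk
  split_ifs with h
  · have : (j : ℕ) + T - τ = (j - τ) + T := by omega
    rw [this, Nat.add_mod_right, Nat.mod_eq_of_lt (by omega)]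
  · rw [Nat.mod_eq_of_lt (by omega)]

theorem tkk_rot {T : ℕ} (j : Fin T) :
    ((rot j 1 : Fin T) : ℕ) = if (j : ℕ) + 1 < T then (j : ℕ) + 1 else 0 := by
  have h2 := j.2
  show ((j : ℕ) + 1) % T = _
  split_ifs with h
  · rw [Nat.mod_eq_of_lt h]
  · have : (j : ℕ) + 1 = T := by omega
    rw [this, Nat.mod_self]

theorem tkk_lt {T : ℕ} (τ j : Fin T) : tkk τ j < T := Nat.mod_lt _ τ.pos

theorem tkk_self {T : ℕ} (τ : Fin T) : tkk τ τ = 0 := by
  rw [tkk_eq]; simp

theorem tkk_inj {T : ℕ} {τ j j' : Fin T} (h : tkk τ j = tkk τ j') : j = j' := by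
  have h1 := τ.2
  have h2 := j.2
  have h3 := j'.2
  rw [tkk_eq, tkk_eq] at h
  apply Fin.ext
  split_ifs at h <;> omega

theorem tkk_zero {T : ℕ} {τ j : Fin T} (h : tkk τ j = 0) : j = τ :=
  tkk_inj (τ := τ) (by rw [h, tkk_self])

theorem tkk_last {T : ℕ} {τ j : Fin T} (h : tkk τ j = T - 1) : rot j 1 = τ := by
  have h1 := τ.2
  have h2 := j.2
  rw [tkk_eq] at h
  apply Fin.ext
  rw [tkk_rot]
  split_ifs at h ⊢ <;> omega

theorem tkk_succ {T : ℕ} {τ j : Fin T} (h : tkk τ j < T - 1) :
    tkk τ (rot j 1) = tkk τ j + 1 := by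
  have h1 := τ.2
  have h2 := j.2
  have h3 := tkk_rot j
  rw [tkk_eq] at h ⊢
  rw [tkk_eq, h3]
  split_ifs at h ⊢ <;> omega

theorem tl_V (p : Par) (x : ℕ) (τ : Fin p.T) (u : Fin p.G) (j : Fin p.T) :
    p.tl x τ (.V u j) = x + p.e u τ + p.L * tkk τ j := rfl

theorem tl_L_pos (p : Par) : 1 ≤ p.L := by unfold L; omega

theorem tl_mul (p : Par) (τ j : Fin p.T) : p.L * tkk τ j ≤ p.L * (p.T - 1) :=
  Nat.mul_le_mul_left _ (by have := tkk_lt τ j; omega)

theorem tl_mul_lt (p : Par) {k k' : ℕ} (h : k < k') : p.L * k + p.L ≤ p.L * k' := by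
  have : p.L * (k + 1) ≤ p.L * k' := Nat.mul_le_mul_left _ h
  rw [Nat.mul_add, Nat.mul_one] at this
  exact this

theorem tl_e_pos (p : Par) (u : Fin p.G) (τ : Fin p.T) : 3 ≤ p.e u τ := by
  unfold e; omega

theorem tl_V_lt (p : Par) (hp : p.Good) (x : ℕ) (τ : Fin p.T) (u : Fin p.G) (j : Fin p.T) :
    x + 3 ≤ p.tl x τ (.V u j) ∧ p.tl x τ (.V u j) + p.L + p.M1 ≤ x + p.D := by
  rw [tl_V]
  have h1 := p.tl_e_pos u τ
  have h2 := p.e_le_D hp u τ
  have h3 := p.tl_mul τ j
  constructor <;> omega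

theorem tl_VV_lt (p : Par) (hp : p.Good) (x : ℕ) (τ : Fin p.T) {u u' : Fin p.G} (h : u < u')
    (j j' : Fin p.T) : p.tl x τ (.V u j) + p.M1 ≤ p.tl x τ (.V u' j') := by
  rw [tl_V, tl_V]
  have h1 := p.e_mono hp u u' h τ
  have h3 := p.tl_mul τ j
  omega

theorem tl_M1_pos (p : Par) (hp : p.Good) : p.L + 1 ≤ p.M1 := by
  have := p.m_lt_M1 hp
  omega

theorem tl_inj (p : Par) (hp : p.Good) (x : ℕ) (τ : Fin p.T) (h0 : x = 0 → τ = p.al) :
    Function.Injective (p.tl x τ) := by
  have hL := p.tl_L_pos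
  have hM := p.tl_M1_pos hp
  have hab := hp.hab
  have hV := p.tl_V_lt hp x τ
  have hD : p.L + 3 ≤ p.D := by
    have := p.e_le_D hp ⟨0, hp.hG⟩ τ
    have := p.tl_e_pos ⟨0, hp.hG⟩ τ
    omega
  have hx : τ ≠ p.al → 1 ≤ x := by
    intro h
    by_contra hcon
    exact h (h0 (by omega))
  have hP : p.tl x τ .P = if τ = p.al then x + p.D - p.L else x - 1 := rfl
  have hQ : p.tl x τ .Q = if τ = p.be then x + p.D - p.L else x + p.D + 1 := rfl
  have hS : p.tl x τ .S = x := rfl
  have hZ : p.tl x τ .Z = x + p.D := rfl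
  have hPQ : p.tl x τ .P < p.tl x τ .Q := by
    rw [hP, hQ]
    by_cases h1 : τ = p.al
    · have h2 : τ ≠ p.be := fun h => hab (h1.symm.trans h)
      rw [if_pos h1, if_neg h2]; omega
    · have := hx h1
      rw [if_neg h1]
      split_ifs <;> omega
  have hPV : ∀ u j, p.tl x τ .P ≠ p.tl x τ (.V u j) := by
    intro u j
    have := hV u j
    rw [hP]
    split_ifs with h1
    · omega
    · have := hx h1; omega
  have hQV : ∀ u j, p.tl x τ .Q ≠ p.tl x τ (.V u j) := by
    intro u j
    have := hV u j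
    rw [hQ]
    split_ifs with h1 <;> omega
  have hPS : p.tl x τ .P ≠ p.tl x τ .S := by
    rw [hP, hS]
    split_ifs with h1
    · omega
    · have := hx h1; omega
  have hPZ : p.tl x τ .P ≠ p.tl x τ .Z := by
    rw [hP, hZ]
    split_ifs with h1
    · omega
    · have := hx h1; omega
  have hQS : p.tl x τ .Q ≠ p.tl x τ .S := by
    rw [hQ, hS]
    split_ifs with h1 <;> omega
  have hQZ : p.tl x τ .Q ≠ p.tl x τ .Z := by
    rw [hQ, hZ]
    split_ifs with h1 <;> omega
  have hSZ : p.tl x τ .S ≠ p.tl x τ .Z := by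
    rw [hS, hZ]; omega
  have hSV : ∀ u j, p.tl x τ .S ≠ p.tl x τ (.V u j) := by
    intro u j
    have := hV u j
    rw [hS]; omega
  have hZV : ∀ u j, p.tl x τ .Z ≠ p.tl x τ (.V u j) := by
    intro u j
    have := hV u j
    rw [hZ]; omega
  intro a b hab'
  match a, b with
  | .S, .S => rfl
  | .Z, .Z => rfl
  | .P, .P => rfl
  | .Q, .Q => rfl
  | .S, .Z => exact absurd hab' hSZ
  | .Z, .S => exact absurd hab'.symm hSZ
  | .S, .P => exact absurd hab'.symm hPS
  | .P, .S => exact absurd hab' hPS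
  | .S, .Q => exact absurd hab'.symm hQS
  | .Q, .S => exact absurd hab' hQS
  | .Z, .P => exact absurd hab'.symm hPZ
  | .P, .Z => exact absurd hab' hPZ
  | .Z, .Q => exact absurd hab'.symm hQZ
  | .Q, .Z => exact absurd hab' hQZ
  | .P, .Q => exact absurd hab' hPQ.ne
  | .Q, .P => exact absurd hab'.symm hPQ.ne
  | .S, .V u j => exact absurd hab' (hSV u j)
  | .V u j, .S => exact absurd hab'.symm (hSV u j)
  | .Z, .V u j => exact absurd hab' (hZV u j)
  | .V u j, .Z => exact absurd hab'.symm (hZV u j)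
  | .P, .V u j => exact absurd hab' (hPV u j)
  | .V u j, .P => exact absurd hab'.symm (hPV u j)
  | .Q, .V u j => exact absurd hab' (hQV u j)
  | .V u j, .Q => exact absurd hab'.symm (hQV u j)
  | .V u j, .V u' j' =>
    rcases lt_trichotomy u u' with h | h | h
    · have := p.tl_VV_lt hp x τ h j j'
      omega
    · subst h
      rw [tl_V, tl_V] at hab'
      rcases lt_trichotomy (tkk τ j) (tkk τ j') with h | h | h
      · have := p.tl_mul_lt h
        omega
      · rw [tkk_inj h]
      · have := p.tl_mul_lt h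
        omega
    · have := p.tl_VV_lt hp x τ h j' j
      omega

theorem tl_setup (p : Par) (hp : p.Good) (x : ℕ) (τ : Fin p.T) (h0 : x = 0 → τ = p.al)
    (a b : Job p.G p.T) (h : IsNext (p.tl x τ) a b) :
    p.tl x τ a + p.off a b ≤ p.tl x τ b := by
  have hL := p.tl_L_pos
  have hM := p.tl_M1_pos hp
  have hab := hp.hab
  have hV := p.tl_V_lt hp x τ
  have hD : p.L + 3 ≤ p.D := by
    have := p.e_le_D hp ⟨0, hp.hG⟩ τ
    have := p.tl_e_pos ⟨0, hp.hG⟩ τ
    omega
  have hx : τ ≠ p.al → 1 ≤ x := by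
    intro h
    by_contra hcon
    exact h (h0 (by omega))
  have hP : p.tl x τ .P = if τ = p.al then x + p.D - p.L else x - 1 := rfl
  have hQ : p.tl x τ .Q = if τ = p.be then x + p.D - p.L else x + p.D + 1 := rfl
  have hS : p.tl x τ .S = x := rfl
  have hZ : p.tl x τ .Z = x + p.D := rfl
  obtain ⟨hlt, hno⟩ := h
  -- consequences of being the next vertex, starting from a cluster vertex
  have hnext : ∀ (u : Fin p.G) (i : Fin p.T), a = .V u i → p.tl x τ (.V u i) < p.tl x τ b →
      (∀ j, b ≠ .V u j) → tkk τ i = p.T - 1 := by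
    intro u i ha hlt2 hb
    by_contra hk
    have hk' : tkk τ i < p.T - 1 := by have := tkk_lt τ i; omega
    have h1 := tkk_succ hk'
    have h2 := hno (.V u (rot i 1))
    apply h2
    have h3 : p.tl x τ (.V u (rot i 1)) = p.tl x τ (.V u i) + p.L := by
      rw [tl_V, tl_V, h1, Nat.mul_add, Nat.mul_one]; omega
    rw [ha]
    refine ⟨by omega, ?_⟩
    have h4 := hV u (rot i 1)
    have h6 := hV u i
    match b with
    | .S => rw [hS] at hlt2; omega
    | .Z => rw [hZ]; omega
    | .P =>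
      rw [hP] at hlt2 ⊢
      split_ifs at hlt2 ⊢ <;> omega
    | .Q =>
      rw [hQ]
      split_ifs <;> omega
    | .V u' j =>
      rcases lt_trichotomy u u' with h | h | h
      · have := p.tl_VV_lt hp x τ h (rot i 1) j
        omega
      · subst h; exact absurd rfl (hb j)
      · have := p.tl_VV_lt hp x τ h j i
        omega
  have hlastu : ∀ (u : Fin p.G) (i : Fin p.T), a = .V u i → (u : ℕ) + 1 < p.G →
      (∀ u' j, b ≠ .V u' j) → False := by
    intro u i ha hu hb
    have h2 := hno (.V ⟨u + 1, hu⟩ τ)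
    apply h2
    rw [ha] at hlt ⊢
    have hlt' : u < (⟨u + 1, hu⟩ : Fin p.G) := by
      rw [Fin.lt_def]; simp
    have h5 := p.tl_VV_lt hp x τ hlt' i τ
    have h4 := hV ⟨u + 1, hu⟩ τ
    have h6 := hV u i
    refine ⟨by omega, ?_⟩
    match b with
    | .S => rw [hS] at hlt; omega
    | .Z => rw [hZ]; omega
    | .P =>
      rw [hP] at hlt ⊢
      split_ifs at hlt ⊢ <;> omega
    | .Q =>
      rw [hQ]
      split_ifs <;> omega
    | .V u' j => exact absurd rfl (hb u' j)
  have hV0 := hV ⟨0, hp.hG⟩ τ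
  match a, b with
  | .S, .S => exact absurd hlt (lt_irrefl _)
  | .Z, .Z => exact absurd hlt (lt_irrefl _)
  | .P, .P => exact absurd hlt (lt_irrefl _)
  | .Q, .Q => exact absurd hlt (lt_irrefl _)
  | .S, .Z =>
    exfalso
    refine hno (.V ⟨0, hp.hG⟩ τ) ⟨?_, ?_⟩
    · rw [hS]; omega
    · rw [hZ]; omega
  | .S, .P =>
    exfalso
    refine hno (.V ⟨0, hp.hG⟩ τ) ⟨?_, ?_⟩
    · rw [hS]; omega
    · rw [hS, hP] at hlt
      rw [hP]
      split_ifs at hlt ⊢ <;> omega
  | .S, .Q =>
    exfalso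
    refine hno (.V ⟨0, hp.hG⟩ τ) ⟨?_, ?_⟩
    · rw [hS]; omega
    · rw [hQ]
      split_ifs <;> omega
  | .S, .V u j =>
    by_cases hu : (u : ℕ) = 0
    · have hu' : u = ⟨0, hp.hG⟩ := Fin.ext hu
      by_cases hk : tkk τ j = 0
      · have hj := tkk_zero hk
        have : p.off .S (.V u j) = p.e u j := by
          show (if (u : ℕ) = 0 then p.e u j else p.C + 1) = _
          rw [if_pos hu]
        rw [this, tl_V, hS, hj]
        omega
      · exfalso
        refine hno (.V ⟨0, hp.hG⟩ τ) ⟨?_, ?_⟩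
        · rw [hS]; omega
        · rw [hu', tl_V, tl_V, tkk_self]
          have := p.tl_mul_lt (Nat.pos_of_ne_zero hk)
          omega
    · exfalso
      refine hno (.V ⟨0, hp.hG⟩ τ) ⟨?_, ?_⟩
      · rw [hS]; omega
      · have : (⟨0, hp.hG⟩ : Fin p.G) < u := by rw [Fin.lt_def]; simp; omega
        have := p.tl_VV_lt hp x τ this τ j
        omega
  | .Z, .S => rw [hS, hZ] at hlt; omega
  | .Z, .P =>
    rw [hZ, hP] at hlt
    split_ifs at hlt <;> omega
  | .Z, .Q =>
    show p.tl x τ .Z + 1 ≤ _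
    omega
  | .Z, .V u j =>
    have := hV u j
    rw [hZ] at hlt; omega
  | .P, .S =>
    show p.tl x τ .P + 1 ≤ _
    omega
  | .P, .Z =>
    by_cases h1 : τ = p.al
    · show p.tl x τ .P + p.L ≤ _
      rw [hP, hZ, if_pos h1]; omega
    · exfalso
      have := hx h1
      refine hno .S ⟨?_, ?_⟩
      · rw [hS, hP, if_neg h1]; omega
      · rw [hS, hZ]; omega
  | .P, .Q =>
    exfalso
    by_cases h1 : τ = p.al
    · have h2 : τ ≠ p.be := fun h => hab (h1.symm.trans h)
      refine hno .Z ⟨?_, ?_⟩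
      · rw [hZ, hP, if_pos h1]; omega
      · rw [hZ, hQ, if_neg h2]; omega
    · have := hx h1
      refine hno .S ⟨?_, ?_⟩
      · rw [hS, hP, if_neg h1]; omega
      · rw [hS, hQ]
        split_ifs <;> omega
  | .P, .V u j =>
    exfalso
    have h3 := hV u j
    by_cases h1 : τ = p.al
    · rw [hP, if_pos h1] at hlt; omega
    · have := hx h1
      refine hno .S ⟨?_, ?_⟩
      · rw [hS, hP, if_neg h1]; omega
      · rw [hS]; omega
  | .Q, .S =>
    rw [hS, hQ] at hlt
    split_ifs at hlt <;> omega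
  | .Q, .Z =>
    rw [hZ, hQ] at hlt
    show p.tl x τ .Q + p.L ≤ _
    rw [hZ, hQ]
    split_ifs at hlt ⊢ <;> omega
  | .Q, .P =>
    exfalso
    rw [hQ, hP] at hlt
    by_cases h1 : τ = p.al
    · have h2 : τ ≠ p.be := fun h => hab (h1.symm.trans h)
      rw [if_pos h1, if_neg h2] at hlt; omega
    · rw [if_neg h1] at hlt
      split_ifs at hlt <;> omega
  | .Q, .V u j =>
    exfalso
    have := hV u j
    rw [hQ] at hlt
    split_ifs at hlt <;> omega
  | .V u i, .S =>
    have := hV u i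
    rw [hS] at hlt; omega
  | .V u i, .Z =>
    have hk := hnext u i rfl hlt (fun j => by simp)
    have hG : (u : ℕ) + 1 = p.G := by
      by_contra hcon
      exact hlastu u i rfl (by have := u.2; omega) (fun u' j => by simp)
    have hr := tkk_last hk
    have h6 := hV u i
    have h1 : τ ≠ p.al := by
      intro h1
      refine hno .P ⟨?_, ?_⟩
      · rw [hP, if_pos h1]; omega
      · rw [hP, hZ, if_pos h1]; omega
    have h2 : τ ≠ p.be := by
      intro h1
      refine hno .Q ⟨?_, ?_⟩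
      · rw [hQ, if_pos h1]; omega
      · rw [hQ, hZ, if_pos h1]; omega
    have : p.off (.V u i) .Z = p.D - (p.e u τ + p.L * (p.T - 1)) := by
      show (if (u : ℕ) + 1 = p.G ∧ rot i 1 ≠ p.al ∧ rot i 1 ≠ p.be then
        p.D - (p.e u (rot i 1) + p.L * (p.T - 1)) else p.C + 1) = _
      rw [hr, if_pos ⟨hG, h1, h2⟩]
    rw [this, tl_V, hZ, hk]
    have := p.e_le_D hp u τ
    omega
  | .V u i, .P =>
    have hk := hnext u i rfl hlt (fun j => by simp)
    have hG : (u : ℕ) + 1 = p.G := by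
      by_contra hcon
      exact hlastu u i rfl (by have := u.2; omega) (fun u' j => by simp)
    have hr := tkk_last hk
    have h6 := hV u i
    have h1 : τ = p.al := by
      by_contra h1
      rw [hP, if_neg h1] at hlt; omega
    have : p.off (.V u i) .P = p.D - (p.e u τ + p.L * (p.T - 1) + p.L) := by
      show (if (u : ℕ) + 1 = p.G ∧ rot i 1 = p.al then
        p.D - (p.e u (rot i 1) + p.L * (p.T - 1) + p.L) else p.C + 1) = _
      rw [hr, if_pos ⟨hG, h1⟩]
    rw [this, tl_V, hP, if_pos h1, hk]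
    have := p.e_le_D hp u τ
    omega
  | .V u i, .Q =>
    have hk := hnext u i rfl hlt (fun j => by simp)
    have hG : (u : ℕ) + 1 = p.G := by
      by_contra hcon
      exact hlastu u i rfl (by have := u.2; omega) (fun u' j => by simp)
    have hr := tkk_last hk
    have h6 := hV u i
    have h1 : τ = p.be := by
      by_contra h1
      refine hno .Z ⟨?_, ?_⟩
      · rw [hZ]; omega
      · rw [hZ, hQ, if_neg h1]; omega
    have : p.off (.V u i) .Q = p.D - (p.e u τ + p.L * (p.T - 1) + p.L) := by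
      show (if (u : ℕ) + 1 = p.G ∧ rot i 1 = p.be then
        p.D - (p.e u (rot i 1) + p.L * (p.T - 1) + p.L) else p.C + 1) = _
      rw [hr, if_pos ⟨hG, h1⟩]
    rw [this, tl_V, hQ, if_pos h1, hk]
    have := p.e_le_D hp u τ
    omega
  | .V u i, .V u' j =>
    have hoff : p.off (.V u i) (.V u' j) = if j = rot i 1 then
        if u = u' then p.L
        else if (u : ℕ) + 1 = u' then p.e u' j - (p.e u j + p.L * (p.T - 1))
        else p.C + 1
      else p.C + 1 := rfl
    rcases lt_trichotomy u u' with hu | hu | hu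
    · have hk := hnext u i rfl hlt (fun j' => by
        intro h; injection h with h1 h2; exact hu.ne h1.symm)
      have hr := tkk_last hk
      have hj : tkk τ j = 0 := by
        by_contra hk0
        refine hno (.V u' τ) ⟨?_, ?_⟩
        · have := p.tl_VV_lt hp x τ hu i τ
          omega
        · rw [tl_V, tl_V, tkk_self]
          have := p.tl_mul_lt (Nat.pos_of_ne_zero hk0)
          omega
      have hj' := tkk_zero hj
      have huu : (u : ℕ) + 1 = u' := by
        by_contra hcon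
        rw [Fin.lt_def] at hu
        have hu2 : (u : ℕ) + 1 < u' := by omega
        have h3 : (u : ℕ) + 1 < p.G := by have := u'.2; omega
        refine hno (.V ⟨u + 1, h3⟩ τ) ⟨?_, ?_⟩
        · have hlt' : u < (⟨u + 1, h3⟩ : Fin p.G) := by
            rw [Fin.lt_def]; simp
          have := p.tl_VV_lt hp x τ hlt' i τ
          omega
        · have hlt' : (⟨u + 1, h3⟩ : Fin p.G) < u' := by
            rw [Fin.lt_def]; exact hu2
          have := p.tl_VV_lt hp x τ hlt' τ j
          omega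
      rw [hoff, hj', hr, if_pos rfl, if_neg hu.ne, if_pos huu, tl_V, tl_V, hk, tkk_self]
      have := p.e_mono hp u u' hu τ
      omega
    · subst hu
      rw [tl_V, tl_V] at hlt
      have hkk : tkk τ i < tkk τ j := by
        by_contra hcon
        have : p.L * tkk τ j ≤ p.L * tkk τ i := Nat.mul_le_mul_left _ (by omega)
        omega
      have hk' : tkk τ i < p.T - 1 := by have := tkk_lt τ j; omega
      have h1 := tkk_succ hk'
      have h2 : tkk τ j = tkk τ i + 1 := by
        by_contra hcon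
        refine hno (.V u (rot i 1)) ⟨?_, ?_⟩
        · rw [tl_V, tl_V, h1, Nat.mul_add, Nat.mul_one]; omega
        · rw [tl_V, tl_V, h1]
          have := p.tl_mul_lt (show tkk τ i + 1 < tkk τ j by omega)
          omega
      have hj : j = rot i 1 := tkk_inj (τ := τ) (by rw [h1, h2])
      rw [hoff, if_pos hj, if_pos rfl, tl_V, tl_V, h2, Nat.mul_add, Nat.mul_one]
      omega
    · have := p.tl_VV_lt hp x τ hu j i
      omega

theorem tl_bound (p : Par) (hp : p.Good) (x : ℕ) (hx : x < p.m) (τ : Fin p.T)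
    (h0 : x = 0 → τ = p.al) (h1 : x = p.m - 1 → τ = p.be) (a : Job p.G p.T) :
    p.tl x τ a + 1 ≤ p.C := by
  have hL := p.tl_L_pos
  have hC : p.C = p.D + p.m := rfl
  have hV := p.tl_V_lt hp x τ
  match a with
  | .S =>
    show x + 1 ≤ _
    omega
  | .Z =>
    show x + p.D + 1 ≤ _
    omega
  | .P =>
    show (if τ = p.al then x + p.D - p.L else x - 1) + 1 ≤ _
    split_ifs <;> omega
  | .Q =>
    show (if τ = p.be then x + p.D - p.L else x + p.D + 1) + 1 ≤ _
    split_ifs with h2
    · omega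
    · have : x ≠ p.m - 1 := fun h => h2 (h1 h)
      omega
  | .V u j =>
    have := hV u j
    omega

end Par

end Pool.Agent.Helper92.OS
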